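import Pool.Agent.Helper94.FB.MeanZero

/-!
# FB-11 Codazzi: Lagrange multipliers on the surface, the gradient of the mean curvature, plane pieces

* `grad_par`: near `z ∈ inn F` the set `{F = 0}` is contained in `inn F ∩ V`, so `f = 0` on it near `z` and `z` is a local extremum of `f` on `{x | F x = F z}`:
  `IsLocalExtrOn.exists_multipliers_of_hasStrictFDerivAt_1d` gives `(a, b) ≠ 0` with `a • F' + b • f' = 0`; `b ≠ 0` because `F'(z) ≠ 0` (`grad_sq`). Evaluate at `EuclideanSpace.single k 1`.
* `codazzi`: first `y ∈ inn F`. `H = ∑ i, pd i (pd i F)` vanishes on `inn F` (`tr_zero`), so `pd k H y = c * pd k F y` (`grad_par`, `V = univ`). Multiply by `pd k F y` and sum over `k`: by `grad_sq`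
  `c = ∑ k, pd k F y * ∑ i, pd k (pd i (pd i F)) y`. `eik2` with both indices `j`, summed over `j`: `∑ i, ∑ j, pd j (pd i F) y ^ 2 + ∑ i, pd i F y * ∑ j, pd j (pd j (pd i F)) y = 0`, and
  `pd j (pd j (pd i F)) = pd i (pd j (pd j F))` (`pd_comm`), so `c = - normA F y`. Then density (`surf_subset`) and continuity (both sides are continuous) for `y ∈ surf F`.
* `flat_piece`: at every `y ∈ inn F ∩ V`, `grad_par` for `f = y l`: `pd k (fun y => y l) y = c * pd k F y`, so `c ≠ 0` and `pd k F y = 0` for `k ≠ l`. So for `k ≠ l` the smooth function `pd k F` vanishes on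
  `inn F ∩ V`: `grad_par` gives `pd j (pd k F) z = c' * pd j F z = 0` for `j ≠ l`. `eik1` with `j := k`: `∑ i, pd i F z * pd k (pd i F) z = pd l F z * pd k (pd l F) z = 0` with `pd l F z ≠ 0` (`grad_sq`), for every `k`
  (including `k = l`). All second derivatives vanish.
-/

set_option autoImplicit false

open MeasureTheory Filter
open scoped ContDiff Topology

namespace Pool.Agent.Helper78.FB

variable {F : E → ℝ}

private theorem co_inn_surf {y : E} (hy : y ∈ inn F) : y ∈ surf F := ⟨hy.1.le, hy.2⟩

private theorem co_tr_smooth (h : FBMS F) : ContDiff ℝ ∞ fun y => ∑ i, pd i (pd i F) y :=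
  ContDiff.sum fun i _ => contDiff_pd i (contDiff_pd i h.smooth)

theorem grad_par (h : FBMS F) {f : E → ℝ} (hf : ContDiff ℝ ∞ f) {z : E} (hz : z ∈ inn F) (V : Set E)
    (hV : IsOpen V) (hzV : z ∈ V) (hf0 : ∀ y ∈ inn F, y ∈ V → f y = 0) :
    ∃ c : ℝ, ∀ k, pd k f z = c * pd k F z := by
  have hFz : F z = 0 := hz.2
  have hext : IsLocalExtrOn f {x | F x = F z} z := by
    left
    show ∀ᶠ x in 𝓝[{x | F x = F z}] z, f z ≤ f x
    have h1 : ∀ᶠ x in 𝓝 z, ‖x‖ < 1 ∧ x ∈ V := by
      have h2 : IsOpen {x : E | ‖x‖ < 1} := isOpen_lt continuous_norm continuous_const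
      exact Filter.Eventually.and (h2.mem_nhds hz.1) (hV.mem_nhds hzV)
    filter_upwards [mem_nhdsWithin_of_mem_nhds h1, self_mem_nhdsWithin] with x hx hx2
    have h3 : F x = 0 := by
      have h4 : F x = F z := hx2
      rw [h4, hFz]
    rw [hf0 z hz hzV, hf0 x ⟨hx.1, h3⟩ hx.2]
  obtain ⟨a, b, hab, hmul⟩ := hext.exists_multipliers_of_hasStrictFDerivAt_1d
    (h.smooth.contDiffAt.hasStrictFDerivAt (by simp)) (hf.contDiffAt.hasStrictFDerivAt (by simp))
  have hk : ∀ k, a * pd k F z + b * pd k f z = 0 := by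
    intro k
    have h1 := DFunLike.congr_fun hmul (EuclideanSpace.single k (1 : ℝ))
    exact h1
  have hb : b ≠ 0 := by
    intro hb
    have ha : a ≠ 0 := by
      intro ha
      exact hab (by rw [ha, hb]; rfl)
    have h0 : ∀ k, pd k F z = 0 := by
      intro k
      have h1 := hk k
      rw [hb, zero_mul, add_zero] at h1
      exact (mul_eq_zero.1 h1).resolve_left ha
    have h2 := grad_sq h (co_inn_surf hz)
    simp only [h0] at h2
    norm_num at h2
  refine ⟨-a / b, fun k => ?_⟩
  have h1 := hk k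
  field_simp
  linarith

theorem codazzi (h : FBMS F) {y : E} (hy : y ∈ surf F) (k : Fin 3) :
    ∑ i, pd k (pd i (pd i F)) y = -normA F y * pd k F y := by
  have hinn : ∀ y ∈ inn F, ∑ i, pd k (pd i (pd i F)) y = -normA F y * pd k F y := by
    intro y hy
    have hys := co_inn_surf hy
    obtain ⟨c, hc⟩ := grad_par h (co_tr_smooth h) hy Set.univ isOpen_univ trivial
      fun w hw _ => tr_zero h (co_inn_surf hw)
    have hc' : ∀ k, ∑ i, pd k (pd i (pd i F)) y = c * pd k F y := by
      intro k
      rw [← hc k, pd_sum k Finset.univ (fun i => pd i (pd i F))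
        fun i _ => contDiff_pd i (contDiff_pd i h.smooth)]
    have h1 : c = ∑ k, pd k F y * ∑ i, pd k (pd i (pd i F)) y := by
      have h2 : ∀ k, pd k F y * ∑ i, pd k (pd i (pd i F)) y = c * pd k F y ^ 2 := by
        intro k
        rw [hc' k]
        ring
      rw [Finset.sum_congr rfl fun k _ => h2 k, ← Finset.mul_sum, grad_sq h hys, mul_one]
    have h3 : ∀ j, ∑ i, pd j (pd i F) y ^ 2 + ∑ i, pd i F y * pd i (pd j (pd j F)) y = 0 := by
      intro j
      rw [← eik2 h hys j j, ← Finset.sum_add_distrib]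
      refine Finset.sum_congr rfl fun i _ => ?_
      have h4 : pd j (pd j (pd i F)) = pd i (pd j (pd j F)) := by
        rw [pd_comm j i h.smooth, pd_comm j i (contDiff_pd j h.smooth)]
      rw [h4]
      ring
    have h5 : normA F y + c = 0 := by
      have h6 : ∑ j, (∑ i, pd j (pd i F) y ^ 2 + ∑ i, pd i F y * pd i (pd j (pd j F)) y) = 0 :=
        Finset.sum_eq_zero fun j _ => h3 j
      rw [Finset.sum_add_distrib] at h6
      rw [h1]
      unfold normA
      rw [← h6]
      congr 1
      simp only [Finset.mul_sum]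
      exact Finset.sum_comm
    rw [hc' k]
    have h7 : c = -normA F y := by linarith
    rw [h7]
  have hcl : IsClosed {y : E | ∑ i, pd k (pd i (pd i F)) y = -normA F y * pd k F y} := by
    refine isClosed_eq ?_ ?_
    · exact continuous_finsetSum _ fun i _ =>
        (contDiff_pd k (contDiff_pd i (contDiff_pd i h.smooth))).continuous
    · refine Continuous.mul (Continuous.neg ?_) (contDiff_pd k h.smooth).continuous
      unfold normA
      exact continuous_finsetSum _ fun i _ => continuous_finsetSum _ fun j _ =>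
        ((contDiff_pd i (contDiff_pd j h.smooth)).continuous.pow 2)
  exact (closure_minimal (fun w hw => hinn w hw) hcl) (surf_subset h hy)

theorem flat_piece (h : FBMS F) (l : Fin 3) {z : E} (hz : z ∈ inn F) (V : Set E) (hV : IsOpen V) (hzV : z ∈ V)
    (h0 : ∀ y ∈ inn F, y ∈ V → y l = 0) : normA F z = 0 := by
  have hzs := co_inn_surf hz
  have hA : ∀ y ∈ inn F, y ∈ V → pd l F y ≠ 0 ∧ ∀ k, k ≠ l → pd k F y = 0 := by
    intro y hy hyV
    obtain ⟨c, hc⟩ := grad_par h (contDiff_coord l) hy V hV hyV h0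
    have hc1 : ∀ k, (if k = l then (1 : ℝ) else 0) = c * pd k F y := by
      intro k
      rw [← hc k, pd_coord]
    have h1 := hc1 l
    rw [if_pos rfl] at h1
    have hcne : c ≠ 0 := by
      intro h2
      rw [h2, zero_mul] at h1
      exact one_ne_zero h1
    refine ⟨?_, ?_⟩
    · intro h2
      rw [h2, mul_zero] at h1
      exact one_ne_zero h1
    · intro k hk
      have h2 := hc1 k
      rw [if_neg hk] at h2
      exact (mul_eq_zero.1 h2.symm).resolve_left hcne
  obtain ⟨hl, hk⟩ := hA z hz hzV
  have h1 : ∀ i, pd i (pd l F) z = 0 := by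
    intro i
    have h2 := eik1 h hzs i
    rw [Finset.sum_eq_single l (fun b _ hb => by rw [hk b hb, zero_mul])
      (fun hb => absurd (Finset.mem_univ l) hb)] at h2
    exact (mul_eq_zero.1 h2).resolve_left hl
  have h2 : ∀ i j, pd i (pd j F) z = 0 := by
    intro i j
    by_cases hj : j = l
    · rw [hj]
      exact h1 i
    · by_cases hi : i = l
      · rw [hi, pd_comm l j h.smooth]
        exact h1 j
      · obtain ⟨c, hc⟩ := grad_par h (contDiff_pd j h.smooth) hz V hV hzV
          fun y hy hyV => (hA y hy hyV).2 j hj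
        rw [hc i, hk i hi, mul_zero]
  unfold normA
  refine Finset.sum_eq_zero fun i _ => Finset.sum_eq_zero fun j _ => ?_
  rw [h2 i j]
  norm_num

end Pool.Agent.Helper78.FB
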