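import Pool.Agent.Helper94.FB.MeanZero

/-!
# FB-12 BdryA: the frame `y, N, T` and the second fundamental form on the boundary

`T = crs F y = y × N`. On `bdry F`: `∑ y_i ^ 2 = 1`, `∑ N_i ^ 2 = 1` (`grad_sq`), `∑ y_i N_i = uu F y = 0` (`orth`).
* `frame`: the matrix with the rows `y, N, T` is orthogonal (`T_i` explicit: `crs F y 0 = y 1 * N 2 - y 2 * N 1` and so on), so its columns are orthonormal (`Matrix.mul_eq_one_comm`). Or nine cases with
  `fin_cases` and `nlinarith`/`linear_combination`.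
* `crs_tangent`: `f` vanishes on `bdry F = {F = 0} ∩ {∑ y_k ^ 2 = 1}`. `IsLocalExtrOn.exists_multipliers_of_hasStrictFDerivAt` (constraints `F`, `∑ y_k ^ 2`, indexed by `Fin 2`): there are constants, not all zero, with
  `b ∇F + c (2 y) + a ∇f = 0` at `y`; `a ≠ 0` because `∇F = N` and `y` are orthogonal unit vectors. Pair with `T`, which is orthogonal to `N` and `y` (direct computation from the formula of `crs`). Alternative: `straighten`
  with `F`, `∑ y_k ^ 2`, `∑ T_k(y) y_k` and differentiate along the curve `t ↦ e.symm (0, 1, t)` in `bdry F`.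
* `a_mixed`: `crs_tangent` for `f = uu F` (zero on `bdry F` by `orth`): `pd k (uu F) y = pd k F y + ∑ i, y i * pd k (pd i F) y` and `∑ k, T k * pd k F y = 0`.
* `bdryA`: put `M i j = pd i (pd j F) y` (symmetric, `pd_comm`), `M N = 0` (`eik1`), `∑ i, M i i = 0` (`tr_zero`), `∑ y_i M i j T_j = 0`. With the frame matrix `O` (rows `y, N, T`): `O M Oᵀ` is diagonal with entries
  `kap, 0, t` and trace `kap + t = 0`; `M = Oᵀ (O M Oᵀ) O`. In coordinates: `M i j = ∑ k, ∑ l, δ_ik M k l δ_lj` and replace both `δ` by `frame`.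
-/

set_option autoImplicit false

open MeasureTheory Filter
open scoped ContDiff Topology

namespace Pool.Agent.Helper78.FB

variable {F : E → ℝ}

private theorem crs_zero (F : E → ℝ) (y : E) : crs F y 0 = y 1 * pd 2 F y - y 2 * pd 1 F y := rfl

private theorem crs_one (F : E → ℝ) (y : E) : crs F y 1 = y 2 * pd 0 F y - y 0 * pd 2 F y := rfl

private theorem crs_two (F : E → ℝ) (y : E) : crs F y 2 = y 0 * pd 1 F y - y 1 * pd 0 F y := rfl

theorem crs_dot_pos (y : E) : ∑ k, crs F y k * y k = 0 := by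
  rw [Fin.sum_univ_three, crs_zero, crs_one, crs_two]
  ring

theorem crs_dot_grad (y : E) : ∑ k, crs F y k * pd k F y = 0 := by
  rw [Fin.sum_univ_three, crs_zero, crs_one, crs_two]
  ring

private theorem bdry_surf {y : E} (hy : y ∈ bdry F) : y ∈ surf F := ⟨hy.1.le, hy.2⟩

private theorem pos_sq {y : E} (hy : y ∈ bdry F) : ∑ k, y k ^ 2 = 1 := by
  rw [← norm_sq, hy.1, one_pow]

private theorem crs_sq (h : FBMS F) {y : E} (hy : y ∈ bdry F) : ∑ k, crs F y k ^ 2 = 1 := by
  have h1 := pos_sq hy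
  have h2 := grad_sq h (bdry_surf hy)
  have h3 : uu F y = 0 := orth h hy
  unfold uu at h3
  rw [Fin.sum_univ_three] at h1 h2 h3 ⊢
  rw [crs_zero, crs_one, crs_two]
  linear_combination (pd 0 F y ^ 2 + pd 1 F y ^ 2 + pd 2 F y ^ 2) * h1 + h2 -
    (y 0 * pd 0 F y + y 1 * pd 1 F y + y 2 * pd 2 F y) * h3

theorem frame (h : FBMS F) {y : E} (hy : y ∈ bdry F) (i j : Fin 3) :
    y i * y j + pd i F y * pd j F y + crs F y i * crs F y j = if i = j then 1 else 0 := by
  have h1 := pos_sq hy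
  have h2 := grad_sq h (bdry_surf hy)
  have h3 : uu F y = 0 := orth h hy
  have h4 := crs_sq h hy
  have h5 := crs_dot_pos (F := F) y
  have h6 := crs_dot_grad (F := F) y
  unfold uu at h3
  rw [Fin.sum_univ_three] at h1 h2 h3 h4 h5 h6
  have hM : Matrix.of ![fun k => y k, fun k => pd k F y, crs F y] *
      (Matrix.of ![fun k => y k, fun k => pd k F y, crs F y]).transpose = 1 := by
    ext a b
    rw [Matrix.mul_apply, Fin.sum_univ_three]
    fin_cases a <;> fin_cases b <;>
      simp only [Matrix.of_apply, Matrix.transpose_apply, Fin.zero_eta, Fin.mk_one, Fin.reduceFinMk,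
        Matrix.cons_val_zero, Matrix.cons_val_one, Matrix.cons_val, Matrix.one_apply_eq, ne_eq,
        Fin.isValue, zero_ne_one, one_ne_zero, not_false_eq_true, Matrix.one_apply_ne,
        Fin.reduceEq] <;>
      linarith
  have hM2 := mul_eq_one_comm.1 hM
  have h7 := congrFun (congrFun hM2 i) j
  rw [Matrix.mul_apply, Fin.sum_univ_three, Matrix.one_apply] at h7
  exact h7

private theorem contDiff_sqn : ContDiff ℝ ∞ (fun y : E => ∑ k, y k * y k) :=
  ContDiff.sum fun k _ => (contDiff_coord k).mul (contDiff_coord k)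

private theorem pd_sqn (i : Fin 3) (y : E) : pd i (fun y : E => ∑ k, y k * y k) y = 2 * y i := by
  have h1 := pd_sum i Finset.univ (fun k (y : E) => y k * y k)
    (fun k _ => (contDiff_coord k).mul (contDiff_coord k))
  have h2 := congrFun h1 y
  rw [show pd i (fun y : E => ∑ k, y k * y k) y =
    pd i (fun y : E => ∑ k ∈ Finset.univ, (fun k (y : E) => y k * y k) k y) y from rfl, h2]
  have h3 : ∀ k : Fin 3, pd i (fun y : E => y k * y k) y = if i = k then 2 * y k else 0 := by
    intro k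
    rw [congrFun (pd_mul i (contDiff_coord k) (contDiff_coord k)) y, pd_coord]
    by_cases hik : i = k
    · simp only [hik, if_true]
      ring
    · simp only [hik, if_false]
      ring
  rw [Finset.sum_congr rfl fun k _ => h3 k]
  simp

theorem crs_tangent (h : FBMS F) {f : E → ℝ} (hf : ContDiff ℝ ∞ f) (h0 : ∀ y ∈ bdry F, f y = 0) {y : E}
    (hy : y ∈ bdry F) : ∑ k, crs F y k * pd k f y = 0 := by
  have h1 := pos_sq hy
  have h2 := grad_sq h (bdry_surf hy)
  have h3 : uu F y = 0 := orth h hy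
  have h5 := crs_dot_pos (F := F) y
  have h6 := crs_dot_grad (F := F) y
  obtain ⟨c, hc⟩ : ∃ c : Fin 2 → E → ℝ, c = ![F, fun y : E => ∑ k, y k * y k] := ⟨_, rfl⟩
  have hcs : ∀ i, ContDiff ℝ ∞ (c i) := by
    intro i
    rw [hc]
    fin_cases i
    · exact h.smooth
    · exact contDiff_sqn
  have hset : ∀ x, (∀ i, c i x = c i y) → x ∈ bdry F := by
    intro x hx
    have e1 : F x = F y := by
      have := hx 0
      rw [hc] at this
      exact this
    have e2 : ∑ k, x k * x k = ∑ k, y k * y k := by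
      have := hx 1
      rw [hc] at this
      exact this
    refine ⟨?_, by rw [e1, hy.2]⟩
    have e3 : ‖x‖ ^ 2 = 1 := by
      rw [norm_sq, ← h1]
      simpa only [sq] using e2
    have e4 : 0 ≤ ‖x‖ := norm_nonneg x
    nlinarith
  have hex : IsLocalExtrOn f {x | ∀ i, c i x = c i y} y := by
    left
    refine eventually_nhdsWithin_of_forall fun x hx => ?_
    rw [h0 y hy, h0 x (hset x hx)]
  obtain ⟨Λ, Λ₀, hΛ, hsum⟩ := hex.exists_multipliers_of_hasStrictFDerivAt
    (f' := fun i => fderiv ℝ (c i) y)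
    (fun i => ((hcs i).contDiffAt (x := y)).hasStrictFDerivAt (by simp))
    ((hf.contDiffAt (x := y)).hasStrictFDerivAt (by simp))
  have hk : ∀ k : Fin 3, Λ 0 * pd k F y + Λ 1 * (2 * y k) + Λ₀ * pd k f y = 0 := by
    intro k
    have h7 := DFunLike.congr_fun hsum (EuclideanSpace.single k (1 : ℝ))
    rw [Fin.sum_univ_two] at h7
    have h8 : (Λ 0 • fderiv ℝ (c 0) y + Λ 1 • fderiv ℝ (c 1) y + Λ₀ • fderiv ℝ f y)
        (EuclideanSpace.single k (1 : ℝ)) =
        Λ 0 * pd k (c 0) y + Λ 1 * pd k (c 1) y + Λ₀ * pd k f y := rfl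
    rw [h8] at h7
    have h9 : c 0 = F := by rw [hc]; rfl
    have h10 : c 1 = fun y : E => ∑ k, y k * y k := by rw [hc]; rfl
    rw [h9, h10, pd_sqn] at h7
    exact h7
  unfold uu at h3
  rw [Fin.sum_univ_three] at h1 h2 h3 h5 h6 ⊢
  have hk0 := hk 0
  have hk1 := hk 1
  have hk2 := hk 2
  have hΛ0 : Λ₀ ≠ 0 := by
    intro h7
    rw [h7] at hk0 hk1 hk2
    have a1 : Λ 0 = 0 := by
      linear_combination pd 0 F y * hk0 + pd 1 F y * hk1 + pd 2 F y * hk2 - Λ 0 * h2 -
        2 * Λ 1 * h3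
    have a2 : Λ 1 = 0 := by
      linear_combination (y 0 * hk0 + y 1 * hk1 + y 2 * hk2) / 2 - Λ 0 / 2 * h3 - Λ 1 * h1
    apply hΛ
    rw [h7]
    refine Prod.ext ?_ rfl
    funext i
    fin_cases i
    · exact a1
    · exact a2
  have h7 : Λ₀ * (crs F y 0 * pd 0 f y + crs F y 1 * pd 1 f y + crs F y 2 * pd 2 f y) = 0 := by
    linear_combination crs F y 0 * hk0 + crs F y 1 * hk1 + crs F y 2 * hk2 - Λ 0 * h6 -
      2 * Λ 1 * h5
  exact (mul_eq_zero.1 h7).resolve_left hΛ0

private theorem contDiff_uu (h : FBMS F) : ContDiff ℝ ∞ (uu F) :=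
  ContDiff.sum fun k _ => (contDiff_coord k).mul (contDiff_pd k h.smooth)

private theorem pd_uu (h : FBMS F) (k : Fin 3) (y : E) :
    pd k (uu F) y = pd k F y + ∑ i, y i * pd k (pd i F) y := by
  have h1 := pd_sum k Finset.univ (fun i (y : E) => y i * pd i F y)
    (fun i _ => (contDiff_coord i).mul (contDiff_pd i h.smooth))
  have h2 := congrFun h1 y
  rw [show pd k (uu F) y =
    pd k (fun y : E => ∑ i ∈ Finset.univ, (fun i (y : E) => y i * pd i F y) i y) y from rfl, h2]
  have h3 : ∀ i : Fin 3, pd k (fun y : E => y i * pd i F y) y =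
      (if k = i then pd i F y else 0) + y i * pd k (pd i F) y := by
    intro i
    rw [congrFun (pd_mul k (contDiff_coord i) (contDiff_pd i h.smooth)) y, pd_coord]
    by_cases hik : k = i
    · simp only [hik, if_true]
      ring
    · simp only [hik, if_false]
      ring
  rw [Finset.sum_congr rfl fun i _ => h3 i, Finset.sum_add_distrib]
  simp

theorem a_mixed (h : FBMS F) {y : E} (hy : y ∈ bdry F) : ∑ i, ∑ j, y i * crs F y j * pd i (pd j F) y = 0 := by
  have h1 := crs_tangent h (contDiff_uu h) (fun y hy => orth h hy) hy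
  have h6 := crs_dot_grad (F := F) y
  have hs : ∀ i j, pd i (pd j F) y = pd j (pd i F) y := fun i j => by rw [pd_comm i j h.smooth]
  simp only [pd_uu h, Fin.sum_univ_three] at h1 h6 ⊢
  rw [hs 1 0, hs 2 0, hs 2 1]
  rw [hs 1 0, hs 2 0, hs 2 1] at h1
  linear_combination h1 - h6

private theorem frame_alg (y N T : Fin 3 → ℝ) (M : Fin 3 → Fin 3 → ℝ)
    (hfr : ∀ i j, y i * y j + N i * N j + T i * T j = if i = j then 1 else 0)
    (hs : ∀ i j, M i j = M j i) (hN : ∀ j, ∑ i, N i * M j i = 0) (htr : ∑ i, M i i = 0)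
    (hy1 : ∑ k, y k ^ 2 = 1) (hT1 : ∑ k, T k ^ 2 = 1)
    (hmix : ∑ i, ∑ j, y i * T j * M i j = 0) (i j : Fin 3) :
    M i j = (∑ i, ∑ j, y i * y j * M i j) * (y i * y j - T i * T j) := by
  have key : ∀ (v : Fin 3 → ℝ) (i : Fin 3),
      v i = y i * ∑ k, y k * v k + N i * ∑ k, N k * v k + T i * ∑ k, T k * v k := by
    intro v i
    have h0 := hfr i 0
    have h1 := hfr i 1
    have h2 := hfr i 2
    simp only [Fin.sum_univ_three]
    fin_cases i
    · have e1 : (if (0 : Fin 3) = 1 then (1 : ℝ) else 0) = 0 := by simp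
      have e2 : (if (0 : Fin 3) = 2 then (1 : ℝ) else 0) = 0 := by simp
      simp only [Fin.zero_eta, if_true, e1, e2] at h0 h1 h2 ⊢
      linear_combination -(v 0) * h0 - (v 1) * h1 - (v 2) * h2
    · have e1 : (if (1 : Fin 3) = 0 then (1 : ℝ) else 0) = 0 := by simp
      have e2 : (if (1 : Fin 3) = 2 then (1 : ℝ) else 0) = 0 := by simp
      simp only [Fin.mk_one, if_true, e1, e2] at h0 h1 h2 ⊢
      linear_combination -(v 0) * h0 - (v 1) * h1 - (v 2) * h2
    · have e1 : (if (2 : Fin 3) = 0 then (1 : ℝ) else 0) = 0 := by simp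
      have e2 : (if (2 : Fin 3) = 1 then (1 : ℝ) else 0) = 0 := by simp
      simp only [Fin.reduceFinMk, if_true, e1, e2] at h0 h1 h2 ⊢
      linear_combination -(v 0) * h0 - (v 1) * h1 - (v 2) * h2
  obtain ⟨κ, hκ⟩ : ∃ κ : ℝ, κ = ∑ i, ∑ j, y i * y j * M i j := ⟨_, rfl⟩
  obtain ⟨τ, hτ⟩ : ∃ τ : ℝ, τ = ∑ i, ∑ j, T i * T j * M i j := ⟨_, rfl⟩
  rw [← hκ]
  have n0 := hN 0
  have n1 := hN 1
  have n2 := hN 2
  have s1 := hs 1 0
  have s2 := hs 2 0
  have s3 := hs 2 1
  simp only [Fin.sum_univ_three] at key hκ hτ n0 n1 n2 htr hy1 hT1 hmix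
  rw [s1, s2, s3] at hκ hτ hmix
  rw [s1] at n1
  rw [s2, s3] at n2
  have hNj : ∀ j, N 0 * M 0 j + N 1 * M 1 j + N 2 * M 2 j = 0 := by
    intro j
    rw [hs 0 j, hs 1 j, hs 2 j]
    have := hN j
    rwa [Fin.sum_univ_three] at this
  have hMij : ∀ i j, M i j = κ * (y i * y j) + τ * (T i * T j) := by
    intro i j
    have h1 := key (fun k => M k j) i
    have h2 := key (fun l => y 0 * M 0 l + y 1 * M 1 l + y 2 * M 2 l) j
    have h3 := key (fun l => T 0 * M 0 l + T 1 * M 1 l + T 2 * M 2 l) j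
    have h4 := hNj j
    beta_reduce at h1 h2 h3
    rw [s1, s2, s3] at h2 h3
    have h2' : y 0 * M 0 j + y 1 * M 1 j + y 2 * M 2 j = κ * y j := by
      rw [h2, hκ]
      linear_combination N j * y 0 * n0 + N j * y 1 * n1 + N j * y 2 * n2 + T j * hmix
    have h3' : T 0 * M 0 j + T 1 * M 1 j + T 2 * M 2 j = τ * T j := by
      rw [h3, hτ]
      linear_combination N j * T 0 * n0 + N j * T 1 * n1 + N j * T 2 * n2 + y j * hmix
    rw [h1, h2', h3', h4]
    ring
  have hsum : κ + τ = 0 := by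
    rw [hMij 0 0, hMij 1 1, hMij 2 2] at htr
    linear_combination htr - κ * hy1 - τ * hT1
  rw [hMij i j]
  linear_combination T i * T j * hsum

theorem bdryA (h : FBMS F) {y : E} (hy : y ∈ bdry F) (i j : Fin 3) :
    pd i (pd j F) y = kap F y * (y i * y j - crs F y i * crs F y j) := by
  refine frame_alg (fun k => y k) (fun k => pd k F y) (crs F y) (fun i j => pd i (pd j F) y)
    (frame h hy) (fun i j => by rw [pd_comm i j h.smooth]) (fun j => ?_) (tr_zero h (bdry_surf hy))
    (pos_sq hy) (crs_sq h hy) (a_mixed h hy) i j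
  exact eik1 h (bdry_surf hy) j

end Pool.Agent.Helper78.FB
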