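import Pool.Agent.Helper94.FB.BDefs
import Pool.Agent.Helper78.FB.PdCalc

/-!
# FB-13 Smooth: smoothness of the auxiliary functions, first derivatives (short)

All from `contDiff_pd`, `contDiff_coord`, `ContDiff.sum`, `ContDiff.mul`, and `pd_sum`, `pd_mul`, `pd_coord`, `pd_sub`.
`contDiff_barr`: `Real.contDiff_exp`. `contDiff_tang`, `contDiff_lap`, `contDiff_nd`: finite sums of products.
-/

set_option autoImplicit false

open MeasureTheory Filter
open scoped ContDiff Topology

namespace Pool.Agent.Helper78.FB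

variable {F f g : E → ℝ}

theorem contDiff_uu (hF : ContDiff ℝ ∞ F) : ContDiff ℝ ∞ (uu F) := by
  show ContDiff ℝ ∞ (fun y => ∑ i, y i * pd i F y)
  exact ContDiff.sum fun i _ => (contDiff_coord i).mul (contDiff_pd i hF)

theorem contDiff_ww (hF : ContDiff ℝ ∞ F) (a b : Fin 3) : ContDiff ℝ ∞ (ww F a b) := by
  show ContDiff ℝ ∞ (fun y => y a * pd b F y - y b * pd a F y)
  exact ((contDiff_coord a).mul (contDiff_pd b hF)).sub ((contDiff_coord b).mul (contDiff_pd a hF))

theorem contDiff_kap (hF : ContDiff ℝ ∞ F) : ContDiff ℝ ∞ (kap F) := by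
  show ContDiff ℝ ∞ (fun y => ∑ i, ∑ j, y i * y j * pd i (pd j F) y)
  exact ContDiff.sum fun i _ => ContDiff.sum fun j _ =>
    ((contDiff_coord i).mul (contDiff_coord j)).mul (contDiff_pd i (contDiff_pd j hF))

theorem contDiff_crs (hF : ContDiff ℝ ∞ F) (i : Fin 3) : ContDiff ℝ ∞ (fun y => crs F y i) := by
  fin_cases i
  · exact contDiff_ww hF 1 2
  · exact contDiff_ww hF 2 0
  · exact contDiff_ww hF 0 1

theorem contDiff_normA (hF : ContDiff ℝ ∞ F) : ContDiff ℝ ∞ (normA F) := by
  show ContDiff ℝ ∞ (fun y => ∑ i, ∑ j, pd i (pd j F) y ^ 2)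
  exact ContDiff.sum fun i _ => ContDiff.sum fun j _ => (contDiff_pd i (contDiff_pd j hF)).pow 2

theorem contDiff_tang (hF : ContDiff ℝ ∞ F) (hf : ContDiff ℝ ∞ f) (hg : ContDiff ℝ ∞ g) :
    ContDiff ℝ ∞ (tang F f g) := by
  show ContDiff ℝ ∞ (fun y => ∑ i, pd i f y * pd i g y -
    (∑ i, pd i F y * pd i f y) * ∑ i, pd i F y * pd i g y)
  exact (ContDiff.sum fun i _ => (contDiff_pd i hf).mul (contDiff_pd i hg)).sub
    ((ContDiff.sum fun i _ => (contDiff_pd i hF).mul (contDiff_pd i hf)).mul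
      (ContDiff.sum fun i _ => (contDiff_pd i hF).mul (contDiff_pd i hg)))

theorem contDiff_lap (hF : ContDiff ℝ ∞ F) (hf : ContDiff ℝ ∞ f) : ContDiff ℝ ∞ (lap F f) := by
  show ContDiff ℝ ∞ (fun y => ∑ i, pd i (pd i f) y -
    ∑ i, ∑ j, pd i F y * pd j F y * pd i (pd j f) y)
  exact (ContDiff.sum fun i _ => contDiff_pd i (contDiff_pd i hf)).sub
    (ContDiff.sum fun i _ => ContDiff.sum fun j _ =>
      ((contDiff_pd i hF).mul (contDiff_pd j hF)).mul (contDiff_pd i (contDiff_pd j hf)))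

theorem contDiff_nd (hf : ContDiff ℝ ∞ f) : ContDiff ℝ ∞ (nd f) := by
  show ContDiff ℝ ∞ (fun y => ∑ k, y k * pd k f y)
  exact ContDiff.sum fun i _ => (contDiff_coord i).mul (contDiff_pd i hf)

theorem contDiff_barr (κ : ℝ) (a : E) (r : ℝ) : ContDiff ℝ ∞ (barr κ a r) := by
  show ContDiff ℝ ∞ (fun y : E => Real.exp (-κ * ∑ i, (y i - a i) ^ 2) - Real.exp (-κ * r ^ 2))
  refine ContDiff.sub ?_ contDiff_const
  refine Real.contDiff_exp.comp (contDiff_const.mul ?_)
  exact ContDiff.sum fun i _ => ((contDiff_coord i).sub contDiff_const).pow 2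

theorem pd_uu (hF : ContDiff ℝ ∞ F) (k : Fin 3) :
    pd k (uu F) = fun y => pd k F y + ∑ i, y i * pd k (pd i F) y := by
  have h1 : pd k (fun y : E => ∑ i, y i * pd i F y) = fun y => ∑ i, pd k (fun y : E => y i * pd i F y) y :=
    pd_sum k Finset.univ (fun (i : Fin 3) (y : E) => y i * pd i F y)
      (fun i _ => (contDiff_coord i).mul (contDiff_pd i hF))
  show pd k (fun y : E => ∑ i, y i * pd i F y) = _
  rw [h1]
  funext y
  have h2 : ∀ i : Fin 3, pd k (fun y : E => y i * pd i F y) y =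
      (if k = i then 1 else 0) * pd i F y + y i * pd k (pd i F) y := by
    intro i
    rw [pd_mul k (contDiff_coord i) (contDiff_pd i hF), pd_coord k i]
  simp only [h2, Finset.sum_add_distrib, ite_mul, one_mul, zero_mul, Finset.sum_ite_eq,
    Finset.mem_univ, if_true]

theorem pd_ww (hF : ContDiff ℝ ∞ F) (a b k : Fin 3) :
    pd k (ww F a b) = fun y => (if k = a then pd b F y else 0) + y a * pd k (pd b F) y -
      ((if k = b then pd a F y else 0) + y b * pd k (pd a F) y) := by
  show pd k (fun y : E => y a * pd b F y - y b * pd a F y) = _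
  rw [pd_sub k ((contDiff_coord a).mul (contDiff_pd b hF)) ((contDiff_coord b).mul (contDiff_pd a hF)),
    pd_mul k (contDiff_coord a) (contDiff_pd b hF), pd_mul k (contDiff_coord b) (contDiff_pd a hF),
    pd_coord k a, pd_coord k b]
  funext y
  simp only [ite_mul, one_mul, zero_mul]

theorem normA_nonneg (y : E) : 0 ≤ normA F y := by
  unfold normA
  exact Finset.sum_nonneg fun i _ => Finset.sum_nonneg fun j _ => sq_nonneg _

theorem tang_comm (y : E) : tang F f g y = tang F g f y := by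
  unfold tang
  rw [mul_comm (∑ i, pd i F y * pd i f y)]
  congr 1
  exact Finset.sum_congr rfl fun i _ => mul_comm _ _

theorem ww_swap (a b : Fin 3) (y : E) : ww F b a y = -ww F a b y := by
  unfold ww
  ring

end Pool.Agent.Helper78.FB
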