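import Pool.Agent.Helper94.FB.Codazzi
import Pool.Agent.Helper94.FB.BdryA
import Pool.Agent.Helper94.FB.Smooth

/-!
# FB-14 Jac: the Jacobi functions `uu F`, `pd m F`, `ww F a b`

On `surf F`, with `∑ i, pd k (pd i (pd i F)) y = - normA * pd k F` (`codazzi`), `∑ i, pd i F * pd j (pd i F) = 0` (`eik1`), `∑ i j, pd i F pd j F pd i (pd j (pd m F)) = 0` (`eik3`), `∑ i, pd i (pd i F) = 0` (`tr_zero`):
* `lap_pd`: `∑ i, pd i (pd i (pd m F)) = ∑ i, pd m (pd i (pd i F))` (`pd_comm`) `= - normA * pd m F`, the second sum of `lap` is `0` by `eik3`.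
* `lap_uu`: `pd i (uu F) = pd i F + ∑ k, y k pd i (pd k F)` (`pd_uu`), `pd j (pd i (uu F)) = 2 pd j (pd i F) + ∑ k, y k pd j (pd i (pd k F))`; trace: `0 + ∑ k, y k (- normA pd k F)`; contraction with `N_i N_j`: `0 + 0`.
* `lap_ww`: `pd j (pd i (ww F a b)) = δ_ia F_bj + δ_ja F_bi + y_a F_bij - δ_ib F_aj - δ_jb F_ai - y_b F_aij`; trace `2 F_ab - 2 F_ab + y_a (- normA F_b) - y_b (- normA F_a)`; contraction with `N_i N_j`: `0`.
On `bdry F` (`orth`: `uu F = 0`; `bdryA`: `∑ k, y k pd k (pd m F) = kap * y m`, since `∑ y_k ^ 2 = 1` and `∑ y_k T_k = 0`):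
* `nd_uu`: `∑ y_k (F_k + ∑ i, y_i F_ki) = 0 + kap`; `nd_pd`; `nd_ww`: `ww F a b + y_a kap y_b - y_b kap y_a`.
* `tang_uu`: `∇ uu = N + A y`, its tangential part is `A y` (`∑ i, N_i (N_i + (A y)_i) = 1 + 0`).
* `lap_coord`, `nd_coord`, `lap_sq`, `nd_sq`: direct (`pd_coord`, `grad_sq` for `3 - 1 = 2`).
-/

set_option autoImplicit false

open MeasureTheory Filter
open scoped ContDiff Topology

namespace Pool.Agent.Helper78.FB

variable {F : E → ℝ}

private theorem pd3 (hF : ContDiff ℝ ∞ F) (i m : Fin 3) :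
    pd i (pd i (pd m F)) = pd m (pd i (pd i F)) := by
  rw [pd_comm i m hF, pd_comm i m (contDiff_pd i hF)]

private theorem eik1' (h : FBMS F) {y : E} (hy : y ∈ surf F) (j : Fin 3) :
    ∑ i, pd i F y * pd i (pd j F) y = 0 := by
  rw [← eik1 h hy j]
  refine Finset.sum_congr rfl fun i _ => ?_
  rw [pd_comm i j h.smooth]

private theorem contr_hess (h : FBMS F) {y : E} (hy : y ∈ surf F) :
    ∑ i, ∑ j, pd i F y * pd j F y * pd i (pd j F) y = 0 := by
  refine Finset.sum_eq_zero fun i _ => ?_
  have h1 : ∑ j, pd i F y * pd j F y * pd i (pd j F) y =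
      pd i F y * ∑ j, pd j F y * pd i (pd j F) y := by
    rw [Finset.mul_sum]
    refine Finset.sum_congr rfl fun j _ => ?_
    ring
  rw [h1, eik1 h hy i, mul_zero]

theorem lap_pd (h : FBMS F) {y : E} (hy : y ∈ surf F) (m : Fin 3) : lap F (pd m F) y = -normA F y * pd m F y := by
  unfold lap
  rw [eik3 h hy m, sub_zero, ← codazzi h hy m]
  refine Finset.sum_congr rfl fun i _ => ?_
  rw [pd3 h.smooth]

private theorem pd_mul_coord {g : E → ℝ} (hg : ContDiff ℝ ∞ g) (j k : Fin 3) :
    pd j (fun y => y k * g y) = fun y => (if j = k then g y else 0) + y k * pd j g y := by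
  rw [pd_mul j (contDiff_coord k) hg, pd_coord]
  funext y
  by_cases hjk : j = k
  · rw [if_pos hjk, if_pos hjk, one_mul]
  · rw [if_neg hjk, if_neg hjk, zero_mul]

private theorem pd_pd_uu (hF : ContDiff ℝ ∞ F) (i j : Fin 3) (y : E) :
    pd i (pd j (uu F)) y = 2 * pd i (pd j F) y + ∑ k, y k * pd i (pd j (pd k F)) y := by
  have hs : ∀ k, ContDiff ℝ ∞ (fun y : E => y k * pd j (pd k F) y) := fun k =>
    (contDiff_coord k).mul (contDiff_pd j (contDiff_pd k hF))
  rw [pd_uu hF j, pd_add i (contDiff_pd j hF) (ContDiff.sum fun k _ => hs k),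
    pd_sum i Finset.univ (fun k y => y k * pd j (pd k F) y) (fun k _ => hs k)]
  simp only [pd_mul_coord (contDiff_pd j (contDiff_pd _ hF))]
  rw [Finset.sum_add_distrib, Finset.sum_ite_eq, if_pos (Finset.mem_univ _), pd_comm j i hF]
  ring

theorem lap_uu (h : FBMS F) {y : E} (hy : y ∈ surf F) : lap F (uu F) y = -normA F y * uu F y := by
  have hF := h.smooth
  have e1 : lap F (uu F) y = 2 * (∑ i, pd i (pd i F) y) -
      2 * (∑ i, ∑ j, pd i F y * pd j F y * pd i (pd j F) y) + ∑ k, y k * lap F (pd k F) y := by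
    unfold lap
    simp only [pd_pd_uu hF, Fin.sum_univ_three]
    ring
  rw [e1, tr_zero h hy, contr_hess h hy]
  unfold uu
  rw [Finset.mul_sum, mul_zero, sub_zero, zero_add]
  refine Finset.sum_congr rfl fun k _ => ?_
  rw [lap_pd h hy]
  ring

private theorem pd_pd_ww (hF : ContDiff ℝ ∞ F) (a b i j : Fin 3) (y : E) :
    pd i (pd j (ww F a b)) y =
      ((if j = a then pd i (pd b F) y else 0) + ((if i = a then pd j (pd b F) y else 0) +
        y a * pd i (pd j (pd b F)) y)) -
      ((if j = b then pd i (pd a F) y else 0) + ((if i = b then pd j (pd a F) y else 0) +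
        y b * pd i (pd j (pd a F)) y)) := by
  have hc : ∀ a b : Fin 3, ContDiff ℝ ∞ (fun y : E => if j = a then pd b F y else 0) := by
    intro a b
    by_cases hja : j = a
    · simp only [if_pos hja]
      exact contDiff_pd b hF
    · simp only [if_neg hja]
      exact contDiff_const
  have hp : ∀ a b : Fin 3, pd i (fun y : E => if j = a then pd b F y else 0) =
      fun y => if j = a then pd i (pd b F) y else 0 := by
    intro a b
    by_cases hja : j = a
    · simp only [if_pos hja]
    · simp only [if_neg hja]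
      exact pd_const i 0
  have hm : ∀ a b : Fin 3, ContDiff ℝ ∞ (fun y : E => y a * pd j (pd b F) y) := fun a b =>
    (contDiff_coord a).mul (contDiff_pd j (contDiff_pd b hF))
  rw [pd_ww hF a b j, pd_sub i ((hc a b).add (hm a b)) ((hc b a).add (hm b a)),
    pd_add i (hc a b) (hm a b), pd_add i (hc b a) (hm b a), hp, hp,
    pd_mul_coord (contDiff_pd j (contDiff_pd b hF)), pd_mul_coord (contDiff_pd j (contDiff_pd a hF))]

private theorem half_tr (h : FBMS F) {y : E} (hy : y ∈ surf F) (a b : Fin 3) :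
    ∑ i, ((if i = a then pd i (pd b F) y else 0) + ((if i = a then pd i (pd b F) y else 0) +
        y a * pd i (pd i (pd b F)) y)) -
      ∑ i, ∑ j, pd i F y * pd j F y * ((if j = a then pd i (pd b F) y else 0) +
        ((if i = a then pd j (pd b F) y else 0) + y a * pd i (pd j (pd b F)) y)) =
      2 * pd a (pd b F) y + y a * (-normA F y * pd b F y) := by
  have h1 : ∑ i, ((if i = a then pd i (pd b F) y else 0) + ((if i = a then pd i (pd b F) y else 0) +
        y a * pd i (pd i (pd b F)) y)) = 2 * pd a (pd b F) y + y a * ∑ i, pd i (pd i (pd b F)) y := by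
    rw [Finset.sum_add_distrib, Finset.sum_add_distrib, Finset.sum_ite_eq', if_pos (Finset.mem_univ _),
      Finset.mul_sum]
    ring
  have h2 : ∑ i, ∑ j, pd i F y * pd j F y * ((if j = a then pd i (pd b F) y else 0) +
        ((if i = a then pd j (pd b F) y else 0) + y a * pd i (pd j (pd b F)) y)) =
      pd a F y * (∑ i, pd i F y * pd i (pd b F) y) + pd a F y * (∑ j, pd j F y * pd j (pd b F) y) +
        y a * ∑ i, ∑ j, pd i F y * pd j F y * pd i (pd j (pd b F)) y := by
    fin_cases a <;> simp [Fin.sum_univ_three] <;> ring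
  have h3 := lap_pd h hy b
  unfold lap at h3
  rw [h1, h2, eik1' h hy b, ← h3]
  ring

theorem lap_ww (h : FBMS F) {y : E} (hy : y ∈ surf F) (a b : Fin 3) :
    lap F (ww F a b) y = -normA F y * ww F a b y := by
  have hF := h.smooth
  have h1 := half_tr h hy a b
  have h2 := half_tr h hy b a
  unfold lap
  simp only [pd_pd_ww hF, mul_sub, Finset.sum_sub_distrib]
  have h3 : pd a (pd b F) y = pd b (pd a F) y := by rw [pd_comm a b hF]
  unfold ww
  rw [h3] at h1
  linarith

private theorem mem_surf {y : E} (hy : y ∈ bdry F) : y ∈ surf F := ⟨hy.1.le, hy.2⟩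

private theorem sq_one {y : E} (hy : y ∈ bdry F) : ∑ k, y k * y k = 1 := by
  have h1 := norm_sq y
  rw [hy.1, one_pow] at h1
  rw [h1]
  exact Finset.sum_congr rfl fun k _ => (sq _).symm

theorem nd_uu (h : FBMS F) {y : E} (hy : y ∈ bdry F) : nd (uu F) y = kap F y := by
  unfold nd
  rw [← zero_add (kap F y), ← orth h hy]
  simp only [pd_uu h.smooth]
  unfold uu kap
  rw [← Finset.sum_add_distrib]
  refine Finset.sum_congr rfl fun k _ => ?_
  rw [mul_add, Finset.mul_sum]
  congr 1
  refine Finset.sum_congr rfl fun i _ => ?_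
  ring

theorem nd_pd (h : FBMS F) {y : E} (hy : y ∈ bdry F) (m : Fin 3) : nd (pd m F) y = kap F y * y m := by
  unfold nd
  have h1 : ∑ k, y k * pd k (pd m F) y = kap F y * ((∑ k, y k * y k) * y m -
      (∑ k, crs F y k * y k) * crs F y m) := by
    rw [Finset.sum_mul, Finset.sum_mul, ← Finset.sum_sub_distrib, Finset.mul_sum]
    refine Finset.sum_congr rfl fun k _ => ?_
    rw [bdryA h hy k m]
    ring
  rw [h1, sq_one hy, crs_dot_pos, zero_mul, sub_zero, one_mul]

theorem nd_ww (h : FBMS F) {y : E} (hy : y ∈ bdry F) (a b : Fin 3) : nd (ww F a b) y = ww F a b y := by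
  have h1 := nd_pd h hy a
  have h2 := nd_pd h hy b
  unfold nd at h1 h2
  have h3 : nd (ww F a b) y = ww F a b y + y a * (∑ k, y k * pd k (pd b F) y) -
      y b * (∑ k, y k * pd k (pd a F) y) := by
    unfold nd
    simp only [pd_ww h.smooth]
    unfold ww
    have e : ∀ (c : Fin 3) (t : ℝ), ∑ k, y k * (if k = c then t else 0) = y c * t := by
      intro c t
      rw [Finset.sum_eq_single c]
      · rw [if_pos rfl]
      · intro k _ hk
        rw [if_neg hk, mul_zero]
      · intro hc
        exact absurd (Finset.mem_univ c) hc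
    simp only [mul_sub, mul_add, Finset.sum_sub_distrib, Finset.sum_add_distrib]
    rw [e, e, Finset.mul_sum, Finset.mul_sum]
    have e1 : ∑ k, y k * (y a * pd k (pd b F) y) = ∑ k, y a * (y k * pd k (pd b F) y) :=
      Finset.sum_congr rfl fun k _ => by ring
    have e2 : ∑ k, y k * (y b * pd k (pd a F) y) = ∑ k, y b * (y k * pd k (pd a F) y) :=
      Finset.sum_congr rfl fun k _ => by ring
    rw [e1, e2]
    ring
  rw [h3, h1, h2]
  ring

theorem tang_uu (h : FBMS F) {y : E} (hy : y ∈ surf F) (g : E → ℝ) :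
    tang F (uu F) g y = ∑ i, ∑ j, y i * pd i (pd j F) y * pd j g y := by
  have hF := h.smooth
  have h0 : ∀ i, pd i (uu F) y = pd i F y + ∑ k, y k * pd i (pd k F) y := by
    intro i
    rw [pd_uu hF]
  have h1 : ∑ i, pd i F y * pd i (uu F) y = 1 := by
    simp only [h0, mul_add, Finset.sum_add_distrib, Finset.mul_sum]
    rw [Finset.sum_comm (f := fun i k => pd i F y * (y k * pd i (pd k F) y))]
    have e1 : ∑ k, ∑ i, pd i F y * (y k * pd i (pd k F) y) = 0 := by
      refine Finset.sum_eq_zero fun k _ => ?_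
      have e2 : ∑ i, pd i F y * (y k * pd i (pd k F) y) = y k * ∑ i, pd i F y * pd i (pd k F) y := by
        rw [Finset.mul_sum]
        exact Finset.sum_congr rfl fun i _ => by ring
      rw [e2, eik1' h hy k, mul_zero]
    rw [e1, add_zero, ← grad_sq h hy]
    exact Finset.sum_congr rfl fun i _ => (sq _).symm
  unfold tang
  rw [h1, one_mul, ← Finset.sum_sub_distrib]
  have h2 : ∀ i, pd i (uu F) y * pd i g y - pd i F y * pd i g y =
      ∑ k, y k * pd i (pd k F) y * pd i g y := by
    intro i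
    rw [h0, add_mul, add_sub_cancel_left, Finset.sum_mul]
  simp only [h2]
  rw [Finset.sum_comm]
  refine Finset.sum_congr rfl fun k _ => Finset.sum_congr rfl fun i _ => ?_
  rw [pd_comm i k hF]

theorem lap_coord (j : Fin 3) (y : E) : lap F (fun y => y j) y = 0 := by
  unfold lap
  simp only [pd_coord, pd_const, mul_zero, Finset.sum_const_zero, sub_zero]

theorem nd_coord (j : Fin 3) (y : E) : nd (fun y => y j) y = y j := by
  unfold nd
  simp only [pd_coord]
  rw [Finset.sum_eq_single j]
  · rw [if_pos rfl, mul_one]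
  · intro k _ hk
    rw [if_neg hk, mul_zero]
  · intro hc
    exact absurd (Finset.mem_univ j) hc

private theorem pd_sq (j : Fin 3) : pd j (fun y : E => ∑ k, y k ^ 2) = fun y => 2 * y j := by
  have h1 : (fun y : E => ∑ k, y k ^ 2) = fun y => ∑ k, y k * y k := by
    funext y
    exact Finset.sum_congr rfl fun k _ => sq _
  rw [h1, pd_sum j Finset.univ (fun k (y : E) => y k * y k)
    (fun k _ => (contDiff_coord k).mul (contDiff_coord k))]
  simp only [pd_mul_coord (contDiff_coord _), pd_coord]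
  funext y
  rw [Finset.sum_add_distrib, Finset.sum_ite_eq, if_pos (Finset.mem_univ _),
    Finset.sum_eq_single j]
  · rw [if_pos rfl]
    ring
  · intro k _ hk
    rw [if_neg (Ne.symm hk), mul_zero]
  · intro hc
    exact absurd (Finset.mem_univ j) hc

private theorem pd_pd_sq (i j : Fin 3) (y : E) :
    pd i (pd j (fun y : E => ∑ k, y k ^ 2)) y = if i = j then 2 else 0 := by
  rw [pd_sq, pd_const_mul i 2 (contDiff_coord j), pd_coord]
  by_cases hij : i = j
  · simp [hij]
  · simp [hij]

theorem lap_sq (h : FBMS F) {y : E} (hy : y ∈ surf F) : lap F (fun y => ∑ k, y k ^ 2) y = 4 := by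
  unfold lap
  simp only [pd_pd_sq]
  have h1 := grad_sq h hy
  have h2 : ∑ i, ∑ j, pd i F y * pd j F y * (if i = j then (2 : ℝ) else 0) = 2 := by
    have e : ∀ i, ∑ j, pd i F y * pd j F y * (if i = j then (2 : ℝ) else 0) =
        2 * pd i F y ^ 2 := by
      intro i
      rw [Finset.sum_eq_single i]
      · rw [if_pos rfl]
        ring
      · intro k _ hk
        rw [if_neg (Ne.symm hk), mul_zero]
      · intro hc
        exact absurd (Finset.mem_univ i) hc
    simp only [e]
    rw [← Finset.mul_sum, h1, mul_one]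
  rw [h2]
  simp
  norm_num

theorem nd_sq (y : E) : nd (fun y => ∑ k, y k ^ 2) y = 2 * ∑ k, y k ^ 2 := by
  unfold nd
  simp only [pd_sq]
  rw [Finset.mul_sum]
  refine Finset.sum_congr rfl fun k _ => ?_
  ring

end Pool.Agent.Helper78.FB
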