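import Pool.Agent.Helper94.FB.Inc

/-!
# FB-43 ArcPos: monotonicity of the shadow along coordinate arcs

* `arc_p`, `arc_q`, `arc_m`: evaluate (`EuclideanSpace.single_apply`, distinct indices). `norm_arc`: `‖·‖ ^ 2 = r ^ 2 cos ^ 2 + r ^ 2 sin ^ 2 + t ^ 2 = 1` (`norm_sq`, the sum over `Fin 3` is the sum over `p, q, m`: cases).
* `arc_pos`: `inc` with `θ s = arc p q m r t s`, `θ' s = (- r sin s) e_p + (r cos s) e_q` on `[s, s']`. For `y = τ • θ s`, `0 < τ < 1`, `F y = 0`: `y ∈ inn F`, `y p = τ r cos s ≥ 0`, `y q = τ r sin s ≥ 0` (`0 ≤ s ≤ π / 2`) and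
  `∑ k, θ'_k pd k F y = - r sin s pd p F y + r cos s pd q F y = ww F p q y / τ ≤ 0`.
* `exists_arc`: a unit vector with nonnegative coordinates `p, q` is `arc p q m r (θ m) s` with `r = √(θ_p ^ 2 + θ_q ^ 2)`, `s ∈ [0, π / 2]` (`Real.arccos (θ_p / r)` or `Real.arcsin`; if `r = 0` any `s`).
-/

set_option autoImplicit false

open MeasureTheory Filter Set
open scoped ContDiff Topology

namespace Pool.Agent.Helper78.FB

variable {F : E → ℝ} {p q m : Fin 3}

private theorem three (p q m k : Fin 3) (hpq : p ≠ q) (hpm : p ≠ m) (hqm : q ≠ m) :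
    k = p ∨ k = q ∨ k = m := by
  simp only [ne_eq, Fin.ext_iff] at *
  omega

private theorem sum_pqm (hpq : p ≠ q) (hpm : p ≠ m) (hqm : q ≠ m) (f : Fin 3 → ℝ) :
    ∑ k, f k = f p + f q + f m := by
  have h : (Finset.univ : Finset (Fin 3)) = {p, q, m} := by
    ext k
    simp only [Finset.mem_univ, Finset.mem_insert, Finset.mem_singleton, true_iff]
    exact three p q m k hpq hpm hqm
  rw [h, Finset.sum_insert, Finset.sum_pair hqm, add_assoc]
  simp only [Finset.mem_insert, Finset.mem_singleton, not_or]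
  exact ⟨hpq, hpm⟩

theorem arc_p (hpq : p ≠ q) (hpm : p ≠ m) (r t s : ℝ) : arc p q m r t s p = r * Real.cos s := by
  simp [arc, hpq, hpm]

theorem arc_q (hpq : p ≠ q) (hqm : q ≠ m) (r t s : ℝ) : arc p q m r t s q = r * Real.sin s := by
  simp [arc, hpq.symm, hqm]

theorem arc_m (hpm : p ≠ m) (hqm : q ≠ m) (r t s : ℝ) : arc p q m r t s m = t := by
  simp [arc, hpm.symm, hqm.symm]

theorem ext_three (hpq : p ≠ q) (hpm : p ≠ m) (hqm : q ≠ m) {y z : E} (h1 : y p = z p) (h2 : y q = z q)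
    (h3 : y m = z m) : y = z := by
  ext k
  rcases three p q m k hpq hpm hqm with rfl | rfl | rfl
  · exact h1
  · exact h2
  · exact h3

theorem norm_arc (hpq : p ≠ q) (hpm : p ≠ m) (hqm : q ≠ m) {r t : ℝ} (hrt : r ^ 2 + t ^ 2 = 1) (s : ℝ) :
    ‖arc p q m r t s‖ = 1 := by
  have h := norm_sq (arc p q m r t s)
  rw [sum_pqm hpq hpm hqm, arc_p hpq hpm, arc_q hpq hqm, arc_m hpm hqm] at h
  have h2 : ‖arc p q m r t s‖ ^ 2 = 1 := by
    rw [h, ← hrt]
    nlinarith [Real.sin_sq_add_cos_sq s]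
  exact (pow_eq_one_iff_of_nonneg (norm_nonneg _) two_ne_zero).1 h2

theorem exists_arc (hpq : p ≠ q) (hpm : p ≠ m) (hqm : q ≠ m) {θ : E} (hθ : ‖θ‖ = 1) (h1 : 0 ≤ θ p)
    (h2 : 0 ≤ θ q) : ∃ r s : ℝ, 0 ≤ r ∧ r ^ 2 + θ m ^ 2 = 1 ∧ 0 ≤ s ∧ s ≤ Real.pi / 2 ∧
      θ = arc p q m r (θ m) s := by
  have hn := norm_sq θ
  rw [hθ, sum_pqm hpq hpm hqm, one_pow] at hn
  have hr2 : √(θ p ^ 2 + θ q ^ 2) ^ 2 = θ p ^ 2 + θ q ^ 2 := Real.sq_sqrt (by positivity)
  set r := √(θ p ^ 2 + θ q ^ 2) with hr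
  have hr0 : 0 ≤ r := Real.sqrt_nonneg _
  rcases hr0.eq_or_lt with h0 | h0
  · rw [← h0] at hr2
    have hp : θ p = 0 := by nlinarith [sq_nonneg (θ p), sq_nonneg (θ q)]
    have hq : θ q = 0 := by nlinarith [sq_nonneg (θ p), sq_nonneg (θ q)]
    refine ⟨0, 0, le_rfl, by rw [hn, hp, hq]; ring, le_rfl, by positivity, ?_⟩
    refine ext_three hpq hpm hqm ?_ ?_ ?_
    · rw [arc_p hpq hpm, hp, zero_mul]
    · rw [arc_q hpq hqm, hq, zero_mul]
    · rw [arc_m hpm hqm]
  · have hle : θ p / r ≤ 1 := by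
      rw [div_le_one h0]
      exact Real.le_sqrt_of_sq_le (by nlinarith [sq_nonneg (θ q)])
    have hge : 0 ≤ θ p / r := div_nonneg h1 hr0
    have hcos : Real.cos (Real.arccos (θ p / r)) = θ p / r :=
      Real.cos_arccos (by linarith) hle
    have hsin : Real.sin (Real.arccos (θ p / r)) = θ q / r := by
      rw [Real.sin_arccos]
      have h3 : 1 - (θ p / r) ^ 2 = (θ q / r) ^ 2 := by
        rw [div_pow, div_pow, hr2]
        have : θ p ^ 2 + θ q ^ 2 ≠ 0 := by
          rw [← hr2]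
          positivity
        field_simp
        ring
      rw [h3, Real.sqrt_sq (div_nonneg h2 hr0)]
    refine ⟨r, Real.arccos (θ p / r), hr0, by rw [hr2, hn], Real.arccos_nonneg _,
      Real.arccos_le_pi_div_two.2 hge, ?_⟩
    refine ext_three hpq hpm hqm ?_ ?_ ?_
    · rw [arc_p hpq hpm, hcos]
      field_simp
    · rw [arc_q hpq hqm, hsin]
      field_simp
    · rw [arc_m hpm hqm]

theorem arc_pos (H : Hyp F) (hu : ∀ y ∈ inn F, 0 < uu F y) (hpq : p ≠ q) (hpm : p ≠ m) (hqm : q ≠ m)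
    (hw : ∀ y ∈ surf F, 0 ≤ y p → 0 ≤ y q → ww F p q y ≤ 0) {r t : ℝ} (hr : 0 ≤ r) (hrt : r ^ 2 + t ^ 2 = 1)
    {s s' : ℝ} (h0 : 0 ≤ s) (hss : s ≤ s') (hs' : s' ≤ Real.pi / 2) (hF : 0 < F (arc p q m r t s')) :
    0 < F (arc p q m r t s) := by
  refine inc H hu (fun s => arc p q m r t s)
    (fun s => (r * -Real.sin s) • EuclideanSpace.single p (1 : ℝ) +
      (r * Real.cos s) • EuclideanSpace.single q (1 : ℝ)) hss ?_
    (fun s => norm_arc hpq hpm hqm hrt s) ?_ hF s ⟨le_rfl, hss⟩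
  · intro s
    have h1 : HasDerivAt (fun s => r * Real.cos s) (r * -Real.sin s) s :=
      (Real.hasDerivAt_cos s).const_mul r
    have h2 : HasDerivAt (fun s => r * Real.sin s) (r * Real.cos s) s :=
      (Real.hasDerivAt_sin s).const_mul r
    exact ((h1.smul_const (EuclideanSpace.single p (1 : ℝ))).add
      (h2.smul_const (EuclideanSpace.single q (1 : ℝ)))).add_const _
  · rintro x ⟨hx1, hx2⟩ τ ⟨hτ0, hτ1⟩ hFy
    have hcos : 0 ≤ Real.cos x := Real.cos_nonneg_of_neg_pi_div_two_le_of_le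
      (by linarith [Real.pi_pos]) (by linarith)
    have hsin : 0 ≤ Real.sin x := Real.sin_nonneg_of_nonneg_of_le_pi (by linarith)
      (by linarith [Real.pi_pos])
    rw [sum_pqm hpq hpm hqm]
    set y : E := τ • arc p q m r t x with hy
    have hyp : y p = τ * (r * Real.cos x) := by
      rw [hy, PiLp.smul_apply, arc_p hpq hpm, smul_eq_mul]
    have hyq : y q = τ * (r * Real.sin x) := by
      rw [hy, PiLp.smul_apply, arc_q hpq hqm, smul_eq_mul]
    have hys : y ∈ surf F := by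
      refine ⟨?_, hFy⟩
      rw [hy, norm_smul, norm_arc hpq hpm hqm hrt, mul_one, Real.norm_eq_abs, abs_of_pos hτ0]
      exact hτ1.le
    have h3 := hw y hys (by rw [hyp]; positivity) (by rw [hyq]; positivity)
    rw [ww, hyp, hyq] at h3
    have e1 : ((r * -Real.sin x) • EuclideanSpace.single p (1 : ℝ) +
      (r * Real.cos x) • EuclideanSpace.single q (1 : ℝ) : E) p = r * -Real.sin x := by
      simp [hpq]
    have e2 : ((r * -Real.sin x) • EuclideanSpace.single p (1 : ℝ) +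
      (r * Real.cos x) • EuclideanSpace.single q (1 : ℝ) : E) q = r * Real.cos x := by
      simp [hpq.symm]
    have e3 : ((r * -Real.sin x) • EuclideanSpace.single p (1 : ℝ) +
      (r * Real.cos x) • EuclideanSpace.single q (1 : ℝ) : E) m = 0 := by
      simp [hpm.symm, hqm.symm]
    rw [e1, e2, e3]
    have h4 : τ * (r * Real.cos x) * pd q F y - τ * (r * Real.sin x) * pd p F y =
        τ * (r * -Real.sin x * pd p F y + r * Real.cos x * pd q F y + 0 * pd m F y) := by ring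
    rw [h4] at h3
    by_contra hcon
    push Not at hcon
    exact absurd h3 (not_le.2 (mul_pos hτ0 hcon))

end Pool.Agent.Helper78.FB
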