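import Pool.Agent.Helper78.FB.ADefs

/-!
# FB: further auxiliary definitions of the proof

* `gfun α β ε`: a smooth function equal to `α s` for `s ≥ 0` and to `β s` for `s ≤ -ε`.
* `barr κ a r`: the barrier `exp (-κ |y - a| ^ 2) - exp (-κ r ^ 2)`.
* `Super F v D`: `v ≥ 0` is a uniform limit of functions that are almost supersolutions on `D`.
* `sdel F a b δ = √(w ^ 2 + δ ^ 2)`, `w = ww F a b`.
* `cut η`: a smooth odd function, equal to `1` on `[η, ∞)`; `chi a b η y = cut η (y a) * cut η (y b)`; `kcut c`: smooth, `0` on `(-∞, c]` and `1` on `[2 c, ∞)`.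
* `arc`, `mer`: circular arcs on the unit sphere.
-/

set_option autoImplicit false

open MeasureTheory Filter
open scoped ContDiff Topology

namespace Pool.Agent.Helper78.FB

noncomputable def gfun (α β ε s : ℝ) : ℝ := s * (β + (α - β) * Real.smoothTransition (1 + s / ε))

noncomputable def barr (κ : ℝ) (a : E) (r : ℝ) (y : E) : ℝ :=
  Real.exp (-κ * ∑ i, (y i - a i) ^ 2) - Real.exp (-κ * r ^ 2)

/-- `v ≥ 0` is a uniform limit of functions `vn n` with `lap vn ≤ en` on the surface in `D`, `nd vn ≥ 0` on the boundary in `D`, and the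
errors `en ≥ 0` tend to `0` in the mean on every closed ball contained in `D`. -/
structure Super (F v : E → ℝ) (D : Set E) : Prop where
  nonneg : ∀ y ∈ surf F, 0 ≤ v y
  cont : ContinuousOn v (surf F)
  seq : ∃ vn en : ℕ → E → ℝ, (∀ n, ContDiff ℝ ∞ (vn n)) ∧ (∀ n, ContinuousOn (en n) (surf F)) ∧
    (∀ n, ∀ y ∈ surf F, 0 ≤ en n y) ∧ (∀ n, ∀ y ∈ surf F, y ∈ D → lap F (vn n) y ≤ en n y) ∧
    (∀ n, ∀ y ∈ bdry F, y ∈ D → 0 ≤ nd (vn n) y) ∧
    (∀ ε : ℝ, 0 < ε → ∀ᶠ n in atTop, ∀ y ∈ surf F, |vn n y - v y| ≤ ε) ∧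
    (∀ (a : E) (r : ℝ), Metric.closedBall a r ⊆ D → ∃ om : E → ℝ, ContDiff ℝ ∞ om ∧ (∀ y, 0 ≤ om y) ∧
      (∀ y ∈ Metric.closedBall a r, 1 ≤ om y) ∧ Tendsto (fun n => area F (fun y => om y * en n y)) atTop (𝓝 0))

noncomputable def sdel (F : E → ℝ) (a b : Fin 3) (δ : ℝ) (y : E) : ℝ := Real.sqrt (ww F a b y ^ 2 + δ ^ 2)

noncomputable def cut (η s : ℝ) : ℝ := 2 * Real.smoothTransition ((s / η + 1) / 2) - 1

noncomputable def chi (a b : Fin 3) (η : ℝ) (y : E) : ℝ := cut η (y a) * cut η (y b)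

noncomputable def kcut (c s : ℝ) : ℝ := Real.smoothTransition ((s - c) / c)

/-- The point `r cos s e_p + r sin s e_q + t e_m`. -/
noncomputable def arc (p q m : Fin 3) (r t s : ℝ) : E :=
  (r * Real.cos s) • EuclideanSpace.single p (1 : ℝ) + (r * Real.sin s) • EuclideanSpace.single q (1 : ℝ) +
    t • EuclideanSpace.single m (1 : ℝ)

/-- The point `cos x v + sin x e_c` of the meridian through `v`. -/
noncomputable def mer (c : Fin 3) (v : E) (x : ℝ) : E := Real.cos x • v + Real.sin x • EuclideanSpace.single c (1 : ℝ)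

end Pool.Agent.Helper78.FB
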