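import Pool.Agent.Helper94.FB.Green

/-!
# FB-27 BarFn: the barrier function

* `taylor`: the second derivatives of `F` are bounded on the (convex, compact) closed unit ball, so `|F a - F y - ∑ i, pd i F y * (a i - y i)| ≤ C ‖a - y‖ ^ 2` for `a, y` in it, and `F a = F y = 0`
  (one variable Taylor/mean value for `t ↦ F (y + t (a - y))`, `hasDerivAt_comp`).
* `pd_barr`: `pd i (barr κ a r) y = - 2 κ (y_i - a_i) exp(...)`.
* `lap_barr`: with `q = ∑ (y_i - a_i) ^ 2`, `m = ∑ pd i F y * (y_i - a_i)`: `pd j (pd i (barr κ a r)) y = exp(-κ q) (4 κ ^ 2 (y_i - a_i)(y_j - a_j) - 2 κ δ_ij)`, so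
  `lap = exp(-κ q) (4 κ ^ 2 (q - m ^ 2) - 2 κ (3 - 1))` (`grad_sq`).
* `barrier`: `ρ` with `C ^ 2 ρ ^ 2 ≤ 1 / 2`; if `‖y - a‖ ≤ ρ` then `m ^ 2 ≤ C ^ 2 q ^ 2 ≤ q / 2` (`taylor`), so `lap ≥ exp(-κ q) (2 κ ^ 2 q - 4 κ)`. With `κ = 4 / r1 ^ 2` and `q ≥ r1 ^ 2`: `2 κ ^ 2 q - 4 κ ≥ 4 κ`, `lap ≥ 4 κ exp(-κ ρ ^ 2) =: c`.
* `nd_barr`: `nd = - 2 κ exp(...) ∑ y_i (y_i - a_i)` and `∑ y_i (y_i - a_i) = 1 - ∑ y_i a_i ≥ 0` (Cauchy).
* `barr_bounds`: `norm_sq`.
-/

set_option autoImplicit false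

open MeasureTheory Filter
open scoped ContDiff Topology

namespace Pool.Agent.Helper78.FB

variable {F : E → ℝ}

set_option maxSynthPendingDepth 3 in
theorem taylor (h : FBMS F) : ∃ C : ℝ, 0 < C ∧ ∀ a ∈ surf F, ∀ y ∈ surf F,
    |∑ i, pd i F y * (y i - a i)| ≤ C * ∑ i, (y i - a i) ^ 2 := by
  have hF := h.smooth
  have hD : ContDiff ℝ ∞ (fderiv ℝ F) := hF.fderiv_right (m := ∞) (by simp)
  have hDD : Continuous (fderiv ℝ (fderiv ℝ F)) := hD.continuous_fderiv (by simp)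
  obtain ⟨C, hC⟩ := (isCompact_closedBall (0 : E) 1).exists_bound_of_continuousOn hDD.continuousOn
  have hC0 : 0 ≤ C := (norm_nonneg _).trans (hC 0 (by simp))
  refine ⟨C + 1, by linarith, fun a ha y hy => ?_⟩
  have haB : a ∈ Metric.closedBall (0 : E) 1 := by simpa using ha.1
  have hyB : y ∈ Metric.closedBall (0 : E) 1 := by simpa using hy.1
  have hseg : segment ℝ y a ⊆ Metric.closedBall (0 : E) 1 :=
    (convex_closedBall (0 : E) 1).segment_subset hyB haB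
  have hlip : ∀ x ∈ segment ℝ y a, ‖fderiv ℝ F x - fderiv ℝ F y‖ ≤ C * ‖a - y‖ := by
    intro x hx
    have h1 := (convex_closedBall (0 : E) 1).norm_image_sub_le_of_norm_fderiv_le (𝕜 := ℝ)
      (f := fderiv ℝ F) (fun z _ => hD.differentiable (by simp) z) hC hyB (hseg hx)
    refine h1.trans (mul_le_mul_of_nonneg_left ?_ hC0)
    rw [segment_eq_image'] at hx
    obtain ⟨θ, hθ, rfl⟩ := hx
    rw [add_sub_cancel_left, norm_smul, Real.norm_eq_abs, abs_of_nonneg hθ.1]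
    exact mul_le_of_le_one_left (norm_nonneg _) hθ.2
  have h2 := (convex_segment y a).norm_image_sub_le_of_norm_fderiv_le' (𝕜 := ℝ) (f := F)
    (φ := fderiv ℝ F y) (fun z _ => hF.differentiable (by simp) z) hlip
    (left_mem_segment ℝ y a) (right_mem_segment ℝ y a)
  rw [ha.2, hy.2, sub_zero, zero_sub, norm_neg, Real.norm_eq_abs, fderiv_eq hF] at h2
  have h3 : ∑ k, (a - y) k * pd k F y = -∑ i, pd i F y * (y i - a i) := by
    rw [← Finset.sum_neg_distrib]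
    refine Finset.sum_congr rfl fun k _ => ?_
    rw [PiLp.sub_apply]
    ring
  have h4 : ‖a - y‖ ^ 2 = ∑ i, (y i - a i) ^ 2 := by
    rw [norm_sq]
    refine Finset.sum_congr rfl fun k _ => ?_
    rw [PiLp.sub_apply]
    ring
  rw [h3, abs_neg] at h2
  rw [← h4]
  nlinarith [sq_nonneg ‖a - y‖]

private noncomputable def qf (a : E) (y : E) : ℝ := ∑ i, (y i - a i) ^ 2

private theorem contDiff_qf (a : E) : ContDiff ℝ ∞ (qf a) := by
  show ContDiff ℝ ∞ (fun y : E => ∑ i, (y i - a i) ^ 2)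
  exact ContDiff.sum fun i _ => ((contDiff_coord i).sub contDiff_const).pow 2

private theorem pd_coord_sub (i j : Fin 3) (c : ℝ) :
    pd i (fun y : E => y j - c) = fun _ => if i = j then 1 else 0 := by
  rw [pd_sub i (contDiff_coord j) contDiff_const, pd_coord, pd_const]
  funext y
  rw [sub_zero]

private theorem pd_qf (i : Fin 3) (a : E) : pd i (qf a) = fun y => 2 * (y i - a i) := by
  have h1 : pd i (fun y : E => ∑ j, (y j - a j) ^ 2) =
      fun y => ∑ j, pd i (fun y : E => (y j - a j) ^ 2) y :=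
    pd_sum i Finset.univ (fun j (y : E) => (y j - a j) ^ 2)
      fun j _ => ((contDiff_coord j).sub contDiff_const).pow 2
  have h2 : ∀ j : Fin 3, pd i (fun y : E => (y j - a j) ^ 2) =
      fun y => 2 * (y j - a j) * if i = j then 1 else 0 := by
    intro j
    have h3 : (fun y : E => (y j - a j) ^ 2) = fun y : E => (y j - a j) * (y j - a j) := by
      funext y
      ring
    rw [h3, pd_mul i ((contDiff_coord j).sub contDiff_const) ((contDiff_coord j).sub contDiff_const),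
      pd_coord_sub]
    funext y
    ring
  show pd i (fun y : E => ∑ j, (y j - a j) ^ 2) = _
  rw [h1]
  funext y
  simp only [h2]
  simp

private theorem contDiff_psi (κ : ℝ) : ContDiff ℝ ∞ (fun s : ℝ => Real.exp (-κ * s)) :=
  Real.contDiff_exp.comp (contDiff_const.mul contDiff_id)

private theorem deriv_psi (κ s : ℝ) : deriv (fun s : ℝ => Real.exp (-κ * s)) s =
    -κ * Real.exp (-κ * s) := by
  have h1 : HasDerivAt (fun s : ℝ => -κ * s) (-κ) s := by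
    simpa using (hasDerivAt_id s).const_mul (-κ)
  rw [h1.exp.deriv]
  ring

private theorem contDiff_ex (κ : ℝ) (a : E) : ContDiff ℝ ∞ (fun y => Real.exp (-κ * qf a y)) :=
  (contDiff_psi κ).comp (contDiff_qf a)

private theorem pd_ex (i : Fin 3) (κ : ℝ) (a : E) : pd i (fun y => Real.exp (-κ * qf a y)) =
    fun y => -2 * κ * (y i - a i) * Real.exp (-κ * qf a y) := by
  have h1 := pd_comp i (fun s : ℝ => Real.exp (-κ * s)) (contDiff_psi κ) (contDiff_qf a)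
  rw [h1]
  funext y
  rw [deriv_psi, pd_qf]
  ring

private theorem pd_barr (i : Fin 3) (κ : ℝ) (a : E) (r : ℝ) : pd i (barr κ a r) =
    fun y => -2 * κ * (y i - a i) * Real.exp (-κ * qf a y) := by
  show pd i (fun y : E => Real.exp (-κ * qf a y) - Real.exp (-κ * r ^ 2)) = _
  rw [pd_sub i (contDiff_ex κ a) contDiff_const, pd_ex, pd_const]
  funext y
  rw [sub_zero]

private theorem pd_pd_barr (i j : Fin 3) (κ : ℝ) (a : E) (r : ℝ) : pd j (pd i (barr κ a r)) =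
    fun y => Real.exp (-κ * qf a y) *
      (4 * κ ^ 2 * ((y i - a i) * (y j - a j)) - 2 * κ * if j = i then 1 else 0) := by
  rw [pd_barr]
  have h0 : ContDiff ℝ ∞ (fun y : E => y i - a i) := (contDiff_coord i).sub contDiff_const
  have h1 : pd j (fun y : E => -2 * κ * (y i - a i)) = fun _ => -2 * κ * if j = i then 1 else 0 := by
    rw [pd_const_mul j (-2 * κ) h0, pd_coord_sub]
  rw [pd_mul j (contDiff_const.mul h0) (contDiff_ex κ a), pd_ex, h1]
  funext y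
  ring

theorem lap_barr (h : FBMS F) (κ : ℝ) (a : E) (r : ℝ) {y : E} (hy : y ∈ surf F) :
    lap F (barr κ a r) y = Real.exp (-κ * ∑ i, (y i - a i) ^ 2) *
      (4 * κ ^ 2 * (∑ i, (y i - a i) ^ 2 - (∑ i, pd i F y * (y i - a i)) ^ 2) - 4 * κ) := by
  have hN := grad_sq h hy
  have e : Real.exp (-κ * ∑ i, (y i - a i) ^ 2) = Real.exp (-κ * qf a y) := rfl
  rw [e]
  unfold lap
  simp only [pd_pd_barr, Fin.sum_univ_three] at hN ⊢
  have h01 : (if (0 : Fin 3) = 1 then (1 : ℝ) else 0) = 0 := by simp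
  have h02 : (if (0 : Fin 3) = 2 then (1 : ℝ) else 0) = 0 := by simp
  have h10 : (if (1 : Fin 3) = 0 then (1 : ℝ) else 0) = 0 := by simp
  have h12 : (if (1 : Fin 3) = 2 then (1 : ℝ) else 0) = 0 := by simp
  have h20 : (if (2 : Fin 3) = 0 then (1 : ℝ) else 0) = 0 := by simp
  have h21 : (if (2 : Fin 3) = 1 then (1 : ℝ) else 0) = 0 := by simp
  simp only [if_true, h01, h02, h10, h12, h20, h21]
  linear_combination (2 * κ * Real.exp (-κ * qf a y)) * hN

theorem barrier (h : FBMS F) : ∃ ρ : ℝ, 0 < ρ ∧ ∀ r1 : ℝ, 0 < r1 → ∃ κ c : ℝ, 0 < κ ∧ 0 < c ∧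
    ∀ (r : ℝ), ∀ a ∈ surf F, ∀ y ∈ surf F, r1 ≤ ‖y - a‖ → ‖y - a‖ ≤ ρ → c ≤ lap F (barr κ a r) y := by
  obtain ⟨C, hC, hT⟩ := taylor h
  refine ⟨1 / (2 * C), by positivity, fun r1 hr1 => ?_⟩
  refine ⟨4 / r1 ^ 2, 4 * (4 / r1 ^ 2) * Real.exp (-(4 / r1 ^ 2) * (1 / (2 * C)) ^ 2), by positivity,
    by positivity, ?_⟩
  intro r a ha y hy h1 h2
  rw [lap_barr h _ a r hy]
  have hT' := hT a ha y hy
  have hq : ‖y - a‖ ^ 2 = ∑ i, (y i - a i) ^ 2 := by
    rw [norm_sq]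
    exact Finset.sum_congr rfl fun k _ => by rw [PiLp.sub_apply]
  set κ : ℝ := 4 / r1 ^ 2 with hκ
  set q : ℝ := ∑ i, (y i - a i) ^ 2 with hqd
  set m : ℝ := ∑ i, pd i F y * (y i - a i) with hm
  have hκ0 : 0 < κ := by positivity
  have hq1 : r1 ^ 2 ≤ q := by
    rw [← hq]
    exact pow_le_pow_left₀ hr1.le h1 2
  have hq2 : q ≤ (1 / (2 * C)) ^ 2 := by
    rw [← hq]
    exact pow_le_pow_left₀ (norm_nonneg _) h2 2
  have hq0 : 0 < q := lt_of_lt_of_le (by positivity) hq1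
  have hm2 : m ^ 2 ≤ q / 2 := by
    have h3 : m ^ 2 ≤ (C * q) ^ 2 := by
      rw [← sq_abs m]
      exact pow_le_pow_left₀ (abs_nonneg _) hT' 2
    have h4 : C ^ 2 * q ≤ 1 / 4 := by
      calc C ^ 2 * q ≤ C ^ 2 * (1 / (2 * C)) ^ 2 := mul_le_mul_of_nonneg_left hq2 (by positivity)
        _ = 1 / 4 := by
          field_simp
          norm_num
    nlinarith
  have hκr : κ * r1 ^ 2 = 4 := by
    rw [hκ]
    field_simp
  have h5 : 4 * κ ≤ 4 * κ ^ 2 * (q - m ^ 2) - 4 * κ := by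
    have h6 : 4 ≤ κ * q := by
      rw [← hκr]
      exact mul_le_mul_of_nonneg_left hq1 hκ0.le
    have h7 : κ ^ 2 * (q / 2) ≤ κ ^ 2 * (q - m ^ 2) :=
      mul_le_mul_of_nonneg_left (by linarith) (by positivity)
    nlinarith
  have h8 : Real.exp (-κ * (1 / (2 * C)) ^ 2) ≤ Real.exp (-κ * q) := by
    apply Real.exp_le_exp.2
    nlinarith
  calc 4 * κ * Real.exp (-κ * (1 / (2 * C)) ^ 2) ≤ 4 * κ * Real.exp (-κ * q) :=
        mul_le_mul_of_nonneg_left h8 (by positivity)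
    _ = Real.exp (-κ * q) * (4 * κ) := by ring
    _ ≤ _ := mul_le_mul_of_nonneg_left h5 (Real.exp_pos _).le

theorem nd_barr {κ : ℝ} (hκ : 0 < κ) {a : E} (ha : ‖a‖ ≤ 1) (r : ℝ) {y : E} (hy : ‖y‖ = 1) :
    nd (barr κ a r) y ≤ 0 := by
  unfold nd
  simp only [pd_barr]
  have h1 : ∑ k, y k ^ 2 = 1 := by
    rw [← norm_sq, hy, one_pow]
  have h2 : ∑ k, y k * a k ≤ 1 := by
    have h3 := Finset.sum_mul_sq_le_sq_mul_sq Finset.univ (fun k => y k) (fun k => a k)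
    have h4 : ∑ k, a k ^ 2 ≤ 1 := by
      rw [← norm_sq]
      nlinarith [norm_nonneg a]
    rw [h1, one_mul] at h3
    nlinarith
  have h3 : ∑ k, y k * (-2 * κ * (y k - a k) * Real.exp (-κ * qf a y)) =
      -(2 * κ * Real.exp (-κ * qf a y)) * (∑ k, y k ^ 2 - ∑ k, y k * a k) := by
    simp only [Fin.sum_univ_three]
    ring
  rw [h3, h1]
  have h4 : 0 ≤ 2 * κ * Real.exp (-κ * qf a y) := by positivity
  nlinarith

theorem barr_le_one {κ : ℝ} (hκ : 0 < κ) (a : E) (r : ℝ) (y : E) : barr κ a r y ≤ 1 := by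
  unfold barr
  have h1 : Real.exp (-κ * ∑ i, (y i - a i) ^ 2) ≤ 1 := by
    apply Real.exp_le_one_iff.2
    have : 0 ≤ ∑ i, (y i - a i) ^ 2 := Finset.sum_nonneg fun i _ => sq_nonneg _
    nlinarith
  have h2 := Real.exp_pos (-κ * r ^ 2)
  linarith

theorem barr_pos {κ : ℝ} (hκ : 0 < κ) (a : E) {r : ℝ} (hr : 0 < r) {y : E} (hy : ‖y - a‖ < r) :
    0 < barr κ a r y := by
  unfold barr
  have hq : ‖y - a‖ ^ 2 = ∑ i, (y i - a i) ^ 2 := by
    rw [norm_sq]
    exact Finset.sum_congr rfl fun k _ => by rw [PiLp.sub_apply]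
  rw [← hq, sub_pos]
  apply Real.exp_lt_exp.2
  have h1 : ‖y - a‖ ^ 2 < r ^ 2 := pow_lt_pow_left₀ hy (norm_nonneg _) two_ne_zero
  nlinarith

theorem barr_nonpos {κ : ℝ} (hκ : 0 < κ) (a : E) {r : ℝ} (hr : 0 < r) {y : E} (hy : r ≤ ‖y - a‖) :
    barr κ a r y ≤ 0 := by
  unfold barr
  have hq : ‖y - a‖ ^ 2 = ∑ i, (y i - a i) ^ 2 := by
    rw [norm_sq]
    exact Finset.sum_congr rfl fun k _ => by rw [PiLp.sub_apply]
  rw [← hq, sub_nonpos]
  apply Real.exp_le_exp.2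
  have h1 : r ^ 2 ≤ ‖y - a‖ ^ 2 := pow_le_pow_left₀ hr.le hy 2
  nlinarith

end Pool.Agent.Helper78.FB
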