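import Pool.Agent.Helper94.FB.BarFn

/-!
# FB-28 BarLemma: positivity spreads to balls of a uniform radius

`ρ` from `barrier`. Let `S : Super F v D`, `a ∈ surf F`, `0 < r ≤ ρ`, `closedBall a r ⊆ D`, `v a > 0`. As `v` is continuous on `surf F`, there are `0 < r1 < r`, `m > 0` with `v ≥ 2 m` on `surf F ∩ closedBall a r1`, `m ≤ 1`.
`κ, c` from `barrier` for `r1`; `b = barr κ a r`. Let `vn, en` be the sequences of `S.seq` and `om` the function for `(a, r)`. Fix `0 < η < m` and put `Θ = expNegInvGlue` (smooth, `0 ≤ Θ ≤ 1`, `Θ = 0` on `(-∞, 0]`, `> 0` on `(0, ∞)`,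
`deriv Θ ≥ 0` (monotone)), `z_n = m b - η - vn n`. Let `n` be so large that `|vn n - v| ≤ η / 2` on `surf F`. On `surf F`:
 - outside `ball a r`: `b ≤ 0` (`barr_nonpos`), `vn n ≥ - η / 2`, so `z_n < 0`. In `closedBall a r1`: `z_n ≤ m - η - (2 m - η / 2) < 0` (`barr_le_one`). So `z_n y > 0` only if `r1 < ‖y - a‖ < r`, hence `y ∈ D`.
 - `Θ(z_n) lap z_n ≥ Θ(z_n) (m c - en n)` (where `Θ(z_n) ≠ 0`: `lap z_n = m lap b - lap (vn n) ≥ m c - en n`), `Θ'(z_n) tang(z_n, z_n) ≥ 0` (`tang_nonneg`), and `Θ(z_n) nd z_n ≤ 0` on `bdry F` (`nd_barr`, `nd (vn n) ≥ 0` in `D`).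
`green` with `f = z_n`, `g = Θ ∘ z_n` (`tang F z_n (Θ ∘ z_n) = Θ'(z_n) tang F z_n z_n`, `pd_comp`): `area (Θ(z_n) lap z_n) ≤ 0`, so `m c area (Θ(z_n)) ≤ area (Θ(z_n) en n) ≤ area (om en n) → 0` (where `Θ(z_n) ≠ 0` we have `om ≥ 1`; `Θ ≤ 1`;
the functions `en n` are only continuous on `surf F`, use `area_mono`). And `area (Θ(z_n)) → area (Θ(m b - η - v))` (`area_tendsto`), so this area is `0`, and as the integrand is continuous and `≥ 0`, it is `0` on `surf F` (`area_pos`):
`v ≥ m b - η` on `surf F`. Let `η → 0`: `v ≥ m b > 0` on `surf F ∩ ball a r` (`barr_pos`).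
-/

set_option autoImplicit false

open MeasureTheory Filter
open scoped ContDiff Topology

namespace Pool.Agent.Helper78.FB

variable {F : E → ℝ}

private theorem bl_pd {f g : E → ℝ} (hf : ContDiff ℝ ∞ f) (hg : ContDiff ℝ ∞ g) (m η : ℝ)
    (i : Fin 3) : pd i (fun y => m * f y - η - g y) = fun y => m * pd i f y - pd i g y := by
  have h1 : ContDiff ℝ ∞ (fun y : E => m * f y) := contDiff_const.mul hf
  have h2 : ContDiff ℝ ∞ (fun _ : E => η) := contDiff_const
  rw [pd_sub i (h1.sub h2) hg, pd_sub i h1 h2, pd_const_mul i m hf, pd_const]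
  funext y
  simp

private theorem bl_lap {f g : E → ℝ} (hf : ContDiff ℝ ∞ f) (hg : ContDiff ℝ ∞ g) (m η : ℝ)
    (y : E) : lap F (fun y => m * f y - η - g y) y = m * lap F f y - lap F g y := by
  have h1 : ∀ i j, pd i (fun y => m * pd j f y - pd j g y) =
      fun y => m * pd i (pd j f) y - pd i (pd j g) y := by
    intro i j
    have h2 : ContDiff ℝ ∞ (fun y : E => m * pd j f y) := contDiff_const.mul (contDiff_pd j hf)
    rw [pd_sub i h2 (contDiff_pd j hg), pd_const_mul i m (contDiff_pd j hf)]
  unfold lap
  simp only [bl_pd hf hg, h1, Fin.sum_univ_three]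
  ring

private theorem bl_nd {f g : E → ℝ} (hf : ContDiff ℝ ∞ f) (hg : ContDiff ℝ ∞ g) (m η : ℝ)
    (y : E) : nd (fun y => m * f y - η - g y) y = m * nd f y - nd g y := by
  unfold nd
  simp only [bl_pd hf hg, Fin.sum_univ_three]
  ring

private theorem bl_tang {z : E → ℝ} (hz : ContDiff ℝ ∞ z) {θ : ℝ → ℝ} (hθ : ContDiff ℝ ∞ θ)
    (y : E) : tang F z (fun y => θ (z y)) y = deriv θ (z y) * tang F z z y := by
  unfold tang
  simp only [pd_comp _ θ hθ hz, Fin.sum_univ_three]
  ring

private theorem len_nonpos (h : FBMS F) {f : E → ℝ} (hf : ∀ y ∈ bdry F, f y ≤ 0) :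
    len F f ≤ 0 := by
  have h1 : 0 ≤ len F (fun y => (-1) * f y) :=
    len_nonneg h fun y hy => by linarith [hf y hy]
  rw [len_const_mul] at h1
  linarith

theorem bar_lemma (h : FBMS F) : ∃ ρ : ℝ, 0 < ρ ∧ ∀ (v : E → ℝ) (D : Set E), Super F v D → ∀ a ∈ surf F,
    ∀ r : ℝ, 0 < r → r ≤ ρ → Metric.closedBall a r ⊆ D → 0 < v a → ∀ y ∈ surf F, y ∈ Metric.ball a r → 0 < v y := by
  obtain ⟨ρ, hρ, hbar⟩ := barrier h
  refine ⟨ρ, hρ, ?_⟩
  intro v D S a ha r hr hrρ hD hva
  -- the radius `r1` and the constant `m`
  obtain ⟨r1, hr1, hr1r, hr1v⟩ : ∃ r1 : ℝ, 0 < r1 ∧ r1 < r ∧ ∀ y ∈ surf F, ‖y - a‖ ≤ r1 →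
      v a / 2 ≤ v y := by
    have h1 := S.cont a ha
    rw [Metric.continuousWithinAt_iff] at h1
    obtain ⟨d, hd, h2⟩ := h1 (v a / 2) (by linarith)
    refine ⟨min d r / 2, by positivity, ?_, ?_⟩
    · have := min_le_right d r
      have : 0 < min d r := lt_min hd hr
      linarith
    · intro y hy hya
      have h3 : dist y a < d := by
        rw [dist_eq_norm]
        have h4 := min_le_left d r
        have : 0 < min d r := lt_min hd hr
        linarith
      have h4 := h2 hy h3
      rw [Real.dist_eq] at h4
      have h5 := (abs_lt.1 h4).1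
      linarith
  obtain ⟨m, hm, hm1, hmv⟩ : ∃ m : ℝ, 0 < m ∧ m ≤ 1 ∧ ∀ y ∈ surf F, ‖y - a‖ ≤ r1 →
      2 * m ≤ v y := by
    refine ⟨min (v a / 4) 1, lt_min (by linarith) one_pos, min_le_right _ _, ?_⟩
    intro y hy hya
    have h1 := hr1v y hy hya
    have h2 := min_le_left (v a / 4) 1
    linarith
  obtain ⟨κ, c, hκ, hc, hlapb⟩ := hbar r1 hr1
  obtain ⟨b, hb⟩ : ∃ b : E → ℝ, b = barr κ a r := ⟨_, rfl⟩
  have hbs : ContDiff ℝ ∞ b := by rw [hb]; exact contDiff_barr κ a r
  have ha1 : ‖a‖ ≤ 1 := ha.1
  obtain ⟨vn, en, hvn, hen, hen0, hlap, hnd, hconv, hom⟩ := S.seq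
  obtain ⟨om, homs, hom0, hom1, homt⟩ := hom a r hD
  have hθs : ContDiff ℝ ∞ Real.smoothTransition := Real.smoothTransition.contDiff
  -- the claim
  have claim : ∀ η : ℝ, 0 < η → ∀ y ∈ surf F, m * b y - η ≤ v y := by
    intro η hη
    have hev := hconv (η / 2) (by linarith)
    obtain ⟨z, hz⟩ : ∃ z : ℕ → E → ℝ, z = fun n y => m * b y - η - vn n y := ⟨_, rfl⟩
    have hzy : ∀ n y, z n y = m * b y - η - vn n y := fun n y => by rw [hz]
    have hzs : ∀ n, ContDiff ℝ ∞ (z n) := fun n => by
      rw [hz]
      exact ((contDiff_const.mul hbs).sub contDiff_const).sub (hvn n)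
    have hθz : ∀ n, ContDiff ℝ ∞ (fun y => Real.smoothTransition (z n y)) := fun n =>
      hθs.comp (hzs n)
    have hpos : ∀ᶠ n in atTop, ∀ y ∈ surf F, 0 < z n y → r1 < ‖y - a‖ ∧ ‖y - a‖ < r := by
      filter_upwards [hev] with n hn y hy hzp
      have h1 := (abs_le.1 (hn y hy)).1
      rw [hzy] at hzp
      constructor
      · by_contra hc1
        push Not at hc1
        have h2 := hmv y hy hc1
        have h3 : b y ≤ 1 := by rw [hb]; exact barr_le_one hκ a r y
        have h4 : m * b y ≤ m := by nlinarith
        linarith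
      · by_contra hc1
        push Not at hc1
        have h2 : b y ≤ 0 := by rw [hb]; exact barr_nonpos hκ a hr hc1
        have h3 := S.nonneg y hy
        have h4 : m * b y ≤ 0 := mul_nonpos_of_nonneg_of_nonpos hm.le h2
        linarith
    have hmain : ∀ᶠ n in atTop, m * c * area F (fun y => Real.smoothTransition (z n y)) ≤
        area F (fun y => om y * en n y) := by
      filter_upwards [hpos] with n hn
      have hcont1 : ContinuousOn (fun y => Real.smoothTransition (z n y)) (surf F) :=
        (hθz n).continuous.continuousOn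
      have hcont2 : ContinuousOn (fun y => om y * en n y) (surf F) :=
        homs.continuous.continuousOn.mul (hen n)
      -- pointwise inequality
      have hpt : ∀ y ∈ surf F, m * c * Real.smoothTransition (z n y) - om y * en n y ≤
          Real.smoothTransition (z n y) * lap F (z n) y +
            tang F (z n) (fun y => Real.smoothTransition (z n y)) y := by
        intro y hy
        have h1 : 0 ≤ tang F (z n) (fun y => Real.smoothTransition (z n y)) y := by
          rw [bl_tang (hzs n) hθs]
          exact mul_nonneg Real.smoothTransition.monotone.deriv_nonneg (tang_nonneg h _ hy)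
        have h2 : 0 ≤ om y * en n y := mul_nonneg (hom0 y) (hen0 n y hy)
        by_cases hzp : 0 < z n y
        · obtain ⟨h3, h4⟩ := hn y hy hzp
          have hyb : y ∈ Metric.closedBall a r := by
            rw [Metric.mem_closedBall, dist_eq_norm]
            exact h4.le
          have h5 : c ≤ lap F b y := by
            rw [hb]
            exact hlapb r a ha y hy h3.le (h4.le.trans hrρ)
          have h6 : lap F (vn n) y ≤ en n y := hlap n y hy (hD hyb)
          have h7 : lap F (z n) y = m * lap F b y - lap F (vn n) y := by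
            rw [hz]
            exact bl_lap hbs (hvn n) m η y
          have h8 : m * c - en n y ≤ lap F (z n) y := by
            rw [h7]
            have := mul_le_mul_of_nonneg_left h5 hm.le
            linarith
          have h9 := Real.smoothTransition.nonneg (z n y)
          have h10 := Real.smoothTransition.le_one (z n y)
          have h11 := mul_le_mul_of_nonneg_left h8 h9
          have h12 : Real.smoothTransition (z n y) * en n y ≤ om y * en n y :=
            mul_le_mul_of_nonneg_right (h10.trans (hom1 y hyb)) (hen0 n y hy)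
          nlinarith
        · have h3 : Real.smoothTransition (z n y) = 0 :=
            Real.smoothTransition.zero_of_nonpos (not_lt.1 hzp)
          rw [h3]
          linarith
      have hbd : len F (fun y => Real.smoothTransition (z n y) * nd (z n) y) ≤ 0 := by
        apply len_nonpos h
        intro y hy
        have hys : y ∈ surf F := ⟨le_of_eq hy.1, hy.2⟩
        by_cases hzp : 0 < z n y
        · obtain ⟨h3, h4⟩ := hn y hys hzp
          have hyb : y ∈ Metric.closedBall a r := by
            rw [Metric.mem_closedBall, dist_eq_norm]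
            exact h4.le
          have h5 : nd b y ≤ 0 := by
            rw [hb]
            exact nd_barr hκ ha1 r hy.1
          have h6 : 0 ≤ nd (vn n) y := hnd n y hy (hD hyb)
          have h7 : nd (z n) y = m * nd b y - nd (vn n) y := by
            rw [hz]
            exact bl_nd hbs (hvn n) m η y
          have h8 : nd (z n) y ≤ 0 := by
            rw [h7]
            have := mul_nonpos_of_nonneg_of_nonpos hm.le h5
            linarith
          exact mul_nonpos_of_nonneg_of_nonpos (Real.smoothTransition.nonneg _) h8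
        · have h3 : Real.smoothTransition (z n y) = 0 :=
            Real.smoothTransition.zero_of_nonpos (not_lt.1 hzp)
          rw [h3, zero_mul]
      have hg := green h (hzs n) (hθz n)
      have hcont3 : ContinuousOn (fun y => Real.smoothTransition (z n y) * lap F (z n) y +
            tang F (z n) (fun y => Real.smoothTransition (z n y)) y) (surf F) :=
        (((hθz n).mul (contDiff_lap h.smooth (hzs n))).add
          (contDiff_tang h.smooth (hzs n) (hθz n))).continuous.continuousOn
      have h1 := area_mono h ((hcont1.const_smul (m * c)).sub hcont2) hcont3 hpt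
      have h2 : area F (fun y => m * c * Real.smoothTransition (z n y) - om y * en n y) =
          m * c * area F (fun y => Real.smoothTransition (z n y)) -
            area F (fun y => om y * en n y) := by
        rw [← area_const_mul]
        exact area_sub h (hcont1.const_smul (m * c)) hcont2
      have h3 : area F (fun y => m * c * Real.smoothTransition (z n y) - om y * en n y) ≤
          area F (fun y => Real.smoothTransition (z n y) * lap F (z n) y +
            tang F (z n) (fun y => Real.smoothTransition (z n y)) y) := h1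
      rw [h2, hg] at h3
      linarith
    have hlim : Tendsto (fun n => area F (fun y => Real.smoothTransition (z n y))) atTop
        (𝓝 (area F (fun y => Real.smoothTransition (m * b y - η - v y)))) := by
      apply area_tendsto h _ _ (fun n => (hθz n).continuous.continuousOn) 1
      · intro n y _
        rw [abs_of_nonneg (Real.smoothTransition.nonneg _)]
        exact Real.smoothTransition.le_one _
      · intro y hy
        have h1 : Tendsto (fun n => vn n y) atTop (𝓝 (v y)) := by
          rw [Metric.tendsto_atTop']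
          intro ε hε
          obtain ⟨n0, hn0⟩ := (hconv (ε / 2) (by linarith)).exists_forall_of_atTop
          refine ⟨n0, fun n hn => ?_⟩
          rw [Real.dist_eq]
          have := hn0 n hn.le y hy
          linarith
        have h2 : Tendsto (fun n => z n y) atTop (𝓝 (m * b y - η - v y)) := by
          simp only [hzy]
          exact tendsto_const_nhds.sub h1
        exact (Real.smoothTransition.continuous.tendsto _).comp h2
    have hle : m * c * area F (fun y => Real.smoothTransition (m * b y - η - v y)) ≤ 0 :=
      le_of_tendsto_of_tendsto (hlim.const_mul (m * c)) homt hmain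
    intro y hy
    by_contra hcon
    push Not at hcon
    have hcont : ContinuousOn (fun y => Real.smoothTransition (m * b y - η - v y)) (surf F) := by
      apply Real.smoothTransition.continuous.comp_continuousOn
      exact ((hbs.continuous.continuousOn.const_smul m).sub continuousOn_const).sub S.cont
    have h1 := area_pos h hcont (fun y _ => Real.smoothTransition.nonneg _) hy
      (Real.smoothTransition.pos_of_pos (by linarith))
    have h2 : 0 < m * c := mul_pos hm hc
    have h3 := mul_pos h2 h1
    linarith
  intro y hy hyb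
  have h1 : 0 < b y := by
    rw [hb]
    apply barr_pos hκ a hr
    rw [← dist_eq_norm]
    exact hyb
  have h2 : 0 < m * b y := mul_pos hm h1
  have h3 := claim (m * b y / 2) (by linarith) y hy
  linarith

end Pool.Agent.Helper78.FB
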