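import Pool.Agent.Helper94.FB.SymInt
import Pool.Agent.Helper94.FB.BDefs

/-!
# FB-25 Bump: a symmetric bump function (Mathlib and `Parity`)

`om y = Φ (fun l => y l ^ 2)` where `Φ : (Fin 3 → ℝ) → ℝ` is a smooth bump function centered at `(p_l ^ 2)_l` (`ContDiffBump`, `rOut = δ`; or the product over `l` of one variable bumps). It is even in every variable
(`refl_apply`), smooth, `≥ 0`, `om p = 1`. Support: if `y ∈ tsupport om` then `|y_l ^ 2 - p_l ^ 2| ≤ δ` for all `l` (this set is closed). Choose `y' l = |y l|` if `0 ≤ p l` and `- |y l|` otherwise; then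
`|y' l - p l| = ||y l| - |p l||` and `(|y l| - |p l|) ^ 2 ≤ ||y l| - |p l|| (|y l| + |p l|) = |y_l ^ 2 - p_l ^ 2| ≤ δ`, so `‖y' - p‖ ^ 2 ≤ 3 δ < ε ^ 2` for `δ` small.
-/

set_option autoImplicit false

open MeasureTheory Filter
open scoped ContDiff Topology

namespace Pool.Agent.Helper78.FB

private noncomputable def qf (p : E) (y : E) : ℝ := ∑ l, (y l * y l - p l * p l) ^ 2

private theorem contDiff_qf (p : E) : ContDiff ℝ ∞ (qf p) := by
  unfold qf
  exact ContDiff.sum fun l _ => (((contDiff_coord l).mul (contDiff_coord l)).sub contDiff_const).pow 2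

private theorem qf_refl (p : E) (l : Fin 3) (y : E) : qf p (refl l y) = qf p y := by
  unfold qf
  refine Finset.sum_congr rfl fun j _ => ?_
  rw [refl_apply]
  have h : sg j l * y j * (sg j l * y j) = (sg j l * sg j l) * (y j * y j) := by ring
  rw [h, sg_mul_self, one_mul]

private theorem sq_sub_le {u v : ℝ} (hu : 0 ≤ u) (hv : 0 ≤ v) : (u - v) ^ 2 ≤ |u * u - v * v| := by
  rcases le_total u v with h | h
  · rw [abs_of_nonpos (by nlinarith)]
    nlinarith
  · rw [abs_of_nonneg (by nlinarith)]
    nlinarith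

theorem exists_bump (p : E) {ε : ℝ} (hε : 0 < ε) : ∃ om : E → ℝ, ContDiff ℝ ∞ om ∧ (∀ l, Par l 1 om) ∧
    (∀ y, 0 ≤ om y) ∧ 0 < om p ∧
    ∀ y ∈ tsupport om, ∃ y' ∈ Metric.ball p ε, ∀ l, |y l| = |y' l| := by
  set δ : ℝ := ε ^ 2 / 4 with hδ
  have hδ0 : 0 < δ := by positivity
  refine ⟨fun y => Real.smoothTransition (1 - qf p y / δ ^ 2), ?_, ?_, ?_, ?_, ?_⟩
  · exact Real.smoothTransition.contDiff.comp
      (contDiff_const.sub ((contDiff_qf p).div_const _))
  · intro l y
    show Real.smoothTransition (1 - qf p (refl l y) / δ ^ 2)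
      = 1 * Real.smoothTransition (1 - qf p y / δ ^ 2)
    rw [qf_refl, one_mul]
  · intro y
    exact Real.smoothTransition.nonneg _
  · have h1 : qf p p = 0 := by
      unfold qf
      simp
    show 0 < Real.smoothTransition (1 - qf p p / δ ^ 2)
    rw [h1, zero_div, sub_zero, Real.smoothTransition.one]
    exact one_pos
  · intro y hy
    have hclosed : IsClosed {y : E | qf p y ≤ δ ^ 2} :=
      isClosed_le (contDiff_qf p).continuous continuous_const
    have hsub : tsupport (fun y => Real.smoothTransition (1 - qf p y / δ ^ 2)) ⊆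
        {y : E | qf p y ≤ δ ^ 2} := by
      refine closure_minimal ?_ hclosed
      intro z hz
      by_contra hcon
      have hcon' : δ ^ 2 < qf p z := not_le.1 hcon
      refine hz (Real.smoothTransition.zero_of_nonpos ?_)
      have h1 : 1 ≤ qf p z / δ ^ 2 := by
        rw [le_div_iff₀ (by positivity), one_mul]
        exact hcon'.le
      linarith
    have hq : qf p y ≤ δ ^ 2 := hsub hy
    have hcomp : ∀ l, |y l * y l - p l * p l| ≤ δ := by
      intro l
      have h1 : (y l * y l - p l * p l) ^ 2 ≤ qf p y := by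
        unfold qf
        exact Finset.single_le_sum (f := fun l => (y l * y l - p l * p l) ^ 2)
          (fun j _ => sq_nonneg _) (Finset.mem_univ l)
      exact abs_le_of_sq_le_sq (h1.trans hq) hδ0.le
    let y' : E := WithLp.toLp 2 (fun l => if 0 ≤ p l then |y l| else -|y l|)
    have hy' : ∀ l, y' l = if 0 ≤ p l then |y l| else -|y l| := fun l => rfl
    refine ⟨y', ?_, ?_⟩
    · rw [Metric.mem_ball, dist_eq_norm]
      have h1 : ‖y' - p‖ ^ 2 ≤ 3 * δ := by
        rw [norm_sq]
        have h2 : ∀ l ∈ (Finset.univ : Finset (Fin 3)), (y' - p) l ^ 2 ≤ δ := by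
          intro l _
          have h3 : (y' - p) l = y' l - p l := rfl
          have h4 : (y' l - p l) ^ 2 = (|y l| - |p l|) ^ 2 := by
            rw [hy']
            split_ifs with h
            · rw [abs_of_nonneg h]
            · rw [abs_of_neg (not_le.1 h)]
              ring
          rw [h3, h4]
          refine (sq_sub_le (abs_nonneg _) (abs_nonneg _)).trans ?_
          rw [abs_mul_abs_self, abs_mul_abs_self]
          exact hcomp l
        refine (Finset.sum_le_sum h2).trans (le_of_eq ?_)
        simp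
      have h2 : ‖y' - p‖ ^ 2 < ε ^ 2 := by
        refine lt_of_le_of_lt h1 ?_
        rw [hδ]
        nlinarith [pow_pos hε 2]
      exact lt_of_pow_lt_pow_left₀ 2 hε.le h2
    · intro l
      rw [hy']
      split_ifs
      · rw [abs_abs]
      · rw [abs_neg, abs_abs]

end Pool.Agent.Helper78.FB
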