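import Pool.Agent.Helper78.FB.Integ
import Pool.Agent.Helper78.FB.Parity
import Pool.Agent.Helper94.FB.BDefs

/-!
# FB-16 SymInt: integrals and reflections

`refl l` is an isometry and an involution (`isometry_refl`, `refl_refl`), so a measurable equivalence preserving every Hausdorff measure (`Isometry.hausdorffMeasure_image`, or `IsometryEquiv` and
`IsometryEquiv.measurePreserving_hausdorffMeasure`), and it maps `surf F` and `bdry F` onto themselves (`mem_surf`, `mem_bdry`). So `area F (f ∘ refl l) = area F f` (`MeasurePreserving.setIntegral_preimage_emb`), for every `f`.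
`area_odd`: `area F f = area F (f ∘ refl l) = area F (- f) = - area F f`.
`par_abs`: if `|y l| = |y' l|` for all `l`, then `y'` is obtained from `y` by at most three reflections (`refl_apply`); cases on the signs.
-/

set_option autoImplicit false

open MeasureTheory Filter
open scoped ContDiff Topology

namespace Pool.Agent.Helper78.FB

variable {F : E → ℝ} (l : Fin 3)

/-- The reflection as an isometric equivalence. -/
private noncomputable def reflE : E ≃ᵢ E :=
  IsometryEquiv.mk ⟨refl l, refl l, fun y => refl_refl l y, fun y => refl_refl l y⟩ (isometry_refl l)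

private lemma int_refl (d : ℝ) (S : Set E) (hS : ∀ y, refl l y ∈ S ↔ y ∈ S) (f : E → ℝ) :
    ∫ y in S, f (refl l y) ∂μH[d] = ∫ y in S, f y ∂μH[d] := by
  have h1 : MeasurePreserving (reflE l) (μH[d]) (μH[d]) :=
    (reflE l).measurePreserving_hausdorffMeasure d
  have h2 := h1.setIntegral_preimage_emb (reflE l).toHomeomorph.measurableEmbedding f S
  have h3 : (reflE l) ⁻¹' S = S := by
    ext y
    exact hS y
  rw [h3] at h2
  exact h2

theorem area_refl (he : Par l 1 F) (f : E → ℝ) : area F (fun y => f (refl l y)) = area F f := by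
  unfold area
  rw [int_refl l 2 (surf F) (fun y => mem_surf l he) f]

theorem len_refl (he : Par l 1 F) (f : E → ℝ) : len F (fun y => f (refl l y)) = len F f := by
  unfold len
  rw [int_refl l 1 (bdry F) (fun y => mem_bdry l he) f]

theorem area_odd (he : Par l 1 F) {f : E → ℝ} (hf : Par l (-1) f) : area F f = 0 := by
  have h1 := area_refl l he f
  have h2 : (fun y => f (refl l y)) = fun y => (-1) * f y := by
    funext y
    exact hf y
  rw [h2, area_const_mul] at h1
  linarith

theorem len_odd (he : Par l 1 F) {f : E → ℝ} (hf : Par l (-1) f) : len F f = 0 := by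
  have h1 := len_refl l he f
  have h2 : (fun y => f (refl l y)) = fun y => (-1) * f y := by
    funext y
    exact hf y
  rw [h2, len_const_mul] at h1
  linarith

omit F in
private lemma par_step {f : E → ℝ} (hf : Par l 1 f) {z w : E} (hj : ∀ j, j ≠ l → z j = w j)
    (hl : |z l| = |w l|) : f z = f w := by
  rcases abs_eq_abs.1 hl with h | h
  · have e : z = w := by
      ext j
      by_cases hjl : j = l
      · rw [hjl, h]
      · exact hj j hjl
    rw [e]
  · have e : z = refl l w := by
      ext j
      rw [refl_apply]
      unfold sg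
      by_cases hjl : j = l
      · rw [if_pos hjl, hjl, h]
        ring
      · rw [if_neg hjl, hj j hjl]
        ring
    rw [e, hf w, one_mul]

theorem par_abs {f : E → ℝ} (hf : ∀ l, Par l 1 f) {y y' : E} (hy : ∀ l, |y l| = |y' l|) : f y = f y' := by
  have h1 : f y = f (WithLp.toLp 2 ![y' 0, y 1, y 2]) := by
    refine par_step 0 (hf 0) ?_ ?_
    · intro j hj
      fin_cases j
      · exact absurd rfl hj
      · rfl
      · rfl
    · exact hy 0
  have h2 : f (WithLp.toLp 2 ![y' 0, y 1, y 2]) = f (WithLp.toLp 2 ![y' 0, y' 1, y 2]) := by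
    refine par_step 1 (hf 1) ?_ ?_
    · intro j hj
      fin_cases j
      · rfl
      · exact absurd rfl hj
      · rfl
    · exact hy 1
  have h3 : f (WithLp.toLp 2 ![y' 0, y' 1, y 2]) = f y' := by
    refine par_step 2 (hf 2) ?_ ?_
    · intro j hj
      fin_cases j
      · rfl
      · rfl
      · exact absurd rfl hj
    · exact hy 2
  rw [h1, h2, h3]

theorem norm_abs {y y' : E} (hy : ∀ l, |y l| = |y' l|) : ‖y‖ = ‖y'‖ := by
  rw [EuclideanSpace.norm_eq, EuclideanSpace.norm_eq]
  congr 1
  refine Finset.sum_congr rfl fun i _ => ?_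
  rw [Real.norm_eq_abs, Real.norm_eq_abs, hy i]

end Pool.Agent.Helper78.FB
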