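import Pool.Agent.Helper94.FB.ArcPos
import Pool.Agent.Helper94.FB.SymInt

/-!
# FB-44 Equator: the shadow contains the equator

`e_a = EuclideanSpace.single a 1`. Let `P = {θ | ‖θ‖ = 1 ∧ 0 < F θ}`.
(i) `oct_nonempty`: `y ∈ inn F` with positive coordinates; `θ = ‖y‖⁻¹ • y` (`y ≠ 0` as `F 0 < 0`), `F θ > 0` (`ray_pos_of_zero` with `t = ‖y‖`).
(ii) `θ = arc b c a r (θ a) s'` (`exists_arc`), `arc_pos` (for `w_bc`) with `s = 0`: `F > 0` at `θ1 = arc b c a r (θ a) 0`, which has the coordinates `θ1 a = θ a > 0`, `θ1 b = r`, `θ1 c = 0`.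
(iii) `θ1 = arc a b c r1 0 s'` (`exists_arc`, `r1 = 1`), `arc_pos` (for `w_ab`) with `s = 0`: `F e_a > 0`. By symmetry (`par_abs`, `H.even`) `F (- e_a) > 0`.
(iv) `P` is the image of `inn F` under `y ↦ ‖y‖⁻¹ • y` (`ray_pos_of_zero`, `ray_zero_of_pos`), continuous on `inn F`, so `P` is preconnected (`H.conn`); `θ ↦ θ a` takes the values `1` and `-1` on `P`, so there is `θ2 ∈ P` with `θ2 a = 0`. The vector `θ3` with
`θ3 i = |θ2 i|` is in `P` (`par_abs`, `norm_abs`). `θ3 = arc b c a 1 0 s'` and `arc_pos` with `s = 0`: `F e_b > 0`.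
(v) `e_b = arc a b c 1 0 (π / 2)`, so `F (arc a b c 1 0 s) > 0` for `0 ≤ s ≤ π / 2` (`arc_pos`). Let `‖θ‖ = 1`, `θ c = 0`: the vector `(|θ i|)_i` is `arc a b c 1 0 s` for some `s ∈ [0, π / 2]` (`exists_arc`), and `F θ = F (|θ|)` (`par_abs`).
-/

set_option autoImplicit false

open MeasureTheory Filter Set
open scoped ContDiff Topology

namespace Pool.Agent.Helper78.FB

variable {F : E → ℝ} {a b c : Fin 3}

private theorem r_one {r t : ℝ} (h0 : 0 ≤ r) (ht : t = 0) (h : r ^ 2 + t ^ 2 = 1) : r = 1 := by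
  subst ht
  have h1 : (r - 1) * (r + 1) = 0 := by nlinarith
  rcases mul_eq_zero.1 h1 with h2 | h2
  · linarith
  · linarith

/-- the vector of the absolute values -/
private noncomputable def av (y : E) : E := WithLp.toLp 2 (fun i => |y i|)

private theorem av_apply (y : E) (i : Fin 3) : av y i = |y i| := rfl

private theorem av_abs (y : E) (i : Fin 3) : |av y i| = |y i| := by
  rw [av_apply, abs_abs]

private theorem inn_ne_zero (H : Hyp F) (hu : ∀ y ∈ inn F, 0 < uu F y) {y : E} (hy : y ∈ inn F) :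
    y ≠ 0 := by
  rintro rfl
  have h1 := F_zero_neg H hu
  rw [hy.2] at h1
  exact lt_irrefl _ h1

private theorem norm_dir {y : E} (hy : y ≠ 0) : ‖‖y‖⁻¹ • y‖ = 1 := by
  rw [norm_smul, norm_inv, norm_norm, inv_mul_cancel₀ (norm_ne_zero_iff.2 hy)]

private theorem pos_dir (H : Hyp F) (hu : ∀ y ∈ inn F, 0 < uu F y) {y : E} (hy : y ∈ inn F) :
    0 < F (‖y‖⁻¹ • y) := by
  have h0 := inn_ne_zero H hu hy
  refine ray_pos_of_zero H hu (norm_dir h0) (t := ‖y‖) ⟨norm_pos_iff.2 h0, hy.1⟩ ?_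
  rw [smul_smul, mul_inv_cancel₀ (norm_ne_zero_iff.2 h0), one_smul]
  exact hy.2

private theorem dir_of_pos (H : Hyp F) (hu : ∀ y ∈ inn F, 0 < uu F y) {θ : E} (hθ : ‖θ‖ = 1)
    (h : 0 < F θ) : ∃ y ∈ inn F, ‖y‖⁻¹ • y = θ := by
  obtain ⟨t, ht, h1⟩ := ray_zero_of_pos H hu hθ h
  have hn : ‖t • θ‖ = t := by
    rw [norm_smul, hθ, mul_one, Real.norm_of_nonneg ht.1.le]
  refine ⟨t • θ, ⟨?_, h1⟩, ?_⟩
  · rw [hn]
    exact ht.2
  · rw [hn, smul_smul, inv_mul_cancel₀ ht.1.ne', one_smul]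

theorem equator (H : Hyp F) (hu : ∀ y ∈ inn F, 0 < uu F y) (hab : a ≠ b) (hac : a ≠ c) (hbc : b ≠ c)
    (wab : ∀ y ∈ surf F, 0 ≤ y a → 0 ≤ y b → ww F a b y ≤ 0)
    (wbc : ∀ y ∈ surf F, 0 ≤ y b → 0 ≤ y c → ww F b c y ≤ 0) {θ : E} (hθ : ‖θ‖ = 1) (hc : θ c = 0) :
    0 < F θ := by
  -- (i)
  obtain ⟨y0, hy0, hpos⟩ := oct_nonempty H
  have hy0n := inn_ne_zero H hu hy0
  have hθ0n := norm_dir hy0n
  have hθ0F := pos_dir H hu hy0
  set θ0 : E := ‖y0‖⁻¹ • y0 with hθ0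
  have hθ0p : ∀ i, 0 < θ0 i := by
    intro i
    have h1 : θ0 i = ‖y0‖⁻¹ * y0 i := rfl
    rw [h1]
    exact mul_pos (inv_pos.2 (norm_pos_iff.2 hy0n)) (hpos i)
  -- (ii)
  obtain ⟨r, s', hr, hrt, hs0, hs1, he⟩ := exists_arc hbc hab.symm hac.symm hθ0n (hθ0p b).le
    (hθ0p c).le
  have h1F : 0 < F (arc b c a r (θ0 a) 0) :=
    arc_pos H hu hbc hab.symm hac.symm wbc hr hrt le_rfl hs0 hs1 (by rw [← he]; exact hθ0F)
  have h1n : ‖arc b c a r (θ0 a) 0‖ = 1 := norm_arc hbc hab.symm hac.symm hrt 0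
  have h1a : arc b c a r (θ0 a) 0 a = θ0 a := arc_m hab.symm hac.symm _ _ _
  have h1b : arc b c a r (θ0 a) 0 b = r := by
    rw [arc_p hbc hab.symm, Real.cos_zero, mul_one]
  have h1c : arc b c a r (θ0 a) 0 c = 0 := by
    rw [arc_q hbc hac.symm, Real.sin_zero, mul_zero]
  -- (iii)
  obtain ⟨r1, s1, hr1, hrt1, hs10, hs11, he1⟩ := exists_arc hab hac hbc h1n
    (by rw [h1a]; exact (hθ0p a).le) (by rw [h1b]; exact hr)
  have hr11 := r_one hr1 h1c hrt1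
  have hea : 0 < F (arc a b c 1 0 0) := by
    have h2 := arc_pos H hu hab hac hbc wab hr1 hrt1 le_rfl hs10 hs11 (by rw [← he1]; exact h1F)
    rwa [hr11, h1c] at h2
  have hean : ‖arc a b c 1 0 0‖ = 1 := norm_arc hab hac hbc (by norm_num) 0
  have heaa : arc a b c 1 0 0 a = 1 := by
    rw [arc_p hab hac, Real.cos_zero, mul_one]
  have hnea : 0 < F (-arc a b c 1 0 0) := by
    rw [par_abs H.even (y' := arc a b c 1 0 0)]
    · exact hea
    · intro l
      have h2 : (-arc a b c 1 0 0) l = -(arc a b c 1 0 0 l) := rfl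
      rw [h2, abs_neg]
  have hnean : ‖-arc a b c 1 0 0‖ = 1 := by rw [norm_neg, hean]
  -- (iv)
  obtain ⟨y1, hy1, hd1⟩ := dir_of_pos H hu hean hea
  obtain ⟨y2, hy2, hd2⟩ := dir_of_pos H hu hnean hnea
  have hcont : ContinuousOn (fun y : E => (‖y‖⁻¹ • y) a) (inn F) := by
    have h2 : ContinuousOn (fun y : E => ‖y‖⁻¹ * y a) (inn F) := by
      refine ContinuousOn.mul ?_ ?_
      · exact continuous_norm.continuousOn.inv₀ fun y hy =>
          norm_ne_zero_iff.2 (inn_ne_zero H hu hy)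
      · exact (EuclideanSpace.proj a : E →L[ℝ] ℝ).continuous.continuousOn
    exact h2
  have hpre := H.conn.image _ hcont
  have hzero : (0 : ℝ) ∈ (fun y : E => (‖y‖⁻¹ • y) a) '' inn F := by
    have h3 : (1 : ℝ) ∈ (fun y : E => (‖y‖⁻¹ • y) a) '' inn F := by
      refine ⟨y1, hy1, ?_⟩
      change (‖y1‖⁻¹ • y1) a = 1
      rw [hd1, heaa]
    have h4 : (-1 : ℝ) ∈ (fun y : E => (‖y‖⁻¹ • y) a) '' inn F := by
      refine ⟨y2, hy2, ?_⟩
      change (‖y2‖⁻¹ • y2) a = -1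
      rw [hd2]
      have h5 : (-arc a b c 1 0 0) a = -(arc a b c 1 0 0 a) := rfl
      rw [h5, heaa]
    exact hpre.ordConnected.out h4 h3 ⟨by norm_num, by norm_num⟩
  obtain ⟨y3, hy3, h3a⟩ := hzero
  have h3n := norm_dir (inn_ne_zero H hu hy3)
  have h3F := pos_dir H hu hy3
  set θ2 : E := ‖y3‖⁻¹ • y3 with hθ2
  have h2a : θ2 a = 0 := h3a
  have hFav : F (av θ2) = F θ2 := par_abs H.even (av_abs θ2)
  have hnav : ‖av θ2‖ = 1 := by rw [norm_abs (av_abs θ2), h3n]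
  have hava : av θ2 a = 0 := by rw [av_apply, h2a, abs_zero]
  obtain ⟨r3, s3, hr3, hrt3, hs30, hs31, he3⟩ := exists_arc hbc hab.symm hac.symm hnav
    (by rw [av_apply]; exact abs_nonneg _) (by rw [av_apply]; exact abs_nonneg _)
  have hr31 := r_one hr3 hava hrt3
  have heb : 0 < F (arc b c a 1 0 0) := by
    have h5 := arc_pos H hu hbc hab.symm hac.symm wbc hr3 hrt3 le_rfl hs30 hs31
      (by rw [← he3, hFav]; exact h3F)
    rwa [hr31, hava] at h5
  have hebeq : arc b c a 1 0 0 = arc a b c 1 0 (Real.pi / 2) := by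
    refine ext_three hab hac hbc ?_ ?_ ?_
    · rw [arc_m hab.symm hac.symm, arc_p hab hac, Real.cos_pi_div_two, mul_zero]
    · rw [arc_p hbc hab.symm, arc_q hab hbc, Real.cos_zero, Real.sin_pi_div_two]
    · rw [arc_q hbc hac.symm, arc_m hac hbc, Real.sin_zero, mul_zero]
  -- (v)
  have hFθ : F (av θ) = F θ := par_abs H.even (av_abs θ)
  have hnθ : ‖av θ‖ = 1 := by rw [norm_abs (av_abs θ), hθ]
  have hcθ : av θ c = 0 := by rw [av_apply, hc, abs_zero]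
  obtain ⟨r4, s4, hr4, hrt4, hs40, hs41, he4⟩ := exists_arc hab hac hbc hnθ
    (by rw [av_apply]; exact abs_nonneg _) (by rw [av_apply]; exact abs_nonneg _)
  have hr41 := r_one hr4 hcθ hrt4
  rw [← hFθ, he4, hr41, hcθ]
  refine arc_pos H hu hab hac hbc wab zero_le_one (by norm_num) hs40 hs41 le_rfl ?_
  rw [← hebeq]
  exact heb

end Pool.Agent.Helper78.FB
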