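import Pool.Agent.Helper94.FB.BDefs
import Pool.Agent.Helper78.FB.Integ
import Pool.Agent.Helper78.FB.Eik

/-!
# FB-10 MeanZero: zero mean curvature and orthogonality from the first variation formula

Put `H y = ∑ i, pd i (pd i F) y` (smooth).
(a) For smooth `φ` take `X i = φ * pd i F` in `h.firstVar`. On `surf F`: `divS F X = φ * H`. Indeed `pd j (X i) = pd j φ * pd i F + φ * pd j (pd i F)` (`pd_mul`), so
`divS F X = ∑ i, pd i φ * pd i F + φ H - (∑ j, pd j F * pd j φ) * (∑ i, pd i F ^ 2) - φ * ∑ i, ∑ j, pd i F * pd j F * pd j (pd i F)`, and `∑ i, pd i F ^ 2 = 1` (`grad_sq`), the last sum is `0`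
(`eik1`, sum over `i` first). So `area F (φ H) = len F (φ * uu F)` (`area_congr`, `len_congr`).
(b) `φ = H * ρ` with `ρ y = expNegInvGlue (1 - ∑ k, y k ^ 2)` (smooth, `≥ 0`, `> 0` for `‖y‖ < 1`, `= 0` on the unit sphere): `area F (ρ H ^ 2) = 0`, so `H = 0` on `inn F` (`area_pos` gives a contradiction
otherwise) and on `surf F` by continuity and `surf_subset`.
(c) so `len F (φ * uu F) = 0` for all smooth `φ`; `φ = uu F`: `uu F = 0` on `bdry F` (`len_pos`).
-/

set_option autoImplicit false

open MeasureTheory Filter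
open scoped ContDiff Topology

namespace Pool.Agent.Helper78.FB

variable {F : E → ℝ}

private theorem mz_smooth_tr (h : FBMS F) : ContDiff ℝ ∞ fun y => ∑ i, pd i (pd i F) y :=
  ContDiff.sum fun i _ => contDiff_pd i (contDiff_pd i h.smooth)

private theorem mz_smooth_uu (h : FBMS F) : ContDiff ℝ ∞ (uu F) :=
  ContDiff.sum fun i _ => (contDiff_coord i).mul (contDiff_pd i h.smooth)

private theorem mz_key (h : FBMS F) {φ : E → ℝ} (hφ : ContDiff ℝ ∞ φ) :
    area F (fun y => φ y * ∑ i, pd i (pd i F) y) = len F (fun y => φ y * uu F y) := by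
  have h1 := h.firstVar (fun i y => φ y * pd i F y) fun i => hφ.mul (contDiff_pd i h.smooth)
  have h2 : ∀ y ∈ surf F, divS F (fun i y => φ y * pd i F y) y = φ y * ∑ i, pd i (pd i F) y := by
    intro y hy
    have h3 : ∀ i j, pd j (fun y => φ y * pd i F y) y = pd j φ y * pd i F y + φ y * pd j (pd i F) y :=
      fun i j => by rw [pd_mul j hφ (contDiff_pd i h.smooth)]
    have h4 := grad_sq h hy
    have e0 := eik1 h hy 0
    have e1 := eik1 h hy 1
    have e2 := eik1 h hy 2
    simp only [Fin.sum_univ_three] at h4 e0 e1 e2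
    simp only [divS, h3, Fin.sum_univ_three]
    linear_combination (-(pd 0 F y * pd 0 φ y + pd 1 F y * pd 1 φ y + pd 2 F y * pd 2 φ y)) * h4 -
      φ y * pd 0 F y * e0 - φ y * pd 1 F y * e1 - φ y * pd 2 F y * e2
  rw [area_congr h2 h] at h1
  rw [h1]
  refine len_congr (fun y _ => ?_) h
  simp only [uu, Finset.mul_sum]
  exact Finset.sum_congr rfl fun i _ => by ring

private theorem mz_inn (h : FBMS F) {y : E} (hy : y ∈ inn F) : ∑ i, pd i (pd i F) y = 0 := by
  by_contra hne
  have hsm := mz_smooth_tr h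
  have hr : ContDiff ℝ ∞ fun y : E => expNegInvGlue (1 - ∑ k, y k ^ 2) :=
    expNegInvGlue.contDiff.comp
      (contDiff_const.sub (ContDiff.sum fun k _ => (contDiff_coord k).pow 2))
  have h1 := mz_key h (hsm.mul hr)
  have h2 : len F (fun y => (∑ i, pd i (pd i F) y) * expNegInvGlue (1 - ∑ k, y k ^ 2) * uu F y) =
      len F (fun _ => 0) := by
    refine len_congr (fun z hz => ?_) h
    have h3 : ∑ k, z k ^ 2 = 1 := by rw [← norm_sq, hz.1, one_pow]
    rw [h3, sub_self, expNegInvGlue.zero_of_nonpos le_rfl, mul_zero, zero_mul]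
  have h4 : len F (fun _ => 0) = 0 := by simp [len]
  have h5 : 0 < area F (fun y => (∑ i, pd i (pd i F) y) * expNegInvGlue (1 - ∑ k, y k ^ 2) *
      ∑ i, pd i (pd i F) y) := by
    refine area_pos h ((hsm.mul hr).mul hsm).continuous.continuousOn (fun z _ => ?_) ⟨hy.1.le, hy.2⟩ ?_
    · have h6 := expNegInvGlue.nonneg (1 - ∑ k, z k ^ 2)
      have h7 := mul_nonneg h6 (mul_self_nonneg (∑ i, pd i (pd i F) z))
      calc (0 : ℝ) ≤ _ := h7
        _ = _ := by ring
    · have h8 : 0 < 1 - ∑ k, y k ^ 2 := by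
        rw [← norm_sq]
        have h9 := norm_nonneg y
        have h10 := hy.1
        nlinarith
      have h6 := expNegInvGlue.pos_of_pos h8
      have h7 := mul_pos h6 (mul_self_pos.2 hne)
      calc (0 : ℝ) < _ := h7
        _ = _ := by ring
  have h6 : area F (fun y => (∑ i, pd i (pd i F) y) * expNegInvGlue (1 - ∑ k, y k ^ 2) *
      ∑ i, pd i (pd i F) y) = 0 := by
    rw [← h4, ← h2]
    exact h1
  linarith

theorem tr_zero (h : FBMS F) {y : E} (hy : y ∈ surf F) : ∑ i, pd i (pd i F) y = 0 := by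
  have h1 : IsClosed {z : E | ∑ i, pd i (pd i F) z = 0} :=
    isClosed_singleton.preimage (mz_smooth_tr h).continuous
  have h2 : closure (inn F) ⊆ {z : E | ∑ i, pd i (pd i F) z = 0} :=
    closure_minimal (fun z hz => mz_inn h hz) h1
  exact h2 (surf_subset h hy)

theorem orth (h : FBMS F) {y : E} (hy : y ∈ bdry F) : uu F y = 0 := by
  by_contra hne
  have h1 := mz_key h (mz_smooth_uu h)
  have h2 : area F (fun y => uu F y * ∑ i, pd i (pd i F) y) = area F (fun _ => 0) := by
    refine area_congr (fun z hz => ?_) h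
    rw [tr_zero h hz, mul_zero]
  have h3 : area F (fun _ => 0) = 0 := by simp [area]
  have h4 : 0 < len F (fun y => uu F y * uu F y) :=
    len_pos h ((mz_smooth_uu h).mul (mz_smooth_uu h)).continuous.continuousOn
      (fun z _ => mul_self_nonneg _) hy (mul_self_pos.2 hne)
  rw [h2, h3] at h1
  linarith

end Pool.Agent.Helper78.FB
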