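import Pool.Agent.Helper94.FB.Fold
import Pool.Agent.Helper78.FB.Dense

/-!
# FB-37 Quad: the quarters of the surface are connected, the octant part is not empty (short)

* `quad_conn`: `fold` with `l = a`, `O = univ` (`H.conn`), then with `l = b`, `O = {0 < y a}` (open; `refl b` does not change `y a`, `refl_apply`).
* `oct_nonempty`: `inn F` is nonempty (`H.nflat`, `surf_subset`); `fold_nonempty` with `l = 0`, `O = univ`; `l = 1`, `O = {0 < y 0}`; `l = 2`, `O = {0 < y 0 ∧ 0 < y 1}`.
* `surf_quad_conn`: `R = surf F ∩ {0 < y a ∧ 0 < y b}` contains `inn F ∩ {0 < y a} ∩ {0 < y b}` and is contained in its closure (`surf_subset`, the quadrant is open): `IsPreconnected.subset_closure`.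
-/

set_option autoImplicit false

open MeasureTheory Filter
open scoped ContDiff Topology

namespace Pool.Agent.Helper78.FB

variable {F : E → ℝ}

private theorem isOpen_pos (a : Fin 3) : IsOpen {y : E | 0 < y a} :=
  isOpen_lt continuous_const (contDiff_coord a).continuous

private theorem refl_pos {a b : Fin 3} (hab : a ≠ b) (y : E) :
    refl b y ∈ {y : E | 0 < y a} ↔ y ∈ {y : E | 0 < y a} := by
  rw [Set.mem_setOf_eq, Set.mem_setOf_eq, refl_apply]
  unfold sg
  rw [if_neg hab, one_mul]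

theorem inn_nonempty (H : Hyp F) : (inn F).Nonempty := by
  obtain ⟨y, hy, -⟩ := H.nflat
  exact closure_nonempty_iff.1 ⟨y, surf_subset H.fb hy⟩

theorem quad_conn (H : Hyp F) {a b : Fin 3} (hab : a ≠ b) :
    IsPreconnected (inn F ∩ {y | 0 < y a} ∩ {y | 0 < y b}) := by
  have h1 := fold H.fb a (H.even a) Set.univ isOpen_univ (fun y => by simp)
    (by rw [Set.inter_univ]; exact H.conn)
  rw [Set.inter_univ] at h1
  exact fold H.fb b (H.even b) {y | 0 < y a} (isOpen_pos a) (refl_pos hab) h1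

theorem oct_nonempty (H : Hyp F) : ∃ y ∈ inn F, ∀ i : Fin 3, 0 < y i := by
  have h1 := fold_nonempty H.fb 0 (H.even 0) Set.univ isOpen_univ (fun y => by simp)
    (by rw [Set.inter_univ]; exact inn_nonempty H)
  rw [Set.inter_univ] at h1
  have h2 := fold_nonempty H.fb 1 (H.even 1) {y | 0 < y 0} (isOpen_pos 0) (refl_pos (by decide)) h1
  rw [Set.inter_assoc] at h2
  have h3 := fold_nonempty H.fb 2 (H.even 2) ({y | 0 < y 0} ∩ {y | 0 < y 1})
    ((isOpen_pos 0).inter (isOpen_pos 1))
    (fun y => and_congr (refl_pos (by decide) y) (refl_pos (by decide) y)) h2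
  obtain ⟨y, ⟨hy, h01⟩, hy2⟩ := h3
  refine ⟨y, hy, fun i => ?_⟩
  fin_cases i
  · exact h01.1
  · exact h01.2
  · exact hy2

theorem surf_quad_conn (H : Hyp F) {a b : Fin 3} (hab : a ≠ b) :
    IsPreconnected (surf F ∩ {y | 0 < y a ∧ 0 < y b}) := by
  refine (quad_conn H hab).subset_closure ?_ ?_
  · rintro y ⟨⟨hy, ha⟩, hb⟩
    exact ⟨⟨hy.1.le, hy.2⟩, ha, hb⟩
  · rintro y ⟨hy, ha, hb⟩
    rw [Set.inter_assoc]
    exact ((isOpen_pos a).inter (isOpen_pos b)).closure_inter ⟨surf_subset H.fb hy, ha, hb⟩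

end Pool.Agent.Helper78.FB
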