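import Pool.Agent.Helper94.FB.Latitude
import Pool.Agent.Helper94.FB.Rays

/-!
# FB-48 Homeo: the surface is homeomorphic to an annulus

For `y ∈ surf F`: `y ≠ 0` (`F_zero_neg`), `θ = ‖y‖⁻¹ • y`, `F θ ≥ 0` (if `‖y‖ = 1` then `F θ = 0`, otherwise `ray_pos_of_zero` with `t = ‖y‖`). `ρ = √(y_a² + y_b²) > 0`: otherwise `θ = ± e_c` and `F θ < 0` (`hpole`, `H.even c`). Define
`ζ y = (y_a + i y_b) / ρ ∈ Circle`, `x y = Real.arctan (y_c / ρ) ∈ (-π / 2, π / 2)`; then `θ = mer c (cvec a b (ζ y)) (x y)` (`cos (arctan u) = 1 / √(1 + u²)`), so `|x y| ≤ hs (ζ y)` by the sign statements. The map `Ψ y = (ζ y, x y / hs (ζ y))` from `surf F` to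
`Circle × Icc (-1) 1` is continuous. Injective: if `Ψ y = Ψ y'` then `ζ, x` agree, so `θ = θ'`, `y = s • θ`, `y' = s' • θ` with `s, s' ∈ (0, 1]`; say `s ≤ s'`: `y = (s / s') • y'`, `radial` gives `s = s'`. Surjective: given `(ζ, τ)`, `x = τ hs ζ`,
`θ = mer c (cvec a b ζ) x` (`|x| ≤ hs ζ < π / 2`): if `|τ| = 1` then `F θ = 0` and `y = θ` (norm `1`); if `|τ| < 1` then `F θ > 0`, `ray_zero_of_pos` gives `t ∈ (0, 1)`, `y = t • θ`. In both cases `y_a + i y_b` is a positive multiple (`t cos x`) of `ζ` and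
`y_c / ρ = tan x`, so `Ψ y = (ζ, τ)`. `surf F` is compact (`isCompact_surf`), the target is Hausdorff: `Continuous.homeoOfEquivCompactToT2`.
-/

set_option autoImplicit false

open MeasureTheory Filter Set
open scoped ContDiff Topology

namespace Pool.Agent.Helper78.FB

variable {F : E → ℝ} {a b c : Fin 3}

private theorem hm_cases {a b c : Fin 3} (hab : a ≠ b) (hac : a ≠ c) (hbc : b ≠ c) (k : Fin 3) :
    k = a ∨ k = b ∨ k = c := by
  omega

private theorem hm_sum3 {a b c : Fin 3} (hab : a ≠ b) (hac : a ≠ c) (hbc : b ≠ c) (f : Fin 3 → ℝ) :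
    ∑ k, f k = f a + f b + f c := by
  rw [Fin.sum_univ_three]
  fin_cases a <;> fin_cases b <;> fin_cases c <;>
    first
    | exact absurd rfl hab
    | exact absurd rfl hac
    | exact absurd rfl hbc
    | (simp only [Fin.zero_eta, Fin.mk_one, Fin.reduceFinMk]; try ring)

private theorem hm_mer (v : E) (c k : Fin 3) (x : ℝ) :
    mer c v x k = Real.cos x * v k + Real.sin x * (if k = c then 1 else 0) := by
  simp [mer]

private theorem hm_cvec (a b k : Fin 3) (ζ : Circle) :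
    cvec a b ζ k = (ζ : ℂ).re * (if k = a then 1 else 0) + (ζ : ℂ).im * (if k = b then 1 else 0) := by
  simp [cvec]

/-- The distance from the axis. -/
private noncomputable def rh (a b : Fin 3) (y : E) : ℝ := Real.sqrt (y a ^ 2 + y b ^ 2)

/-- The direction of the projection. -/
private noncomputable def zc (a b : Fin 3) (y : E) : ℂ :=
  ((y a / rh a b y : ℝ) : ℂ) + ((y b / rh a b y : ℝ) : ℂ) * Complex.I

/-- The latitude. -/
private noncomputable def xx (a b c : Fin 3) (y : E) : ℝ := Real.arctan (y c / rh a b y)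

private theorem rh_sq (a b : Fin 3) (y : E) : rh a b y ^ 2 = y a ^ 2 + y b ^ 2 :=
  Real.sq_sqrt (by positivity)

private theorem zc_re (a b : Fin 3) (y : E) : (zc a b y).re = y a / rh a b y := by
  simp [zc]

private theorem zc_im (a b : Fin 3) (y : E) : (zc a b y).im = y b / rh a b y := by
  simp [zc]

private theorem zc_norm (a b : Fin 3) {y : E} (h : 0 < rh a b y) : ‖zc a b y‖ = 1 := by
  have h1 : ‖zc a b y‖ ^ 2 = 1 := by
    rw [Complex.sq_norm, Complex.normSq_apply, zc_re, zc_im]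
    have h2 := rh_sq a b y
    field_simp
    linarith
  have h2 := norm_nonneg (zc a b y)
  nlinarith

private theorem continuous_rh (a b : Fin 3) : Continuous (rh a b) := by
  unfold rh
  have h1 : Continuous fun y : E => y a := (contDiff_coord a).continuous
  have h2 : Continuous fun y : E => y b := (contDiff_coord b).continuous
  exact ((h1.pow 2).add (h2.pow 2)).sqrt

/-- Decomposition of a point. -/
private theorem hm_dec (hab : a ≠ b) (hac : a ≠ c) (hbc : b ≠ c) {y : E} (h : 0 < rh a b y)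
    (ζ : Circle) (hζ : (ζ : ℂ) = zc a b y) : y = ‖y‖ • mer c (cvec a b ζ) (xx a b c y) := by
  have hr2 : ‖y‖ ^ 2 = y a ^ 2 + y b ^ 2 + y c ^ 2 := by
    rw [norm_sq, hm_sum3 hab hac hbc]
  have hρ2 := rh_sq a b y
  have hr : 0 < ‖y‖ := by
    have h1 := norm_nonneg y
    rcases eq_or_lt_of_le h1 with h2 | h2
    · rw [← h2] at hr2
      have : 0 < rh a b y ^ 2 := by positivity
      nlinarith [sq_nonneg (y c)]
    · exact h2
  have hsq : Real.sqrt (1 + (y c / rh a b y) ^ 2) = ‖y‖ / rh a b y := by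
    have h1 : 1 + (y c / rh a b y) ^ 2 = (‖y‖ / rh a b y) ^ 2 := by
      rw [div_pow, div_pow, hr2]
      field_simp
      linarith
    rw [h1, Real.sqrt_sq (by positivity)]
  have hcos : Real.cos (xx a b c y) = rh a b y / ‖y‖ := by
    unfold xx
    rw [Real.cos_arctan, hsq, one_div, inv_div]
  have hsin : Real.sin (xx a b c y) = y c / ‖y‖ := by
    unfold xx
    rw [Real.sin_arctan, hsq]
    field_simp
  have hre : (ζ : ℂ).re = y a / rh a b y := by rw [hζ, zc_re]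
  have him : (ζ : ℂ).im = y b / rh a b y := by rw [hζ, zc_im]
  ext k
  have e : (‖y‖ • mer c (cvec a b ζ) (xx a b c y) : E) k =
      ‖y‖ * (mer c (cvec a b ζ) (xx a b c y) k) := rfl
  rw [e, hm_mer, hm_cvec, hcos, hsin, hre, him]
  rcases hm_cases hab hac hbc k with rfl | rfl | rfl
  · rw [if_pos rfl, if_neg hab, if_neg hac]
    field_simp
    ring
  · rw [if_neg hab.symm, if_pos rfl, if_neg hbc]
    field_simp
    ring
  · rw [if_neg hac.symm, if_neg hbc.symm, if_pos rfl]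
    field_simp
    ring

/-- The coordinates of a point on a meridian. -/
private theorem hm_comp (hab : a ≠ b) (hac : a ≠ c) (hbc : b ≠ c) (ζ : Circle) {x t : ℝ}
    (hx : x ∈ Ioo (-(Real.pi / 2)) (Real.pi / 2)) (ht : 0 < t) :
    0 < rh a b (t • mer c (cvec a b ζ) x) ∧ zc a b (t • mer c (cvec a b ζ) x) = ζ ∧
      xx a b c (t • mer c (cvec a b ζ) x) = x := by
  obtain ⟨y, hy⟩ : ∃ y : E, y = t • mer c (cvec a b ζ) x := ⟨_, rfl⟩
  have hcos : 0 < Real.cos x := Real.cos_pos_of_mem_Ioo hx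
  have hk : ∀ k, y k = t * (Real.cos x * ((ζ : ℂ).re * (if k = a then 1 else 0) +
      (ζ : ℂ).im * (if k = b then 1 else 0)) + Real.sin x * (if k = c then 1 else 0)) := by
    intro k
    have e : (t • mer c (cvec a b ζ) x : E) k = t * (mer c (cvec a b ζ) x k) := rfl
    rw [hy, e, hm_mer, hm_cvec]
  have ha : y a = t * Real.cos x * (ζ : ℂ).re := by
    rw [hk, if_pos rfl, if_neg hab, if_neg hac]
    ring
  have hb : y b = t * Real.cos x * (ζ : ℂ).im := by
    rw [hk, if_neg hab.symm, if_pos rfl, if_neg hbc]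
    ring
  have hc : y c = t * Real.sin x := by
    rw [hk, if_neg hac.symm, if_neg hbc.symm, if_pos rfl]
    ring
  have hz : (ζ : ℂ).re * (ζ : ℂ).re + (ζ : ℂ).im * (ζ : ℂ).im = 1 := by
    have h1 := Circle.normSq_coe ζ
    rw [Complex.normSq_apply] at h1
    exact h1
  have hrh : rh a b y = t * Real.cos x := by
    unfold rh
    rw [ha, hb]
    have e : (t * Real.cos x * (ζ : ℂ).re) ^ 2 + (t * Real.cos x * (ζ : ℂ).im) ^ 2 =
        (t * Real.cos x) ^ 2 := by
      calc (t * Real.cos x * (ζ : ℂ).re) ^ 2 + (t * Real.cos x * (ζ : ℂ).im) ^ 2 =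
          (t * Real.cos x) ^ 2 * ((ζ : ℂ).re * (ζ : ℂ).re + (ζ : ℂ).im * (ζ : ℂ).im) := by ring
        _ = _ := by rw [hz, mul_one]
    rw [e, Real.sqrt_sq (by positivity)]
  have hpos : 0 < t * Real.cos x := by positivity
  rw [← hy]
  refine ⟨by rw [hrh]; exact hpos, ?_, ?_⟩
  · apply Complex.ext
    · rw [zc_re, hrh, ha]
      field_simp
    · rw [zc_im, hrh, hb]
      field_simp
  · unfold xx
    rw [hrh, hc]
    have e : t * Real.sin x / (t * Real.cos x) = Real.tan x := by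
      rw [Real.tan_eq_sin_div_cos]
      field_simp
    rw [e, Real.arctan_tan hx.1 hx.2]

private theorem hm_norm_mer (hab : a ≠ b) (hac : a ≠ c) (hbc : b ≠ c) (ζ : Circle) (x : ℝ) :
    ‖mer c (cvec a b ζ) x‖ = 1 := by
  have hz : (ζ : ℂ).re * (ζ : ℂ).re + (ζ : ℂ).im * (ζ : ℂ).im = 1 := by
    have h1 := Circle.normSq_coe ζ
    rw [Complex.normSq_apply] at h1
    exact h1
  have h1 := norm_sq (mer c (cvec a b ζ) x)
  rw [hm_sum3 hab hac hbc, hm_mer, hm_mer, hm_mer, hm_cvec, hm_cvec, hm_cvec, if_pos rfl, if_neg hab,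
    if_neg hac, if_neg hab.symm, if_pos rfl, if_neg hbc, if_neg hac.symm, if_neg hbc.symm,
    if_pos rfl] at h1
  have h2 := Real.sin_sq_add_cos_sq x
  have h3 : ‖mer c (cvec a b ζ) x‖ ^ 2 = 1 := by
    rw [h1]
    calc (Real.cos x * ((ζ : ℂ).re * 1 + (ζ : ℂ).im * 0) + Real.sin x * 0) ^ 2 +
        (Real.cos x * ((ζ : ℂ).re * 0 + (ζ : ℂ).im * 1) + Real.sin x * 0) ^ 2 +
        (Real.cos x * ((ζ : ℂ).re * 0 + (ζ : ℂ).im * 0) + Real.sin x * 1) ^ 2 =
        Real.cos x ^ 2 * ((ζ : ℂ).re * (ζ : ℂ).re + (ζ : ℂ).im * (ζ : ℂ).im) + Real.sin x ^ 2 := by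
          ring
      _ = 1 := by rw [hz]; linarith
  have h4 := norm_nonneg (mer c (cvec a b ζ) x)
  nlinarith

/-- Points of the surface: not the origin, `F ≥ 0` at the end of the ray. -/
private theorem hm_ray (H : Hyp F) (hu : ∀ y ∈ inn F, 0 < uu F y) {y : E} (hy : y ∈ surf F) :
    0 < ‖y‖ ∧ 0 ≤ F (‖y‖⁻¹ • y) := by
  have h0 : y ≠ 0 := by
    intro h
    have h1 := F_zero_neg H hu
    rw [← h, hy.2] at h1
    exact lt_irrefl _ h1
  have hr : 0 < ‖y‖ := norm_pos_iff.2 h0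
  refine ⟨hr, ?_⟩
  rcases eq_or_lt_of_le hy.1 with h1 | h1
  · rw [h1, inv_one, one_smul, hy.2]
  · have hθ : ‖(‖y‖⁻¹ • y : E)‖ = 1 := by
      rw [norm_smul, norm_inv, norm_norm, inv_mul_cancel₀ hr.ne']
    have h2 : F (‖y‖ • (‖y‖⁻¹ • y)) = 0 := by
      rw [smul_smul, mul_inv_cancel₀ hr.ne', one_smul]
      exact hy.2
    exact (ray_pos_of_zero H hu hθ ⟨hr, h1⟩ h2).le

private theorem hm_rho (H : Hyp F) (hu : ∀ y ∈ inn F, 0 < uu F y) (hab : a ≠ b) (hac : a ≠ c)
    (hbc : b ≠ c) (hpole : F (EuclideanSpace.single c (1 : ℝ)) < 0) {y : E} (hy : y ∈ surf F) :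
    0 < rh a b y := by
  obtain ⟨hr, hF⟩ := hm_ray H hu hy
  rcases eq_or_lt_of_le (Real.sqrt_nonneg (y a ^ 2 + y b ^ 2)) with h | h
  · exfalso
    have h1 : rh a b y = 0 := h.symm
    have h2 := rh_sq a b y
    rw [h1] at h2
    have ha : y a = 0 := by nlinarith [sq_nonneg (y a), sq_nonneg (y b)]
    have hb : y b = 0 := by nlinarith [sq_nonneg (y a), sq_nonneg (y b)]
    have h3 := norm_sq y
    rw [hm_sum3 hab hac hbc, ha, hb] at h3
    have h4 : |y c| = ‖y‖ := by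
      have h5 : ‖y‖ ^ 2 = |y c| ^ 2 := by
        rw [sq_abs]
        linarith
      have h6 := abs_nonneg (y c)
      exact ((sq_eq_sq₀ (norm_nonneg y) h6).1 h5).symm
    have h5 : ∀ l, |(‖y‖⁻¹ • y : E) l| = |(EuclideanSpace.single c (1 : ℝ) : E) l| := by
      intro l
      have e1 : (‖y‖⁻¹ • y : E) l = ‖y‖⁻¹ * y l := rfl
      have e2 : (EuclideanSpace.single c (1 : ℝ) : E) l = if l = c then 1 else 0 := by simp
      rw [e1, e2]
      rcases hm_cases hab hac hbc l with rfl | rfl | rfl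
      · rw [ha, if_neg hac, mul_zero]
      · rw [hb, if_neg hbc, mul_zero]
      · rw [if_pos rfl, abs_mul, h4, abs_inv, abs_norm, inv_mul_cancel₀ hr.ne', abs_one]
    rw [par_abs H.even h5] at hF
    linarith
  · exact h

/-- The point of the circle. -/
private noncomputable def tc (z : ℂ) (hz : ‖z‖ = 1) : Circle := ⟨z, mem_sphere_zero_iff_norm.2 hz⟩

private theorem tc_coe (z : ℂ) (hz : ‖z‖ = 1) : ((tc z hz : Circle) : ℂ) = z := rfl

theorem homeo (H : Hyp F) (hu : ∀ y ∈ inn F, 0 < uu F y) (hab : a ≠ b) (hac : a ≠ c) (hbc : b ≠ c)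
    (hpole : F (EuclideanSpace.single c (1 : ℝ)) < 0) (hs : Circle → ℝ) (hsc : Continuous hs)
    (hsp : ∀ ζ, hs ζ ∈ Ioo 0 (Real.pi / 2) ∧
      ∀ x ∈ Icc (-(Real.pi / 2)) (Real.pi / 2), (|x| < hs ζ → 0 < F (mer c (cvec a b ζ) x)) ∧
        (|x| = hs ζ → F (mer c (cvec a b ζ) x) = 0) ∧ (hs ζ < |x| → F (mer c (cvec a b ζ) x) < 0)) :
    Nonempty (surf F ≃ₜ Circle × Icc (-1 : ℝ) 1) := by
  have hρ : ∀ y : surf F, 0 < rh a b y.1 := fun y => hm_rho H hu hab hac hbc hpole y.2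
  obtain ⟨Z, hZ⟩ : ∃ Z : surf F → Circle, ∀ y, Z y = tc (zc a b y.1) (zc_norm a b (hρ y)) :=
    ⟨_, fun _ => rfl⟩
  have hZc : ∀ y, ((Z y : Circle) : ℂ) = zc a b y.1 := fun y => by rw [hZ, tc_coe]
  have hxI : ∀ y : surf F, xx a b c y.1 ∈ Ioo (-(Real.pi / 2)) (Real.pi / 2) :=
    fun y => Real.arctan_mem_Ioo _
  have hdec : ∀ y : surf F, y.1 = ‖y.1‖ • mer c (cvec a b (Z y)) (xx a b c y.1) :=
    fun y => hm_dec hab hac hbc (hρ y) (Z y) (hZc y)
  have hle : ∀ y : surf F, |xx a b c y.1| ≤ hs (Z y) := by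
    intro y
    obtain ⟨hr, hF⟩ := hm_ray H hu y.2
    have h1 : ‖y.1‖⁻¹ • y.1 = mer c (cvec a b (Z y)) (xx a b c y.1) := by
      conv_lhs => rw [hdec y]
      rw [norm_smul, hm_norm_mer hab hac hbc, mul_one, norm_norm, smul_smul,
        inv_mul_cancel₀ hr.ne', one_smul]
    rw [h1] at hF
    by_contra hcon
    push Not at hcon
    have h2 := ((hsp (Z y)).2 _ (Ioo_subset_Icc_self (hxI y))).2.2 hcon
    linarith
  have hmem : ∀ y : surf F, xx a b c y.1 / hs (Z y) ∈ Icc (-1 : ℝ) 1 := by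
    intro y
    have h1 := (hsp (Z y)).1.1
    have h2 := abs_le.1 (hle y)
    constructor
    · rw [le_div_iff₀ h1]
      linarith [h2.1]
    · rw [div_le_iff₀ h1]
      linarith [h2.2]
  obtain ⟨Ψ, hΨ⟩ : ∃ Ψ : surf F → Circle × Icc (-1 : ℝ) 1,
      ∀ y, Ψ y = (Z y, ⟨xx a b c y.1 / hs (Z y), hmem y⟩) := ⟨_, fun _ => rfl⟩
  have hrc : Continuous fun y : surf F => rh a b y.1 := (continuous_rh a b).comp continuous_subtype_val
  have hcoord : ∀ k : Fin 3, Continuous fun y : surf F => y.1 k := fun k =>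
    (contDiff_coord k).continuous.comp continuous_subtype_val
  have hZcont : Continuous Z := by
    have h1 : Continuous fun y : surf F => zc a b y.1 := by
      unfold zc
      exact (Complex.continuous_ofReal.comp ((hcoord a).div hrc fun y => (hρ y).ne')).add
        ((Complex.continuous_ofReal.comp ((hcoord b).div hrc fun y => (hρ y).ne')).mul
          continuous_const)
    have h2 : Z = fun y => tc (zc a b y.1) (zc_norm a b (hρ y)) := funext hZ
    rw [h2]
    exact h1.subtype_mk _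
  have hxc : Continuous fun y : surf F => xx a b c y.1 := by
    unfold xx
    exact Real.continuous_arctan.comp ((hcoord c).div hrc fun y => (hρ y).ne')
  have hΨc : Continuous Ψ := by
    have h2 : Ψ = fun y => (Z y, ⟨xx a b c y.1 / hs (Z y), hmem y⟩) := funext hΨ
    rw [h2]
    exact hZcont.prodMk ((hxc.div (hsc.comp hZcont) fun y => ((hsp (Z y)).1.1).ne').subtype_mk _)
  have hinj : Function.Injective Ψ := by
    intro y y' h
    rw [hΨ, hΨ, Prod.mk.injEq, Subtype.mk.injEq] at h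
    obtain ⟨h1, h2⟩ := h
    rw [h1] at h2
    have h3 : xx a b c y.1 = xx a b c y'.1 := by
      have h4 := (hsp (Z y')).1.1
      exact (div_left_inj' h4.ne').1 h2
    have e1 := hdec y
    have e2 := hdec y'
    rw [h1, h3] at e1
    obtain ⟨θ, hθ⟩ : ∃ θ : E, θ = mer c (cvec a b (Z y')) (xx a b c y'.1) := ⟨_, rfl⟩
    rw [← hθ] at e1 e2
    have hr := (hm_ray H hu y.2).1
    have hr' := (hm_ray H hu y'.2).1
    have key : ∀ u w : surf F, 0 < ‖u.1‖ → 0 < ‖w.1‖ → u.1 = ‖u.1‖ • θ → w.1 = ‖w.1‖ • θ →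
        ‖u.1‖ ≤ ‖w.1‖ → ‖u.1‖ = ‖w.1‖ := by
      intro u w hu0 hw0 hu1 hw1 hle'
      have h5 : (‖u.1‖ / ‖w.1‖) • w.1 = u.1 := by
        conv_lhs => rw [hw1]
        rw [norm_smul, norm_norm]
        have hθ1 : ‖θ‖ = 1 := by rw [hθ]; exact hm_norm_mer hab hac hbc _ _
        rw [hθ1, mul_one, smul_smul, div_mul_cancel₀ _ hw0.ne']
        exact hu1.symm
      have h6 := radial H hu w.2 (t := ‖u.1‖ / ‖w.1‖)
        ⟨by positivity, (div_le_one hw0).2 hle'⟩ (by rw [h5]; exact u.2)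
      rw [div_eq_one_iff_eq hw0.ne'] at h6
      exact h6
    have hn : ‖y.1‖ = ‖y'.1‖ := by
      rcases le_total ‖y.1‖ ‖y'.1‖ with h5 | h5
      · exact key y y' hr hr' e1 e2 h5
      · exact (key y' y hr' hr e2 e1 h5).symm
    apply Subtype.ext
    rw [e1, e2, hn]
  have hsurj : Function.Surjective Ψ := by
    rintro ⟨ζ, τ, hτ⟩
    have hζ := (hsp ζ).1
    obtain ⟨x, hx⟩ : ∃ x : ℝ, x = τ * hs ζ := ⟨_, rfl⟩
    have hτa : |τ| ≤ 1 := abs_le.2 hτ
    have hxa : |x| = |τ| * hs ζ := by rw [hx, abs_mul, abs_of_pos hζ.1]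
    have hxle : |x| ≤ hs ζ := by
      rw [hxa]
      nlinarith [hζ.1]
    have hxI' : x ∈ Ioo (-(Real.pi / 2)) (Real.pi / 2) := by
      have h1 := abs_le.1 hxle
      constructor
      · linarith [hζ.2, h1.1]
      · linarith [hζ.2, h1.2]
    have hsg := (hsp ζ).2 x (Ioo_subset_Icc_self hxI')
    have hθ1 := hm_norm_mer (a := a) (b := b) (c := c) hab hac hbc ζ x
    obtain ⟨t, ht0, htS⟩ : ∃ t : ℝ, 0 < t ∧ t • mer c (cvec a b ζ) x ∈ surf F := by
      rcases eq_or_lt_of_le hxle with h | h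
      · refine ⟨1, one_pos, ?_⟩
        rw [one_smul]
        exact ⟨hθ1.le, hsg.2.1 h⟩
      · obtain ⟨t, ht, htF⟩ := ray_zero_of_pos H hu hθ1 (hsg.1 h)
        refine ⟨t, ht.1, ?_, htF⟩
        rw [norm_smul, hθ1, mul_one, Real.norm_eq_abs, abs_of_pos ht.1]
        exact ht.2.le
    obtain ⟨_, h2, h3⟩ := hm_comp (a := a) (b := b) (c := c) hab hac hbc ζ hxI' ht0
    refine ⟨⟨_, htS⟩, ?_⟩
    have hZe : Z ⟨_, htS⟩ = ζ := by
      apply Circle.ext
      rw [hZc]
      exact h2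
    rw [hΨ, Prod.mk.injEq, Subtype.mk.injEq]
    refine ⟨hZe, ?_⟩
    rw [hZe]
    show xx a b c (t • mer c (cvec a b ζ) x) / hs ζ = τ
    rw [h3, hx, mul_div_assoc, div_self hζ.1.ne', mul_one]
  have hcomp : CompactSpace (surf F) := isCompact_iff_compactSpace.1 (isCompact_surf H.fb)
  exact ⟨Continuous.homeoOfEquivCompactToT2 (f := Equiv.ofBijective Ψ ⟨hinj, hsurj⟩) hΨc⟩

end Pool.Agent.Helper78.FB
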