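import Pool.Agent.Helper94.FB.Smooth

/-!
# FB-49 NegF: the hypotheses for `- F` (short)

`pd i (fun y => - F y) = fun y => - pd i F y` (`pd_neg`), so everything that is quadratic in `F` (`divS`, `tang`, `normA`, `Q`) is unchanged, `kap` changes its sign, `surf`, `inn`, `bdry` are the same sets (`neg_eq_zero`).
-/

set_option autoImplicit false

open MeasureTheory Filter Set
open scoped ContDiff Topology

namespace Pool.Agent.Helper78.FB

variable {F : E → ℝ}

private theorem pd_negF (hF : ContDiff ℝ ∞ F) (i : Fin 3) : pd i (fun y => -F y) = fun y => -pd i F y :=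
  pd_neg i hF

private theorem pd2_negF (hF : ContDiff ℝ ∞ F) (i j : Fin 3) :
    pd i (pd j (fun y => -F y)) = fun y => -pd i (pd j F) y := by
  rw [pd_negF hF, pd_neg i (contDiff_pd j hF)]

private theorem normA_negF (hF : ContDiff ℝ ∞ F) (y : E) : normA (fun y => -F y) y = normA F y := by
  unfold normA
  simp only [pd2_negF hF, neg_sq]

private theorem divS_negF (hF : ContDiff ℝ ∞ F) (X : Fin 3 → E → ℝ) :
    divS (fun y => -F y) X = divS F X := by
  funext y
  unfold divS
  simp only [pd_negF hF, neg_mul_neg]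

private theorem tang_negF (hF : ContDiff ℝ ∞ F) (f g : E → ℝ) (y : E) :
    tang (fun y => -F y) f g y = tang F f g y := by
  unfold tang
  simp only [pd_negF hF, neg_mul, Finset.sum_neg_distrib, mul_neg, neg_neg]

private theorem surf_negF (F : E → ℝ) : surf (fun y => -F y) = surf F := by
  ext y
  simp [surf]

private theorem bdry_negF (F : E → ℝ) : bdry (fun y => -F y) = bdry F := by
  ext y
  simp [bdry]

private theorem area_negF (F f : E → ℝ) : area (fun y => -F y) f = area F f := by
  unfold area
  rw [surf_negF]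

private theorem len_negF (F f : E → ℝ) : len (fun y => -F y) f = len F f := by
  unfold len
  rw [bdry_negF]

private theorem Q_negF (hF : ContDiff ℝ ∞ F) (f g : E → ℝ) :
    Q (fun y => -F y) f g = Q F f g := by
  unfold Q
  rw [area_negF, len_negF]
  simp only [tang_negF hF, normA_negF hF]

theorem surf_neg (F : E → ℝ) : surf (fun y => -F y) = surf F := by
  exact surf_negF F

theorem inn_neg (F : E → ℝ) : inn (fun y => -F y) = inn F := by
  ext y
  simp [inn]

theorem bdry_neg (F : E → ℝ) : bdry (fun y => -F y) = bdry F := by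
  exact bdry_negF F

theorem kap_neg (hF : ContDiff ℝ ∞ F) (y : E) : kap (fun y => -F y) y = -kap F y := by
  unfold kap
  simp only [pd2_negF hF, mul_neg, Finset.sum_neg_distrib]

theorem hyp_neg (H : Hyp F) : Hyp (fun y => -F y) := by
  have hF := H.fb.smooth
  refine ⟨⟨hF.neg, ?_, ?_, ?_, ?_, ?_⟩, ?_, ?_, ?_, ?_⟩
  · obtain ⟨U, hU, hs, h1⟩ := H.fb.unit
    refine ⟨U, hU, by rw [surf_negF]; exact hs, fun y hy => ?_⟩
    rw [← h1 y hy]
    simp only [pd_negF hF, neg_sq]
  · intro y hy
    rw [bdry_negF] at hy
    have h1 := H.fb.transverse y hy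
    simp only [pd_negF hF, mul_neg, Finset.sum_neg_distrib, neg_sq]
    exact h1
  · rw [surf_negF]
    exact H.fb.finArea
  · rw [bdry_negF]
    exact H.fb.finLen
  · intro X hX
    rw [divS_negF hF, area_negF, len_negF]
    exact H.fb.firstVar X hX
  · intro l y
    have h1 := H.even l y
    simp only [h1]
    ring
  · have h1 : inn (fun y => -F y) = inn F := by
      ext y
      simp [inn]
    rw [h1]
    exact H.conn
  · obtain ⟨y, hy, h1⟩ := H.nflat
    refine ⟨y, by rw [surf_negF]; exact hy, ?_⟩
    rw [normA_negF hF]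
    exact h1
  · intro f hf
    obtain ⟨c, hc, h1⟩ := H.index f hf
    refine ⟨c, hc, ?_⟩
    rw [Q_negF hF]
    exact h1

end Pool.Agent.Helper78.FB
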