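import Pool.Agent.Helper94.FB.Smooth
import Pool.Agent.Helper78.FB.Integ
import Pool.Agent.Helper78.FB.Eik

/-!
# FB-19 Curl: the integral of a tangential derivative along the boundary is zero

`h.firstVar` with `X = N × ∇g`: `X 0 = F_1 g_2 - F_2 g_1`, `X 1 = F_2 g_0 - F_0 g_2`, `X 2 = F_0 g_1 - F_1 g_0` (`F_i = pd i F`, `g_i = pd i g`). The divergence `∑ i, pd i (X i)` is `0` (symmetry of the second derivatives,
`pd_comm`), and `∑ i, ∑ j, F_i F_j pd j (X i) = 0` on `surf F`: it is `∑ j, F_j (N · (∂_j N × ∇g) + N · (N × ∂_j ∇g))`, the second term vanishes, the first one is `(∑ j, F_j ∂_j N) · (∇g × N)` and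
`∑ j, F_j pd j (pd i F) = 0` (`eik1`). So `divS F X = 0` on `surf F` (`area_congr`), and `∑ i, X i * y i = ∑ k, crs F y k * pd k g y` (`ring` after `Fin.sum_univ_three`).
-/

set_option autoImplicit false

open MeasureTheory Filter
open scoped ContDiff Topology

namespace Pool.Agent.Helper78.FB

variable {F : E → ℝ}

private theorem pd_cross (hF : ContDiff ℝ ∞ F) {g : E → ℝ} (hg : ContDiff ℝ ∞ g) (a b j : Fin 3) (y : E) :
    pd j (fun y => pd a F y * pd b g y - pd b F y * pd a g y) y =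
      (pd j (pd a F) y * pd b g y + pd a F y * pd j (pd b g) y) -
        (pd j (pd b F) y * pd a g y + pd b F y * pd j (pd a g) y) := by
  rw [pd_sub j ((contDiff_pd a hF).mul (contDiff_pd b hg)) ((contDiff_pd b hF).mul (contDiff_pd a hg)),
    pd_mul j (contDiff_pd a hF) (contDiff_pd b hg), pd_mul j (contDiff_pd b hF) (contDiff_pd a hg)]

theorem curl (h : FBMS F) {g : E → ℝ} (hg : ContDiff ℝ ∞ g) :
    len F (fun y => ∑ k, crs F y k * pd k g y) = 0 := by
  have hF := h.smooth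
  obtain ⟨X, hX⟩ : ∃ X : Fin 3 → E → ℝ, X = ![fun y => pd 1 F y * pd 2 g y - pd 2 F y * pd 1 g y,
    fun y => pd 2 F y * pd 0 g y - pd 0 F y * pd 2 g y, fun y => pd 0 F y * pd 1 g y - pd 1 F y * pd 0 g y] :=
    ⟨_, rfl⟩
  have hX0 : X 0 = fun y => pd 1 F y * pd 2 g y - pd 2 F y * pd 1 g y := by rw [hX]; rfl
  have hX1 : X 1 = fun y => pd 2 F y * pd 0 g y - pd 0 F y * pd 2 g y := by rw [hX]; rfl
  have hX2 : X 2 = fun y => pd 0 F y * pd 1 g y - pd 1 F y * pd 0 g y := by rw [hX]; rfl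
  have hXs : ∀ i, ContDiff ℝ ∞ (X i) := by
    intro i
    fin_cases i
    · change ContDiff ℝ ∞ (X 0)
      rw [hX0]
      exact ((contDiff_pd 1 hF).mul (contDiff_pd 2 hg)).sub ((contDiff_pd 2 hF).mul (contDiff_pd 1 hg))
    · change ContDiff ℝ ∞ (X 1)
      rw [hX1]
      exact ((contDiff_pd 2 hF).mul (contDiff_pd 0 hg)).sub ((contDiff_pd 0 hF).mul (contDiff_pd 2 hg))
    · change ContDiff ℝ ∞ (X 2)
      rw [hX2]
      exact ((contDiff_pd 0 hF).mul (contDiff_pd 1 hg)).sub ((contDiff_pd 1 hF).mul (contDiff_pd 0 hg))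
  have h1 := h.firstVar X hXs
  have h2 : (fun y => ∑ k, crs F y k * pd k g y) = fun y => ∑ i, X i y * y i := by
    funext y
    rw [Fin.sum_univ_three, Fin.sum_univ_three, hX0, hX1, hX2]
    change ww F 1 2 y * pd 0 g y + ww F 2 0 y * pd 1 g y + ww F 0 1 y * pd 2 g y = _
    unfold ww
    ring
  rw [h2, ← h1]
  have h3 : ∀ y ∈ surf F, divS F X y = (fun _ => (0 : ℝ)) y := by
    intro y hy
    have e0 := eik1 h hy 0
    have e1 := eik1 h hy 1
    have e2 := eik1 h hy 2
    have s1 := congrFun (pd_comm 1 0 hF) y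
    have s2 := congrFun (pd_comm 2 0 hF) y
    have s3 := congrFun (pd_comm 2 1 hF) y
    have t1 := congrFun (pd_comm 1 0 hg) y
    have t2 := congrFun (pd_comm 2 0 hg) y
    have t3 := congrFun (pd_comm 2 1 hg) y
    unfold divS
    simp only [Fin.sum_univ_three] at e0 e1 e2 ⊢
    simp only [hX0, hX1, hX2, pd_cross hF hg]
    rw [s1, s2, s3, t1, t2, t3]
    rw [s1] at e1
    rw [s2, s3] at e2
    linear_combination (pd 2 F y * pd 0 g y - pd 0 F y * pd 2 g y) * e1 +
      (pd 0 F y * pd 1 g y - pd 1 F y * pd 0 g y) * e2 + (pd 1 F y * pd 2 g y - pd 2 F y * pd 1 g y) * e0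
  rw [area_congr h3 h]
  unfold area
  simp

end Pool.Agent.Helper78.FB
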