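import Pool.Agent.Helper94.FB.NegDef
import Pool.Agent.Helper94.FB.Curl

/-!
# FB-20 KapNe: the boundary is not empty and its geodesic torsion-free curvature `kap` is not identically zero

* `bdry_nonempty`: `green` with `f = ∑ k, y_k ^ 2`, `g = 1`: `area F 4 = len F 2` (`lap_sq`, `nd_sq`, `tang F f 1 = 0`, `∑ y_k ^ 2 = 1` on `bdry F`). If `bdry F = ∅` the right side is `0`; the left side is positive
  (`area_pos`, `surf F` is not empty by `H.nflat`).
* `kap_ne`: suppose `kap F = 0` on `bdry F`. Then all `pd i (pd j F)` vanish on `bdry F` (`bdryA`). Fix `i`. `Q F (pd i F) w = - len F (pd i F * w)` for all smooth `w` (`Q_pd`, `len_congr`).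
  - `Q F (pd i F) 1 = 0` and `Q F (pd i F) (y_j) = 0` for `j ≠ i`: `Q_par` with `l = i` (`pd i F` is odd in the variable `i` by `par_pd`; `1` and `y_j` are even).
  - `Q F (pd i F) (y_i) = - len F (pd i F * y_i) = 0`: `curl` with `g y = pd i F y * crs F y i` (smooth). On `bdry F`: `∑ k, T_k pd k (pd i F) = 0`, and `∑ k, T_k pd k (T_i) = (T × N)_i + (y × ∑ k, T_k ∂_k N)_i = (T × N)_i = - y_i`
    (`T = y × N`, `(y × N) × N = - y` because `|N| = 1`, `y · N = 0`: `orth`, `grad_sq`; the second derivatives of `F` vanish). So `∑ k, T_k pd k g = - pd i F * y_i`.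
  So `Q_nonneg` gives `0 ≤ Q F (pd i F) (pd i F) = - len F ((pd i F) ^ 2)`, hence `pd i F = 0` on `bdry F` (`len_pos`), for every `i`: contradiction with `grad_sq` at a point of `bdry F` (`bdry_nonempty`).
-/

set_option autoImplicit false

open MeasureTheory Filter
open scoped ContDiff Topology

namespace Pool.Agent.Helper78.FB

variable {F : E → ℝ}

private theorem bdry_surf {y : E} (hy : y ∈ bdry F) : y ∈ surf F := ⟨le_of_eq hy.1, hy.2⟩

private theorem tang_one (f : E → ℝ) (y : E) : tang F f (fun _ => 1) y = 0 := by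
  simp [tang, pd_const]

private theorem contDiff_sqsum : ContDiff ℝ ∞ (fun y : E => ∑ k, y k ^ 2) :=
  ContDiff.sum fun k _ => (contDiff_coord k).pow 2

private theorem len_case (h : FBMS F) (hk : ∀ p ∈ bdry F, kap F p = 0) (i a b : Fin 3)
    (hx : ∀ y ∈ bdry F, crs F y a * pd b F y - crs F y b * pd a F y = -y i) :
    len F (fun y => pd i F y * y i) = 0 := by
  have hF := h.smooth
  have h1 := curl h (g := fun y => pd i F y * ww F a b y)
    ((contDiff_pd i hF).mul (contDiff_ww hF a b))
  have h2 : ∀ y ∈ bdry F, ∑ k, crs F y k * pd k (fun y => pd i F y * ww F a b y) y =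
      (-1) * (pd i F y * y i) := by
    intro y hy
    have hz : ∀ p q, pd p (pd q F) y = 0 := by
      intro p q
      rw [bdryA h hy p q, hk y hy, zero_mul]
    have h3 : ∀ k, pd k (fun y => pd i F y * ww F a b y) y =
        pd i F y * ((if k = a then pd b F y else 0) - (if k = b then pd a F y else 0)) := by
      intro k
      rw [pd_mul k (contDiff_pd i hF) (contDiff_ww hF a b), pd_ww hF a b k]
      simp only [hz]
      ring
    have h4 : ∑ k, crs F y k * pd k (fun y => pd i F y * ww F a b y) y =
        pd i F y * (crs F y a * pd b F y - crs F y b * pd a F y) := by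
      have h5 : ∀ k, crs F y k * pd k (fun y => pd i F y * ww F a b y) y =
          (if k = a then pd i F y * (crs F y k * pd b F y) else 0) -
            (if k = b then pd i F y * (crs F y k * pd a F y) else 0) := by
        intro k
        rw [h3 k]
        split_ifs <;> ring
      rw [Finset.sum_congr rfl fun k _ => h5 k, Finset.sum_sub_distrib, Finset.sum_ite_eq',
        Finset.sum_ite_eq', if_pos (Finset.mem_univ a), if_pos (Finset.mem_univ b)]
      ring
    rw [h4, hx y hy]
    ring
  rw [len_congr h2 h, len_const_mul] at h1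
  linarith

private theorem len_all (h : FBMS F) (hk : ∀ p ∈ bdry F, kap F p = 0) (i : Fin 3) :
    len F (fun y => pd i F y * y i) = 0 := by
  have hg : ∀ y ∈ bdry F, pd 0 F y ^ 2 + pd 1 F y ^ 2 + pd 2 F y ^ 2 = 1 := by
    intro y hy
    have h1 := grad_sq h (bdry_surf hy)
    rw [Fin.sum_univ_three] at h1
    exact h1
  have ho : ∀ y ∈ bdry F, y 0 * pd 0 F y + y 1 * pd 1 F y + y 2 * pd 2 F y = 0 := by
    intro y hy
    have h1 := orth h hy
    rw [uu, Fin.sum_univ_three] at h1
    exact h1
  fin_cases i
  · refine len_case h hk 0 1 2 fun y hy => ?_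
    have h1 := hg y hy
    have h2 := ho y hy
    show ww F 2 0 y * pd 2 F y - ww F 0 1 y * pd 1 F y = -y 0
    unfold ww
    linear_combination pd 0 F y * h2 - y 0 * h1
  · refine len_case h hk 1 2 0 fun y hy => ?_
    have h1 := hg y hy
    have h2 := ho y hy
    show ww F 0 1 y * pd 0 F y - ww F 1 2 y * pd 2 F y = -y 1
    unfold ww
    linear_combination pd 1 F y * h2 - y 1 * h1
  · refine len_case h hk 2 0 1 fun y hy => ?_
    have h1 := hg y hy
    have h2 := ho y hy
    show ww F 1 2 y * pd 1 F y - ww F 2 0 y * pd 0 F y = -y 2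
    unfold ww
    linear_combination pd 2 F y * h2 - y 2 * h1

theorem bdry_nonempty (H : Hyp F) : (bdry F).Nonempty := by
  have h := H.fb
  by_contra hne
  rw [Set.not_nonempty_iff_eq_empty] at hne
  have h1 := green h contDiff_sqsum (contDiff_const (c := (1 : ℝ)))
  have h2 : ∀ y ∈ surf F, (1 : ℝ) * lap F (fun y => ∑ k, y k ^ 2) y +
      tang F (fun y => ∑ k, y k ^ 2) (fun _ => 1) y = 4 := by
    intro y hy
    rw [lap_sq h hy, tang_one]
    ring
  rw [area_congr h2 h] at h1
  have h3 : len F (fun y => 1 * nd (fun y => ∑ k, y k ^ 2) y) = 0 := by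
    rw [len, hne]
    simp
  rw [h3] at h1
  obtain ⟨z, hz, -⟩ := H.nflat
  have h4 : 0 < area F (fun _ => (4 : ℝ)) :=
    area_pos h continuousOn_const (fun y _ => by norm_num) hz (by norm_num)
  exact absurd h1 h4.ne'

theorem kap_ne (H : Hyp F) : ∃ p ∈ bdry F, kap F p ≠ 0 := by
  have h := H.fb
  have hF := h.smooth
  by_contra hcon
  have hk : ∀ p ∈ bdry F, kap F p = 0 := by
    intro p hp
    by_contra hne
    exact hcon ⟨p, hp, hne⟩
  obtain ⟨p, hp⟩ := bdry_nonempty H
  have hpi : ∀ i, Par i (-1) (pd i F) := by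
    intro i
    have h1 := par_pd i i (mul_one (1 : ℝ)) hF (H.even i)
    rw [sg, if_pos rfl, mul_one] at h1
    exact h1
  have hz : ∀ i, pd i F p = 0 := by
    intro i
    by_contra hne
    have h1 : Q F (pd i F) (fun _ => 1) = 0 := by
      refine Q_par h (H.even i) (s := -1) (by norm_num) (contDiff_pd i hF) contDiff_const (hpi i) ?_
      rw [neg_neg]
      exact par_const i 1
    have h2 : ∀ j : Fin 3, Q F (pd i F) (fun y => y j) = 0 := by
      intro j
      by_cases hj : j = i
      · subst hj
        rw [Q_pd h j (contDiff_coord j)]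
        have h3 : ∀ y ∈ bdry F, (kap F y * y j - pd j F y) * y j = (-1) * (pd j F y * y j) := by
          intro y hy
          rw [hk y hy]
          ring
        rw [len_congr h3 h, len_const_mul, len_all h hk j, mul_zero]
      · refine Q_par h (H.even i) (s := -1) (by norm_num) (contDiff_pd i hF) (contDiff_coord j)
          (hpi i) ?_
        have h3 := par_coord i j
        rw [sg, if_neg hj] at h3
        rw [neg_neg]
        exact h3
    have h3 := Q_nonneg H (contDiff_pd i hF) h1 h2
    rw [Q_pd h i (contDiff_pd i hF)] at h3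
    have h4 : ∀ y ∈ bdry F, (kap F y * y i - pd i F y) * pd i F y = (-1) * pd i F y ^ 2 := by
      intro y hy
      rw [hk y hy]
      ring
    rw [len_congr h4 h, len_const_mul] at h3
    have h5 : 0 < len F (fun y => pd i F y ^ 2) :=
      len_pos h ((contDiff_pd i hF).continuous.pow 2).continuousOn (fun y _ => sq_nonneg _) hp
        (by positivity)
    linarith
  have h6 := grad_sq h (bdry_surf hp)
  simp [hz] at h6

end Pool.Agent.Helper78.FB
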