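import Pool.Agent.Helper94.FB.Dich
import Pool.Agent.Helper94.FB.KapNe

/-!
# FB-39 Order: an order of the axes for which the rotation functions are nonpositive

By `dich` each `w_ab` (for `a ≠ b`; `w_ba = - w_ab`, `ww_swap`) is `0` on `surf F`, or positive, or negative on its quadrant; on the planes `y a = 0`, `y b = 0` it is `0` (`par_ww`, `par_zero`). Take `y0 ∈ inn F` with all coordinates positive
(`oct_nonempty`): the signs of `w_ab` on the quadrant are the signs of `w_ab(y0)`. The identity `y_0 w_12 + y_1 w_20 + y_2 w_01 = 0` (`ring`) at `y0` shows that among the signs of `(w_12, w_20, w_01)` either all are `0` or there are a positive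
and a negative one. Not all three functions vanish on `surf F`: at a point of `bdry F` (`bdry_nonempty`) `w_12 ^ 2 + w_20 ^ 2 + w_01 ^ 2 = |y|^2 |N|^2 - (y . N)^2 = 1` (`grad_sq`, `orth`), so the signs at `y0` are not all `0`.
Let `(a, b, c)` run over the cyclic permutations of `(0, 1, 2)`; write `s_ab` for the sign of `w_ab`. If exactly one of the three is positive, say `s_ca > 0`, `s_ab ≤ 0`, `s_bc ≤ 0`: the order `a, b, c` works (`w_ac = - w_ca`). Otherwise two are positive and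
the third one is negative, say `s_ca < 0`, `s_ab > 0`, `s_bc > 0`: the order `c, b, a` works.
-/

set_option autoImplicit false

open MeasureTheory Filter
open scoped ContDiff Topology

namespace Pool.Agent.Helper78.FB

variable {F : E → ℝ}

private theorem ord_le (H : Hyp F) {a b : Fin 3} (hab : a ≠ b)
    (h : (∀ y ∈ surf F, 0 < y a → 0 < y b → ww F a b y < 0) ∨ (∀ y ∈ surf F, ww F a b y = 0)) :
    ∀ y ∈ surf F, 0 ≤ y a → 0 ≤ y b → ww F a b y ≤ 0 := by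
  intro y hy ha hb
  rcases h with h | h
  · rcases ha.lt_or_eq with ha' | ha'
    · rcases hb.lt_or_eq with hb' | hb'
      · exact (h y hy ha' hb').le
      · have h1 := par_ww b H.fb.smooth (H.even b) a b
        have h2 : sg a b * sg b b = -1 := by simp [sg, hab]
        rw [h2] at h1
        exact (par_zero b h1 hb'.symm).le
    · have h1 := par_ww a H.fb.smooth (H.even a) a b
      have h2 : sg a a * sg b a = -1 := by simp [sg, hab.symm]
      rw [h2] at h1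
      exact (par_zero a h1 ha'.symm).le
  · exact (h y hy).le

private theorem ord_fin (H : Hyp F) {a b c : Fin 3} (hab : a ≠ b) (hac : a ≠ c) (hbc : b ≠ c)
    (h1 : ∀ y ∈ surf F, 0 < y a → 0 < y c → ww F a c y < 0)
    (h2 : (∀ y ∈ surf F, 0 < y a → 0 < y b → ww F a b y < 0) ∨ (∀ y ∈ surf F, ww F a b y = 0))
    (h3 : (∀ y ∈ surf F, 0 < y b → 0 < y c → ww F b c y < 0) ∨ (∀ y ∈ surf F, ww F b c y = 0)) :
    ∃ a b c : Fin 3, a ≠ b ∧ a ≠ c ∧ b ≠ c ∧
    (∀ y ∈ surf F, 0 < y a → 0 < y c → ww F a c y < 0) ∧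
    (∀ y ∈ surf F, 0 ≤ y a → 0 ≤ y c → ww F a c y ≤ 0) ∧
    (∀ y ∈ surf F, 0 ≤ y a → 0 ≤ y b → ww F a b y ≤ 0) ∧
    (∀ y ∈ surf F, 0 ≤ y b → 0 ≤ y c → ww F b c y ≤ 0) :=
  ⟨a, b, c, hab, hac, hbc, h1, ord_le H hac (Or.inl h1), ord_le H hab h2, ord_le H hbc h3⟩

private theorem ord_tri (H : Hyp F) (y0 : E) (hy0 : y0 ∈ inn F) (hpos : ∀ i : Fin 3, 0 < y0 i)
    {a b : Fin 3} (hab : a ≠ b) (c : Fin 3) :
    ((∀ y ∈ surf F, ww F a b y = 0) ∧ (∀ y ∈ surf F, ww F b a y = 0) ∧ y0 c * ww F a b y0 = 0) ∨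
    ((∀ y ∈ surf F, 0 < y b → 0 < y a → ww F b a y < 0) ∧ 0 < y0 c * ww F a b y0) ∨
    ((∀ y ∈ surf F, 0 < y a → 0 < y b → ww F a b y < 0) ∧ y0 c * ww F a b y0 < 0) := by
  have hs : y0 ∈ surf F := ⟨hy0.1.le, hy0.2⟩
  rcases dich H hab with h | h | h
  · refine Or.inl ⟨h, fun y hy => ?_, ?_⟩
    · rw [ww_swap, h y hy, neg_zero]
    · rw [h y0 hs, mul_zero]
  · refine Or.inr (Or.inl ⟨fun y hy hb ha => ?_, mul_pos (hpos c) (h y0 hs (hpos a) (hpos b))⟩)
    rw [ww_swap]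
    have := h y hy ha hb
    linarith
  · exact Or.inr (Or.inr ⟨h, mul_neg_of_pos_of_neg (hpos c) (h y0 hs (hpos a) (hpos b))⟩)

theorem order (H : Hyp F) : ∃ a b c : Fin 3, a ≠ b ∧ a ≠ c ∧ b ≠ c ∧
    (∀ y ∈ surf F, 0 < y a → 0 < y c → ww F a c y < 0) ∧
    (∀ y ∈ surf F, 0 ≤ y a → 0 ≤ y c → ww F a c y ≤ 0) ∧
    (∀ y ∈ surf F, 0 ≤ y a → 0 ≤ y b → ww F a b y ≤ 0) ∧
    (∀ y ∈ surf F, 0 ≤ y b → 0 ≤ y c → ww F b c y ≤ 0) := by
  obtain ⟨y0, hy0, hpos⟩ := oct_nonempty H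
  have h01 : (0 : Fin 3) ≠ 1 := by decide
  have h02 : (0 : Fin 3) ≠ 2 := by decide
  have h12 : (1 : Fin 3) ≠ 2 := by decide
  have hid : y0 0 * ww F 1 2 y0 + y0 1 * ww F 2 0 y0 + y0 2 * ww F 0 1 y0 = 0 := by
    unfold ww
    ring
  rcases ord_tri H y0 hy0 hpos h12 0 with ⟨z12, z21, e0⟩ | ⟨n21, e0⟩ | ⟨n12, e0⟩ <;>
  rcases ord_tri H y0 hy0 hpos h02.symm 1 with ⟨z20, z02, e1⟩ | ⟨n02, e1⟩ | ⟨n20, e1⟩ <;>
  rcases ord_tri H y0 hy0 hpos h01 2 with ⟨z01, z10, e2⟩ | ⟨n10, e2⟩ | ⟨n01, e2⟩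
  · exfalso
    obtain ⟨y, hy⟩ := bdry_nonempty H
    have hs : y ∈ surf F := ⟨le_of_eq hy.1, hy.2⟩
    have h1 := grad_sq H.fb hs
    have h2 := orth H.fb hy
    have h3 := norm_sq y
    rw [hy.1] at h3
    rw [uu, Fin.sum_univ_three] at h2
    rw [Fin.sum_univ_three] at h1 h3
    have k1 := z12 y hs
    have k2 := z20 y hs
    have k3 := z01 y hs
    unfold ww at k1 k2 k3
    have k4 : (y 0 ^ 2 + y 1 ^ 2 + y 2 ^ 2) * (pd 0 F y ^ 2 + pd 1 F y ^ 2 + pd 2 F y ^ 2) =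
        (y 0 * pd 0 F y + y 1 * pd 1 F y + y 2 * pd 2 F y) ^ 2 +
        (y 1 * pd 2 F y - y 2 * pd 1 F y) ^ 2 + (y 2 * pd 0 F y - y 0 * pd 2 F y) ^ 2 +
        (y 0 * pd 1 F y - y 1 * pd 0 F y) ^ 2 := by ring
    rw [k1, k2, k3, h1, h2, ← h3] at k4
    norm_num at k4
  all_goals first
    | (exfalso; linarith)
    | exact ord_fin H h01 h02 h12 n02 (Or.inl n01) (Or.inl n12)
    | exact ord_fin H h01 h02 h12 n02 (Or.inl n01) (Or.inr z12)
    | exact ord_fin H h01 h02 h12 n02 (Or.inr z01) (Or.inl n12)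
    | exact ord_fin H h01 h02 h12 n02 (Or.inr z01) (Or.inr z12)
    | exact ord_fin H h12 h01.symm h02.symm n10 (Or.inl n12) (Or.inl n20)
    | exact ord_fin H h12 h01.symm h02.symm n10 (Or.inl n12) (Or.inr z20)
    | exact ord_fin H h12 h01.symm h02.symm n10 (Or.inr z12) (Or.inl n20)
    | exact ord_fin H h12 h01.symm h02.symm n10 (Or.inr z12) (Or.inr z20)
    | exact ord_fin H h02.symm h12.symm h01 n21 (Or.inl n20) (Or.inl n01)
    | exact ord_fin H h02.symm h12.symm h01 n21 (Or.inl n20) (Or.inr z01)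
    | exact ord_fin H h02.symm h12.symm h01 n21 (Or.inr z20) (Or.inl n01)
    | exact ord_fin H h02.symm h12.symm h01 n21 (Or.inr z20) (Or.inr z01)
    | exact ord_fin H h12.symm h02.symm h01.symm n20 (Or.inl n21) (Or.inl n10)
    | exact ord_fin H h02 h01 h12.symm n01 (Or.inl n02) (Or.inl n21)
    | exact ord_fin H h01.symm h12 h02 n12 (Or.inl n10) (Or.inl n02)

end Pool.Agent.Helper78.FB
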