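import Pool.Agent.Helper94.FB.ArcPos
import Pool.Agent.Helper94.FB.SymInt
import Pool.Agent.Helper94.FB.KapNe

/-!
# FB-45 Pole: the poles are not in the closure of the shadow

`e_c = EuclideanSpace.single c 1`.
* `F e_c > 0` is impossible: `e_c = arc a c b 1 0 (π / 2)`, so by `arc_pos` (for `w_ac`) `F (arc a c b 1 0 s) > 0` for all `s ∈ [0, π / 2]`. Let `‖θ‖ = 1` with nonnegative coordinates: `θ = arc b c a r (θ a) s` (`exists_arc`), and
  `arc b c a r (θ a) (π / 2)` has the coordinates `a : θ a`, `b : 0`, `c : r`, so it is one of the points `arc a c b 1 0 s'` (`exists_arc`) and `F > 0` there; `arc_pos` (for `w_bc`): `F θ > 0`. By symmetry (`par_abs`) `F > 0` on the whole unit sphere,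
  so `bdry F = ∅`, contradicting `bdry_nonempty`.
* `F e_c = 0` is impossible: `e_c ∈ bdry F`; `pd a F e_c = 0`, `pd b F e_c = 0` (`par_pd`, `par_zero`: `pd a F` is odd in the variable `a` and `e_c a = 0`), `pd c F e_c = uu F e_c = 0` (`orth`); contradiction with `grad_sq`.
-/

set_option autoImplicit false

open MeasureTheory Filter Set
open scoped ContDiff Topology

namespace Pool.Agent.Helper78.FB

variable {F : E → ℝ} {a b c : Fin 3}

private theorem three : ∀ a b c i : Fin 3, a ≠ b → a ≠ c → b ≠ c → i = a ∨ i = b ∨ i = c := by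
  decide

private theorem exists_abs (θ : E) : ∃ θ' : E, (∀ l, θ' l = |θ l|) :=
  ⟨WithLp.toLp 2 fun l => |θ l|, fun _ => rfl⟩

theorem pole (H : Hyp F) (hu : ∀ y ∈ inn F, 0 < uu F y) (hab : a ≠ b) (hac : a ≠ c) (hbc : b ≠ c)
    (wac : ∀ y ∈ surf F, 0 ≤ y a → 0 ≤ y c → ww F a c y ≤ 0)
    (wbc : ∀ y ∈ surf F, 0 ≤ y b → 0 ≤ y c → ww F b c y ≤ 0) : F (EuclideanSpace.single c (1 : ℝ)) < 0 := by
  have h := H.fb
  have hF := h.smooth
  rcases lt_trichotomy (F (EuclideanSpace.single c (1 : ℝ))) 0 with h1 | h1 | h1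
  · exact h1
  · exfalso
    have hb : EuclideanSpace.single c (1 : ℝ) ∈ bdry F := ⟨by simp, h1⟩
    have hz : ∀ i, i ≠ c → pd i F (EuclideanSpace.single c (1 : ℝ)) = 0 := by
      intro i hi
      have h2 := par_pd i i (mul_one (1 : ℝ)) hF (H.even i)
      rw [sg, if_pos rfl, mul_one] at h2
      exact par_zero i h2 (by simp [hi])
    have hc : pd c F (EuclideanSpace.single c (1 : ℝ)) = 0 := by
      have h2 := orth h hb
      rw [uu, Finset.sum_eq_single c] at h2
      · simpa using h2
      · intro i _ hi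
        rw [hz i hi, mul_zero]
      · intro h3
        exact absurd (Finset.mem_univ c) h3
    have hs := grad_sq h (y := EuclideanSpace.single c (1 : ℝ)) ⟨le_of_eq hb.1, hb.2⟩
    rw [Finset.sum_eq_zero] at hs
    · exact zero_ne_one hs
    · intro i _
      by_cases hi : i = c
      · rw [hi, hc]
        norm_num
      · rw [hz i hi]
        norm_num
  · exfalso
    have hpi : (0 : ℝ) ≤ Real.pi / 2 := by positivity
    -- the arc from the pole to the axis `a`
    have e1 : EuclideanSpace.single c (1 : ℝ) = arc a c b 1 0 (Real.pi / 2) := by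
      refine ext_three hac hab hbc.symm ?_ ?_ ?_
      · rw [arc_p hac hab]
        simp [hac]
      · rw [arc_q hac hbc.symm]
        simp
      · rw [arc_m hab hbc.symm]
        simp [hbc]
    have h2 : ∀ s, 0 ≤ s → s ≤ Real.pi / 2 → 0 < F (arc a c b 1 0 s) := by
      intro s hs0 hs1
      refine arc_pos H hu hac hab hbc.symm wac (zero_le_one) (by norm_num) hs0 hs1 (le_refl _) ?_
      rw [← e1]
      exact h1
    -- the positive octant
    have h3 : ∀ θ : E, ‖θ‖ = 1 → (∀ l, 0 ≤ θ l) → 0 < F θ := by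
      intro θ hθ hn
      obtain ⟨r, s, hr, hrt, hs0, hs1, hθe⟩ := exists_arc hbc hab.symm hac.symm hθ (hn b) (hn c)
      rw [hθe]
      refine arc_pos H hu hbc hab.symm hac.symm wbc hr hrt hs0 hs1 (le_refl _) ?_
      have h4 : ‖arc b c a r (θ a) (Real.pi / 2)‖ = 1 := norm_arc hbc hab.symm hac.symm hrt _
      have ea : arc b c a r (θ a) (Real.pi / 2) a = θ a := arc_m hab.symm hac.symm _ _ _
      have eb : arc b c a r (θ a) (Real.pi / 2) b = 0 := by
        rw [arc_p hbc hab.symm, Real.cos_pi_div_two, mul_zero]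
      have ec : arc b c a r (θ a) (Real.pi / 2) c = r := by
        rw [arc_q hbc hac.symm, Real.sin_pi_div_two, mul_one]
      obtain ⟨r', s', hr', hrt', hs0', hs1', he⟩ := exists_arc hac hab hbc.symm h4
        (by rw [ea]; exact hn a) (by rw [ec]; exact hr)
      rw [eb] at hrt' he
      have h5 : r' = 1 := by nlinarith
      rw [he, h5]
      exact h2 s' hs0' hs1'
    obtain ⟨q, hq⟩ := bdry_nonempty H
    obtain ⟨q', hq'⟩ := exists_abs q
    have h6 : ∀ l, |q l| = |q' l| := fun l => by rw [hq' l, abs_abs]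
    have h7 : 0 < F q' := h3 q' (by rw [← norm_abs h6]; exact hq.1)
      fun l => by rw [hq' l]; exact abs_nonneg _
    rw [← par_abs H.even h6, hq.2] at h7
    exact lt_irrefl _ h7

end Pool.Agent.Helper78.FB
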