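import Pool.Agent.Helper94.FB.UPos
import Pool.Agent.Helper94.FB.Order
import Pool.Agent.Helper94.FB.Equator
import Pool.Agent.Helper94.FB.Pole
import Pool.Agent.Helper94.FB.Homeo
import Pool.Agent.Helper94.FB.NegF

/-!
# FB-50 Core: assembly
-/

set_option autoImplicit false

open MeasureTheory Filter Set
open scoped ContDiff Topology

namespace Pool.Agent.Helper78.FB

variable {F : E → ℝ}

theorem core_aux (H : Hyp F) {p : E} (hp : p ∈ bdry F) (hk : kap F p < 0) :
    Nonempty (surf F ≃ₜ Circle × Icc (-1 : ℝ) 1) ∧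
      ∀ y ∈ surf F, ∀ t ∈ Icc (0 : ℝ) 1, t • y ∈ surf F → t = 1 := by
  have hu := u_pos H hp hk
  obtain ⟨a, b, c, hab, hac, hbc, h1, h2, h3, h4⟩ := order H
  have hpole := pole H hu hab hac hbc h2 h4
  obtain ⟨hs, hsc, hsp⟩ := latitude H hab hac hbc h1 h4 hpole
    (fun v hv hvc => equator H hu hab hac hbc h3 h4 hv hvc)
  exact ⟨homeo H hu hab hac hbc hpole hs hsc hsp, fun y hy t ht hty => radial H hu hy ht hty⟩

theorem core (H : Hyp F) : Nonempty (surf F ≃ₜ Circle × Icc (-1 : ℝ) 1) ∧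
      ∀ y ∈ surf F, ∀ t ∈ Icc (0 : ℝ) 1, t • y ∈ surf F → t = 1 := by
  obtain ⟨p, hp, hk⟩ := kap_ne H
  rcases lt_or_gt_of_ne hk with hk | hk
  · exact core_aux H hp hk
  · have h2 := core_aux (hyp_neg H) (p := p) (by rw [bdry_neg]; exact hp)
      (by rw [kap_neg H.fb.smooth]; linarith)
    rw [surf_neg] at h2
    exact h2

end Pool.Agent.Helper78.FB
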