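import Mathlib

/-!
# FB-40 Cross: functions of one variable that cross zero upwards only (Mathlib only)

`hz`: at every zero in the open interval the derivative is positive. `cross_right`: if `g x ≤ 0` for some `x ∈ (s, t)`, let `x0` be the first zero of `g` after `s` (infimum of the closed set `{x ∈ [s, t] | g x ≤ 0}`, `g x0 = 0` by continuity and
`s < x0 ≤ x < t`); `g > 0` on `[s, x0)` so the left difference quotients at `x0` are `≤ 0`: `g' x0 ≤ 0`, a contradiction. `cross_left`: apply `cross_right` to `x ↦ - g (s + t - x)`, or repeat the argument with the last zero.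
`cross_zero`: as `g' x0 > 0`, `g > 0` just to the right of `x0` and `< 0` just to the left; then `cross_right` on `[x1, t]` and `cross_left` on `[s, x1]` for suitable `x1` close to `x0`.
-/

set_option autoImplicit false

open Set

namespace Pool.Agent.Helper78.FB

variable {g g' : ℝ → ℝ} {s t : ℝ}

theorem cross_right (hc : ContinuousOn g (Icc s t)) (hd : ∀ x ∈ Ioo s t, HasDerivAt g (g' x) x)
    (hz : ∀ x ∈ Ioo s t, g x = 0 → 0 < g' x) (hs : 0 < g s) : ∀ x ∈ Ico s t, 0 < g x := by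
  intro x hx
  by_contra hcon
  push Not at hcon
  -- the first point where g ≤ 0
  obtain ⟨Z, hZ⟩ : ∃ Z : Set ℝ, Z = {y | y ∈ Icc s x ∧ g y ≤ 0} := ⟨_, rfl⟩
  have hsub : Icc s x ⊆ Icc s t := Icc_subset_Icc le_rfl hx.2.le
  have hcx : ContinuousOn g (Icc s x) := hc.mono hsub
  have hZc : IsClosed Z := by
    have h1 : IsClosed (Icc s x ∩ g ⁻¹' Iic 0) :=
      hcx.preimage_isClosed_of_isClosed isClosed_Icc isClosed_Iic
    rw [hZ]
    exact h1
  have hZn : Z.Nonempty := ⟨x, by rw [hZ]; exact ⟨⟨hx.1, le_rfl⟩, hcon⟩⟩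
  have hZb : BddBelow Z := ⟨s, by
    intro y hy
    rw [hZ] at hy
    exact hy.1.1⟩
  obtain ⟨x0, hx0⟩ : ∃ x0, x0 = sInf Z := ⟨_, rfl⟩
  have hmem : x0 ∈ Z := by
    rw [hx0]
    exact hZc.csInf_mem hZn hZb
  have hmem' := hmem
  rw [hZ] at hmem'
  obtain ⟨⟨h1, h2⟩, h3⟩ := hmem'
  have hlt : s < x0 := by
    rcases h1.eq_or_lt with h | h
    · rw [← h] at h3
      exact absurd h3 (not_le.2 hs)
    · exact h
  have hlow : ∀ y, s ≤ y → y < x0 → 0 < g y := by
    intro y hy1 hy2
    by_contra hc2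
    push Not at hc2
    have : x0 ≤ y := by
      rw [hx0]
      refine csInf_le hZb ?_
      rw [hZ]
      exact ⟨⟨hy1, hy2.le.trans h2⟩, hc2⟩
    linarith
  have hx0t : x0 < t := lt_of_le_of_lt h2 hx.2
  have hd0 := hd x0 ⟨hlt, hx0t⟩
  have hg0 : g x0 = 0 := by
    refine le_antisymm h3 ?_
    have hcont : ContinuousWithinAt g (Iio x0) x0 := hd0.continuousAt.continuousWithinAt
    refine ge_of_tendsto hcont ?_
    filter_upwards [Ioo_mem_nhdsLT hlt] with y hy
    exact (hlow y hy.1.le hy.2).le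
  have hpos := hz x0 ⟨hlt, hx0t⟩ hg0
  have hslope := (hasDerivAt_iff_tendsto_slope.1 hd0).mono_left
    (nhdsWithin_mono x0 (fun y (hy : y ∈ Iio x0) => ne_of_lt hy))
  have hle : g' x0 ≤ 0 := by
    refine le_of_tendsto hslope ?_
    filter_upwards [Ioo_mem_nhdsLT hlt] with y hy
    rw [slope_def_field, hg0, sub_zero]
    exact div_nonpos_of_nonneg_of_nonpos (hlow y hy.1.le hy.2).le (by linarith [hy.2])
  linarith

theorem cross_left (hc : ContinuousOn g (Icc s t)) (hd : ∀ x ∈ Ioo s t, HasDerivAt g (g' x) x)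
    (hz : ∀ x ∈ Ioo s t, g x = 0 → 0 < g' x) (ht : g t < 0) : ∀ x ∈ Ioc s t, g x < 0 := by
  intro x hx
  have h1 : ∀ y : ℝ, HasDerivAt (fun y : ℝ => s + t - y) (-1) y := by
    intro y
    simpa using (hasDerivAt_id y).const_sub (s + t)
  have key := cross_right (g := fun y => - g (s + t - y)) (g' := fun y => g' (s + t - y))
    (s := s) (t := t) (by
      refine ContinuousOn.neg (hc.comp (by fun_prop) ?_)
      intro y hy
      exact ⟨by linarith [hy.2], by linarith [hy.1]⟩) (by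
      intro y hy
      have h2 := (hd (s + t - y) ⟨by linarith [hy.2], by linarith [hy.1]⟩).comp y (h1 y)
      have h3 := h2.neg
      have h4 : -(g' (s + t - y) * -1) = g' (s + t - y) := by ring
      rw [h4] at h3
      exact h3) (by
      intro y hy h0
      refine hz (s + t - y) ⟨by linarith [hy.2], by linarith [hy.1]⟩ ?_
      exact neg_eq_zero.1 h0) (by
      show 0 < - g (s + t - s)
      have : s + t - s = t := by ring
      rw [this]
      linarith) (s + t - x) ⟨by linarith [hx.2], by linarith [hx.1]⟩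
  have h5 : s + t - (s + t - x) = x := by ring
  simp only [h5] at key
  linarith

theorem cross_zero (hc : ContinuousOn g (Icc s t)) (hd : ∀ x ∈ Ioo s t, HasDerivAt g (g' x) x)
    (hz : ∀ x ∈ Ioo s t, g x = 0 → 0 < g' x) {x0 : ℝ} (hx : x0 ∈ Ioo s t) (h0 : g x0 = 0) :
    (∀ x ∈ Ioo x0 t, 0 < g x) ∧ ∀ x ∈ Ioo s x0, g x < 0 := by
  have hd0 := hd x0 hx
  have hpos := hz x0 hx h0
  have hr := (hasDerivAt_iff_tendsto_slope.1 hd0).mono_left
    (nhdsWithin_mono x0 (fun y (hy : y ∈ Ioi x0) => ne_of_gt hy))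
  have hl := (hasDerivAt_iff_tendsto_slope.1 hd0).mono_left
    (nhdsWithin_mono x0 (fun y (hy : y ∈ Iio x0) => ne_of_lt hy))
  constructor
  · intro x hxx
    have h1 : ∀ᶠ y in nhdsWithin x0 (Ioi x0), 0 < slope g x0 y := hr.eventually_const_lt hpos
    obtain ⟨y, hy1, hy2⟩ := (h1.and (Ioo_mem_nhdsGT hxx.1)).exists
    have h2 : 0 < g y := by
      rw [slope_def_field, h0, sub_zero] at hy1
      have h3 : 0 < y - x0 := by linarith [hy2.1]
      exact (div_pos_iff_of_pos_right h3).1 hy1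
    refine cross_right (s := y) (t := t) (hc.mono (Icc_subset_Icc (by linarith [hx.1, hy2.1]) le_rfl))
      (fun z hz' => hd z ⟨by linarith [hx.1, hy2.1, hz'.1], hz'.2⟩)
      (fun z hz' => hz z ⟨by linarith [hx.1, hy2.1, hz'.1], hz'.2⟩) h2 x ⟨hy2.2.le, hxx.2⟩
  · intro x hxx
    have h1 : ∀ᶠ y in nhdsWithin x0 (Iio x0), 0 < slope g x0 y := hl.eventually_const_lt hpos
    obtain ⟨y, hy1, hy2⟩ := (h1.and (Ioo_mem_nhdsLT hxx.2)).exists
    have h2 : g y < 0 := by
      rw [slope_def_field, h0, sub_zero] at hy1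
      have h3 : y - x0 < 0 := by linarith [hy2.2]
      by_contra hcon
      push Not at hcon
      have := div_nonpos_of_nonneg_of_nonpos hcon h3.le
      linarith
    refine cross_left (s := s) (t := y) (hc.mono (Icc_subset_Icc le_rfl (by linarith [hx.2, hy2.2])))
      (fun z hz' => hd z ⟨hz'.1, by linarith [hx.2, hy2.2, hz'.2]⟩)
      (fun z hz' => hz z ⟨hz'.1, by linarith [hx.2, hy2.2, hz'.2]⟩) h2 x ⟨hxx.1, hy2.1.le⟩

end Pool.Agent.Helper78.FB
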