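import Pool.Agent.Helper94.FB.Smooth
import Pool.Agent.Helper94.FB.SymInt

/-!
# FB-32 Cut: odd cutoff functions

`cut η s = 2 σ((s / η + 1) / 2) - 1`, `σ = Real.smoothTransition`.
* `cut_neg`: `σ(1 - x) = 1 - σ x` (`Real.smoothTransition` is `expNegInvGlue x / (expNegInvGlue x + expNegInvGlue (1 - x))`). `cut_of_le`: `(s / η + 1) / 2 ≥ 1`. `deriv_cut_bound`: `|deriv (cut η) s| = |σ'(..)| / η ≤ C / η`, `σ'` is bounded
  (continuous and zero outside `[0, 1]`). `deriv_cut_zero`: for `|s| > η` the function is constant near `s`.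
* `chi_*`: products; `chi a b η` is odd in the variables `a` and `b` and even in the third one; `(chi a b η y) ^ 2 = 1` if `η ≤ |y a|`, `η ≤ |y b|`; `pd k (chi a b η) y = 0` for all `k` if `η < |y a|` and `η < |y b|`.
* `ww_bound`: `w = ww F a b` is smooth and vanishes for `y a = 0` and for `y b = 0` (`par_ww` with `l = a` and `l = b`, `par_zero`; `a ≠ b`): mean value inequality along the segment from the projection of `y` to the plane, on the closed unit ball.
* `area_cut`: `tang F chi chi ≤ ∑ k, (pd k chi) ^ 2 ≤ 2 (deriv cut (y a)) ^ 2 + 2 (deriv cut (y b)) ^ 2`, zero where `|y a|, |y b| > η`, and otherwise `≤ 2 (C / η) ^ 2` for each variable in `[-η, η]`; so `w ^ 2 tang F chi chi ≤ 4 C ^ 2 K ^ 2` everywhere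
  on `surf F` (`deriv (cut η) (y a) ≠ 0` only for `|y a| ≤ η`, where `w ^ 2 ≤ K ^ 2 η ^ 2`). Pointwise limit `0`: if `y a ≠ 0` and `y b ≠ 0` the function is eventually `0`; otherwise `w y = 0`. `area_tendsto`.
-/

set_option autoImplicit false

open MeasureTheory Filter
open scoped ContDiff Topology

namespace Pool.Agent.Helper78.FB

variable {η s : ℝ}

theorem contDiff_cut (η : ℝ) : ContDiff ℝ ∞ (cut η) :=
  (contDiff_const.mul (Real.smoothTransition.contDiff.comp
    (((contDiff_id.div_const η).add contDiff_const).div_const 2))).sub contDiff_const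

private theorem sig_symm (x : ℝ) : Real.smoothTransition (1 - x) = 1 - Real.smoothTransition x := by
  have h1 := Real.smoothTransition.pos_denom x
  rw [Real.smoothTransition, Real.smoothTransition, sub_sub_cancel]
  rw [add_comm (expNegInvGlue (1 - x)), eq_sub_iff_add_eq, ← add_div]
  rw [add_comm (expNegInvGlue (1 - x)), div_self h1.ne']

theorem cut_neg (η s : ℝ) : cut η (-s) = -cut η s := by
  have h1 : (-s / η + 1) / 2 = 1 - (s / η + 1) / 2 := by ring
  rw [cut, cut, h1, sig_symm]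
  ring

theorem cut_of_le (hη : 0 < η) (hs : η ≤ s) : cut η s = 1 := by
  have h1 : 1 ≤ (s / η + 1) / 2 := by
    have h2 : 1 ≤ s / η := by rwa [le_div_iff₀ hη, one_mul]
    linarith
  rw [cut, Real.smoothTransition.one_of_one_le h1]
  norm_num

theorem abs_cut_le (η s : ℝ) : |cut η s| ≤ 1 := by
  have h1 := Real.smoothTransition.nonneg ((s / η + 1) / 2)
  have h2 := Real.smoothTransition.le_one ((s / η + 1) / 2)
  rw [cut, abs_le]
  constructor <;> linarith

theorem deriv_cut_zero (hη : 0 < η) (hs : η < |s|) : deriv (cut η) s = 0 := by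
  rcases lt_abs.1 hs with h | h
  · have h1 : cut η =ᶠ[𝓝 s] fun _ => (1 : ℝ) := by
      filter_upwards [lt_mem_nhds h] with t ht
      exact cut_of_le hη ht.le
    rw [h1.deriv_eq, deriv_const]
  · have h1 : cut η =ᶠ[𝓝 s] fun _ => (-1 : ℝ) := by
      have h2 : s < -η := by linarith
      filter_upwards [gt_mem_nhds h2] with t ht
      have h3 : cut η t = -cut η (-t) := by rw [cut_neg, neg_neg]
      rw [h3, cut_of_le hη (by linarith)]
    rw [h1.deriv_eq, deriv_const]

theorem deriv_cut_bound : ∃ C : ℝ, 0 < C ∧ ∀ η : ℝ, 0 < η → ∀ s, |deriv (cut η) s| ≤ C / η := by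
  have hc : Continuous (deriv (cut 1)) := (contDiff_cut 1).continuous_deriv (by simp)
  obtain ⟨C, hC⟩ := (isCompact_Icc (a := (-1 : ℝ)) (b := 1)).exists_bound_of_continuousOn hc.continuousOn
  refine ⟨|C| + 1, by positivity, fun η hη s => ?_⟩
  have h1 : deriv (cut η) s = deriv (cut 1) (s / η) / η := by
    have h2 : cut η = fun s => cut 1 (s / η) := by
      funext s
      rw [cut, cut, div_one]
    have h3 : HasDerivAt (cut 1) (deriv (cut 1) (s / η)) (s / η) :=
      ((contDiff_cut 1).differentiable (by simp) _).hasDerivAt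
    have h4 : HasDerivAt (fun s : ℝ => s / η) (1 / η) s := (hasDerivAt_id s).div_const η
    have h5 : HasDerivAt (fun s => cut 1 (s / η)) (deriv (cut 1) (s / η) * (1 / η)) s := by
      have h6 := HasDerivAt.comp s h3 h4
      exact h6
    rw [h2, h5.deriv, mul_one_div]
  rw [h1, abs_div, abs_of_pos hη]
  apply div_le_div_of_nonneg_right _ hη.le
  by_cases h2 : |s / η| ≤ 1
  · have h3 := hC _ (abs_le.1 h2)
    rw [Real.norm_eq_abs] at h3
    exact h3.trans ((le_abs_self C).trans (by linarith))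
  · push Not at h2
    rw [deriv_cut_zero one_pos h2, abs_zero]
    positivity

theorem contDiff_chi (a b : Fin 3) (η : ℝ) : ContDiff ℝ ∞ (chi a b η) :=
  ((contDiff_cut η).comp (contDiff_coord a)).mul ((contDiff_cut η).comp (contDiff_coord b))

theorem par_chi_left {a b : Fin 3} (hab : a ≠ b) (η : ℝ) : Par a (-1) (chi a b η) := by
  intro y
  rw [chi, chi, refl_apply, refl_apply, sg, sg, if_pos rfl, if_neg hab.symm, neg_one_mul, one_mul,
    cut_neg]
  ring

theorem par_chi_right {a b : Fin 3} (hab : a ≠ b) (η : ℝ) : Par b (-1) (chi a b η) := by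
  intro y
  rw [chi, chi, refl_apply, refl_apply, sg, sg, if_pos rfl, if_neg hab, neg_one_mul, one_mul,
    cut_neg]
  ring

private theorem cut_sq (hη : 0 < η) (hs : η ≤ |s|) : cut η s ^ 2 = 1 := by
  rcases le_abs.1 hs with h | h
  · rw [cut_of_le hη h, one_pow]
  · have h3 : cut η s = -cut η (-s) := by rw [cut_neg, neg_neg]
    rw [h3, cut_of_le hη h]
    norm_num

theorem chi_sq {a b : Fin 3} (hη : 0 < η) {y : E} (ha : η ≤ |y a|) (hb : η ≤ |y b|) : chi a b η y ^ 2 = 1 := by
  rw [chi, mul_pow, cut_sq hη ha, cut_sq hη hb, one_mul]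

private theorem pd_chi (a b k : Fin 3) (η : ℝ) (y : E) : pd k (chi a b η) y =
    (deriv (cut η) (y a) * if k = a then 1 else 0) * cut η (y b) +
      cut η (y a) * (deriv (cut η) (y b) * if k = b then 1 else 0) := by
  have h1 : chi a b η = fun y => (fun y : E => cut η (y a)) y * (fun y : E => cut η (y b)) y := rfl
  have hA : ContDiff ℝ ∞ (fun y : E => cut η (y a)) := (contDiff_cut η).comp (contDiff_coord a)
  have hB : ContDiff ℝ ∞ (fun y : E => cut η (y b)) := (contDiff_cut η).comp (contDiff_coord b)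
  rw [h1, pd_mul k hA hB]
  simp only
  rw [pd_comp k (cut η) (contDiff_cut η) (contDiff_coord a),
    pd_comp k (cut η) (contDiff_cut η) (contDiff_coord b), pd_coord, pd_coord]

theorem pd_chi_zero {a b : Fin 3} (hη : 0 < η) {y : E} (ha : η < |y a|) (hb : η < |y b|) (k : Fin 3) :
    pd k (chi a b η) y = 0 := by
  rw [pd_chi, deriv_cut_zero hη ha, deriv_cut_zero hη hb]
  ring

variable {F : E → ℝ}

private theorem odd_bound {w : E → ℝ} (hw : ContDiff ℝ ∞ w) {a : Fin 3} (ho : Par a (-1) w) :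
    ∃ K : ℝ, 0 < K ∧ ∀ y : E, ‖y‖ ≤ 1 → |w y| ≤ K * |y a| := by
  have hc : Continuous (fderiv ℝ w) := hw.continuous_fderiv (by simp)
  obtain ⟨K, hK⟩ := (isCompact_closedBall (0 : E) 1).exists_bound_of_continuousOn hc.continuousOn
  refine ⟨|K| + 1, by positivity, fun y hy => ?_⟩
  obtain ⟨y0, hy0⟩ : ∃ y0 : E, y0 = y - y a • EuclideanSpace.single a (1 : ℝ) := ⟨_, rfl⟩
  have h1 : y0 a = 0 := by
    rw [hy0]
    simp
  have h2 : ‖y0‖ ≤ 1 := by
    have h3 : ‖y0‖ ^ 2 ≤ ‖y‖ ^ 2 := by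
      rw [norm_sq, norm_sq]
      refine Finset.sum_le_sum fun k _ => ?_
      by_cases hk : k = a
      · rw [hk, h1]
        have h7 := sq_nonneg (y a)
        simpa using h7
      · have h4 : y0 k = y k := by
          rw [hy0]
          simp [hk]
        rw [h4]
    have h5 := pow_le_pow_left₀ (norm_nonneg y) hy 2
    have h6 : ‖y0‖ ^ 2 ≤ 1 ^ 2 := h3.trans h5
    exact (pow_le_pow_iff_left₀ (norm_nonneg y0) one_pos.le two_ne_zero).1 h6
  have h3 : w y0 = 0 := par_zero a ho h1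
  have h4 := (convex_closedBall (0 : E) 1).norm_image_sub_le_of_norm_fderiv_le (𝕜 := ℝ) (f := w) (C := |K| + 1)
    (fun x _ => hw.differentiable (by simp) x)
    (fun x hx => (hK x hx).trans ((le_abs_self K).trans (by linarith)))
    (mem_closedBall_zero_iff.2 h2) (mem_closedBall_zero_iff.2 hy)
  have h5 : y - y0 = y a • EuclideanSpace.single a (1 : ℝ) := by
    rw [hy0]
    abel
  rw [h3, sub_zero, Real.norm_eq_abs, h5, norm_smul, Real.norm_eq_abs] at h4
  simpa using h4

theorem ww_bound (hF : ContDiff ℝ ∞ F) (he : ∀ l, Par l 1 F) {a b : Fin 3} (hab : a ≠ b) :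
    ∃ K : ℝ, 0 < K ∧ ∀ y : E, ‖y‖ ≤ 1 → |ww F a b y| ≤ K * |y a| ∧ |ww F a b y| ≤ K * |y b| := by
  have h1 : Par a (-1) (ww F a b) := by
    have h := par_ww a hF (he a) a b
    rw [sg, sg, if_pos rfl, if_neg hab.symm, mul_one] at h
    exact h
  have h2 : Par b (-1) (ww F a b) := by
    have h := par_ww b hF (he b) a b
    rw [sg, sg, if_pos rfl, if_neg hab, one_mul] at h
    exact h
  obtain ⟨K1, hK1, h3⟩ := odd_bound (contDiff_ww hF a b) h1
  obtain ⟨K2, hK2, h4⟩ := odd_bound (contDiff_ww hF a b) h2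
  refine ⟨K1 + K2, by positivity, fun y hy => ⟨(h3 y hy).trans ?_, (h4 y hy).trans ?_⟩⟩
  · have := abs_nonneg (y a)
    nlinarith
  · have := abs_nonneg (y b)
    nlinarith

private theorem tang_bd (h : FBMS F) (f : E → ℝ) {y : E} (hy : y ∈ surf F) :
    0 ≤ tang F f f y ∧ tang F f f y ≤ ∑ k, pd k f y ^ 2 := by
  obtain ⟨U, -, hU, h1⟩ := h.unit
  have h2 := h1 y (hU hy)
  have h3 : (∑ i, pd i F y * pd i f y) ^ 2 ≤ (∑ i, pd i F y ^ 2) * ∑ i, pd i f y ^ 2 :=
    Finset.sum_mul_sq_le_sq_mul_sq _ _ _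
  have h4 : ∑ i, pd i f y * pd i f y = ∑ i, pd i f y ^ 2 :=
    Finset.sum_congr rfl fun i _ => (pow_two _).symm
  rw [h2, one_mul] at h3
  rw [tang, h4]
  constructor
  · nlinarith
  · nlinarith [mul_self_nonneg (∑ i, pd i F y * pd i f y)]

private theorem sum_pd_chi (a b : Fin 3) (η : ℝ) (y : E) : ∑ k, pd k (chi a b η) y ^ 2 ≤
    2 * deriv (cut η) (y a) ^ 2 + 2 * deriv (cut η) (y b) ^ 2 := by
  have h1 : ∀ k ∈ (Finset.univ : Finset (Fin 3)), pd k (chi a b η) y ^ 2 ≤
      (if k = a then 2 * deriv (cut η) (y a) ^ 2 else 0) +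
        (if k = b then 2 * deriv (cut η) (y b) ^ 2 else 0) := by
    intro k _
    have ha := abs_cut_le η (y a)
    have hb := abs_cut_le η (y b)
    have ha2 : cut η (y a) ^ 2 ≤ 1 := by
      rw [← sq_abs]
      exact pow_le_one₀ (abs_nonneg _) ha
    have hb2 : cut η (y b) ^ 2 ≤ 1 := by
      rw [← sq_abs]
      exact pow_le_one₀ (abs_nonneg _) hb
    rw [pd_chi]
    obtain ⟨A, hA⟩ : ∃ A, A = deriv (cut η) (y a) := ⟨_, rfl⟩
    obtain ⟨B, hB⟩ : ∃ B, B = deriv (cut η) (y b) := ⟨_, rfl⟩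
    rw [← hA, ← hB]
    have hA2 : A ^ 2 * cut η (y b) ^ 2 ≤ A ^ 2 * 1 := mul_le_mul_of_nonneg_left hb2 (sq_nonneg A)
    have hB2 : B ^ 2 * cut η (y a) ^ 2 ≤ B ^ 2 * 1 := mul_le_mul_of_nonneg_left ha2 (sq_nonneg B)
    have hAB := sq_nonneg (A * cut η (y b) - cut η (y a) * B)
    split_ifs
    · nlinarith
    · nlinarith [sq_nonneg (A * cut η (y b))]
    · nlinarith [sq_nonneg (B * cut η (y a))]
    · nlinarith
  refine (Finset.sum_le_sum h1).trans (le_of_eq ?_)
  rw [Finset.sum_add_distrib, Finset.sum_ite_eq', Finset.sum_ite_eq', if_pos (Finset.mem_univ _),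
    if_pos (Finset.mem_univ _)]

theorem area_cut (h : FBMS F) (he : ∀ l, Par l 1 F) {a b : Fin 3} (hab : a ≠ b) :
    Tendsto (fun n : ℕ => area F (fun y => ww F a b y ^ 2 *
      tang F (chi a b (1 / ((n : ℝ) + 1))) (chi a b (1 / ((n : ℝ) + 1))) y)) atTop (𝓝 0) := by
  obtain ⟨C, hC0, hC⟩ := deriv_cut_bound
  obtain ⟨K, hK0, hK⟩ := ww_bound h.smooth he hab
  have hη : ∀ n : ℕ, 0 < 1 / ((n : ℝ) + 1) := fun n => by positivity
  have h0 : area F (fun _ => 0) = 0 := by
    rw [area]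
    simp
  rw [← h0]
  have hterm : ∀ (n : ℕ) (y : E) (c : Fin 3), |ww F a b y| ≤ K * |y c| →
      ww F a b y ^ 2 * deriv (cut (1 / ((n : ℝ) + 1))) (y c) ^ 2 ≤ K ^ 2 * C ^ 2 := by
    intro n y c hc
    by_cases h1 : |y c| ≤ 1 / ((n : ℝ) + 1)
    · have h2 := hC _ (hη n) (y c)
      have h3 : |ww F a b y| * |deriv (cut (1 / ((n : ℝ) + 1))) (y c)| ≤ K * C := by
        calc |ww F a b y| * |deriv (cut (1 / ((n : ℝ) + 1))) (y c)| ≤
              (K * |y c|) * (C / (1 / ((n : ℝ) + 1))) := by gcongr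
          _ ≤ (K * (1 / ((n : ℝ) + 1))) * (C / (1 / ((n : ℝ) + 1))) := by
              have := hη n
              gcongr
          _ = K * C := by
              have := (hη n).ne'
              field_simp
      have h4 := pow_le_pow_left₀ (by positivity) h3 2
      rw [mul_pow, mul_pow, sq_abs, sq_abs] at h4
      exact h4
    · push Not at h1
      rw [deriv_cut_zero (hη n) h1]
      have h7 : 0 ≤ K ^ 2 * C ^ 2 := by positivity
      simpa using h7
  refine area_tendsto h _ _ (fun n => ?_) (4 * (K ^ 2 * C ^ 2)) (fun n y hy => ?_) (fun y hy => ?_)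
  · have h1 : ContDiff ℝ ∞ (fun y => ww F a b y ^ 2 *
        tang F (chi a b (1 / ((n : ℝ) + 1))) (chi a b (1 / ((n : ℝ) + 1))) y) :=
      ((contDiff_ww h.smooth a b).pow 2).mul
        (contDiff_tang h.smooth (contDiff_chi a b _) (contDiff_chi a b _))
    exact h1.continuous.continuousOn
  · obtain ⟨h1, h2⟩ := tang_bd h (chi a b (1 / ((n : ℝ) + 1))) hy
    have h3 := h2.trans (sum_pd_chi a b _ y)
    obtain ⟨h4, h5⟩ := hK y hy.1
    have h6 := hterm n y a h4
    have h7 := hterm n y b h5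
    rw [abs_of_nonneg (mul_nonneg (sq_nonneg _) h1)]
    calc ww F a b y ^ 2 * tang F (chi a b (1 / ((n : ℝ) + 1))) (chi a b (1 / ((n : ℝ) + 1))) y ≤
          ww F a b y ^ 2 * (2 * deriv (cut (1 / ((n : ℝ) + 1))) (y a) ^ 2 +
            2 * deriv (cut (1 / ((n : ℝ) + 1))) (y b) ^ 2) :=
          mul_le_mul_of_nonneg_left h3 (sq_nonneg _)
      _ ≤ 4 * (K ^ 2 * C ^ 2) := by linarith
  · obtain ⟨h4, h5⟩ := hK y hy.1
    by_cases hya : y a = 0
    · rw [hya, abs_zero, mul_zero] at h4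
      have h6 : ww F a b y = 0 := abs_eq_zero.1 (le_antisymm h4 (abs_nonneg _))
      simp only [h6]
      simp
    · by_cases hyb : y b = 0
      · rw [hyb, abs_zero, mul_zero] at h5
        have h6 : ww F a b y = 0 := abs_eq_zero.1 (le_antisymm h5 (abs_nonneg _))
        simp only [h6]
        simp
      · have h6 : ∀ᶠ n : ℕ in atTop, 1 / ((n : ℝ) + 1) < |y a| :=
          (tendsto_one_div_add_atTop_nhds_zero_nat (𝕜 := ℝ)).eventually_lt_const (abs_pos.2 hya)
        have h7 : ∀ᶠ n : ℕ in atTop, 1 / ((n : ℝ) + 1) < |y b| :=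
          (tendsto_one_div_add_atTop_nhds_zero_nat (𝕜 := ℝ)).eventually_lt_const (abs_pos.2 hyb)
        refine tendsto_const_nhds.congr' ?_
        filter_upwards [h6, h7] with n hn1 hn2
        rw [tang]
        simp only [pd_chi_zero (hη n) hn1 hn2]
        simp

end Pool.Agent.Helper78.FB
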