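import Pool.Agent.Helper94.FB.Kink

/-!
# FB-35 SuperW: `|w|` is a limit of almost supersolutions off the planes `y a = 0`, `y b = 0`

`Super F |w| D`, `D = {y a ≠ 0 ∧ y b ≠ 0}`, `w = ww F a b`: `vn n = sdel F a b δ_n`, `δ_n = 1 / (n + 1)`, `en n = δ_n ^ 2 normA / vn n + δ_n ^ 2 tang(w, w) / (vn n) ^ 3`. `lap (vn n) = - normA vn n + en n ≤ en n` on `surf F` (`lap_sdel`), `nd (vn n) = w ^ 2 / vn n ≥ 0`
(`nd_sdel`), `| vn n - |w| | ≤ δ_n` (`abs_le_sdel`, `sdel_le`). The functions `om`: `closedBall a' r ⊆ D` compact; if `r < 0` the ball is empty, take `om = 0`; otherwise there is `c > 0` with `|y a| ≥ 2 c`, `|y b| ≥ 2 c` on the ball (extreme value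
theorem). `om y = kcut (2 c ^ 2) (y a ^ 2) * kcut (2 c ^ 2) (y b ^ 2)`, `kcut t s = smoothTransition ((s - t) / t)`: smooth, even (`refl_apply`), `≥ 0`, `= 1` where `|y a|, |y b| ≥ 2 c` (`s ≥ 2 t`), and on `tsupport om`: `y a ^ 2 ≥ 2 c ^ 2` (closed set), so
`|y a| > c`, `|y b| > c`. `area (om en n) → 0`: the first part is `≤ δ_n area (om normA)` (`vn n ≥ δ_n`, `le_sdel`), the second part tends to `0` by `kink`.
-/

set_option autoImplicit false

open MeasureTheory Filter
open scoped ContDiff Topology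

namespace Pool.Agent.Helper78.FB

variable {F : E → ℝ}

private theorem kc_contDiff (t : ℝ) (j : Fin 3) : ContDiff ℝ ∞ (fun y : E => kcut t (y j ^ 2)) := by
  unfold kcut
  exact Real.smoothTransition.contDiff.comp ((((contDiff_coord j).pow 2).sub contDiff_const).div_const t)

private theorem kc_nonneg (t s : ℝ) : 0 ≤ kcut t s := Real.smoothTransition.nonneg _

private theorem kc_one {t s : ℝ} (ht : 0 < t) (hs : 2 * t ≤ s) : kcut t s = 1 := by
  unfold kcut
  apply Real.smoothTransition.one_of_one_le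
  rw [le_div_iff₀ ht]
  linarith

private theorem kc_zero {t s : ℝ} (ht : 0 < t) (hs : s ≤ t) : kcut t s = 0 := by
  unfold kcut
  apply Real.smoothTransition.zero_of_nonpos
  exact div_nonpos_of_nonpos_of_nonneg (by linarith) ht.le

private theorem sg_sq' (j l : Fin 3) (x : ℝ) : (sg j l * x) ^ 2 = x ^ 2 := by
  rw [mul_pow, sq, sg_mul_self, one_mul]

private theorem coord_low {a' : E} {r : ℝ} (hr : 0 ≤ r) (j : Fin 3)
    (h : ∀ y ∈ Metric.closedBall a' r, y j ≠ 0) : ∃ c : ℝ, 0 < c ∧ ∀ y ∈ Metric.closedBall a' r, c ≤ |y j| := by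
  have hc : ContinuousOn (fun y : E => |y j|) (Metric.closedBall a' r) :=
    ((contDiff_coord j).continuous.abs).continuousOn
  obtain ⟨z, hz, hm⟩ := (isCompact_closedBall a' r).exists_isMinOn ⟨a', Metric.mem_closedBall_self hr⟩ hc
  exact ⟨|z j|, abs_pos.2 (h z hz), fun y hy => hm hy⟩

theorem super_ww (H : Hyp F) {a b : Fin 3} (hab : a ≠ b) :
    Super F (fun y => |ww F a b y|) {y | y a ≠ 0 ∧ y b ≠ 0} := by
  have hF := H.fb.smooth
  have hw : ContDiff ℝ ∞ (ww F a b) := contDiff_ww hF a b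
  have dpos : ∀ n : ℕ, 0 < 1 / ((n : ℝ) + 1) := fun n => Nat.one_div_pos_of_nat
  have spos : ∀ (n : ℕ) (y : E), 0 < sdel F a b (1 / ((n : ℝ) + 1)) y := fun n y =>
    lt_of_lt_of_le (dpos n) (le_sdel a b (dpos n) y)
  have c1 : ∀ n : ℕ, Continuous (fun y => (1 / ((n : ℝ) + 1)) ^ 2 * normA F y / sdel F a b (1 / ((n : ℝ) + 1)) y) :=
    fun n => (continuous_const.mul (contDiff_normA hF).continuous).div
      (contDiff_sdel a b hF (dpos n)).continuous fun y => (spos n y).ne'
  have c2 : ∀ n : ℕ, Continuous (fun y => (1 / ((n : ℝ) + 1)) ^ 2 * tang F (ww F a b) (ww F a b) y /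
      sdel F a b (1 / ((n : ℝ) + 1)) y ^ 3) :=
    fun n => (continuous_const.mul (contDiff_tang hF hw hw).continuous).div
      ((contDiff_sdel a b hF (dpos n)).continuous.pow 3) fun y => (pow_pos (spos n y) 3).ne'
  refine ⟨fun y _ => abs_nonneg _, (hw.continuous.abs).continuousOn,
    fun n => sdel F a b (1 / ((n : ℝ) + 1)),
    fun n y => (1 / ((n : ℝ) + 1)) ^ 2 * normA F y / sdel F a b (1 / ((n : ℝ) + 1)) y +
      (1 / ((n : ℝ) + 1)) ^ 2 * tang F (ww F a b) (ww F a b) y / sdel F a b (1 / ((n : ℝ) + 1)) y ^ 3,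
    fun n => contDiff_sdel a b hF (dpos n), fun n => ((c1 n).add (c2 n)).continuousOn, ?_, ?_, ?_, ?_, ?_⟩
  · intro n y hy
    have h1 := spos n y
    have h2 := normA_nonneg (F := F) y
    have h3 := tang_nonneg H.fb (ww F a b) hy
    positivity
  · intro n y hy _
    have h1 := lap_sdel a b H.fb (dpos n) hy
    have h2 := mul_nonneg (normA_nonneg (F := F) y) (spos n y).le
    linarith
  · intro n y hy _
    rw [nd_sdel a b H.fb (dpos n) hy]
    exact div_nonneg (sq_nonneg _) (spos n y).le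
  · intro ε hε
    have h1 := (tendsto_one_div_add_atTop_nhds_zero_nat (𝕜 := ℝ)).eventually (gt_mem_nhds hε)
    filter_upwards [h1] with n hn y _
    have h2 := abs_le_sdel (F := F) a b (δ := 1 / ((n : ℝ) + 1)) y
    have h3 := sdel_le (F := F) a b (dpos n) y
    rw [abs_of_nonneg (by linarith)]
    linarith
  · intro a' r hsub
    rcases lt_or_ge r 0 with hr | hr
    · refine ⟨fun _ => 0, contDiff_const, fun _ => le_refl _, ?_, ?_⟩
      · intro y hy
        rw [Metric.closedBall_eq_empty.2 hr] at hy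
        exact absurd hy (Set.notMem_empty y)
      · have e : (fun n : ℕ => area F (fun y => (0 : ℝ) * ((1 / ((n : ℝ) + 1)) ^ 2 * normA F y /
            sdel F a b (1 / ((n : ℝ) + 1)) y + (1 / ((n : ℝ) + 1)) ^ 2 * tang F (ww F a b) (ww F a b) y /
            sdel F a b (1 / ((n : ℝ) + 1)) y ^ 3))) = fun _ => 0 := by
          funext n
          simp [area]
        rw [e]
        exact tendsto_const_nhds
    · obtain ⟨c₁, h₁, h₁'⟩ := coord_low hr a (fun y hy => (hsub hy).1)
      obtain ⟨c₂, h₂, h₂'⟩ := coord_low hr b (fun y hy => (hsub hy).2)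
      obtain ⟨c, hc, hc1, hc2⟩ : ∃ c : ℝ, 0 < c ∧ 2 * c ≤ c₁ ∧ 2 * c ≤ c₂ :=
        ⟨min c₁ c₂ / 2, by positivity, by linarith [min_le_left c₁ c₂], by linarith [min_le_right c₁ c₂]⟩
      have ht : 0 < 2 * c ^ 2 := by positivity
      have ho : ContDiff ℝ ∞ (fun y : E => kcut (2 * c ^ 2) (y a ^ 2) * kcut (2 * c ^ 2) (y b ^ 2)) :=
        (kc_contDiff _ a).mul (kc_contDiff _ b)
      have hn : ∀ y : E, 0 ≤ kcut (2 * c ^ 2) (y a ^ 2) * kcut (2 * c ^ 2) (y b ^ 2) := fun y =>
        mul_nonneg (kc_nonneg _ _) (kc_nonneg _ _)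
      have hoe : ∀ l, Par l 1 (fun y : E => kcut (2 * c ^ 2) (y a ^ 2) * kcut (2 * c ^ 2) (y b ^ 2)) := by
        intro l y
        change kcut (2 * c ^ 2) (refl l y a ^ 2) * kcut (2 * c ^ 2) (refl l y b ^ 2) = _
        rw [refl_apply, refl_apply, sg_sq', sg_sq', one_mul]
      have hcl : IsClosed {y : E | 2 * c ^ 2 ≤ y a ^ 2 ∧ 2 * c ^ 2 ≤ y b ^ 2} :=
        (isClosed_le continuous_const ((contDiff_coord a).continuous.pow 2)).inter
          (isClosed_le continuous_const ((contDiff_coord b).continuous.pow 2))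
      have hs : ∀ y ∈ tsupport (fun y : E => kcut (2 * c ^ 2) (y a ^ 2) * kcut (2 * c ^ 2) (y b ^ 2)),
          c < |y a| ∧ c < |y b| := by
        intro y hy
        have h3 : y ∈ {y : E | 2 * c ^ 2 ≤ y a ^ 2 ∧ 2 * c ^ 2 ≤ y b ^ 2} := by
          refine closure_minimal ?_ hcl hy
          intro z hz
          rw [Function.mem_support] at hz
          refine ⟨?_, ?_⟩
          · by_contra hlt
            exact hz (by rw [kc_zero ht (not_le.1 hlt).le, zero_mul])
          · by_contra hlt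
            exact hz (by rw [kc_zero ht (not_le.1 hlt).le, mul_zero])
        have h4 : c ^ 2 < 2 * c ^ 2 := by nlinarith [pow_pos hc 2]
        refine ⟨?_, ?_⟩
        · exact lt_of_pow_lt_pow_left₀ 2 (abs_nonneg _) (by rw [sq_abs]; exact lt_of_lt_of_le h4 h3.1)
        · exact lt_of_pow_lt_pow_left₀ 2 (abs_nonneg _) (by rw [sq_abs]; exact lt_of_lt_of_le h4 h3.2)
      refine ⟨fun y => kcut (2 * c ^ 2) (y a ^ 2) * kcut (2 * c ^ 2) (y b ^ 2), ho, hn, ?_, ?_⟩
      · intro y hy
        have h5 : 2 * (2 * c ^ 2) ≤ y a ^ 2 := by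
          rw [← sq_abs (y a)]
          have := h₁' y hy
          nlinarith
        have h6 : 2 * (2 * c ^ 2) ≤ y b ^ 2 := by
          rw [← sq_abs (y b)]
          have := h₂' y hy
          nlinarith
        show 1 ≤ kcut (2 * c ^ 2) (y a ^ 2) * kcut (2 * c ^ 2) (y b ^ 2)
        rw [kc_one ht h5, kc_one ht h6, one_mul]
      · have hk := kink H hab ho hoe hn hc hs
        have hfst : Tendsto (fun n : ℕ => area F (fun y => kcut (2 * c ^ 2) (y a ^ 2) * kcut (2 * c ^ 2) (y b ^ 2) *
            ((1 / ((n : ℝ) + 1)) ^ 2 * normA F y / sdel F a b (1 / ((n : ℝ) + 1)) y))) atTop (𝓝 0) := by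
          have hu : Tendsto (fun n : ℕ => 1 / ((n : ℝ) + 1) * area F (fun y => kcut (2 * c ^ 2) (y a ^ 2) *
              kcut (2 * c ^ 2) (y b ^ 2) * normA F y)) atTop (𝓝 0) := by
            have := (tendsto_one_div_add_atTop_nhds_zero_nat (𝕜 := ℝ)).mul_const
              (area F (fun y => kcut (2 * c ^ 2) (y a ^ 2) * kcut (2 * c ^ 2) (y b ^ 2) * normA F y))
            rwa [zero_mul] at this
          refine squeeze_zero (fun n => ?_) (fun n => ?_) hu
          · refine area_nonneg H.fb fun y hy => mul_nonneg (hn y) ?_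
            have h1 := spos n y
            have h2 := normA_nonneg (F := F) y
            positivity
          · rw [← area_const_mul]
            refine area_mono H.fb (ho.continuous.mul (c1 n)).continuousOn
              (continuous_const.mul (ho.continuous.mul (contDiff_normA hF).continuous)).continuousOn fun y hy => ?_
            have h1 := spos n y
            have h2 := normA_nonneg (F := F) y
            have h3 := le_sdel (F := F) a b (dpos n) y
            have h4 : (1 / ((n : ℝ) + 1)) ^ 2 * normA F y / sdel F a b (1 / ((n : ℝ) + 1)) y ≤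
                1 / ((n : ℝ) + 1) * normA F y := by
              rw [div_le_iff₀ h1]
              have h5 : 1 / ((n : ℝ) + 1) * normA F y * (1 / ((n : ℝ) + 1)) ≤
                  1 / ((n : ℝ) + 1) * normA F y * sdel F a b (1 / ((n : ℝ) + 1)) y :=
                mul_le_mul_of_nonneg_left h3 (mul_nonneg (dpos n).le h2)
              calc (1 / ((n : ℝ) + 1)) ^ 2 * normA F y = 1 / ((n : ℝ) + 1) * normA F y * (1 / ((n : ℝ) + 1)) := by ring
                _ ≤ _ := h5
            calc kcut (2 * c ^ 2) (y a ^ 2) * kcut (2 * c ^ 2) (y b ^ 2) *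
                  ((1 / ((n : ℝ) + 1)) ^ 2 * normA F y / sdel F a b (1 / ((n : ℝ) + 1)) y)
                ≤ kcut (2 * c ^ 2) (y a ^ 2) * kcut (2 * c ^ 2) (y b ^ 2) * (1 / ((n : ℝ) + 1) * normA F y) :=
                  mul_le_mul_of_nonneg_left h4 (hn y)
              _ = 1 / ((n : ℝ) + 1) * (kcut (2 * c ^ 2) (y a ^ 2) * kcut (2 * c ^ 2) (y b ^ 2) * normA F y) := by ring
        have hsum := hfst.add hk
        rw [add_zero] at hsum
        refine hsum.congr fun n => ?_
        refine (area_add H.fb (ho.continuous.mul (c1 n)).continuousOn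
          (ho.continuous.mul (c2 n)).continuousOn).symm.trans ?_
        exact area_congr (fun y _ => (mul_add _ _ _).symm) H.fb

end Pool.Agent.Helper78.FB
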