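import Pool.Agent.Helper94.FB.SMP
import Pool.Agent.Helper94.FB.SuperW
import Pool.Agent.Helper94.FB.Quad

/-!
# FB-38 Dich: a rotation function has a sign on the quadrant, or vanishes identically (short)

`w = ww F a b`, `R = surf F ∩ {0 < y a ∧ 0 < y b}` preconnected (`surf_quad_conn`). `pos_or_zero` for `super_ww` (`D = {y a ≠ 0 ∧ y b ≠ 0}` open) and `C = R`: `|w| = 0` on `R` or `|w| > 0` on `R`.
In the second case `w` is continuous and never `0` on the preconnected set `R`, so it has one sign (`IsPreconnected.intermediate_value`/image in `ℝ \ {0}`). In the first case: for `y ∈ surf F` with `y a = 0` or `y b = 0`: `w y = 0` (`par_ww`,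
`par_zero`); otherwise reflect in the variables `a`, `b` so that both are positive (`mem_surf`, `par_ww`: `w` changes by a sign): `w y = ± w y' = 0`.
-/

set_option autoImplicit false

open MeasureTheory Filter
open scoped ContDiff Topology

namespace Pool.Agent.Helper78.FB

variable {F : E → ℝ}

/-- the step of the reflection argument: the sign of the coordinate `l` does not matter -/
private lemma dich_refl {w : E → ℝ} {l : Fin 3} (he : Par l 1 F) (ho : Par l (-1) w) {y : E}
    (hy : y ∈ surf F) (h : ∀ z ∈ surf F, 0 < z l → (∀ j, j ≠ l → z j = y j) → w z = 0) :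
    w y = 0 := by
  rcases lt_trichotomy (y l) 0 with hl | hl | hl
  · have h1 : w (refl l y) = 0 := by
      refine h _ ((mem_surf l he).2 hy) ?_ ?_
      · rw [refl_apply, sg, if_pos rfl]
        linarith
      · intro j hj
        rw [refl_apply, sg, if_neg hj, one_mul]
    have h2 := ho y
    rw [h1] at h2
    linarith
  · exact par_zero l ho hl
  · exact h y hy hl fun _ _ => rfl

theorem dich (H : Hyp F) {a b : Fin 3} (hab : a ≠ b) :
    (∀ y ∈ surf F, ww F a b y = 0) ∨ (∀ y ∈ surf F, 0 < y a → 0 < y b → 0 < ww F a b y) ∨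
      (∀ y ∈ surf F, 0 < y a → 0 < y b → ww F a b y < 0) := by
  have S := super_ww H hab
  have hF := H.fb.smooth
  have hD : IsOpen {y : E | y a ≠ 0 ∧ y b ≠ 0} := by
    refine IsOpen.inter ?_ ?_
    · exact isOpen_ne.preimage (contDiff_coord a).continuous
    · exact isOpen_ne.preimage (contDiff_coord b).continuous
  have hconn := surf_quad_conn H hab
  have hw : ContinuousOn (ww F a b) (surf F ∩ {y | 0 < y a ∧ 0 < y b}) :=
    (((contDiff_coord a).mul (contDiff_pd b hF)).sub
      ((contDiff_coord b).mul (contDiff_pd a hF))).continuous.continuousOn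
  rcases pos_or_zero H.fb S hD hconn Set.inter_subset_left
    (fun y hy => ⟨hy.2.1.ne', hy.2.2.ne'⟩) with h0 | hp
  · left
    have h0' : ∀ y ∈ surf F, 0 < y a → 0 < y b → ww F a b y = 0 := fun y hy ha hb =>
      abs_eq_zero.1 (h0 y ⟨hy, ha, hb⟩)
    have ha : Par a (-1) (ww F a b) := by
      have h := par_ww a hF (H.even a) a b
      rw [sg, sg, if_pos rfl, if_neg hab.symm, mul_one] at h
      exact h
    have hb : Par b (-1) (ww F a b) := by
      have h := par_ww b hF (H.even b) a b
      rw [sg, sg, if_neg hab, if_pos rfl, one_mul] at h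
      exact h
    intro y hy
    refine dich_refl (H.even a) ha hy fun z hz hza hzj => ?_
    refine dich_refl (H.even b) hb hz fun u hu hub huj => ?_
    refine h0' u hu ?_ hub
    rw [huj a hab]
    exact hza
  · right
    by_cases hpos : ∀ y ∈ surf F, 0 < y a → 0 < y b → 0 < ww F a b y
    · exact Or.inl hpos
    · right
      push Not at hpos
      obtain ⟨y1, hy1, ha1, hb1, hw1⟩ := hpos
      intro y hy ha hb
      by_contra hcon
      push Not at hcon
      have hmem : (0 : ℝ) ∈ Set.Icc (ww F a b y1) (ww F a b y) := ⟨hw1, hcon⟩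
      obtain ⟨z, hz, hz0⟩ := hconn.intermediate_value ⟨hy1, ha1, hb1⟩ ⟨hy, ha, hb⟩ hw hmem
      have h1 := hp z hz
      rw [hz0, abs_zero] at h1
      exact lt_irrefl _ h1

end Pool.Agent.Helper78.FB
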