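import Pool.Agent.Helper78.FB.HalfConn
import Pool.Agent.Helper78.FB.Parity

/-!
# FB-36 Fold: half of a connected symmetric surface is connected

`M = inn F ∩ O` is invariant under `refl l` (`mem_inn`). `M⁺ = M ∩ {0 < y l}`. For `z ∈ M` with `z l = 0`: `pd l F z = 0` (`par_pd`: `pd l F` is odd in the variable `l`; `par_zero`), so for every open `V' ∋ z` `half_conn` (with
`V = V' ∩ O`) gives an open `W ∋ z`, `W ⊆ V' ∩ O`, such that `inn F ∩ {0 < y l} ∩ W` (a subset of `M⁺`) is preconnected and nonempty.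
`fold`: let `U, V` be open, `M⁺ ⊆ U ∪ V`, `M⁺ ∩ U`, `M⁺ ∩ V` nonempty; suppose `M⁺ ∩ (U ∩ V) = ∅`. For each `z ∈ M`, `z l = 0`, choose such a `W_z` (with `V' = univ`); its piece lies in `U` or in `V` (preconnected), not both.
Let `Û = ({0 < y l} ∩ U) ∪ refl⁻¹({0 < y l} ∩ U) ∪ ⋃ {W_z ∩ refl⁻¹ W_z | z ∈ M, z l = 0, the piece of W_z is in U}` and `V̂` the same with `V`. Both are open (`contDiff_refl`), `M ⊆ Û ∪ V̂` (three cases; for `y l < 0` use `refl l y`), both meet `M`.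
`M ∩ (Û ∩ V̂) = ∅`: for `y ∈ M` with `y l > 0`, `y ∈ Û` implies `y ∈ U` (third kind: `y` is in the piece of `W_z`), `y ∈ V̂` implies `y ∈ V`; for `y l < 0` the same for `refl l y ∈ M`; for `y l = 0`: `y ∈ W_z ∩ W_z'`, choose by `half_conn` a point of
`M⁺` in `W_z ∩ W_z'`: it is in `U` and in `V`. This contradicts `hc`.
`fold_nonempty`: take `z ∈ M`. If `z l > 0` done; if `z l < 0` take `refl l z`; if `z l = 0` use the piece of `W_z`.
-/

set_option autoImplicit false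

open MeasureTheory Filter
open scoped ContDiff Topology

namespace Pool.Agent.Helper78.FB

variable {F : E → ℝ}

private theorem fold_refl_l (l : Fin 3) (y : E) : refl l y l = -y l := by
  rw [refl_apply]
  unfold sg
  rw [if_pos rfl, neg_one_mul]

private theorem fold_half (h : FBMS F) (l : Fin 3) (he : Par l 1 F) {z : E} (hz : z ∈ inn F)
    (hl : z l = 0) {V : Set E} (hV : IsOpen V) (hzV : z ∈ V) :
    ∃ W : Set E, IsOpen W ∧ z ∈ W ∧ W ⊆ V ∧ IsPreconnected (inn F ∩ {y | 0 < y l} ∩ W) ∧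
      (inn F ∩ {y | 0 < y l} ∩ W).Nonempty := by
  refine half_conn h l z hz hl ?_ V hV hzV
  have h1 : Par l (sg l l * 1) (pd l F) := par_pd l l (one_mul 1) h.smooth he
  have h2 : sg l l * 1 = (-1 : ℝ) := by
    unfold sg
    rw [if_pos rfl, mul_one]
  rw [h2] at h1
  exact par_zero l h1 hl

/-- the auxiliary open sets -/
private def foldW (F : E → ℝ) (l : Fin 3) (O A : Set E) : Set (Set E) :=
  {W | IsOpen W ∧ W ⊆ O ∧ inn F ∩ {y | 0 < y l} ∩ W ⊆ A}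

/-- the symmetric extension of an open set -/
private def foldH (F : E → ℝ) (l : Fin 3) (O A : Set E) : Set E :=
  ({y | 0 < y l} ∩ A) ∪ (refl l ⁻¹' ({y | 0 < y l} ∩ A)) ∪ ⋃ W ∈ foldW F l O A, W ∩ refl l ⁻¹' W

private theorem isOpen_foldH (F : E → ℝ) (l : Fin 3) (O : Set E) {A : Set E} (hA : IsOpen A) :
    IsOpen (foldH F l O A) := by
  have hcont : Continuous (refl l) := (contDiff_refl l).continuous
  have h1 : IsOpen ({y : E | 0 < y l} ∩ A) :=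
    (isOpen_lt continuous_const (contDiff_coord l).continuous).inter hA
  refine (h1.union (h1.preimage hcont)).union ?_
  refine isOpen_biUnion fun W hW => ?_
  exact hW.1.inter (hW.1.preimage hcont)

private theorem foldH_pos {l : Fin 3} {O A : Set E} {y : E} (hy : y ∈ inn F) (hl : 0 < y l)
    (h : y ∈ foldH F l O A) : y ∈ A := by
  rcases h with (h | h) | h
  · exact h.2
  · have h1 : 0 < refl l y l := h.1
    rw [fold_refl_l] at h1
    linarith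
  · rw [Set.mem_iUnion₂] at h
    obtain ⟨W, hW, hyW⟩ := h
    exact hW.2.2 ⟨⟨hy, hl⟩, hyW.1⟩

private theorem foldH_neg {l : Fin 3} {O A : Set E} {y : E} (he : Par l 1 F) (hy : y ∈ inn F)
    (hl : y l < 0) (h : y ∈ foldH F l O A) : refl l y ∈ A := by
  rcases h with (h | h) | h
  · have h1 : 0 < y l := h.1
    linarith
  · exact h.2
  · rw [Set.mem_iUnion₂] at h
    obtain ⟨W, hW, hyW⟩ := h
    refine hW.2.2 ⟨⟨(mem_inn l he).2 hy, ?_⟩, hyW.2⟩
    change 0 < refl l y l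
    rw [fold_refl_l]
    linarith

private theorem foldH_zero {l : Fin 3} {O A : Set E} {y : E}
    (hl : y l = 0) (h : y ∈ foldH F l O A) : ∃ W ∈ foldW F l O A, y ∈ W := by
  rcases h with (h | h) | h
  · have h1 : 0 < y l := h.1
    linarith
  · have h1 : 0 < refl l y l := h.1
    rw [fold_refl_l] at h1
    linarith
  · rw [Set.mem_iUnion₂] at h
    obtain ⟨W, hW, hyW⟩ := h
    exact ⟨W, hW, hyW.1⟩

private theorem mem_foldH_pos {l : Fin 3} {O A : Set E} {y : E} (hl : 0 < y l) (h : y ∈ A) :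
    y ∈ foldH F l O A := Or.inl (Or.inl ⟨hl, h⟩)

private theorem mem_foldH_neg {l : Fin 3} {O A : Set E} {y : E} (hl : y l < 0)
    (h : refl l y ∈ A) : y ∈ foldH F l O A := by
  refine Or.inl (Or.inr ⟨?_, h⟩)
  change 0 < refl l y l
  rw [fold_refl_l]
  linarith

private theorem mem_foldH_zero {l : Fin 3} {O A : Set E} {y : E} (hl : y l = 0) {W : Set E}
    (hW : W ∈ foldW F l O A) (h : y ∈ W) : y ∈ foldH F l O A := by
  refine Or.inr (Set.mem_iUnion₂.2 ⟨W, hW, h, ?_⟩)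
  change refl l y ∈ W
  rwa [refl_of_zero l y hl]

theorem fold (h : FBMS F) (l : Fin 3) (he : Par l 1 F) (O : Set E) (hO : IsOpen O)
    (hr : ∀ y, refl l y ∈ O ↔ y ∈ O) (hc : IsPreconnected (inn F ∩ O)) :
    IsPreconnected (inn F ∩ O ∩ {y | 0 < y l}) := by
  intro U V hU hV hUV hneU hneV
  by_contra hcon
  rw [Set.not_nonempty_iff_eq_empty] at hcon
  have key : ∀ y, y ∈ inn F → y ∈ O → 0 < y l → y ∈ U → y ∈ V → False := by
    intro y h1 h2 h3 h4 h5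
    have h6 : y ∈ inn F ∩ O ∩ {y | 0 < y l} ∩ (U ∩ V) := ⟨⟨⟨h1, h2⟩, h3⟩, h4, h5⟩
    rw [hcon] at h6
    exact h6
  have hcov : inn F ∩ O ⊆ foldH F l O U ∪ foldH F l O V := by
    rintro y ⟨hy, hyO⟩
    rcases lt_trichotomy (y l) 0 with hl | hl | hl
    · have h1 : refl l y ∈ inn F ∩ O ∩ {y | 0 < y l} := by
        refine ⟨⟨(mem_inn l he).2 hy, (hr y).2 hyO⟩, ?_⟩
        change 0 < refl l y l
        rw [fold_refl_l]
        linarith
      rcases hUV h1 with h2 | h2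
      · exact Or.inl (mem_foldH_neg hl h2)
      · exact Or.inr (mem_foldH_neg hl h2)
    · obtain ⟨W, hWo, hyW, hWO, hWc, _⟩ := fold_half h l he hy hl hO hyO
      have h2 : inn F ∩ {y | 0 < y l} ∩ W ⊆ U ∪ V := by
        rintro x ⟨⟨hx1, hx2⟩, hx3⟩
        exact hUV ⟨⟨hx1, hWO hx3⟩, hx2⟩
      have h3 : inn F ∩ {y | 0 < y l} ∩ W ∩ (U ∩ V) = ∅ := by
        rw [Set.eq_empty_iff_forall_notMem]
        rintro x ⟨⟨⟨hx1, hx2⟩, hx3⟩, hx4, hx5⟩
        exact key x hx1 (hWO hx3) hx2 hx4 hx5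
      rcases isPreconnected_iff_subset_of_disjoint.1 hWc U V hU hV h2 h3 with h4 | h4
      · exact Or.inl (mem_foldH_zero hl ⟨hWo, hWO, h4⟩ hyW)
      · exact Or.inr (mem_foldH_zero hl ⟨hWo, hWO, h4⟩ hyW)
    · rcases hUV (⟨⟨hy, hyO⟩, hl⟩ : y ∈ inn F ∩ O ∩ {y | 0 < y l}) with h2 | h2
      · exact Or.inl (mem_foldH_pos hl h2)
      · exact Or.inr (mem_foldH_pos hl h2)
  have hmU : (inn F ∩ O ∩ foldH F l O U).Nonempty := by
    obtain ⟨y, ⟨hy, hyl⟩, hyU⟩ := hneU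
    exact ⟨y, hy, mem_foldH_pos hyl hyU⟩
  have hmV : (inn F ∩ O ∩ foldH F l O V).Nonempty := by
    obtain ⟨y, ⟨hy, hyl⟩, hyV⟩ := hneV
    exact ⟨y, hy, mem_foldH_pos hyl hyV⟩
  obtain ⟨y, ⟨hy, hyO⟩, hyU, hyV⟩ := hc _ _ (isOpen_foldH F l O hU) (isOpen_foldH F l O hV)
    hcov hmU hmV
  rcases lt_trichotomy (y l) 0 with hl | hl | hl
  · refine key (refl l y) ((mem_inn l he).2 hy) ((hr y).2 hyO) ?_ (foldH_neg he hy hl hyU)
      (foldH_neg he hy hl hyV)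
    rw [fold_refl_l]
    linarith
  · obtain ⟨W, hW, hyW⟩ := foldH_zero hl hyU
    obtain ⟨W', hW', hyW'⟩ := foldH_zero hl hyV
    obtain ⟨W'', _, _, hsub, _, ⟨p, ⟨⟨hp1, hp2⟩, hp3⟩⟩⟩ :=
      fold_half h l he hy hl (hW.1.inter hW'.1) ⟨hyW, hyW'⟩
    have hp4 := hsub hp3
    exact key p hp1 (hW.2.1 hp4.1) hp2 (hW.2.2 ⟨⟨hp1, hp2⟩, hp4.1⟩)
      (hW'.2.2 ⟨⟨hp1, hp2⟩, hp4.2⟩)
  · exact key y hy hyO hl (foldH_pos hy hl hyU) (foldH_pos hy hl hyV)

theorem fold_nonempty (h : FBMS F) (l : Fin 3) (he : Par l 1 F) (O : Set E) (hO : IsOpen O)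
    (hr : ∀ y, refl l y ∈ O ↔ y ∈ O) (hne : (inn F ∩ O).Nonempty) : (inn F ∩ O ∩ {y | 0 < y l}).Nonempty := by
  obtain ⟨y, hy, hyO⟩ := hne
  rcases lt_trichotomy (y l) 0 with hl | hl | hl
  · refine ⟨refl l y, ⟨(mem_inn l he).2 hy, (hr y).2 hyO⟩, ?_⟩
    change 0 < refl l y l
    rw [fold_refl_l]
    linarith
  · obtain ⟨W, _, _, hsub, _, ⟨p, ⟨⟨hp1, hp2⟩, hp3⟩⟩⟩ := fold_half h l he hy hl hO hyO
    exact ⟨p, ⟨hp1, hsub hp3⟩, hp2⟩
  · exact ⟨y, ⟨hy, hyO⟩, hl⟩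

end Pool.Agent.Helper78.FB
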