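import Pool.Agent.Helper94.FB.BDefs

/-!
# FB-22 GFun: the function `gfun α β ε` (Mathlib only)

`gfun α β ε s = s * (β + (α - β) * smoothTransition (1 + s / ε))`. `smoothTransition = 1` on `[1, ∞)`, `= 0` on `(-∞, 0]`, values in `[0, 1]`, smooth (`Real.smoothTransition.contDiff`, `one_of_one_le`, `zero_of_nonpos`).
* `deriv_gfun_nonneg`: for `s > 0` the function is `α s` near `s`; at `s = 0` the function is differentiable and its right derivative is `α` (or compute: the derivative is
  `β + (α - β) σ(1 + s / ε) + s (α - β) σ'(1 + s / ε) / ε` and `s = 0`).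
* `deriv_gfun_bound`: by this formula; `σ'` is continuous and vanishes outside `[0, 1]`, so bounded by some `M`; `σ'(1 + s / ε) ≠ 0` only for `- ε ≤ s ≤ 0` where `|s / ε| ≤ 1`. `C = |β| + |α - β| + |α - β| * M`.
* `gfun_bound`: `0 ≤ σ ≤ 1`. The limits: for `s ≥ 0` constant sequences; for `s < 0` eventually `s < - 1 / (n + 1)`.
-/

set_option autoImplicit false

open MeasureTheory Filter
open scoped ContDiff Topology

namespace Pool.Agent.Helper78.FB

variable (α β : ℝ) {ε s : ℝ}

private theorem st_diff (x : ℝ) : HasDerivAt Real.smoothTransition (deriv Real.smoothTransition x) x :=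
  (Real.smoothTransition.contDiff (n := 1)).differentiable one_ne_zero |>.differentiableAt.hasDerivAt

private theorem st_deriv_of_gt {x : ℝ} (hx : 1 < x) : deriv Real.smoothTransition x = 0 := by
  have h : Real.smoothTransition =ᶠ[𝓝 x] fun _ => (1 : ℝ) := by
    filter_upwards [lt_mem_nhds hx] with y hy
    exact Real.smoothTransition.one_of_one_le hy.le
  rw [h.deriv_eq, deriv_const]

private theorem st_deriv_of_lt {x : ℝ} (hx : x < 0) : deriv Real.smoothTransition x = 0 := by
  have h : Real.smoothTransition =ᶠ[𝓝 x] fun _ => (0 : ℝ) := by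
    filter_upwards [gt_mem_nhds hx] with y hy
    exact Real.smoothTransition.zero_of_nonpos hy.le
  rw [h.deriv_eq, deriv_const]

private theorem hasDerivAt_gfun (ε s : ℝ) : HasDerivAt (gfun α β ε)
    ((β + (α - β) * Real.smoothTransition (1 + s / ε)) +
      s * ((α - β) * (deriv Real.smoothTransition (1 + s / ε) * (1 / ε)))) s := by
  have h1 : HasDerivAt (fun s : ℝ => 1 + s / ε) (1 / ε) s := by
    simpa using ((hasDerivAt_id s).div_const ε).const_add 1
  have h2 : HasDerivAt (fun s : ℝ => Real.smoothTransition (1 + s / ε))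
      (deriv Real.smoothTransition (1 + s / ε) * (1 / ε)) s := (st_diff _).comp s h1
  have h3 := (hasDerivAt_id s).mul ((h2.const_mul (α - β)).const_add β)
  refine h3.congr_deriv ?_
  simp only [id]
  ring

private theorem deriv_gfun (ε s : ℝ) : deriv (gfun α β ε) s =
    (β + (α - β) * Real.smoothTransition (1 + s / ε)) +
      s * ((α - β) * (deriv Real.smoothTransition (1 + s / ε) * (1 / ε))) :=
  (hasDerivAt_gfun α β ε s).deriv

theorem contDiff_gfun (ε : ℝ) : ContDiff ℝ ∞ (gfun α β ε) := by
  have h1 : ContDiff ℝ ∞ (fun s : ℝ => 1 + s / ε) := contDiff_const.add (contDiff_id.div_const ε)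
  exact contDiff_id.mul (contDiff_const.add (contDiff_const.mul
    (Real.smoothTransition.contDiff.comp h1)))

theorem gfun_of_nonneg (hε : 0 < ε) (hs : 0 ≤ s) : gfun α β ε s = α * s := by
  have h1 : Real.smoothTransition (1 + s / ε) = 1 :=
    Real.smoothTransition.one_of_one_le (by have := div_nonneg hs hε.le; linarith)
  simp only [gfun, h1]
  ring

theorem gfun_of_le (hε : 0 < ε) (hs : s ≤ -ε) : gfun α β ε s = β * s := by
  have h1 : Real.smoothTransition (1 + s / ε) = 0 := by
    apply Real.smoothTransition.zero_of_nonpos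
    have : s / ε ≤ -1 := by rw [div_le_iff₀ hε]; linarith
    linarith
  simp only [gfun, h1]
  ring

theorem deriv_gfun_of_nonneg (hε : 0 < ε) (hs : 0 ≤ s) : deriv (gfun α β ε) s = α := by
  have h1 : Real.smoothTransition (1 + s / ε) = 1 :=
    Real.smoothTransition.one_of_one_le (by have := div_nonneg hs hε.le; linarith)
  rw [deriv_gfun, h1]
  rcases hs.eq_or_lt with h | h
  · rw [← h]; ring
  · rw [st_deriv_of_gt (by have := div_pos h hε; linarith)]; ring

theorem deriv_gfun_of_lt (hε : 0 < ε) (hs : s < -ε) : deriv (gfun α β ε) s = β := by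
  have h0 : 1 + s / ε < 0 := by
    have : s / ε < -1 := by rw [div_lt_iff₀ hε]; linarith
    linarith
  rw [deriv_gfun, Real.smoothTransition.zero_of_nonpos h0.le, st_deriv_of_lt h0]
  ring

theorem gfun_bound (ε s : ℝ) : |gfun α β ε s| ≤ (|α| + 2 * |β|) * |s| := by
  have h0 := Real.smoothTransition.nonneg (1 + s / ε)
  have h1 := Real.smoothTransition.le_one (1 + s / ε)
  have e : gfun α β ε s = (α * Real.smoothTransition (1 + s / ε) +
      β * (1 - Real.smoothTransition (1 + s / ε))) * s := by
    simp only [gfun]; ring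
  rw [e, abs_mul]
  apply mul_le_mul_of_nonneg_right _ (abs_nonneg s)
  calc |α * Real.smoothTransition (1 + s / ε) + β * (1 - Real.smoothTransition (1 + s / ε))|
      ≤ |α * Real.smoothTransition (1 + s / ε)| + |β * (1 - Real.smoothTransition (1 + s / ε))| :=
        abs_add_le _ _
    _ = |α| * Real.smoothTransition (1 + s / ε) + |β| * (1 - Real.smoothTransition (1 + s / ε)) := by
        rw [abs_mul, abs_mul, abs_of_nonneg h0, abs_of_nonneg (sub_nonneg.2 h1)]
    _ ≤ |α| * 1 + |β| * 1 := by
        apply add_le_add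
        · exact mul_le_mul_of_nonneg_left h1 (abs_nonneg _)
        · exact mul_le_mul_of_nonneg_left (by linarith) (abs_nonneg _)
    _ ≤ |α| + 2 * |β| := by have := abs_nonneg β; linarith

private theorem st_deriv_bound : ∃ M : ℝ, 0 ≤ M ∧ ∀ x, |deriv Real.smoothTransition x| ≤ M := by
  have hc : Continuous (deriv Real.smoothTransition) :=
    (Real.smoothTransition.contDiff (n := 1)).continuous_deriv le_rfl
  obtain ⟨M, hM⟩ := (isCompact_Icc (a := (0 : ℝ)) (b := 1)).exists_bound_of_continuousOn hc.continuousOn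
  refine ⟨max M 0, le_max_right _ _, fun x => ?_⟩
  by_cases h0 : x < 0
  · rw [st_deriv_of_lt h0, abs_zero]; exact le_max_right _ _
  by_cases h1 : 1 < x
  · rw [st_deriv_of_gt h1, abs_zero]; exact le_max_right _ _
  · exact (hM x ⟨not_lt.1 h0, not_lt.1 h1⟩).trans (le_max_left _ _)

theorem deriv_gfun_bound : ∃ C : ℝ, ∀ ε : ℝ, 0 < ε → ∀ s, |deriv (gfun α β ε) s| ≤ C := by
  obtain ⟨M, hM0, hM⟩ := st_deriv_bound
  refine ⟨|β| + |α - β| + |α - β| * M, fun ε hε s => ?_⟩
  by_cases hs : s < -ε
  · rw [deriv_gfun_of_lt α β hε hs]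
    have h1 := abs_nonneg (α - β)
    have h2 := mul_nonneg h1 hM0
    linarith
  by_cases hs' : 0 < s
  · rw [deriv_gfun_of_nonneg α β hε hs'.le]
    have h1 : |α| ≤ |β| + |α - β| := by
      calc |α| = |β + (α - β)| := by congr 1; ring
        _ ≤ _ := abs_add_le _ _
    have h2 := mul_nonneg (abs_nonneg (α - β)) hM0
    linarith
  · rw [deriv_gfun]
    have h0 := Real.smoothTransition.nonneg (1 + s / ε)
    have h1 := Real.smoothTransition.le_one (1 + s / ε)
    have h3 : |s * (1 / ε)| ≤ 1 := by
      rw [abs_mul, abs_of_nonneg (one_div_nonneg.2 hε.le), mul_one_div, div_le_one hε, abs_le]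
      exact ⟨not_lt.1 hs, (not_lt.1 hs').trans hε.le⟩
    have h4 : s * ((α - β) * (deriv Real.smoothTransition (1 + s / ε) * (1 / ε))) =
        (α - β) * deriv Real.smoothTransition (1 + s / ε) * (s * (1 / ε)) := by ring
    rw [h4]
    calc |β + (α - β) * Real.smoothTransition (1 + s / ε) +
          (α - β) * deriv Real.smoothTransition (1 + s / ε) * (s * (1 / ε))|
        ≤ |β + (α - β) * Real.smoothTransition (1 + s / ε)| +
          |(α - β) * deriv Real.smoothTransition (1 + s / ε) * (s * (1 / ε))| := abs_add_le _ _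
      _ ≤ (|β| + |α - β|) + |α - β| * M := by
          apply add_le_add
          · refine (abs_add_le _ _).trans (add_le_add le_rfl ?_)
            rw [abs_mul, abs_of_nonneg h0]
            calc |α - β| * Real.smoothTransition (1 + s / ε) ≤ |α - β| * 1 :=
                  mul_le_mul_of_nonneg_left h1 (abs_nonneg _)
              _ = _ := mul_one _
          · rw [abs_mul, abs_mul]
            calc |α - β| * |deriv Real.smoothTransition (1 + s / ε)| * |s * (1 / ε)|
                ≤ |α - β| * M * 1 := by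
                  apply mul_le_mul _ h3 (abs_nonneg _) (mul_nonneg (abs_nonneg _) hM0)
                  exact mul_le_mul_of_nonneg_left (hM _) (abs_nonneg _)
              _ = _ := mul_one _

private theorem ev_lt {s : ℝ} (hs : s < 0) : ∀ᶠ n : ℕ in atTop, s < -(1 / ((n : ℝ) + 1)) := by
  have h1 : Tendsto (fun n : ℕ => -(1 / ((n : ℝ) + 1))) atTop (𝓝 (-0)) :=
    tendsto_one_div_add_atTop_nhds_zero_nat.neg
  rw [neg_zero] at h1
  exact h1.eventually (lt_mem_nhds hs)

theorem gfun_tendsto (s : ℝ) :
    Tendsto (fun n : ℕ => gfun α β (1 / ((n : ℝ) + 1)) s) atTop (𝓝 (α * max s 0 - β * max (-s) 0)) := by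
  by_cases hs : 0 ≤ s
  · rw [max_eq_left hs, max_eq_right (neg_nonpos.2 hs), mul_zero, sub_zero]
    refine Tendsto.congr (fun n => ?_) tendsto_const_nhds
    exact (gfun_of_nonneg α β (by positivity) hs).symm
  · have hs' : s < 0 := not_le.1 hs
    rw [max_eq_right hs'.le, max_eq_left (neg_nonneg.2 hs'.le), mul_zero, zero_sub, mul_neg, neg_neg]
    refine Tendsto.congr' ?_ tendsto_const_nhds
    filter_upwards [ev_lt hs'] with n hn
    exact (gfun_of_le α β (by positivity) hn.le).symm

theorem deriv_gfun_tendsto (s : ℝ) :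
    Tendsto (fun n : ℕ => deriv (gfun α β (1 / ((n : ℝ) + 1))) s) atTop (𝓝 (if 0 ≤ s then α else β)) := by
  by_cases hs : 0 ≤ s
  · rw [if_pos hs]
    refine Tendsto.congr (fun n => ?_) tendsto_const_nhds
    exact (deriv_gfun_of_nonneg α β (by positivity) hs).symm
  · rw [if_neg hs]
    refine Tendsto.congr' ?_ tendsto_const_nhds
    filter_upwards [ev_lt (not_le.1 hs)] with n hn
    exact (deriv_gfun_of_lt α β (by positivity) hn).symm

end Pool.Agent.Helper78.FB
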