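import Pool.Agent.Helper94.FB.Smooth
import Pool.Agent.Helper78.FB.Integ
import Pool.Agent.Helper78.FB.Eik

/-!
# FB-15 Green: Green's formula; positivity of `tang`

`h.firstVar` for `X i = g * pd i f`: `pd j (X i) = pd j g * pd i f + g * pd j (pd i f)`, so on `E`: `divS F X = ∑ i, pd i g * pd i f - (∑ i, pd i F pd i f)(∑ j, pd j F pd j g) + g * lap F f` (use `pd_comm` for the order of the
derivatives in `lap`). The right side of `firstVar` is `len F (g * nd f)`.
`tang_nonneg`: `(∑ i, N_i f_i) ^ 2 ≤ (∑ N_i ^ 2)(∑ f_i ^ 2)` with `∑ N_i ^ 2 = 1` (`grad_sq`, Cauchy, `Finset.sum_mul_sq_le_sq_mul_sq`).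
-/

set_option autoImplicit false

open MeasureTheory Filter
open scoped ContDiff Topology

namespace Pool.Agent.Helper78.FB

variable {F : E → ℝ}

theorem green (h : FBMS F) {f g : E → ℝ} (hf : ContDiff ℝ ∞ f) (hg : ContDiff ℝ ∞ g) :
    area F (fun y => g y * lap F f y + tang F f g y) = len F (fun y => g y * nd f y) := by
  have key := h.firstVar (fun i y => g y * pd i f y) fun i => hg.mul (contDiff_pd i hf)
  have e1 : divS F (fun i y => g y * pd i f y) = fun y => g y * lap F f y + tang F f g y := by
    funext y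
    have hX : ∀ i j : Fin 3, pd j (fun y => g y * pd i f y) y =
        pd j g y * pd i f y + g y * pd j (pd i f) y := fun i j => by
      rw [pd_mul j hg (contDiff_pd i hf)]
    unfold divS lap tang
    simp only [hX, Fin.sum_univ_three]
    rw [pd_comm 1 0 hf, pd_comm 2 0 hf, pd_comm 2 1 hf]
    ring
  have e2 : (fun y : E => ∑ i, (g y * pd i f y) * y i) = fun y => g y * nd f y := by
    funext y
    unfold nd
    simp only [Fin.sum_univ_three]
    ring
  rw [e1, e2] at key
  exact key

theorem tang_nonneg (h : FBMS F) (f : E → ℝ) {y : E} (hy : y ∈ surf F) : 0 ≤ tang F f f y := by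
  have h1 := grad_sq h hy
  have h2 := Finset.sum_mul_sq_le_sq_mul_sq Finset.univ (fun i => pd i F y) (fun i => pd i f y)
  rw [h1, one_mul] at h2
  have h3 : ∑ i, pd i f y * pd i f y = ∑ i, pd i f y ^ 2 :=
    Finset.sum_congr rfl fun i _ => (sq _).symm
  unfold tang
  rw [h3, ← sq]
  linarith

end Pool.Agent.Helper78.FB
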