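import Pool.Agent.Helper94.FB.QForm

/-!
# FB-24 INeg: where the support function is negative (positive) the surface is somewhere not flat

`i_neg`: the integrand `normA * max (-u) 0` is continuous and `≥ 0`. If its area is `0`, it vanishes on `surf F` (`area_pos`), so `normA y = 0` for `y ∈ surf F` with `u y < 0`. Let `t = - u b / 2 > 0`,
`ψ s = expNegInvGlue (- s - t)` (smooth, `≥ 0`, `0` for `s ≥ - t`, `ψ (u b) > 0`), `g = ψ ∘ u`, `f = ∑ k, y_k ^ 2`. On `surf F`: `tang F f g = ψ'(u) tang F u f = ψ'(u) ∑ i j, y_i F_ij (2 y_j) = 0` (`tang_comm`, `pd_comp`, `tang_uu`): where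
`u < 0` all `F_ij` vanish because `normA = 0`, and where `u ≥ 0` we have `deriv ψ (u) = 0` (`ψ = 0` near `u`, as `u > -t`). `green`: `area (g * 4 + 0) = len (g * nd f) = 0` since `g = ψ 0 = 0` on `bdry F` (`orth`). But
`g ≥ 0`, `g b > 0`: `area_pos` gives a contradiction. `i_pos`: the same with `ψ s = expNegInvGlue (s - t)`, `t = u b / 2`.
-/

set_option autoImplicit false

open MeasureTheory Filter
open scoped ContDiff Topology

namespace Pool.Agent.Helper78.FB

variable {F : E → ℝ}

private theorem normA_cont (h : FBMS F) (w : E → ℝ) (hw : Continuous w) :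
    ContinuousOn (fun y => normA F y * w y) (surf F) :=
  ((contDiff_normA h.smooth).continuous.mul hw).continuousOn

private theorem hess_zero {y : E} (h : normA F y = 0) (i j : Fin 3) : pd i (pd j F) y = 0 := by
  have h1 : ∀ i ∈ Finset.univ, 0 ≤ ∑ j, pd i (pd j F) y ^ 2 := fun i _ =>
    Finset.sum_nonneg fun j _ => sq_nonneg _
  have h2 := (Finset.sum_eq_zero_iff_of_nonneg h1).1 h i (Finset.mem_univ i)
  have h3 := (Finset.sum_eq_zero_iff_of_nonneg fun j _ => sq_nonneg (pd i (pd j F) y)).1 h2 j
    (Finset.mem_univ j)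
  exact pow_eq_zero_iff (two_ne_zero) |>.1 h3

private theorem contDiff_sqsum : ContDiff ℝ ∞ (fun y : E => ∑ k, y k ^ 2) :=
  ContDiff.sum fun k _ => (contDiff_coord k).pow 2

private theorem key (h : FBMS F) {b : E} (hb : b ∈ surf F) (ψ : ℝ → ℝ) (hψ : ContDiff ℝ ∞ ψ)
    (hψ0 : ∀ s, 0 ≤ ψ s) (h0 : ψ 0 = 0) (hpos : 0 < ψ (uu F b))
    (hd : ∀ y ∈ surf F, deriv ψ (uu F y) = 0 ∨ normA F y = 0) : False := by
  have hu := contDiff_uu h.smooth
  have hg : ContDiff ℝ ∞ (fun y => ψ (uu F y)) := hψ.comp hu
  have h1 := green h contDiff_sqsum hg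
  have h2 : ∀ y ∈ surf F, ψ (uu F y) * lap F (fun y => ∑ k, y k ^ 2) y +
      tang F (fun y => ∑ k, y k ^ 2) (fun y => ψ (uu F y)) y = 4 * ψ (uu F y) := by
    intro y hy
    have h3 : tang F (fun y => ∑ k, y k ^ 2) (fun y => ψ (uu F y)) y =
        deriv ψ (uu F y) * tang F (uu F) (fun y => ∑ k, y k ^ 2) y := by
      rw [tang_comm]
      unfold tang
      simp only [pd_comp _ ψ hψ hu]
      have hA : ∑ i, deriv ψ (uu F y) * pd i (uu F) y * pd i (fun y : E => ∑ k, y k ^ 2) y =
          deriv ψ (uu F y) * ∑ i, pd i (uu F) y * pd i (fun y : E => ∑ k, y k ^ 2) y := by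
        rw [Finset.mul_sum]
        exact Finset.sum_congr rfl fun i _ => by ring
      have hB : ∑ i, pd i F y * (deriv ψ (uu F y) * pd i (uu F) y) =
          deriv ψ (uu F y) * ∑ i, pd i F y * pd i (uu F) y := by
        rw [Finset.mul_sum]
        exact Finset.sum_congr rfl fun i _ => by ring
      rw [hA, hB]
      ring
    have h4 : deriv ψ (uu F y) * tang F (uu F) (fun y => ∑ k, y k ^ 2) y = 0 := by
      rcases hd y hy with h5 | h5
      · rw [h5, zero_mul]
      · rw [tang_uu h hy]
        rw [Finset.sum_eq_zero, mul_zero]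
        intro i _
        refine Finset.sum_eq_zero fun j _ => ?_
        rw [hess_zero h5, mul_zero, zero_mul]
    rw [h3, h4, lap_sq h hy]
    ring
  rw [area_congr h2 h] at h1
  have h5 : len F (fun y => ψ (uu F y) * nd (fun y => ∑ k, y k ^ 2) y) = len F (fun _ => 0) := by
    refine len_congr (fun y hy => ?_) h
    rw [orth h hy, h0, zero_mul]
  have h6 : len F (fun _ => 0) = 0 := by simp [len]
  rw [h5, h6] at h1
  have h7 : 0 < area F (fun y => 4 * ψ (uu F y)) :=
    area_pos h (continuous_const.mul hg.continuous).continuousOn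
      (fun y _ => mul_nonneg (by norm_num) (hψ0 _)) hb (by positivity)
  exact absurd h1 h7.ne'

theorem i_neg (h : FBMS F) {b : E} (hb : b ∈ surf F) (hub : uu F b < 0) :
    0 < area F (fun y => normA F y * max (-uu F y) 0) := by
  by_contra hcon
  have hw : Continuous fun y => max (-uu F y) 0 :=
    (contDiff_uu h.smooth).continuous.neg.max continuous_const
  have hz : ∀ y ∈ surf F, uu F y < 0 → normA F y = 0 := by
    intro y hy huy
    by_contra hne
    apply hcon
    refine area_pos h (normA_cont h _ hw) (fun z _ => mul_nonneg (normA_nonneg z)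
      (le_max_right _ _)) hy (mul_pos (lt_of_le_of_ne (normA_nonneg y) (Ne.symm hne)) ?_)
    exact lt_max_of_lt_left (by linarith)
  refine key h hb (fun s => expNegInvGlue (-s - -(uu F b) / 2)) ?_ ?_ ?_ ?_ ?_
  · exact expNegInvGlue.contDiff.comp (contDiff_neg.sub contDiff_const)
  · exact fun s => expNegInvGlue.nonneg _
  · exact expNegInvGlue.zero_of_nonpos (by linarith)
  · exact expNegInvGlue.pos_of_pos (by linarith)
  · intro y hy
    rcases lt_or_ge (uu F y) 0 with h1 | h1
    · exact Or.inr (hz y hy h1)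
    · left
      have h2 : (fun s => expNegInvGlue (-s - -(uu F b) / 2)) =ᶠ[𝓝 (uu F y)] fun _ => 0 := by
        have h3 : uu F b / 2 < uu F y := by linarith
        filter_upwards [Ioi_mem_nhds h3] with s hs
        have h4 : uu F b / 2 < s := hs
        exact expNegInvGlue.zero_of_nonpos (by linarith)
      rw [h2.deriv_eq, deriv_const]

theorem i_pos (h : FBMS F) {b : E} (hb : b ∈ surf F) (hub : 0 < uu F b) :
    0 < area F (fun y => normA F y * max (uu F y) 0) := by
  by_contra hcon
  have hw : Continuous fun y => max (uu F y) 0 :=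
    (contDiff_uu h.smooth).continuous.max continuous_const
  have hz : ∀ y ∈ surf F, 0 < uu F y → normA F y = 0 := by
    intro y hy huy
    by_contra hne
    apply hcon
    refine area_pos h (normA_cont h _ hw) (fun z _ => mul_nonneg (normA_nonneg z)
      (le_max_right _ _)) hy (mul_pos (lt_of_le_of_ne (normA_nonneg y) (Ne.symm hne)) ?_)
    exact lt_max_of_lt_left huy
  refine key h hb (fun s => expNegInvGlue (s - uu F b / 2)) ?_ ?_ ?_ ?_ ?_
  · exact expNegInvGlue.contDiff.comp (contDiff_id.sub contDiff_const)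
  · exact fun s => expNegInvGlue.nonneg _
  · exact expNegInvGlue.zero_of_nonpos (by linarith)
  · exact expNegInvGlue.pos_of_pos (by linarith)
  · intro y hy
    rcases lt_or_ge 0 (uu F y) with h1 | h1
    · exact Or.inr (hz y hy h1)
    · left
      have h2 : (fun s => expNegInvGlue (s - uu F b / 2)) =ᶠ[𝓝 (uu F y)] fun _ => 0 := by
        have h3 : uu F y < uu F b / 2 := by linarith
        filter_upwards [Iio_mem_nhds h3] with s hs
        have h4 : s < uu F b / 2 := hs
        exact expNegInvGlue.zero_of_nonpos (by linarith)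
      rw [h2.deriv_eq, deriv_const]

end Pool.Agent.Helper78.FB
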