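import Pool.Agent.Helper94.FB.Rays

/-!
# FB-42 Inc: monotonicity of the shadow along a curve on the sphere

Let `ρ ∈ (0, 1)` be the zero on the ray of `θ s2` (`ray_zero_of_pos`). If `s1 = s2` there is nothing to prove. Choose `ε > 0` with `ρ + ε (s2 - s1) < 1`; `r s = ρ + ε (s2 - s) ∈ (0, 1)` on `[s1, s2]`, `g s = F (r s • θ s)`. `g s2 = 0`. At every zero
`s ∈ [s1, s2]` of `g` (so `r s • θ s ∈ inn F`): `g' s = ∑ k, (- ε θ_k + r θ'_k) pd k F (r • θ) = - ε uu F (r • θ) / r + r ∑ k, θ'_k pd k F (r • θ) < 0` (`hasDerivAt_comp`, `hu`, `hw`). So `x ↦ g (- x)` crosses zero upwards only on `[-s2, -s1]`. At `s2`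
the derivative is negative, so `g > 0` just to the left of `s2`; by `cross_right` (for `x ↦ g (-x)`, starting just after `- s2`) `g > 0` on `(s1, s2)`, and by continuity `g s1 ≥ 0`, where `g s1 = 0` is impossible: `g' s1 < 0` would give
`g < 0` just to the right of `s1`. So `F (r s • θ s) > 0` for `s1 ≤ s < s2` and `ray_of_pos` gives `F (θ s) > 0`. `HasDerivAt` is assumed on the whole line, so there are no endpoint problems.
-/

set_option autoImplicit false

open MeasureTheory Filter Set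
open scoped ContDiff Topology

namespace Pool.Agent.Helper78.FB

variable {F : E → ℝ}

private theorem sign_left {g : ℝ → ℝ} {d x : ℝ} (hd : HasDerivAt g d x) (hneg : d < 0)
    (hx : g x = 0) : ∃ δ : ℝ, 0 < δ ∧ (∀ y, x - δ < y → y < x → 0 < g y) ∧
      ∀ y, x < y → y < x + δ → g y < 0 := by
  have h0 : deriv g x < 0 := by rw [hd.deriv]; exact hneg
  have h1 := eventually_nhdsWithin_sign_eq_of_deriv_neg h0 hx
  obtain ⟨δ, hδ, hb⟩ := Metric.eventually_nhds_iff.1 h1
  refine ⟨δ, hδ, fun y hy1 hy2 => ?_, fun y hy1 hy2 => ?_⟩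
  · have h2 := hb (y := y) (by rw [Real.dist_eq, abs_lt]; constructor <;> linarith)
    rw [sign_pos (sub_pos.2 hy2)] at h2
    exact sign_eq_one_iff.1 h2
  · have h2 := hb (y := y) (by rw [Real.dist_eq, abs_lt]; constructor <;> linarith)
    rw [sign_neg (sub_neg.2 hy1)] at h2
    exact sign_eq_neg_one_iff.1 h2

private theorem down {g g' : ℝ → ℝ} {s1 s2 : ℝ} (h12 : s1 < s2)
    (hd : ∀ x, HasDerivAt g (g' x) x) (hz : ∀ x ∈ Icc s1 s2, g x = 0 → g' x < 0)
    (h2 : g s2 = 0) : ∀ s ∈ Ico s1 s2, 0 < g s := by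
  have hmem2 : s2 ∈ Icc s1 s2 := ⟨h12.le, le_rfl⟩
  have hmem1 : s1 ∈ Icc s1 s2 := ⟨le_rfl, h12.le⟩
  have hcont : Continuous g := continuous_iff_continuousAt.2 fun x => (hd x).continuousAt
  obtain ⟨δ, hδ, hl, -⟩ := sign_left (hd s2) (hz s2 hmem2 h2) h2
  have hint : ∀ s, s1 < s → s < s2 → 0 < g s := by
    intro s hs1 hs2
    obtain ⟨x1, hx1a, hx1b, hx1c⟩ : ∃ x1, s ≤ x1 ∧ x1 < s2 ∧ 0 < g x1 := by
      refine ⟨max s (s2 - δ / 2), le_max_left _ _, max_lt hs2 (by linarith), hl _ ?_ ?_⟩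
      · exact lt_of_lt_of_le (by linarith) (le_max_right _ _)
      · exact max_lt hs2 (by linarith)
    have hG : ∀ x, HasDerivAt (fun x => g (-x)) (-(g' (-x))) x := by
      intro x
      have h3 := (hd (-x)).comp x (hasDerivAt_neg x)
      have h4 : g' (-x) * -1 = -(g' (-x)) := by ring
      rw [h4] at h3
      exact h3
    have h5 := cross_right (g := fun x => g (-x)) (g' := fun x => -(g' (-x))) (s := -x1) (t := -s1)
      ((hcont.comp continuous_neg).continuousOn) (fun x _ => hG x) (fun x hx h6 => ?_)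
      (by simpa using hx1c) (-s) ⟨by linarith, by linarith⟩
    · simpa using h5
    · have h7 : -x ∈ Icc s1 s2 := ⟨by linarith [hx.2], by linarith [hx.1]⟩
      have h8 := hz (-x) h7 h6
      show 0 < -(g' (-x))
      linarith
  intro s hs
  rcases eq_or_lt_of_le hs.1 with h3 | h3
  · rw [← h3]
    have hge : 0 ≤ g s1 := by
      by_contra hlt
      push Not at hlt
      have h4 : ∀ᶠ y in 𝓝 s1, g y < 0 := (hcont.tendsto s1).eventually (gt_mem_nhds hlt)
      obtain ⟨η, hη, hb⟩ := Metric.eventually_nhds_iff.1 h4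
      have h5 : 0 < min (η / 2) ((s2 - s1) / 2) := lt_min (by linarith) (by linarith)
      have h6 := hint (s1 + min (η / 2) ((s2 - s1) / 2)) (by linarith)
        (by linarith [min_le_right (η / 2) ((s2 - s1) / 2)])
      have h7 := hb (y := s1 + min (η / 2) ((s2 - s1) / 2)) (by
        rw [Real.dist_eq, add_sub_cancel_left, abs_of_pos h5]
        linarith [min_le_left (η / 2) ((s2 - s1) / 2)])
      linarith
    rcases eq_or_lt_of_le hge with h4 | h4
    · exfalso
      obtain ⟨η, hη, -, hr⟩ := sign_left (hd s1) (hz s1 hmem1 h4.symm) h4.symm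
      have h5 : 0 < min (η / 2) ((s2 - s1) / 2) := lt_min (by linarith) (by linarith)
      have h6 := hint (s1 + min (η / 2) ((s2 - s1) / 2)) (by linarith)
        (by linarith [min_le_right (η / 2) ((s2 - s1) / 2)])
      have h7 := hr (s1 + min (η / 2) ((s2 - s1) / 2)) (by linarith)
        (by linarith [min_le_left (η / 2) ((s2 - s1) / 2)])
      linarith
    · exact h4
  · exact hint s h3 hs.2

theorem inc (H : Hyp F) (hu : ∀ y ∈ inn F, 0 < uu F y) (θ θ' : ℝ → E) {s1 s2 : ℝ} (h12 : s1 ≤ s2)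
    (hd : ∀ s, HasDerivAt θ (θ' s) s) (hn : ∀ s, ‖θ s‖ = 1)
    (hw : ∀ s ∈ Icc s1 s2, ∀ t ∈ Ioo (0 : ℝ) 1, F (t • θ s) = 0 → ∑ k, θ' s k * pd k F (t • θ s) ≤ 0)
    (h2 : 0 < F (θ s2)) : ∀ s ∈ Icc s1 s2, 0 < F (θ s) := by
  rcases eq_or_lt_of_le h12 with h3 | h3
  · intro s hs
    have h4 : s = s2 := le_antisymm hs.2 (by rw [← h3]; exact hs.1)
    rw [h4]
    exact h2
  obtain ⟨ρ, hρ, hρ0⟩ := ray_zero_of_pos H hu (hn s2) h2
  obtain ⟨ε, hε⟩ : ∃ ε, ε = (1 - ρ) / (2 * (s2 - s1)) := ⟨_, rfl⟩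
  have h12' : 0 < s2 - s1 := by linarith
  have hε0 : 0 < ε := by
    rw [hε]
    exact div_pos (by linarith [hρ.2]) (by linarith)
  have hε1 : ε * (s2 - s1) = (1 - ρ) / 2 := by
    rw [hε]
    field_simp
  have hr : ∀ s ∈ Icc s1 s2, ρ + ε * (s2 - s) ∈ Ioo (0 : ℝ) 1 := by
    intro s hs
    have h4 : 0 ≤ ε * (s2 - s) := mul_nonneg hε0.le (by linarith [hs.2])
    have h5 : ε * (s2 - s) ≤ ε * (s2 - s1) := mul_le_mul_of_nonneg_left (by linarith [hs.1]) hε0.le
    exact ⟨by linarith [hρ.1], by linarith [hρ.2]⟩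
  have hγ : ∀ s, HasDerivAt (fun s => (ρ + ε * (s2 - s)) • θ s)
      ((ρ + ε * (s2 - s)) • θ' s + (-ε) • θ s) s := by
    intro s
    have h4 : HasDerivAt (fun s : ℝ => ρ + ε * (s2 - s)) (-ε) s := by
      have h5 := ((hasDerivAt_id s).const_sub s2).const_mul ε |>.const_add ρ
      have h6 : ε * -1 = -ε := by ring
      rw [h6] at h5
      exact h5
    exact h4.smul (hd s)
  have hg : ∀ s, HasDerivAt (fun s => F ((ρ + ε * (s2 - s)) • θ s))
      (∑ k, ((ρ + ε * (s2 - s)) • θ' s + (-ε) • θ s) k *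
        pd k F ((ρ + ε * (s2 - s)) • θ s)) s :=
    fun s => hasDerivAt_comp H.fb.smooth _ _ s (hγ s)
  have hz : ∀ s ∈ Icc s1 s2, F ((ρ + ε * (s2 - s)) • θ s) = 0 →
      ∑ k, ((ρ + ε * (s2 - s)) • θ' s + (-ε) • θ s) k *
        pd k F ((ρ + ε * (s2 - s)) • θ s) < 0 := by
    intro s hs h0
    have hrs := hr s hs
    obtain ⟨r, hrdef⟩ : ∃ r, r = ρ + ε * (s2 - s) := ⟨_, rfl⟩
    rw [← hrdef] at h0 hrs ⊢
    have h4 : r • θ s ∈ inn F := by
      refine ⟨?_, h0⟩
      rw [norm_smul, hn s, mul_one, Real.norm_of_nonneg hrs.1.le]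
      exact hrs.2
    have h5 := hu _ h4
    have h6 : uu F (r • θ s) = r * ∑ k, θ s k * pd k F (r • θ s) := by
      unfold uu
      rw [Finset.mul_sum]
      refine Finset.sum_congr rfl fun k _ => ?_
      rw [PiLp.smul_apply, smul_eq_mul]
      ring
    rw [h6] at h5
    have h7 : 0 < ∑ k, θ s k * pd k F (r • θ s) := by
      by_contra hle
      push Not at hle
      exact absurd h5 (not_lt.2 (mul_nonpos_of_nonneg_of_nonpos hrs.1.le hle))
    have h8 := hw s hs r hrs h0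
    have h9 : ∑ k, (r • θ' s + (-ε) • θ s) k * pd k F (r • θ s) =
        r * ∑ k, θ' s k * pd k F (r • θ s) - ε * ∑ k, θ s k * pd k F (r • θ s) := by
      rw [Finset.mul_sum, Finset.mul_sum, ← Finset.sum_sub_distrib]
      refine Finset.sum_congr rfl fun k _ => ?_
      rw [PiLp.add_apply, PiLp.smul_apply, PiLp.smul_apply, smul_eq_mul, smul_eq_mul]
      ring
    rw [h9]
    have h10 := mul_nonpos_of_nonneg_of_nonpos hrs.1.le h8
    have h11 := mul_pos hε0 h7
    linarith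
  have hend : F ((ρ + ε * (s2 - s2)) • θ s2) = 0 := by
    rw [sub_self, mul_zero, add_zero]
    exact hρ0
  intro s hs
  rcases eq_or_lt_of_le hs.2 with h4 | h4
  · rw [h4]
    exact h2
  · exact ray_of_pos H hu (hn s) (hr s hs) (down h3 hg hz hend s ⟨hs.1, h4⟩)

end Pool.Agent.Helper78.FB
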