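import Pool.Agent.Helper94.FB.Jac
import Pool.Agent.Helper94.FB.Green
import Pool.Agent.Helper78.FB.Parity

/-!
# FB-31 SDelta: the regularised absolute value `s = √(w ^ 2 + δ ^ 2)` of `w = ww F a b`

`s > 0` smooth (`Real.contDiffAt_sqrt`, `ContDiff.sqrt`). `s ^ 2 = w ^ 2 + δ ^ 2`: differentiating, `s s_i = w w_i`, and `s_j s_i + s s_ij = w_j w_i + w w_ij`. So `s lap s = w lap w + tang(w, w) - tang(s, s)` and `tang(s, s) = w ^ 2 tang(w, w) / s ^ 2`, hence
`s lap s = - normA w ^ 2 + δ ^ 2 tang(w, w) / s ^ 2` (`lap_ww`), `lap s + normA s = (normA δ ^ 2 + δ ^ 2 tang(w, w) / s ^ 2) / s`. `nd_sdel`: `s nd s = w nd w = w ^ 2` (`nd_ww`).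
`par_sdel`: `ww F a b` is multiplied by `± 1` (`par_ww`), so its square is even.
-/

set_option autoImplicit false

open MeasureTheory Filter
open scoped ContDiff Topology

namespace Pool.Agent.Helper78.FB

variable {F : E → ℝ} (a b : Fin 3) {δ : ℝ}

theorem contDiff_sdel (hF : ContDiff ℝ ∞ F) (hδ : 0 < δ) : ContDiff ℝ ∞ (sdel F a b δ) := by
  show ContDiff ℝ ∞ (fun y => Real.sqrt (ww F a b y ^ 2 + δ ^ 2))
  exact (((contDiff_ww hF a b).pow 2).add contDiff_const).sqrt fun y => by positivity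

theorem sdel_sq (y : E) : sdel F a b δ y ^ 2 = ww F a b y ^ 2 + δ ^ 2 := by
  unfold sdel
  rw [Real.sq_sqrt (by positivity)]

theorem le_sdel (hδ : 0 < δ) (y : E) : δ ≤ sdel F a b δ y := by
  unfold sdel
  rw [Real.le_sqrt' hδ]
  linarith [sq_nonneg (ww F a b y)]

theorem abs_le_sdel (y : E) : |ww F a b y| ≤ sdel F a b δ y := by
  unfold sdel
  exact Real.abs_le_sqrt (by linarith [sq_nonneg δ])

theorem sdel_le (hδ : 0 < δ) (y : E) : sdel F a b δ y ≤ |ww F a b y| + δ := by
  unfold sdel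
  rw [Real.sqrt_le_iff]
  refine ⟨by positivity, ?_⟩
  have h1 := sq_abs (ww F a b y)
  have h2 := mul_nonneg (abs_nonneg (ww F a b y)) hδ.le
  nlinarith

private theorem sd1 (hF : ContDiff ℝ ∞ F) (hδ : 0 < δ) (i : Fin 3) :
    (fun y => sdel F a b δ y * pd i (sdel F a b δ) y) = fun y => ww F a b y * pd i (ww F a b) y := by
  have hs := contDiff_sdel a b hF hδ
  have hw := contDiff_ww hF a b
  have h1 : (fun y => sdel F a b δ y * sdel F a b δ y) = fun y => ww F a b y * ww F a b y + δ ^ 2 := by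
    funext y
    have := sdel_sq a b (F := F) (δ := δ) y
    linarith [sq (sdel F a b δ y), sq (ww F a b y)]
  have h2 := congrArg (pd i) h1
  rw [pd_mul i hs hs, pd_add i (hw.mul hw) contDiff_const, pd_mul i hw hw, pd_const] at h2
  funext y
  have h3 := congrFun h2 y
  change pd i (sdel F a b δ) y * sdel F a b δ y + sdel F a b δ y * pd i (sdel F a b δ) y =
    pd i (ww F a b) y * ww F a b y + ww F a b y * pd i (ww F a b) y + 0 at h3
  change sdel F a b δ y * pd i (sdel F a b δ) y = ww F a b y * pd i (ww F a b) y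
  linarith

private theorem sd2 (hF : ContDiff ℝ ∞ F) (hδ : 0 < δ) (i j : Fin 3) (y : E) :
    sdel F a b δ y * pd j (pd i (sdel F a b δ)) y = pd j (ww F a b) y * pd i (ww F a b) y +
      ww F a b y * pd j (pd i (ww F a b)) y - pd j (sdel F a b δ) y * pd i (sdel F a b δ) y := by
  have hs := contDiff_sdel a b hF hδ
  have hw := contDiff_ww hF a b
  have h2 := congrArg (pd j) (sd1 a b hF hδ i)
  rw [pd_mul j hs (contDiff_pd i hs), pd_mul j hw (contDiff_pd i hw)] at h2
  have h3 := congrFun h2 y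
  change pd j (sdel F a b δ) y * pd i (sdel F a b δ) y + sdel F a b δ y * pd j (pd i (sdel F a b δ)) y =
    pd j (ww F a b) y * pd i (ww F a b) y + ww F a b y * pd j (pd i (ww F a b)) y at h3
  linarith

theorem lap_sdel (h : FBMS F) (hδ : 0 < δ) {y : E} (hy : y ∈ surf F) :
    lap F (sdel F a b δ) y + normA F y * sdel F a b δ y =
      δ ^ 2 * normA F y / sdel F a b δ y + δ ^ 2 * tang F (ww F a b) (ww F a b) y / sdel F a b δ y ^ 3 := by
  have hS0 : 0 < sdel F a b δ y := hδ.trans_le (le_sdel a b hδ y)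
  have hS := sdel_sq a b (F := F) (δ := δ) y
  have hlw := lap_ww h hy a b
  have e1 : ∀ i, sdel F a b δ y * pd i (sdel F a b δ) y = ww F a b y * pd i (ww F a b) y :=
    fun i => congrFun (sd1 a b h.smooth hδ i) y
  have e2 := fun i j => sd2 a b h.smooth hδ i j y
  have hL : sdel F a b δ y * lap F (sdel F a b δ) y = -normA F y * ww F a b y ^ 2 +
      tang F (ww F a b) (ww F a b) y - tang F (sdel F a b δ) (sdel F a b δ) y := by
    have h1 : -normA F y * ww F a b y ^ 2 = ww F a b y * lap F (ww F a b) y := by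
      rw [hlw]
      ring
    rw [h1]
    unfold lap tang
    simp only [Fin.sum_univ_three]
    linear_combination e2 0 0 + e2 1 1 + e2 2 2 - (pd 0 F y * pd 0 F y) * e2 0 0 -
      (pd 0 F y * pd 1 F y) * e2 1 0 - (pd 0 F y * pd 2 F y) * e2 2 0 -
      (pd 1 F y * pd 0 F y) * e2 0 1 - (pd 1 F y * pd 1 F y) * e2 1 1 -
      (pd 1 F y * pd 2 F y) * e2 2 1 - (pd 2 F y * pd 0 F y) * e2 0 2 -
      (pd 2 F y * pd 1 F y) * e2 1 2 - (pd 2 F y * pd 2 F y) * e2 2 2
  have hT : sdel F a b δ y ^ 2 * tang F (sdel F a b δ) (sdel F a b δ) y =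
      ww F a b y ^ 2 * tang F (ww F a b) (ww F a b) y := by
    have h1 : ∀ f : E → ℝ, ∀ c : ℝ, c ^ 2 * tang F f f y = ∑ i, (c * pd i f y) * (c * pd i f y) -
        (∑ i, pd i F y * (c * pd i f y)) * ∑ i, pd i F y * (c * pd i f y) := by
      intro f c
      unfold tang
      simp only [Fin.sum_univ_three]
      ring
    rw [h1, h1]
    simp only [e1]
  generalize sdel F a b δ y = S at *
  generalize lap F (sdel F a b δ) y = L at *
  generalize tang F (ww F a b) (ww F a b) y = T at *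
  generalize tang F (sdel F a b δ) (sdel F a b δ) y = Ts at *
  generalize normA F y = A at *
  generalize ww F a b y = W at *
  have key : S ^ 3 * (L + A * S) = S ^ 2 * (δ ^ 2 * A) + δ ^ 2 * T := by
    linear_combination S ^ 2 * hL - hT + (A * S ^ 2 + T) * hS
  apply mul_left_cancel₀ (pow_pos hS0 3).ne'
  rw [key]
  field_simp

theorem nd_sdel (h : FBMS F) (hδ : 0 < δ) {y : E} (hy : y ∈ bdry F) :
    nd (sdel F a b δ) y = ww F a b y ^ 2 / sdel F a b δ y := by
  have hS0 : 0 < sdel F a b δ y := hδ.trans_le (le_sdel a b hδ y)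
  have e1 : ∀ i, sdel F a b δ y * pd i (sdel F a b δ) y = ww F a b y * pd i (ww F a b) y :=
    fun i => congrFun (sd1 a b h.smooth hδ i) y
  have h1 := nd_ww h hy a b
  rw [eq_div_iff hS0.ne']
  calc nd (sdel F a b δ) y * sdel F a b δ y = ∑ k, y k * (sdel F a b δ y * pd k (sdel F a b δ) y) := by
        unfold nd
        rw [Finset.sum_mul]
        exact Finset.sum_congr rfl fun k _ => by ring
    _ = ∑ k, y k * (ww F a b y * pd k (ww F a b) y) := by simp only [e1]
    _ = ww F a b y * nd (ww F a b) y := by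
        unfold nd
        rw [Finset.mul_sum]
        exact Finset.sum_congr rfl fun k _ => by ring
    _ = ww F a b y ^ 2 := by rw [h1, sq]

theorem par_sdel (hF : ContDiff ℝ ∞ F) {l : Fin 3} (he : Par l 1 F) : Par l 1 (sdel F a b δ) := by
  intro y
  have h1 := par_ww l hF he a b y
  have h2 : ww F a b (refl l y) ^ 2 = ww F a b y ^ 2 := by
    rw [h1]
    have e1 := sg_mul_self l a
    have e2 := sg_mul_self l b
    linear_combination (sg b l * sg b l * ww F a b y ^ 2) * e1 + (ww F a b y ^ 2) * e2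
  unfold sdel
  rw [h2, one_mul]

end Pool.Agent.Helper78.FB
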