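import Pool.Agent.Helper94.FB.QForm
import Pool.Agent.Helper94.FB.SDelta
import Pool.Agent.Helper94.FB.Cut

/-!
# FB-33 QUpper: the second variation of `χ s` and `(χ s, χ ω)`

`s = sdel F a b δ`, `χ = chi a b η`, `w = ww F a b`, both smooth.
* `Q_chi_s`: on `surf F`, `tang(χ s, χ s) = s ^ 2 tang(χ, χ) + tang(s, χ ^ 2 s)` (product rule). `green` with `f = s`, `g = χ ^ 2 s`: `area (χ ^ 2 s lap s + tang(s, χ ^ 2 s)) = len (χ ^ 2 s nd s)`. So
  `Q(χ s, χ s) = area (s ^ 2 tang(χ, χ)) - area (χ ^ 2 s (lap s + normA s)) + len (χ ^ 2 s (nd s - s))`; the second area is `≥ 0` (`lap_sdel`, `tang_nonneg`, `normA_nonneg`), and `nd s - s = w ^ 2 / s - s = - δ ^ 2 / s ≤ 0` (`nd_sdel`, `sdel_sq`).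
* `Q_chi_om`: at points of `tsupport om` we have `χ ^ 2 = 1`, `pd k χ = 0` (`chi_sq`, `pd_chi_zero`), outside `om` and all `pd k om` vanish; so `tang(χ s, χ om) = tang(s, om)` and `χ s χ om = s om` on `E`, `Q(χ s, χ om) = Q(s, om)`, and by `Q_green`
  (`f = s`, `w = om`) `= - area (om (lap s + normA s)) + len (om (nd s - s)) ≤ - area (om * (δ ^ 2 tang(w, w) / s ^ 3))` (`lap_sdel`, drop the terms of the right sign).
* `Q_chi_om_om`: the same way `Q(χ om, χ om) = Q(om, om)`.
-/

set_option autoImplicit false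

open MeasureTheory Filter
open scoped ContDiff Topology

namespace Pool.Agent.Helper78.FB

variable {F : E → ℝ} {a b : Fin 3} {δ η : ℝ}

private theorem tang_split {c s : E → ℝ} (hc : ContDiff ℝ ∞ c) (hs : ContDiff ℝ ∞ s) (y : E) :
    tang F (fun y => c y * s y) (fun y => c y * s y) y =
      s y ^ 2 * tang F c c y + tang F s (fun y => c y ^ 2 * s y) y := by
  have e0 : (fun y => c y ^ 2 * s y) = fun y => c y * (c y * s y) := by
    funext y
    ring
  have e1 : ∀ i, pd i (fun y => c y * s y) y = pd i c y * s y + c y * pd i s y := by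
    intro i
    rw [pd_mul i hc hs]
  have e2 : ∀ i, pd i (fun y => c y ^ 2 * s y) y =
      pd i c y * (c y * s y) + c y * (pd i c y * s y + c y * pd i s y) := by
    intro i
    rw [e0, pd_mul i hc (hc.mul hs), pd_mul i hc hs]
  unfold tang
  simp only [e1, e2, Fin.sum_univ_three]
  ring

private theorem Q_chi_eq (hη : 0 < η) {f om : E → ℝ} (hf : ContDiff ℝ ∞ f)
    (ho : ContDiff ℝ ∞ om) (hs : ∀ y ∈ tsupport om, η < |y a| ∧ η < |y b|) :
    Q F (fun y => chi a b η y * f y) (fun y => chi a b η y * om y) = Q F f om := by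
  have hc := contDiff_chi a b η
  have e1 : ∀ i y, pd i (fun y => chi a b η y * f y) y =
      pd i (chi a b η) y * f y + chi a b η y * pd i f y := by
    intro i y
    rw [pd_mul i hc hf]
  have e2 : ∀ i y, pd i (fun y => chi a b η y * om y) y =
      pd i (chi a b η) y * om y + chi a b η y * pd i om y := by
    intro i y
    rw [pd_mul i hc ho]
  have key1 : ∀ y, tang F (fun y => chi a b η y * f y) (fun y => chi a b η y * om y) y =
      tang F f om y := by
    intro y
    unfold tang
    simp only [e1, e2]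
    by_cases hy : y ∈ tsupport om
    · obtain ⟨ha, hb⟩ := hs y hy
      have h1 := chi_sq (a := a) (b := b) hη ha.le hb.le
      simp only [pd_chi_zero hη ha hb, zero_mul, zero_add, Fin.sum_univ_three]
      linear_combination (pd 0 f y * pd 0 om y + pd 1 f y * pd 1 om y + pd 2 f y * pd 2 om y -
        (pd 0 F y * pd 0 f y + pd 1 F y * pd 1 f y + pd 2 F y * pd 2 f y) *
        (pd 0 F y * pd 0 om y + pd 1 F y * pd 1 om y + pd 2 F y * pd 2 om y)) * h1
    · have h1 : om =ᶠ[𝓝 y] fun _ => 0 := notMem_tsupport_iff_eventuallyEq.1 hy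
      have h2 : om y = 0 := h1.self_of_nhds
      have h3 : ∀ k, pd k om y = 0 := by
        intro k
        rw [pd_congr k h1, pd_const]
      simp only [h2, h3, mul_zero, add_zero, Finset.sum_const_zero, sub_zero]
  have key2 : ∀ y, chi a b η y * f y * (chi a b η y * om y) = f y * om y := by
    intro y
    by_cases hy : y ∈ tsupport om
    · obtain ⟨ha, hb⟩ := hs y hy
      have h1 := chi_sq (a := a) (b := b) hη ha.le hb.le
      linear_combination (f y * om y) * h1
    · have h2 : om y = 0 := image_eq_zero_of_notMem_tsupport hy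
      rw [h2, mul_zero, mul_zero, mul_zero]
  unfold Q
  simp only [key1, key2]

theorem Q_chi_s (h : FBMS F) (a b : Fin 3) (hδ : 0 < δ) (η : ℝ) :
    Q F (fun y => chi a b η y * sdel F a b δ y) (fun y => chi a b η y * sdel F a b δ y) ≤
      area F (fun y => sdel F a b δ y ^ 2 * tang F (chi a b η) (chi a b η) y) := by
  have hF := h.smooth
  have hc := contDiff_chi a b η
  have hs := contDiff_sdel a b hF hδ
  have hG : ContDiff ℝ ∞ (fun y => chi a b η y ^ 2 * sdel F a b δ y) := (hc.pow 2).mul hs
  have hgreen := green h hs hG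
  have hspos : ∀ y, 0 < sdel F a b δ y := fun y => lt_of_lt_of_le hδ (le_sdel a b hδ y)
  have c1 : ContinuousOn (fun y => sdel F a b δ y ^ 2 * tang F (chi a b η) (chi a b η) y)
      (surf F) := ((hs.pow 2).mul (contDiff_tang hF hc hc)).continuous.continuousOn
  have c2 : ContinuousOn (fun y => chi a b η y ^ 2 * sdel F a b δ y * lap F (sdel F a b δ) y +
      tang F (sdel F a b δ) (fun y => chi a b η y ^ 2 * sdel F a b δ y) y) (surf F) :=
    ((hG.mul (contDiff_lap hF hs)).add (contDiff_tang hF hs hG)).continuous.continuousOn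
  have c3 : ContinuousOn (fun y => chi a b η y ^ 2 * sdel F a b δ y *
      (lap F (sdel F a b δ) y + normA F y * sdel F a b δ y)) (surf F) :=
    (hG.mul ((contDiff_lap hF hs).add ((contDiff_normA hF).mul hs))).continuous.continuousOn
  have e1 : area F (fun y => tang F (fun y => chi a b η y * sdel F a b δ y)
      (fun y => chi a b η y * sdel F a b δ y) y -
        normA F y * (chi a b η y * sdel F a b δ y * (chi a b η y * sdel F a b δ y))) =
      area F (fun y => sdel F a b δ y ^ 2 * tang F (chi a b η) (chi a b η) y) +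
      (area F (fun y => chi a b η y ^ 2 * sdel F a b δ y * lap F (sdel F a b δ) y +
        tang F (sdel F a b δ) (fun y => chi a b η y ^ 2 * sdel F a b δ y) y) -
      area F (fun y => chi a b η y ^ 2 * sdel F a b δ y *
        (lap F (sdel F a b δ) y + normA F y * sdel F a b δ y))) := by
    rw [← area_sub h c2 c3, ← area_add h c1 (c2.fun_sub c3)]
    congr 1
    funext y
    rw [tang_split hc hs]
    ring
  have e2 : 0 ≤ area F (fun y => chi a b η y ^ 2 * sdel F a b δ y *
      (lap F (sdel F a b δ) y + normA F y * sdel F a b δ y)) := by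
    refine area_nonneg h fun y hy => ?_
    rw [lap_sdel a b h hδ hy]
    have h1 := hspos y
    have h2 := normA_nonneg (F := F) y
    have h3 := tang_nonneg h (ww F a b) hy
    positivity
  have e3 : len F (fun y => chi a b η y ^ 2 * sdel F a b δ y * nd (sdel F a b δ) y) ≤
      len F (fun y => chi a b η y * sdel F a b δ y * (chi a b η y * sdel F a b δ y)) := by
    refine len_mono h (hG.mul (contDiff_nd hs)).continuous.continuousOn
      ((hc.mul hs).mul (hc.mul hs)).continuous.continuousOn fun y hy => ?_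
    rw [nd_sdel a b h hδ hy]
    have h1 := hspos y
    have h2 : sdel F a b δ y * (ww F a b y ^ 2 / sdel F a b δ y) = ww F a b y ^ 2 := by
      field_simp
    have h3 := sdel_sq (F := F) a b (δ := δ) y
    rw [mul_assoc, h2]
    have h4 : chi a b η y * sdel F a b δ y * (chi a b η y * sdel F a b δ y) =
        chi a b η y ^ 2 * sdel F a b δ y ^ 2 := by ring
    rw [h4, h3]
    refine mul_le_mul_of_nonneg_left ?_ (sq_nonneg _)
    have := sq_nonneg δ
    linarith
  unfold Q
  rw [e1, hgreen]
  linarith

theorem Q_chi_om (h : FBMS F) (hδ : 0 < δ) (hη : 0 < η) {om : E → ℝ} (ho : ContDiff ℝ ∞ om)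
    (hn : ∀ y, 0 ≤ om y) (hs : ∀ y ∈ tsupport om, η < |y a| ∧ η < |y b|) :
    Q F (fun y => chi a b η y * sdel F a b δ y) (fun y => chi a b η y * om y) ≤
      -area F (fun y => om y * (δ ^ 2 * tang F (ww F a b) (ww F a b) y / sdel F a b δ y ^ 3)) := by
  have hF := h.smooth
  have hsm := contDiff_sdel a b hF hδ
  have hw := contDiff_ww hF a b
  have hspos : ∀ y, 0 < sdel F a b δ y := fun y => lt_of_lt_of_le hδ (le_sdel a b hδ y)
  rw [Q_chi_eq hη hsm ho hs, Q_green h hsm ho]
  have e1 : area F (fun y => om y *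
      (δ ^ 2 * tang F (ww F a b) (ww F a b) y / sdel F a b δ y ^ 3)) ≤
      area F (fun y => om y * (lap F (sdel F a b δ) y + normA F y * sdel F a b δ y)) := by
    refine area_mono h ?_ ?_ fun y hy => ?_
    · refine (ho.continuous.mul (Continuous.div (continuous_const.mul
        (contDiff_tang hF hw hw).continuous) (hsm.continuous.pow 3) fun y => ?_)).continuousOn
      exact (pow_pos (hspos y) 3).ne'
    · exact (ho.mul ((contDiff_lap hF hsm).add
        ((contDiff_normA hF).mul hsm))).continuous.continuousOn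
    · rw [lap_sdel a b h hδ hy]
      refine mul_le_mul_of_nonneg_left ?_ (hn y)
      have h1 := hspos y
      have h2 := normA_nonneg (F := F) y
      have h3 : 0 ≤ δ ^ 2 * normA F y / sdel F a b δ y := by positivity
      linarith
  have e2 : len F (fun y => om y * (nd (sdel F a b δ) y - sdel F a b δ y)) ≤ 0 := by
    have h0 : 0 ≤ len F (fun y => (-1) * (om y * (nd (sdel F a b δ) y - sdel F a b δ y))) := by
      refine len_nonneg h fun y hy => ?_
      rw [nd_sdel a b h hδ hy]
      have h1 := hspos y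
      have h3 := sdel_sq (F := F) a b (δ := δ) y
      have h4 : ww F a b y ^ 2 / sdel F a b δ y ≤ sdel F a b δ y := by
        rw [div_le_iff₀ h1]
        have := sq_nonneg δ
        nlinarith
      have h5 := mul_nonneg (hn y) (sub_nonneg.2 h4)
      linarith
    rw [len_const_mul] at h0
    linarith
  linarith

theorem Q_chi_om_om (h : FBMS F) (hη : 0 < η) {om : E → ℝ} (ho : ContDiff ℝ ∞ om)
    (hs : ∀ y ∈ tsupport om, η < |y a| ∧ η < |y b|) :
    Q F (fun y => chi a b η y * om y) (fun y => chi a b η y * om y) = Q F om om := by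
  exact Q_chi_eq hη ho ho hs

end Pool.Agent.Helper78.FB
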