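import Pool.Agent.Helper94.FB.NegDef
import Pool.Agent.Helper94.FB.QUpper

/-!
# FB-34 Kink: the defect measure of `|w|` vanishes

Let `I_δ = area (om * (δ ^ 2 tang(w, w) / s_δ ^ 3)) ≥ 0` (`tang_nonneg`). Fix `η = 1 / (N + 1) < c`, `χ = chi a b η`. For all `τ : ℝ` the function `χ s_δ + τ χ om` is smooth and odd in the variables `a` and `b` (`par_chi_left`, `par_chi_right`,
`par_sdel`, `ho_even`, `par_mul`, `par_add`, `par_const_mul`), so `Q ≥ 0` on it (`Q_odd_odd`): by `Q_line`, `A + 2 τ B + τ ^ 2 C ≥ 0` for all `τ`, with `A = Q(χ s, χ s) ≤ area (s_δ ^ 2 tang(χ, χ))`, `B = Q(χ s, χ om) ≤ - I_δ`, `C = Q(om, om)`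
(`Q_chi_s`, `Q_chi_om`, `Q_chi_om_om`). So `I_δ ^ 2 ≤ B ^ 2 ≤ A C ≤ C * area (s_δ ^ 2 tang(χ, χ))` (discriminant; note `C ≥ 0`, `A ≥ 0`). Given `ε > 0`: by `area_cut` choose `N` (with `1 / (N + 1) < c`) such that `C * area (w ^ 2 tang(χ, χ)) < ε`;
for this `N`, as `δ = 1 / (n + 1) → 0`, `area (s_δ ^ 2 tang(χ, χ)) = area (w ^ 2 tang(χ, χ)) + δ ^ 2 area (tang(χ, χ))` (`sdel_sq`) tends to `area (w ^ 2 tang(χ, χ))`. So `limsup I_δ ^ 2 ≤ ε`.
-/

set_option autoImplicit false

open MeasureTheory Filter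
open scoped ContDiff Topology

namespace Pool.Agent.Helper78.FB

variable {F : E → ℝ}

private theorem kink_ineq (H : Hyp F) {a b : Fin 3} (hab : a ≠ b) {om : E → ℝ} (ho : ContDiff ℝ ∞ om)
    (hoe : ∀ l, Par l 1 om) (hn : ∀ y, 0 ≤ om y) {δ η : ℝ} (hδ : 0 < δ) (hη : 0 < η)
    (hs : ∀ y ∈ tsupport om, η < |y a| ∧ η < |y b|) :
    0 ≤ Q F om om ∧
    0 ≤ area F (fun y => om y * (δ ^ 2 * tang F (ww F a b) (ww F a b) y / sdel F a b δ y ^ 3)) ∧
    area F (fun y => om y * (δ ^ 2 * tang F (ww F a b) (ww F a b) y / sdel F a b δ y ^ 3)) ^ 2 ≤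
      Q F om om * (area F (fun y => ww F a b y ^ 2 * tang F (chi a b η) (chi a b η) y) +
        δ ^ 2 * area F (tang F (chi a b η) (chi a b η))) := by
  have hF := H.fb.smooth
  have hchi := contDiff_chi a b η
  have hsd := contDiff_sdel (F := F) a b hF hδ
  have hf1 : ContDiff ℝ ∞ (fun y => chi a b η y * sdel F a b δ y) := hchi.mul hsd
  have hf2 : ContDiff ℝ ∞ (fun y => chi a b η y * om y) := hchi.mul ho
  have p1a : Par a (-1) (fun y => chi a b η y * sdel F a b δ y) := by
    have := par_mul a (par_chi_left hab η) (par_sdel (F := F) a b (δ := δ) hF (H.even a))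
    rwa [mul_one] at this
  have p1b : Par b (-1) (fun y => chi a b η y * sdel F a b δ y) := by
    have := par_mul b (par_chi_right hab η) (par_sdel (F := F) a b (δ := δ) hF (H.even b))
    rwa [mul_one] at this
  have p2a : Par a (-1) (fun y => chi a b η y * om y) := by
    have := par_mul a (par_chi_left hab η) (hoe a)
    rwa [mul_one] at this
  have p2b : Par b (-1) (fun y => chi a b η y * om y) := by
    have := par_mul b (par_chi_right hab η) (hoe b)
    rwa [mul_one] at this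
  have hA := Q_chi_s H.fb a b hδ η
  have hB := Q_chi_om H.fb hδ hη ho hn hs
  have hC := Q_chi_om_om H.fb hη ho hs
  have hC0 : 0 ≤ Q F om om := by
    rw [← hC]
    exact Q_odd_odd H hf2 hab p2a p2b
  have hI0 : 0 ≤ area F (fun y => om y * (δ ^ 2 * tang F (ww F a b) (ww F a b) y /
      sdel F a b δ y ^ 3)) := by
    apply area_nonneg H.fb
    intro y hy
    have h1 : 0 < sdel F a b δ y := hδ.trans_le (le_sdel a b hδ y)
    have h2 := tang_nonneg H.fb (ww F a b) hy
    have h3 := hn y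
    positivity
  refine ⟨hC0, hI0, ?_⟩
  set A := Q F (fun y => chi a b η y * sdel F a b δ y) (fun y => chi a b η y * sdel F a b δ y) with hAd
  set B := Q F (fun y => chi a b η y * sdel F a b δ y) (fun y => chi a b η y * om y) with hBd
  set I := area F (fun y => om y * (δ ^ 2 * tang F (ww F a b) (ww F a b) y /
      sdel F a b δ y ^ 3)) with hId
  have hq : ∀ t : ℝ, 0 ≤ Q F om om * (t * t) + 2 * B * t + A := by
    intro t
    have h1 := Q_odd_odd H (hf1.add (contDiff_const.mul hf2)) hab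
      (par_add a p1a (par_const_mul a t p2a)) (par_add b p1b (par_const_mul b t p2b))
    have h2 := Q_line H.fb t hf1 hf2
    rw [hC] at h2
    have h3 : 0 ≤ Q F (fun y => chi a b η y * sdel F a b δ y + t * (chi a b η y * om y))
        (fun y => chi a b η y * sdel F a b δ y + t * (chi a b η y * om y)) := h1
    rw [h2] at h3
    calc 0 ≤ _ := h3
      _ = Q F om om * (t * t) + 2 * B * t + A := by ring
  have hd := discrim_le_zero hq
  unfold discrim at hd
  have h1 : B ^ 2 ≤ Q F om om * A := by nlinarith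
  have h2 : I ^ 2 ≤ B ^ 2 := by nlinarith
  have h3 : area F (fun y => sdel F a b δ y ^ 2 * tang F (chi a b η) (chi a b η) y) =
      area F (fun y => ww F a b y ^ 2 * tang F (chi a b η) (chi a b η) y) +
        δ ^ 2 * area F (tang F (chi a b η) (chi a b η)) := by
    have ht : Continuous (tang F (chi a b η) (chi a b η)) := (contDiff_tang hF hchi hchi).continuous
    have hw : Continuous (ww F a b) := (contDiff_ww hF a b).continuous
    have c1 : ContinuousOn (fun y => ww F a b y ^ 2 * tang F (chi a b η) (chi a b η) y) (surf F) :=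
      ((hw.pow 2).mul ht).continuousOn
    have c2 : ContinuousOn (fun y => δ ^ 2 * tang F (chi a b η) (chi a b η) y) (surf F) :=
      (continuous_const.mul ht).continuousOn
    rw [← area_const_mul, ← area_add H.fb c1 c2]
    congr 1
    funext y
    rw [sdel_sq]
    ring
  rw [h3] at hA
  calc I ^ 2 ≤ Q F om om * A := h2.trans h1
    _ ≤ _ := mul_le_mul_of_nonneg_left hA hC0

theorem kink (H : Hyp F) {a b : Fin 3} (hab : a ≠ b) {om : E → ℝ} (ho : ContDiff ℝ ∞ om)
    (hoe : ∀ l, Par l 1 om) (hn : ∀ y, 0 ≤ om y) {c : ℝ} (hc : 0 < c)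
    (hs : ∀ y ∈ tsupport om, c < |y a| ∧ c < |y b|) :
    Tendsto (fun n : ℕ => area F (fun y => om y * ((1 / ((n : ℝ) + 1)) ^ 2 * tang F (ww F a b) (ww F a b) y /
      sdel F a b (1 / ((n : ℝ) + 1)) y ^ 3))) atTop (𝓝 0) := by
  set I : ℕ → ℝ := fun n => area F (fun y => om y * ((1 / ((n : ℝ) + 1)) ^ 2 *
    tang F (ww F a b) (ww F a b) y / sdel F a b (1 / ((n : ℝ) + 1)) y ^ 3)) with hI
  have hδ : ∀ n : ℕ, 0 < 1 / ((n : ℝ) + 1) := fun n => by positivity
  have hlim0 : Tendsto (fun n : ℕ => 1 / ((n : ℝ) + 1)) atTop (𝓝 0) :=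
    tendsto_one_div_add_atTop_nhds_zero_nat
  rw [Metric.tendsto_atTop]
  intro ε hε
  set C := Q F om om with hCd
  have hcut := (area_cut H.fb H.even hab).const_mul C
  rw [mul_zero] at hcut
  have hε2 : 0 < ε ^ 2 := by positivity
  obtain ⟨N, hN1, hN2⟩ := ((hcut.eventually (gt_mem_nhds hε2)).and
    (hlim0.eventually (gt_mem_nhds hc))).exists
  set η : ℝ := 1 / ((N : ℝ) + 1) with hη
  have hη0 : 0 < η := hδ N
  have hs' : ∀ y ∈ tsupport om, η < |y a| ∧ η < |y b| :=
    fun y hy => ⟨hN2.trans (hs y hy).1, hN2.trans (hs y hy).2⟩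
  have hlim : Tendsto (fun n : ℕ => C * (area F (fun y => ww F a b y ^ 2 *
      tang F (chi a b η) (chi a b η) y) + (1 / ((n : ℝ) + 1)) ^ 2 *
      area F (tang F (chi a b η) (chi a b η)))) atTop
      (𝓝 (C * area F (fun y => ww F a b y ^ 2 * tang F (chi a b η) (chi a b η) y))) := by
    have h1 := ((hlim0.pow 2).mul_const (area F (tang F (chi a b η) (chi a b η)))).const_add
      (area F (fun y => ww F a b y ^ 2 * tang F (chi a b η) (chi a b η) y))
    have h2 := h1.const_mul C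
    simpa using h2
  obtain ⟨M, hM⟩ := eventually_atTop.1 (hlim.eventually (gt_mem_nhds hN1))
  refine ⟨M, fun n hn' => ?_⟩
  obtain ⟨-, h2, h3⟩ := kink_ineq H hab ho hoe hn (hδ n) hη0 hs'
  have h4 : I n ^ 2 < ε ^ 2 := lt_of_le_of_lt h3 (hM n hn')
  have h5 : 0 ≤ I n := h2
  show dist (I n) 0 < ε
  rw [Real.dist_eq, sub_zero, abs_of_nonneg h5]
  exact lt_of_pow_lt_pow_left₀ 2 hε.le h4

end Pool.Agent.Helper78.FB
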