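import Pool.Agent.Helper94.FB.Merid
import Pool.Agent.Helper94.FB.ArcPos

/-!
# FB-47 Latitude: the latitude of the boundary curve is a continuous function on the circle

`cvec a b ζ = re ζ • e_a + im ζ • e_b`, a unit vector with `c`-coordinate `0`. `hs ζ := x0` from `merid` for `v = cvec a b ζ` (choice). `F (mer c v (-x)) = F (mer c v x)` (`mer c v (-x) = refl c (mer c v x)`, `H.even c`), so the three sign statements hold for
`x ∈ [-π / 2, π / 2]` with `|x|`. Continuity at `ζ0`: let `0 < ε` with `hs ζ0 ± ε ∈ (0, π / 2)`; `F (mer c (cvec a b ζ0) (hs ζ0 - ε)) > 0 > F (mer c (cvec a b ζ0) (hs ζ0 + ε))`; by continuity in `ζ` these two inequalities hold for `ζ` near `ζ0`, and the sign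
statements for `ζ` imply `hs ζ0 - ε < hs ζ < hs ζ0 + ε` (if `hs ζ ≤ hs ζ0 - ε` the value at `hs ζ0 - ε` would be `≤ 0`, and so on).
-/

set_option autoImplicit false

open MeasureTheory Filter Set
open scoped ContDiff Topology

namespace Pool.Agent.Helper78.FB

/-- The unit vector of the plane of the axes `a, b` given by a complex number of modulus one. -/
noncomputable def cvec (a b : Fin 3) (ζ : Circle) : E :=
  (ζ : ℂ).re • EuclideanSpace.single a (1 : ℝ) + (ζ : ℂ).im • EuclideanSpace.single b (1 : ℝ)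

variable {F : E → ℝ} {a b c : Fin 3}

private theorem cvec_apply (ζ : Circle) (l : Fin 3) : cvec a b ζ l =
    (ζ : ℂ).re * (if l = a then 1 else 0) + (ζ : ℂ).im * (if l = b then 1 else 0) := by
  simp [cvec]

private theorem mer_apply (v : E) (x : ℝ) (l : Fin 3) : mer c v x l =
    Real.cos x * v l + Real.sin x * (if l = c then 1 else 0) := by
  simp [mer]

private theorem mer_neg (H : Hyp F) {v : E} (hv : v c = 0) (x : ℝ) :
    F (mer c v (-x)) = F (mer c v x) := by
  refine par_abs H.even fun l => ?_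
  rw [mer_apply, mer_apply, Real.cos_neg, Real.sin_neg]
  by_cases hl : l = c
  · rw [if_pos hl, hl, hv, mul_zero, zero_add, zero_add, neg_mul, abs_neg]
  · rw [if_neg hl, mul_zero, mul_zero]

private theorem mer_abs (H : Hyp F) {v : E} (hv : v c = 0) (x : ℝ) :
    F (mer c v |x|) = F (mer c v x) := by
  rcases abs_choice x with h | h
  · rw [h]
  · rw [h, mer_neg H hv]

private theorem cont_mer (hF : Continuous F) (x : ℝ) :
    Continuous fun ζ : Circle => F (mer c (cvec a b ζ) x) := by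
  have h1 : Continuous fun ζ : Circle => (ζ : ℂ) := continuous_subtype_val
  have h2 : Continuous fun ζ : Circle => cvec a b ζ :=
    ((Complex.continuous_re.comp h1).smul continuous_const).add
      ((Complex.continuous_im.comp h1).smul continuous_const)
  exact hF.comp ((h2.const_smul (Real.cos x)).add continuous_const)

theorem cvec_norm (hab : a ≠ b) (ζ : Circle) : ‖cvec a b ζ‖ = 1 := by
  have h1 : ‖cvec a b ζ‖ ^ 2 = 1 := by
    have h2 : (ζ : ℂ).re ^ 2 + (ζ : ℂ).im ^ 2 = 1 := by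
      have h3 := Circle.normSq_coe ζ
      rw [Complex.normSq_apply] at h3
      linarith
    rw [norm_sq]
    simp only [cvec_apply]
    rw [Fin.sum_univ_three]
    fin_cases a <;> fin_cases b <;> simp at hab ⊢ <;> linarith
  nlinarith [norm_nonneg (cvec a b ζ)]

theorem cvec_c (hac : a ≠ c) (hbc : b ≠ c) (ζ : Circle) : cvec a b ζ c = 0 := by
  rw [cvec_apply, if_neg hac.symm, if_neg hbc.symm]
  ring

theorem latitude (H : Hyp F) (hab : a ≠ b) (hac : a ≠ c) (hbc : b ≠ c)
    (wac : ∀ y ∈ surf F, 0 < y a → 0 < y c → ww F a c y < 0)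
    (wbc : ∀ y ∈ surf F, 0 ≤ y b → 0 ≤ y c → ww F b c y ≤ 0)
    (hpole : F (EuclideanSpace.single c (1 : ℝ)) < 0) (heq : ∀ v : E, ‖v‖ = 1 → v c = 0 → 0 < F v) :
    ∃ hs : Circle → ℝ, Continuous hs ∧ ∀ ζ, hs ζ ∈ Ioo 0 (Real.pi / 2) ∧
      ∀ x ∈ Icc (-(Real.pi / 2)) (Real.pi / 2), (|x| < hs ζ → 0 < F (mer c (cvec a b ζ) x)) ∧
        (|x| = hs ζ → F (mer c (cvec a b ζ) x) = 0) ∧ (hs ζ < |x| → F (mer c (cvec a b ζ) x) < 0) := by
  have hc : ∀ ζ, cvec a b ζ c = 0 := fun ζ => cvec_c hac hbc ζ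
  have hn : ∀ ζ, ‖cvec a b ζ‖ = 1 := fun ζ => cvec_norm hab ζ
  choose hs hmem h0 hpos hneg using fun ζ =>
    merid H hab hac hbc wac wbc hpole (hn ζ) (hc ζ) (heq _ (hn ζ) (hc ζ))
  have hFc : Continuous F := H.fb.smooth.continuous
  refine ⟨hs, ?_, fun ζ => ⟨hmem ζ, fun x hx => ⟨fun h1 => ?_, fun h1 => ?_, fun h1 => ?_⟩⟩⟩
  · rw [continuous_iff_continuousAt]
    intro ζ0
    refine tendsto_order.2 ⟨fun r hr => ?_, fun r hr => ?_⟩
    · have hx0 : 0 ≤ max r 0 := le_max_right _ _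
      have hx1 : max r 0 < hs ζ0 := max_lt hr (hmem ζ0).1
      have h1 : 0 < F (mer c (cvec a b ζ0) (max r 0)) := hpos ζ0 _ ⟨hx0, hx1⟩
      have h2 := ((cont_mer (a := a) (b := b) (c := c) hFc (max r 0)).continuousAt
        (x := ζ0)).eventually (lt_mem_nhds h1)
      filter_upwards [h2] with ζ hζ
      by_contra hcon
      have hcon' : hs ζ ≤ max r 0 := (not_lt.1 hcon).trans (le_max_left _ _)
      rcases lt_or_eq_of_le hcon' with h3 | h3
      · have h4 := hneg ζ (max r 0) ⟨h3, (hx1.trans (hmem ζ0).2).le⟩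
        exact lt_asymm h4 hζ
      · have h4 := h0 ζ
        rw [h3] at h4
        exact hζ.ne' h4
    · have hx1 : hs ζ0 < min r (Real.pi / 2) := lt_min hr (hmem ζ0).2
      have hx2 : min r (Real.pi / 2) ≤ Real.pi / 2 := min_le_right _ _
      have h1 : F (mer c (cvec a b ζ0) (min r (Real.pi / 2))) < 0 := hneg ζ0 _ ⟨hx1, hx2⟩
      have h2 := ((cont_mer (a := a) (b := b) (c := c) hFc (min r (Real.pi / 2))).continuousAt
        (x := ζ0)).eventually (gt_mem_nhds h1)
      filter_upwards [h2] with ζ hζ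
      by_contra hcon
      have hcon' : min r (Real.pi / 2) ≤ hs ζ := (min_le_left _ _).trans (not_lt.1 hcon)
      rcases lt_or_eq_of_le hcon' with h3 | h3
      · have h4 := hpos ζ (min r (Real.pi / 2)) ⟨((hmem ζ0).1.trans hx1).le, h3⟩
        exact lt_asymm h4 hζ
      · have h4 := h0 ζ
        rw [← h3] at h4
        exact hζ.ne h4
  · have h2 := hpos ζ |x| ⟨abs_nonneg x, h1⟩
    rwa [mer_abs H (hc ζ)] at h2
  · have h2 := h0 ζ
    rw [← h1, mer_abs H (hc ζ)] at h2
    exact h2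
  · have h2 := hneg ζ |x| ⟨h1, abs_le.2 hx⟩
    rwa [mer_abs H (hc ζ)] at h2

end Pool.Agent.Helper78.FB
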