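import Pool.Agent.Helper94.FB.QForm
import Pool.Agent.Helper94.FB.GFun

/-!
# FB-23 LimG: the second variation of `G_n(uu F)`

`u = uu F`, `G_n = gfun α β (1 / (n + 1))`, `K_n = gfun (α ^ 2) (β ^ 2) (1 / (n + 1))`; `u = 0` on `bdry F` (`orth`), `gfun _ _ _ 0 = 0`.
* `tang_comp`: `pd_comp`: `tang F (ψ ∘ f) g = ψ'(f) tang F f g`.
* `lim_QGG`: `Q(G_n u, G_n u) = area (G_n'(u) ^ 2 tang(u, u) - normA G_n(u) ^ 2)` (the `len` term is `0`), and `0 = len (kap K_n(u)) = Q(u, K_n u) = area (K_n'(u) tang(u, u) - normA u K_n(u))` (`Q_uu`; the integrand of `len` is `0`).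
  Subtract: `Q(G_n u, G_n u) = area ((G_n'(u) ^ 2 - K_n'(u)) tang(u, u) - normA (G_n(u) ^ 2 - u K_n(u)))`. The integrands are bounded on `surf F` uniformly in `n` (`gfun_bound`, `deriv_gfun_bound`, `u` is bounded on the compact `surf F`) and tend
  pointwise to `0` (`deriv_gfun_tendsto`: `α ^ 2 - α ^ 2` or `β ^ 2 - β ^ 2`; `gfun_tendsto`: `(α max u 0 - β max (-u) 0) ^ 2 = u (α ^ 2 max u 0 - β ^ 2 max (-u) 0)`): `area_tendsto`.
* `lim_QG1`: `Q_comm`, `Q_one`: `- area (normA G_n(u)) - len (G_n u)`, the last term is `0`; `area_tendsto`.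
* `QG_supp`: `Q(G u, w) = area (G'(u) tang(u, w) - normA G(u) w)`, since `G(u) = 0` on `bdry F`; at `y ∈ surf F` either `y ∈ tsupport w`, then `u y ≥ 0` and `G'(u) = α`, `G(u) = α u`, or `w y = 0` and `pd k w y = 0` for all `k`. The same for
  `Q(u, w) = area (tang(u, w) - normA u w)`.
-/

set_option autoImplicit false

open MeasureTheory Filter
open scoped ContDiff Topology

namespace Pool.Agent.Helper78.FB

variable {F : E → ℝ}

theorem tang_comp {f g : E → ℝ} {ψ : ℝ → ℝ} (hψ : ContDiff ℝ ∞ ψ) (hf : ContDiff ℝ ∞ f) (y : E) :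
    tang F (fun y => ψ (f y)) g y = deriv ψ (f y) * tang F f g y := by
  unfold tang
  simp only [fun i => pd_comp i ψ hψ hf, Fin.sum_univ_three]
  ring

private theorem gfun_zero (α β ε : ℝ) : gfun α β ε 0 = 0 := by
  unfold gfun
  rw [zero_mul]

private theorem contDiff_G (h : FBMS F) (α β ε : ℝ) : ContDiff ℝ ∞ (fun y => gfun α β ε (uu F y)) :=
  (contDiff_gfun α β ε).comp (contDiff_uu h.smooth)

private theorem cont_G (h : FBMS F) (α β ε : ℝ) : Continuous (fun y => gfun α β ε (uu F y)) :=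
  (contDiff_G h α β ε).continuous

private theorem cont_dG (h : FBMS F) (α β ε : ℝ) : Continuous (fun y => deriv (gfun α β ε) (uu F y)) :=
  ((contDiff_gfun α β ε).continuous_deriv (by simp)).comp (contDiff_uu h.smooth).continuous

private theorem G_bdry (h : FBMS F) (α β ε : ℝ) {y : E} (hy : y ∈ bdry F) : gfun α β ε (uu F y) = 0 := by
  rw [orth h hy, gfun_zero]

private theorem len_zero_of (h : FBMS F) {f : E → ℝ} (hf : ∀ y ∈ bdry F, f y = 0) : len F f = 0 := by
  rw [len_congr (g := fun _ => 0 * (0 : ℝ)) (fun y hy => by rw [hf y hy, zero_mul]) h,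
    len_const_mul, zero_mul]

/-- the form of the second variation -/
private theorem Q_G (h : FBMS F) (α β ε : ℝ) {w : E → ℝ} (hw : ContDiff ℝ ∞ w) :
    Q F (fun y => gfun α β ε (uu F y)) w = area F (fun y => deriv (gfun α β ε) (uu F y) * tang F (uu F) w y -
      normA F y * (gfun α β ε (uu F y) * w y)) := by
  unfold Q
  rw [len_zero_of h (f := fun y => gfun α β ε (uu F y) * w y)
    (fun y hy => by rw [G_bdry h α β ε hy, zero_mul]), sub_zero]
  apply area_congr _ h
  intro y _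
  rw [tang_comp (contDiff_gfun α β ε) (contDiff_uu h.smooth)]

private theorem Q_GG (h : FBMS F) (α β ε : ℝ) :
    Q F (fun y => gfun α β ε (uu F y)) (fun y => gfun α β ε (uu F y)) =
      area F (fun y => (deriv (gfun α β ε) (uu F y) ^ 2 - deriv (gfun (α ^ 2) (β ^ 2) ε) (uu F y)) *
        tang F (uu F) (uu F) y -
        normA F y * (gfun α β ε (uu F y) ^ 2 - uu F y * gfun (α ^ 2) (β ^ 2) ε (uu F y))) := by
  have h1 : Q F (fun y => gfun (α ^ 2) (β ^ 2) ε (uu F y)) (uu F) = 0 := by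
    rw [Q_comm, Q_uu h (contDiff_G h _ _ _)]
    exact len_zero_of h fun y hy => by rw [G_bdry h _ _ _ hy, mul_zero]
  rw [Q_G h _ _ _ (contDiff_uu h.smooth)] at h1
  rw [Q_G h _ _ _ (contDiff_G h α β ε)]
  have hcu := (contDiff_uu h.smooth).continuous
  have hct : ∀ g : E → ℝ, ContDiff ℝ ∞ g → Continuous (tang F (uu F) g) := fun g hg =>
    (contDiff_tang h.smooth (contDiff_uu h.smooth) hg).continuous
  have hcn := (contDiff_normA h.smooth).continuous
  have c1 : Continuous (fun y => deriv (gfun α β ε) (uu F y) * tang F (uu F) (fun y => gfun α β ε (uu F y)) y -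
      normA F y * (gfun α β ε (uu F y) * gfun α β ε (uu F y))) :=
    ((cont_dG h α β ε).mul (hct _ (contDiff_G h α β ε))).sub
      (hcn.mul ((cont_G h α β ε).mul (cont_G h α β ε)))
  have c2 : Continuous (fun y => deriv (gfun (α ^ 2) (β ^ 2) ε) (uu F y) * tang F (uu F) (uu F) y -
      normA F y * (gfun (α ^ 2) (β ^ 2) ε (uu F y) * uu F y)) :=
    ((cont_dG h _ _ ε).mul (hct _ (contDiff_uu h.smooth))).sub (hcn.mul ((cont_G h _ _ ε).mul hcu))
  have h2 := area_sub h c1.continuousOn c2.continuousOn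
  rw [h1, sub_zero] at h2
  rw [← h2]
  apply area_congr _ h
  intro y _
  rw [tang_comm, tang_comp (contDiff_gfun α β ε) (contDiff_uu h.smooth)]
  ring

private theorem eps_pos (n : ℕ) : (0 : ℝ) < 1 / ((n : ℝ) + 1) := by positivity

theorem lim_QGG (h : FBMS F) (α β : ℝ) :
    Tendsto (fun n : ℕ => Q F (fun y => gfun α β (1 / ((n : ℝ) + 1)) (uu F y))
      (fun y => gfun α β (1 / ((n : ℝ) + 1)) (uu F y))) atTop (𝓝 0) := by
  have hcu := (contDiff_uu h.smooth).continuous
  have hct := (contDiff_tang h.smooth (contDiff_uu h.smooth) (contDiff_uu h.smooth)).continuous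
  have hcn := (contDiff_normA h.smooth).continuous
  obtain ⟨M1, hM1⟩ := (isCompact_surf h).exists_bound_of_continuousOn hct.continuousOn
  obtain ⟨M2, hM2⟩ := (isCompact_surf h).exists_bound_of_continuousOn hcn.continuousOn
  obtain ⟨M3, hM3⟩ := (isCompact_surf h).exists_bound_of_continuousOn hcu.continuousOn
  obtain ⟨C1, hC1⟩ := deriv_gfun_bound α β
  obtain ⟨C2, hC2⟩ := deriv_gfun_bound (α ^ 2) (β ^ 2)
  simp only [fun n : ℕ => Q_GG h α β (1 / ((n : ℝ) + 1))]
  have h0 : area F (fun _ => 0) = 0 := by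
    unfold area
    simp
  rw [← h0]
  refine area_tendsto h _ _ (fun n => ?_)
    ((C1 ^ 2 + C2) * M1 + M2 * (((|α| + 2 * |β|) * M3) ^ 2 + M3 * ((|α ^ 2| + 2 * |β ^ 2|) * M3)))
    (fun n y hy => ?_) (fun y hy => ?_)
  · exact (((((cont_dG h _ _ _).pow 2).sub (cont_dG h _ _ _)).mul hct).sub
      (hcn.mul (((cont_G h _ _ _).pow 2).sub (hcu.mul (cont_G h _ _ _))))).continuousOn
  · have b1 := hM1 y hy
    have b2 := hM2 y hy
    have b3 := hM3 y hy
    rw [Real.norm_eq_abs] at b1 b2 b3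
    have b4 := hC1 _ (eps_pos n) (uu F y)
    have b5 := hC2 _ (eps_pos n) (uu F y)
    have b6 := gfun_bound α β (1 / ((n : ℝ) + 1)) (uu F y)
    have b7 := gfun_bound (α ^ 2) (β ^ 2) (1 / ((n : ℝ) + 1)) (uu F y)
    have b8 : |gfun α β (1 / ((n : ℝ) + 1)) (uu F y)| ≤ (|α| + 2 * |β|) * M3 :=
      b6.trans (mul_le_mul_of_nonneg_left b3 (by positivity))
    have b9 : |gfun (α ^ 2) (β ^ 2) (1 / ((n : ℝ) + 1)) (uu F y)| ≤ (|α ^ 2| + 2 * |β ^ 2|) * M3 :=
      b7.trans (mul_le_mul_of_nonneg_left b3 (by positivity))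
    have hM30 : 0 ≤ M3 := (abs_nonneg _).trans b3
    have hC10 : 0 ≤ C1 := (abs_nonneg _).trans b4
    have hC20 : 0 ≤ C2 := (abs_nonneg _).trans b5
    refine (abs_sub _ _).trans (add_le_add ?_ ?_)
    · rw [abs_mul]
      refine mul_le_mul ?_ b1 (abs_nonneg _) (by positivity)
      refine (abs_sub _ _).trans (add_le_add ?_ b5)
      rw [abs_pow]
      exact pow_le_pow_left₀ (abs_nonneg _) b4 2
    · rw [abs_mul]
      refine mul_le_mul b2 ?_ (abs_nonneg _) ((abs_nonneg _).trans b2)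
      refine (abs_sub _ _).trans (add_le_add ?_ ?_)
      · rw [abs_pow]
        exact pow_le_pow_left₀ (abs_nonneg _) b8 2
      · rw [abs_mul]
        exact mul_le_mul b3 b9 (abs_nonneg _) hM30
  · have t1 := deriv_gfun_tendsto α β (uu F y)
    have t2 := deriv_gfun_tendsto (α ^ 2) (β ^ 2) (uu F y)
    have t3 := gfun_tendsto α β (uu F y)
    have t4 := gfun_tendsto (α ^ 2) (β ^ 2) (uu F y)
    have t5 := (((t1.pow 2).sub t2).mul_const (tang F (uu F) (uu F) y)).sub
      (((t3.pow 2).sub (t4.const_mul (uu F y))).const_mul (normA F y))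
    have key : ∀ a b : ℝ, a = b → Tendsto (fun x : ℕ =>
          (deriv (gfun α β (1 / ((x : ℝ) + 1))) (uu F y) ^ 2 -
              deriv (gfun (α ^ 2) (β ^ 2) (1 / ((x : ℝ) + 1))) (uu F y)) * tang F (uu F) (uu F) y -
            normA F y * (gfun α β (1 / ((x : ℝ) + 1)) (uu F y) ^ 2 -
              uu F y * gfun (α ^ 2) (β ^ 2) (1 / ((x : ℝ) + 1)) (uu F y))) atTop (𝓝 a) →
        Tendsto (fun x : ℕ =>
          (deriv (gfun α β (1 / ((x : ℝ) + 1))) (uu F y) ^ 2 -
              deriv (gfun (α ^ 2) (β ^ 2) (1 / ((x : ℝ) + 1))) (uu F y)) * tang F (uu F) (uu F) y -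
            normA F y * (gfun α β (1 / ((x : ℝ) + 1)) (uu F y) ^ 2 -
              uu F y * gfun (α ^ 2) (β ^ 2) (1 / ((x : ℝ) + 1)) (uu F y))) atTop (𝓝 b) := by
      rintro a b rfl h
      exact h
    refine key _ _ ?_ t5
    rcases le_or_gt 0 (uu F y) with hu | hu
    · rw [if_pos hu, if_pos hu, max_eq_left hu, max_eq_right (by linarith)]
      ring
    · rw [if_neg (not_le.2 hu), if_neg (not_le.2 hu), max_eq_right hu.le, max_eq_left (by linarith)]
      ring

theorem lim_QG1 (h : FBMS F) (α β : ℝ) :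
    Tendsto (fun n : ℕ => Q F (fun y => gfun α β (1 / ((n : ℝ) + 1)) (uu F y)) (fun _ => 1)) atTop
      (𝓝 (-(α * area F (fun y => normA F y * max (uu F y) 0) -
        β * area F (fun y => normA F y * max (-uu F y) 0)))) := by
  have hcu := (contDiff_uu h.smooth).continuous
  have hcn := (contDiff_normA h.smooth).continuous
  obtain ⟨M2, hM2⟩ := (isCompact_surf h).exists_bound_of_continuousOn hcn.continuousOn
  obtain ⟨M3, hM3⟩ := (isCompact_surf h).exists_bound_of_continuousOn hcu.continuousOn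
  have e1 : ∀ n : ℕ, Q F (fun y => gfun α β (1 / ((n : ℝ) + 1)) (uu F y)) (fun _ => 1) =
      -area F (fun y => normA F y * gfun α β (1 / ((n : ℝ) + 1)) (uu F y)) := by
    intro n
    rw [Q_comm, Q_one h (contDiff_G h _ _ _), len_zero_of h (fun y hy => G_bdry h _ _ _ hy), sub_zero]
  simp only [e1]
  have e2 : α * area F (fun y => normA F y * max (uu F y) 0) -
      β * area F (fun y => normA F y * max (-uu F y) 0) =
      area F (fun y => normA F y * (α * max (uu F y) 0 - β * max (-uu F y) 0)) := by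
    rw [← area_const_mul, ← area_const_mul, ← area_sub h]
    · apply area_congr _ h
      intro y _
      ring
    · exact (continuous_const.mul (hcn.mul (hcu.max continuous_const))).continuousOn
    · exact (continuous_const.mul (hcn.mul (hcu.neg.max continuous_const))).continuousOn
  rw [e2]
  refine Tendsto.neg (area_tendsto h _ _ (fun n => ?_) (M2 * ((|α| + 2 * |β|) * M3)) (fun n y hy => ?_)
    (fun y hy => ?_))
  · exact (hcn.mul (cont_G h _ _ _)).continuousOn
  · have b2 := hM2 y hy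
    have b3 := hM3 y hy
    rw [Real.norm_eq_abs] at b2 b3
    have b6 := gfun_bound α β (1 / ((n : ℝ) + 1)) (uu F y)
    have b8 : |gfun α β (1 / ((n : ℝ) + 1)) (uu F y)| ≤ (|α| + 2 * |β|) * M3 :=
      b6.trans (mul_le_mul_of_nonneg_left b3 (by positivity))
    rw [abs_mul]
    exact mul_le_mul b2 b8 (abs_nonneg _) ((abs_nonneg _).trans b2)
  · exact (gfun_tendsto α β (uu F y)).const_mul (normA F y)

private theorem tang_out {w : E → ℝ} {y : E} (hy : y ∉ tsupport w) (f : E → ℝ) : w y = 0 ∧ tang F f w y = 0 := by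
  have h1 : w =ᶠ[𝓝 y] fun _ => (0 : ℝ) := notMem_tsupport_iff_eventuallyEq.1 hy
  have h2 : ∀ i, pd i w y = 0 := by
    intro i
    rw [pd_congr i h1, pd_const]
  refine ⟨h1.eq_of_nhds, ?_⟩
  unfold tang
  simp only [h2, mul_zero, Finset.sum_const_zero, sub_zero]

theorem QG_supp (h : FBMS F) (α β : ℝ) {ε : ℝ} (hε : 0 < ε) {w : E → ℝ} (hw : ContDiff ℝ ∞ w)
    (hpos : ∀ y ∈ surf F, y ∈ tsupport w → 0 ≤ uu F y) :
    Q F (fun y => gfun α β ε (uu F y)) w = α * Q F (uu F) w := by
  rw [Q_G h α β ε hw]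
  unfold Q
  rw [len_zero_of h (f := fun y => uu F y * w y) (fun y hy => by rw [orth h hy, zero_mul]), sub_zero,
    ← area_const_mul]
  apply area_congr _ h
  intro y hy
  by_cases hyw : y ∈ tsupport w
  · have hu := hpos y hy hyw
    rw [deriv_gfun_of_nonneg α β hε hu, gfun_of_nonneg α β hε hu]
    ring
  · obtain ⟨h1, h2⟩ := tang_out (F := F) hyw (uu F)
    rw [h1, h2]
    ring

end Pool.Agent.Helper78.FB
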