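import Pool.Agent.Helper94.FB.Cross
import Pool.Agent.Helper94.FB.MeanZero
import Pool.Agent.Helper94.FB.SymInt

/-!
# FB-46 Merid: on every meridian there is exactly one boundary point

`g x = F (mer c v x)`, `mer c v x = cos x • v + sin x • e_c`, `‖v‖ = 1`, `v c = 0`. `mer c v x` is a unit vector with the coordinates `cos x v_a`, `cos x v_b`, `sin x`. `g' x = ∑ k, (mer)'_k pd k F`, `(mer)' = - sin x v + cos x e_c` (`hasDerivAt_comp`).
At a zero `x ∈ (0, π / 2)` put `θ = mer c v x ∈ bdry F`, `θ c > 0`. Identity: `cos x * g' x = θ_a ww F a c θ + θ_b ww F b c θ` (expand; `cos x v_a = θ_a`, `cos x v_b = θ_b`, `sin x = θ_c`, `cos² = θ_a² + θ_b²`). Claim: it is `< 0`: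
- `θ_a * ww F a c θ < 0` if `θ_a ≠ 0`: let `θ'` be the vector with the coordinates `|θ_i|` (a reflection of `θ`); `ww F a c` is odd in the variables `a` and `c` and even in `b` (`par_ww`), so `θ_a ww F a c θ = |θ_a| ww F a c θ'` and
  `wac` applies to `θ' ∈ surf F`. Similarly `θ_b * ww F b c θ ≤ 0` (`wbc`).
- If `θ_a = 0`: `θ_b ≠ 0` (`v` is a unit vector, `cos x > 0`), `pd a F θ = 0` (`par_pd`, `par_zero`), so with `orth`, `grad_sq`: `(θ_b F_c - θ_c F_b) ^ 2 = (θ_b² + θ_c²)(F_b² + F_c²) - (θ_b F_b + θ_c F_c)² = 1`, hence `ww F b c θ ≠ 0` and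
  `θ_b ww F b c θ < 0`.
So `- g` crosses zero upwards only on `[0, π / 2]`; `- g 0 = - F v < 0`, `- g (π / 2) = - F e_c > 0`. There is a zero `x0` (intermediate values) and `cross_zero` gives the signs on the open intervals; the end points are the hypotheses.
-/

set_option autoImplicit false

open MeasureTheory Filter Set
open scoped ContDiff Topology

namespace Pool.Agent.Helper78.FB

variable {F : E → ℝ} {a b c : Fin 3}

private theorem md_sum3 {a b c : Fin 3} (hab : a ≠ b) (hac : a ≠ c) (hbc : b ≠ c) (f : Fin 3 → ℝ) :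
    ∑ k, f k = f a + f b + f c := by
  rw [Fin.sum_univ_three]
  fin_cases a <;> fin_cases b <;> fin_cases c <;>
    first
    | exact absurd rfl hab
    | exact absurd rfl hac
    | exact absurd rfl hbc
    | (simp only [Fin.zero_eta, Fin.mk_one, Fin.reduceFinMk]; try ring)

private theorem md_mer (v : E) (c k : Fin 3) (x : ℝ) :
    mer c v x k = Real.cos x * v k + Real.sin x * (if k = c then 1 else 0) := by
  simp [mer, EuclideanSpace.single_apply]

private theorem md_deriv (v : E) (c : Fin 3) (x : ℝ) :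
    HasDerivAt (mer c v) ((-Real.sin x) • v + Real.cos x • EuclideanSpace.single c (1 : ℝ)) x := by
  show HasDerivAt (fun x => Real.cos x • v + Real.sin x • EuclideanSpace.single c (1 : ℝ)) _ x
  exact ((Real.hasDerivAt_cos x).smul_const v).add ((Real.hasDerivAt_sin x).smul_const _)

/-- `y_i y_c (y_i F_c - y_c F_i)` is even in all variables. -/
private theorem md_even (hF : ContDiff ℝ ∞ F) (he : ∀ l, Par l 1 F) (i c : Fin 3) {y y' : E}
    (hy : ∀ l, |y l| = |y' l|) : y i * y c * ww F i c y = y' i * y' c * ww F i c y' := by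
  have h : ∀ l, Par l 1 (fun y => y i * y c * ww F i c y) := by
    intro l
    have h1 := par_mul l (par_mul l (par_coord l i) (par_coord l c)) (par_ww l hF (he l) i c)
    have h2 : sg i l * sg c l * (sg i l * sg c l) = 1 := by
      have h3 := sg_mul_self l i
      have h4 := sg_mul_self l c
      calc sg i l * sg c l * (sg i l * sg c l) = (sg i l * sg i l) * (sg c l * sg c l) := by ring
        _ = 1 := by rw [h3, h4, one_mul]
    rw [h2] at h1
    exact h1
  exact par_abs h hy

theorem merid (H : Hyp F) (hab : a ≠ b) (hac : a ≠ c) (hbc : b ≠ c)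
    (wac : ∀ y ∈ surf F, 0 < y a → 0 < y c → ww F a c y < 0)
    (wbc : ∀ y ∈ surf F, 0 ≤ y b → 0 ≤ y c → ww F b c y ≤ 0)
    (hpole : F (EuclideanSpace.single c (1 : ℝ)) < 0) {v : E} (hv : ‖v‖ = 1) (hvc : v c = 0) (hFv : 0 < F v) :
    ∃ x0 ∈ Ioo 0 (Real.pi / 2), F (mer c v x0) = 0 ∧ (∀ x ∈ Ico 0 x0, 0 < F (mer c v x)) ∧
      ∀ x ∈ Ioc x0 (Real.pi / 2), F (mer c v x) < 0 := by
  have hF := H.fb.smooth
  have hpi : 0 < Real.pi / 2 := by positivity
  have hv2 : v a ^ 2 + v b ^ 2 = 1 := by
    have h1 := norm_sq v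
    rw [hv, md_sum3 hab hac hbc, hvc] at h1
    linarith
  have ha : ∀ x, mer c v x a = Real.cos x * v a := by
    intro x
    rw [md_mer, if_neg hac]
    ring
  have hb : ∀ x, mer c v x b = Real.cos x * v b := by
    intro x
    rw [md_mer, if_neg hbc]
    ring
  have hc : ∀ x, mer c v x c = Real.sin x := by
    intro x
    rw [md_mer, if_pos rfl, hvc]
    ring
  have hnorm : ∀ x, ‖mer c v x‖ = 1 := by
    intro x
    have h1 := norm_sq (mer c v x)
    rw [md_sum3 hab hac hbc, ha, hb, hc] at h1
    have h2 := Real.sin_sq_add_cos_sq x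
    have h3 : ‖mer c v x‖ ^ 2 = 1 := by
      rw [h1]
      nlinarith
    have h4 := norm_nonneg (mer c v x)
    nlinarith
  have hm0 : mer c v 0 = v := by
    unfold mer
    rw [Real.cos_zero, Real.sin_zero, one_smul, zero_smul, add_zero]
  have hm1 : mer c v (Real.pi / 2) = EuclideanSpace.single c (1 : ℝ) := by
    unfold mer
    rw [Real.cos_pi_div_two, Real.sin_pi_div_two, one_smul, zero_smul, zero_add]
  have hd : ∀ x, HasDerivAt (fun x => F (mer c v x))
      (∑ k, ((-Real.sin x) • v + Real.cos x • EuclideanSpace.single c (1 : ℝ) : E) k *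
        pd k F (mer c v x)) x := fun x => hasDerivAt_comp hF (mer c v) _ x (md_deriv v c x)
  obtain ⟨g', hg'⟩ : ∃ g' : ℝ → ℝ, ∀ x, g' x =
      ∑ k, ((-Real.sin x) • v + Real.cos x • EuclideanSpace.single c (1 : ℝ) : E) k *
        pd k F (mer c v x) := ⟨_, fun _ => rfl⟩
  have hder : ∀ x, g' x = -Real.sin x * (v a * pd a F (mer c v x) + v b * pd b F (mer c v x)) +
      Real.cos x * pd c F (mer c v x) := by
    intro x
    rw [hg', md_sum3 hab hac hbc]
    have e1 : ((-Real.sin x) • v + Real.cos x • EuclideanSpace.single c (1 : ℝ) : E) a =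
        -Real.sin x * v a := by
      simp [EuclideanSpace.single_apply, hac]
    have e2 : ((-Real.sin x) • v + Real.cos x • EuclideanSpace.single c (1 : ℝ) : E) b =
        -Real.sin x * v b := by
      simp [EuclideanSpace.single_apply, hbc]
    have e3 : ((-Real.sin x) • v + Real.cos x • EuclideanSpace.single c (1 : ℝ) : E) c =
        Real.cos x := by
      simp [EuclideanSpace.single_apply, hvc]
    rw [e1, e2, e3]
    ring
  have hneg : ∀ x ∈ Ioo 0 (Real.pi / 2), F (mer c v x) = 0 → g' x < 0 := by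
    intro x hx h0
    have hcos : 0 < Real.cos x := Real.cos_pos_of_mem_Ioo ⟨by linarith [hx.1], hx.2⟩
    have hsin : 0 < Real.sin x := Real.sin_pos_of_pos_of_lt_pi hx.1 (by linarith [hx.2])
    obtain ⟨θ, hθ⟩ : ∃ θ : E, θ = mer c v x := ⟨_, rfl⟩
    have hθa := ha x
    have hθb := hb x
    have hθc := hc x
    have hθn := hnorm x
    have hgx := hder x
    rw [← hθ] at hθa hθb hθc hθn hgx h0
    have hbd : θ ∈ bdry F := ⟨hθn, h0⟩
    have hsf : θ ∈ surf F := ⟨hθn.le, h0⟩
    have hid : Real.cos x * g' x = θ a * ww F a c θ + θ b * ww F b c θ := by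
      rw [hgx]
      unfold ww
      rw [hθa, hθb, hθc]
      have e : Real.cos x * (Real.cos x * pd c F θ) =
          (Real.cos x * Real.cos x) * (v a ^ 2 + v b ^ 2) * pd c F θ := by
        rw [hv2]
        ring
      linear_combination e
    obtain ⟨θ', hθ'⟩ : ∃ θ' : E, ∀ i, θ' i = |θ i| := ⟨WithLp.toLp 2 (fun i => |θ i|), fun _ => rfl⟩
    have habs : ∀ l, |θ l| = |θ' l| := by
      intro l
      rw [hθ', abs_abs]
    have hsf' : θ' ∈ surf F := by
      refine ⟨?_, ?_⟩
      · rw [← norm_abs habs]
        exact hθn.le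
      · rw [← par_abs H.even habs]
        exact h0
    have hcc : θ' c = θ c := by rw [hθ', hθc, abs_of_pos hsin]
    have hcpos : 0 < θ c := by rw [hθc]; exact hsin
    have key1 : θ a ≠ 0 → θ a * ww F a c θ < 0 := by
      intro hne
      have h1 := md_even hF H.even a c habs
      have h2 : 0 < θ' a := by rw [hθ']; exact abs_pos.2 hne
      have h3 := wac θ' hsf' h2 (by rw [hcc]; exact hcpos)
      have h4 : θ' a * θ' c * ww F a c θ' < 0 :=
        mul_neg_of_pos_of_neg (mul_pos h2 (by rw [hcc]; exact hcpos)) h3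
      rw [← h1] at h4
      have h5 : θ c * (θ a * ww F a c θ) < 0 := by
        calc θ c * (θ a * ww F a c θ) = θ a * θ c * ww F a c θ := by ring
          _ < 0 := h4
      by_contra h6
      push Not at h6
      have := mul_nonneg hcpos.le h6
      linarith
    have key2 : θ b * ww F b c θ ≤ 0 := by
      have h1 := md_even hF H.even b c habs
      have h2 : 0 ≤ θ' b := by rw [hθ']; exact abs_nonneg _
      have h3 := wbc θ' hsf' h2 (by rw [hcc]; exact hcpos.le)
      have h4 : θ' b * θ' c * ww F b c θ' ≤ 0 :=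
        mul_nonpos_of_nonneg_of_nonpos (mul_nonneg h2 (by rw [hcc]; exact hcpos.le)) h3
      rw [← h1] at h4
      have h5 : θ c * (θ b * ww F b c θ) ≤ 0 := by
        calc θ c * (θ b * ww F b c θ) = θ b * θ c * ww F b c θ := by ring
          _ ≤ 0 := h4
      by_contra h6
      push Not at h6
      have := mul_pos hcpos h6
      linarith
    have hsum : θ a * ww F a c θ + θ b * ww F b c θ < 0 := by
      by_cases hne : θ a = 0
      · have h1 : pd a F θ = 0 := by
          have h2 := par_pd a a (by norm_num : (1 : ℝ) * 1 = 1) hF (H.even a)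
          have h3 : sg a a * 1 = -1 := by
            unfold sg
            rw [if_pos rfl, mul_one]
          rw [h3] at h2
          exact par_zero a h2 hne
        have h4 := orth H.fb hbd
        have h5 := grad_sq H.fb hsf
        have h6 := norm_sq θ
        unfold uu at h4
        rw [md_sum3 hab hac hbc] at h4 h5 h6
        rw [hne, h1] at h4
        rw [h1] at h5
        rw [hne, hθn] at h6
        have h7 : ww F b c θ ^ 2 = 1 := by
          unfold ww
          have e1 : θ b ^ 2 + θ c ^ 2 = 1 := by linarith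
          have e2 : pd b F θ ^ 2 + pd c F θ ^ 2 = 1 := by linarith
          have e3 : θ b * pd b F θ + θ c * pd c F θ = 0 := by linarith
          calc (θ b * pd c F θ - θ c * pd b F θ) ^ 2 =
              (θ b ^ 2 + θ c ^ 2) * (pd b F θ ^ 2 + pd c F θ ^ 2) -
                (θ b * pd b F θ + θ c * pd c F θ) ^ 2 := by ring
            _ = 1 := by rw [e1, e2, e3]; norm_num
        have h8 : ww F b c θ ≠ 0 := by
          intro h
          rw [h] at h7
          norm_num at h7
        have h9 : θ b ≠ 0 := by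
          intro h
          have e1 : v a = 0 := by
            rw [hθa] at hne
            exact (mul_eq_zero.1 hne).resolve_left hcos.ne'
          have e2 : v b = 0 := by
            rw [hθb] at h
            exact (mul_eq_zero.1 h).resolve_left hcos.ne'
          rw [e1, e2] at hv2
          norm_num at hv2
        have h10 : θ b * ww F b c θ ≠ 0 := mul_ne_zero h9 h8
        have h11 := lt_of_le_of_ne key2 h10
        rw [hne]
        linarith
      · linarith [key1 hne]
    rw [← hid] at hsum
    by_contra h6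
    push Not at h6
    have := mul_nonneg hcos.le h6
    linarith
  have hcont : Continuous fun x => F (mer c v x) :=
    continuous_iff_continuousAt.2 fun x => (hd x).continuousAt
  have hdG : ∀ x ∈ Ioo 0 (Real.pi / 2), HasDerivAt (fun x => -F (mer c v x)) (-g' x) x := by
    intro x _
    rw [hg']
    exact (hd x).neg
  have hzG : ∀ x ∈ Ioo 0 (Real.pi / 2), -F (mer c v x) = 0 → 0 < -g' x := by
    intro x hx h0
    have := hneg x hx (neg_eq_zero.1 h0)
    linarith
  have hG0 : -F (mer c v 0) < 0 := by
    rw [hm0]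
    linarith
  have hG1 : 0 < -F (mer c v (Real.pi / 2)) := by
    rw [hm1]
    linarith
  obtain ⟨x0, hx0, hx00⟩ := intermediate_value_Icc hpi.le hcont.neg.continuousOn ⟨hG0.le, hG1.le⟩
  have hx00' : -F (mer c v x0) = 0 := hx00
  have hx1 : x0 ∈ Ioo 0 (Real.pi / 2) := by
    refine ⟨lt_of_le_of_ne hx0.1 ?_, lt_of_le_of_ne hx0.2 ?_⟩
    · intro h
      rw [← h] at hx00'
      linarith
    · intro h
      rw [h] at hx00'
      linarith
  obtain ⟨h1, h2⟩ := cross_zero hcont.neg.continuousOn hdG hzG hx1 hx00'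
  refine ⟨x0, hx1, neg_eq_zero.1 hx00', ?_, ?_⟩
  · intro x hx
    rcases eq_or_lt_of_le hx.1 with h | h
    · rw [← h, hm0]
      exact hFv
    · have h3 : -F (mer c v x) < 0 := h2 x ⟨h, hx.2⟩
      linarith
  · intro x hx
    rcases eq_or_lt_of_le hx.2 with h | h
    · rw [h, hm1]
      exact hpole
    · have h3 : 0 < -F (mer c v x) := h1 x ⟨hx.1, h⟩
      linarith

end Pool.Agent.Helper78.FB
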