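import Pool.Agent.Helper94.FB.QForm

/-!
# FB-18 NegDef: four negative directions, so the index bound says that `Q ≥ 0` on the orthogonal complement

* `Q_one_neg`: `Q_one` with `w = 1`: `- area normA - len 1 < 0`, as `area normA > 0` (`area_pos`, `H.nflat`) and `len 1 ≥ 0`.
* `Q_coord_neg`: `Q_coord` with `w = y i`: `- area (normA * y_i ^ 2)`, and this area is positive: otherwise `normA y * y_i ^ 2 = 0` on `surf F` (`area_pos`); take `y ∈ surf F` with `normA y ≠ 0` (`H.nflat`); the set
  `V = {normA ≠ 0}` is open, and by `surf_subset` it contains some `z ∈ inn F`; on `inn F ∩ V` we have `y_i = 0`, so `normA z = 0` (`flat_piece`), a contradiction.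
* `Q_nonneg`: apply `H.index` to the five functions `1, y_0, y_1, y_2, f`. Expanding (`Q_add_left`, `Q_const_mul_left`, `Q_comm`; the mixed terms of `1, y_0, y_1, y_2` vanish by `Q_par`: `1` is even in all variables,
  `y_i` is odd in the variable `i` and even in the other ones, `par_coord`, `par_const`; the mixed terms with `f` vanish by hypothesis):
  `0 ≤ c_0 ^ 2 Q(1,1) + ∑ c_(i+1) ^ 2 Q(y_i, y_i) + c_4 ^ 2 Q(f,f)`. If `Q(f,f) < 0`, the right side is `< 0` as `c ≠ 0`.
* `Q_ge`: `f' = f - t` with `t = Q(f,1) / Q(1,1)`: `Q(f', 1) = 0`, and `Q(f', y_i) = 0` by `Q_par` (`f'` is even in the variable `i`), so `0 ≤ Q(f', f') = Q(f,f) - Q(f,1) ^ 2 / Q(1,1)` (`Q_line`).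
* `Q_odd_odd`: `Q(f, 1) = 0` (`Q_par`, `l = a`), `Q(f, y_i) = 0`: choose `l ∈ {a, b}`, `l ≠ i`; `y_i` is even in the variable `l` and `f` is odd.
-/

set_option autoImplicit false

open MeasureTheory Filter
open scoped ContDiff Topology

namespace Pool.Agent.Helper78.FB

variable {F f : E → ℝ}

private theorem nd_normA_cont (H : Hyp F) : Continuous (normA F) :=
  (contDiff_normA H.fb.smooth).continuous

private theorem nd_pos (H : Hyp F) : ∃ z ∈ surf F, 0 < normA F z := by
  obtain ⟨z, hz, hz'⟩ := H.nflat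
  exact ⟨z, hz, lt_of_le_of_ne (normA_nonneg z) hz'.symm⟩

theorem Q_one_neg (H : Hyp F) : Q F (fun _ => 1) (fun _ => 1) < 0 := by
  rw [Q_one H.fb contDiff_const]
  obtain ⟨z, hz, hz'⟩ := nd_pos H
  have h1 : 0 < area F (fun y => normA F y * 1) := by
    refine area_pos H.fb ((nd_normA_cont H).mul continuous_const).continuousOn
      (fun y _ => ?_) hz ?_
    · rw [mul_one]
      exact normA_nonneg y
    · rw [mul_one]
      exact hz'
  have h2 : 0 ≤ len F (fun _ => (1 : ℝ)) := len_nonneg H.fb fun _ _ => zero_le_one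
  linarith

theorem Q_coord_neg (H : Hyp F) (i : Fin 3) : Q F (fun y => y i) (fun y => y i) < 0 := by
  rw [Q_coord H.fb i (contDiff_coord i)]
  have hc : Continuous (fun y : E => y i) := (contDiff_coord i).continuous
  have hex : ∃ z ∈ surf F, 0 < normA F z * (z i * z i) := by
    by_contra hcon
    push Not at hcon
    obtain ⟨y, hy, hy'⟩ := nd_pos H
    have hV : IsOpen {x : E | 0 < normA F x} := isOpen_lt continuous_const (nd_normA_cont H)
    obtain ⟨z, hzV, hz⟩ := mem_closure_iff.1 (surf_subset H.fb hy) _ hV hy'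
    have h1 : normA F z = 0 := by
      refine flat_piece H.fb i hz _ hV hzV fun x hx hxV => ?_
      have h2 := hcon x ⟨hx.1.le, hx.2⟩
      have h3 : 0 < normA F x := hxV
      by_contra h4
      have h5 : 0 < x i * x i := mul_self_pos.2 h4
      have h6 := mul_pos h3 h5
      linarith
    have h2 : 0 < normA F z := hzV
    linarith
  obtain ⟨z, hz, hz'⟩ := hex
  have h1 : 0 < area F (fun y => normA F y * (y i * y i)) :=
    area_pos H.fb ((nd_normA_cont H).mul (hc.mul hc)).continuousOn
      (fun y _ => mul_nonneg (normA_nonneg y) (mul_self_nonneg _)) hz hz'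
  linarith

private theorem nd_sg_self (i : Fin 3) : sg i i = -1 := by
  unfold sg
  rw [if_pos rfl]

private theorem nd_sg_ne {i j : Fin 3} (h : i ≠ j) : sg i j = 1 := by
  unfold sg
  rw [if_neg h]

private theorem nd_par_coord_self (i : Fin 3) : Par i (-1) (fun y => y i) := by
  have h := par_coord i i
  rwa [nd_sg_self] at h

private theorem nd_par_coord_ne {i l : Fin 3} (h : i ≠ l) : Par l 1 (fun y => y i) := by
  have h := par_coord l i
  rwa [nd_sg_ne ‹i ≠ l›] at h

private theorem nd_even_coord (H : Hyp F) {g : E → ℝ} (hg : ContDiff ℝ ∞ g) (i : Fin 3)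
    (hp : Par i 1 g) : Q F g (fun y => y i) = 0 :=
  Q_par H.fb (l := i) (H.even i) (s := 1) (by norm_num) hg (contDiff_coord i) hp
    (nd_par_coord_self i)

private theorem nd_coord_coord (H : Hyp F) {i j : Fin 3} (hij : i ≠ j) :
    Q F (fun y => y i) (fun y => y j) = 0 :=
  nd_even_coord H (contDiff_coord i) j (nd_par_coord_ne hij)

private theorem nd_sum (H : Hyp F) {ι : Type} (s : Finset ι) (c : ι → ℝ) (b : ι → E → ℝ)
    (hb : ∀ i, ContDiff ℝ ∞ (b i)) {w : E → ℝ} (hw : ContDiff ℝ ∞ w) :
    Q F (fun y => ∑ i ∈ s, c i * b i y) w = ∑ i ∈ s, c i * Q F (b i) w := by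
  classical
  induction s using Finset.induction_on with
  | empty =>
    simp only [Finset.sum_empty]
    have h := Q_const_mul_left H.fb 0 hw hw
    simpa using h
  | insert a s ha ih =>
    have e1 : (fun y => ∑ i ∈ insert a s, c i * b i y) =
        fun y => (c a * b a y) + ∑ i ∈ s, c i * b i y := by
      funext y
      rw [Finset.sum_insert ha]
    rw [e1, Q_add_left H.fb (contDiff_const.mul (hb a))
      (ContDiff.sum fun i _ => contDiff_const.mul (hb i)) hw, Finset.sum_insert ha, ih,
      Q_const_mul_left H.fb (c a) (hb a) hw]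

theorem Q_nonneg (H : Hyp F) (hf : ContDiff ℝ ∞ f) (h1 : Q F f (fun _ => 1) = 0)
    (hi : ∀ i : Fin 3, Q F f (fun y => y i) = 0) : 0 ≤ Q F f f := by
  by_contra hneg
  rw [not_le] at hneg
  obtain ⟨b, hb⟩ : ∃ b : Fin 5 → E → ℝ,
    b = ![fun _ => 1, fun y => y 0, fun y => y 1, fun y => y 2, f] := ⟨_, rfl⟩
  have hbs : ∀ i, ContDiff ℝ ∞ (b i) := by
    intro i
    rw [hb]
    fin_cases i
    · exact contDiff_const
    · exact contDiff_coord 0
    · exact contDiff_coord 1
    · exact contDiff_coord 2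
    · exact hf
  have hone : ∀ i : Fin 3, Q F (fun _ => 1) (fun y => y i) = 0 := fun i =>
    nd_even_coord H contDiff_const i (par_const i 1)
  have hdiag : ∀ i, Q F (b i) (b i) < 0 := by
    intro i
    rw [hb]
    fin_cases i
    · exact Q_one_neg H
    · exact Q_coord_neg H 0
    · exact Q_coord_neg H 1
    · exact Q_coord_neg H 2
    · exact hneg
  have hoff : ∀ i j, i < j → Q F (b j) (b i) = 0 := by
    intro i j hij
    rw [hb]
    fin_cases i <;> fin_cases j
    all_goals first
      | exact absurd hij (by decide)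
      | exact (Q_comm _ _).trans (hone 0)
      | exact (Q_comm _ _).trans (hone 1)
      | exact (Q_comm _ _).trans (hone 2)
      | exact h1
      | exact hi 0
      | exact hi 1
      | exact hi 2
      | exact nd_coord_coord H (i := 1) (j := 0) (by decide)
      | exact nd_coord_coord H (i := 2) (j := 0) (by decide)
      | exact nd_coord_coord H (i := 2) (j := 1) (by decide)
  have hoff' : ∀ i j, j ≠ i → Q F (b j) (b i) = 0 := by
    intro i j hij
    rcases lt_or_gt_of_ne hij with h | h
    · rw [Q_comm]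
      exact hoff j i h
    · exact hoff i j h
  obtain ⟨c, hc, hc'⟩ := H.index b hbs
  have hS : ContDiff ℝ ∞ (fun y => ∑ i, c i * b i y) :=
    ContDiff.sum fun i _ => contDiff_const.mul (hbs i)
  have e1 : Q F (fun y => ∑ i, c i * b i y) (fun y => ∑ i, c i * b i y) =
      ∑ i, c i * (c i * Q F (b i) (b i)) := by
    rw [nd_sum H Finset.univ c b hbs hS]
    refine Finset.sum_congr rfl fun i _ => ?_
    rw [Q_comm (b i), nd_sum H Finset.univ c b hbs (hbs i), Finset.sum_eq_single i]
    · intro j _ hji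
      rw [hoff' i j hji, mul_zero]
    · intro h
      exact absurd (Finset.mem_univ i) h
  rw [e1] at hc'
  obtain ⟨i0, hi0⟩ := Function.ne_iff.1 hc
  have hi0' : c i0 ≠ 0 := hi0
  have hlt : ∑ i, c i * (c i * Q F (b i) (b i)) < 0 := by
    refine Finset.sum_neg' (fun i _ => ?_) ⟨i0, Finset.mem_univ _, ?_⟩
    · rw [← mul_assoc]
      exact mul_nonpos_of_nonneg_of_nonpos (mul_self_nonneg _) (hdiag i).le
    · rw [← mul_assoc]
      exact mul_neg_of_pos_of_neg (mul_self_pos.2 hi0') (hdiag i0)
  linarith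

theorem Q_ge (H : Hyp F) (hf : ContDiff ℝ ∞ f) (he : ∀ l, Par l 1 f) :
    Q F f (fun _ => 1) ^ 2 / Q F (fun _ => 1) (fun _ => 1) ≤ Q F f f := by
  have h11 := Q_one_neg H
  obtain ⟨t, ht⟩ : ∃ t : ℝ, t = -(Q F f (fun _ => 1) / Q F (fun _ => 1) (fun _ => 1)) :=
    ⟨_, rfl⟩
  have hone : ContDiff ℝ ∞ (fun _ : E => (1 : ℝ)) := contDiff_const
  have hs : ContDiff ℝ ∞ (fun y => f y + t * (fun _ : E => (1 : ℝ)) y) :=
    hf.add (contDiff_const.mul hone)
  have e1 : Q F (fun y => f y + t * (fun _ : E => (1 : ℝ)) y) (fun _ => 1) = 0 := by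
    rw [Q_add_left H.fb hf (contDiff_const.mul hone) hone, Q_const_mul_left H.fb t hone hone, ht,
      neg_mul, div_mul_cancel₀ _ h11.ne, add_neg_cancel]
  have e2 := Q_nonneg H hs e1 fun i => nd_even_coord H hs i
    (par_add i (he i) (par_const_mul i t (par_const i 1)))
  rw [Q_line H.fb t hf hone, ht] at e2
  have e3 : Q F f f + 2 * -(Q F f (fun _ => 1) / Q F (fun _ => 1) (fun _ => 1)) *
      Q F f (fun _ => 1) + (-(Q F f (fun _ => 1) / Q F (fun _ => 1) (fun _ => 1))) ^ 2 *
      Q F (fun _ => 1) (fun _ => 1) =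
      Q F f f - Q F f (fun _ => 1) ^ 2 / Q F (fun _ => 1) (fun _ => 1) := by
    have h11' := h11.ne
    generalize Q F f (fun _ => 1) = u at *
    generalize Q F (fun _ => 1) (fun _ => 1) = v at *
    field_simp
    ring
  rw [e3] at e2
  linarith

theorem Q_odd_odd (H : Hyp F) (hf : ContDiff ℝ ∞ f) {a b : Fin 3} (hab : a ≠ b) (ha : Par a (-1) f)
    (hb : Par b (-1) f) : 0 ≤ Q F f f := by
  refine Q_nonneg H hf ?_ fun i => ?_
  · exact Q_par H.fb (l := a) (H.even a) (s := -1) (by norm_num) hf contDiff_const ha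
      (by rw [neg_neg]; exact par_const a 1)
  · by_cases h : i = a
    · have hib : i ≠ b := fun e => hab (h.symm.trans e)
      exact Q_par H.fb (l := b) (H.even b) (s := -1) (by norm_num) hf (contDiff_coord i) hb
        (by rw [neg_neg]; exact nd_par_coord_ne hib)
    · exact Q_par H.fb (l := a) (H.even a) (s := -1) (by norm_num) hf (contDiff_coord i) ha
        (by rw [neg_neg]; exact nd_par_coord_ne h)

end Pool.Agent.Helper78.FB
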