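import Pool.Agent.Helper94.FB.Jac
import Pool.Agent.Helper94.FB.Green
import Pool.Agent.Helper94.FB.SymInt

/-!
# FB-17 QForm: the second variation form

* `Q_comm`: `tang_comm`. `Q_add_left`, `Q_const_mul_left`: `pd_add`, `pd_const_mul` (the arguments are smooth, so all integrands are continuous: `contDiff_tang`, `contDiff_normA`), `area_add`, `len_add`,
  `area_const_mul`, `len_const_mul`. `Q_line`: expand with these and `Q_comm`.
* `Q_green`: `green` (with `f := f`, `g := w`) gives `area F (tang F f w) = len F (w * nd f) - area F (w * lap F f)`; combine the integrals (`area_add`, `len_sub`).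
* `Q_one`: `Q_green` with `f = 1` (`lap = 0`, `nd = 0`); `Q_coord`: `lap_coord`, `nd_coord`; `Q_uu`: `lap_uu`, `nd_uu`, `orth`; `Q_pd`: `lap_pd`, `nd_pd` (`area_congr`, `len_congr`).
* `Q_par`: the integrands are odd under `refl l` (`par_tang`, `par_normA`, `par_mul`), `area_odd`, `len_odd`.
-/

set_option autoImplicit false

open MeasureTheory Filter
open scoped ContDiff Topology

namespace Pool.Agent.Helper78.FB

variable {F f g w : E → ℝ}

private theorem cont_int (h : FBMS F) (hf : ContDiff ℝ ∞ f) (hw : ContDiff ℝ ∞ w) :
    Continuous fun y => tang F f w y - normA F y * (f y * w y) :=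
  ((contDiff_tang h.smooth hf hw).sub ((contDiff_normA h.smooth).mul (hf.mul hw))).continuous

private theorem area_zero : area F (fun _ => 0) = 0 := by simp [area]

private theorem len_zero : len F (fun _ => 0) = 0 := by simp [len]

theorem Q_comm (f g : E → ℝ) : Q F f g = Q F g f := by
  unfold Q
  congr 1
  · congr 1
    funext y
    rw [tang_comm, mul_comm (f y)]
  · congr 1
    funext y
    rw [mul_comm]

theorem Q_add_left (h : FBMS F) (hf : ContDiff ℝ ∞ f) (hg : ContDiff ℝ ∞ g) (hw : ContDiff ℝ ∞ w) :
    Q F (fun y => f y + g y) w = Q F f w + Q F g w := by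
  unfold Q
  have e1 : (fun y => tang F (fun y => f y + g y) w y - normA F y * ((f y + g y) * w y)) =
      fun y => (tang F f w y - normA F y * (f y * w y)) +
        (tang F g w y - normA F y * (g y * w y)) := by
    funext y
    have h1 : tang F (fun y => f y + g y) w y = tang F f w y + tang F g w y := by
      unfold tang
      simp only [pd_add _ hf hg, add_mul, mul_add, Finset.sum_add_distrib]
      ring
    rw [h1]
    ring
  have e2 : (fun y => (f y + g y) * w y) = fun y => f y * w y + g y * w y := by
    funext y
    ring
  rw [e1, e2, area_add h (cont_int h hf hw).continuousOn (cont_int h hg hw).continuousOn,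
    len_add h (hf.mul hw).continuous.continuousOn (hg.mul hw).continuous.continuousOn]
  ring

theorem Q_const_mul_left (h : FBMS F) (c : ℝ) (hf : ContDiff ℝ ∞ f) (hw : ContDiff ℝ ∞ w) :
    Q F (fun y => c * f y) w = c * Q F f w := by
  unfold Q
  have e1 : (fun y => tang F (fun y => c * f y) w y - normA F y * (c * f y * w y)) =
      fun y => c * (tang F f w y - normA F y * (f y * w y)) := by
    funext y
    have h1 : tang F (fun y => c * f y) w y = c * tang F f w y := by
      unfold tang
      simp only [pd_const_mul _ c hf, Fin.sum_univ_three]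
      ring
    rw [h1]
    ring
  have e2 : (fun y => c * f y * w y) = fun y => c * (f y * w y) := by
    funext y
    ring
  rw [e1, e2, area_const_mul, len_const_mul]
  ring

theorem Q_line (h : FBMS F) (t : ℝ) (hf : ContDiff ℝ ∞ f) (hg : ContDiff ℝ ∞ g) :
    Q F (fun y => f y + t * g y) (fun y => f y + t * g y) = Q F f f + 2 * t * Q F f g + t ^ 2 * Q F g g := by
  have hw : ContDiff ℝ ∞ fun y => f y + t * g y := hf.add (contDiff_const.mul hg)
  have htg : ContDiff ℝ ∞ fun y => t * g y := contDiff_const.mul hg
  have key : ∀ v : E → ℝ, ContDiff ℝ ∞ v →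
      Q F (fun y => f y + t * g y) v = Q F f v + t * Q F g v := by
    intro v hv
    rw [Q_add_left h hf htg hv, Q_const_mul_left h t hg hv]
  rw [key _ hw, Q_comm f, Q_comm g, key _ hf, key _ hg, Q_comm g f]
  ring

theorem Q_green (h : FBMS F) (hf : ContDiff ℝ ∞ f) (hw : ContDiff ℝ ∞ w) :
    Q F f w = -area F (fun y => w y * (lap F f y + normA F y * f y)) + len F (fun y => w y * (nd f y - f y)) := by
  have h1 := green h hf hw
  have c1 : Continuous fun y => w y * lap F f y + tang F f w y :=
    ((hw.mul (contDiff_lap h.smooth hf)).add (contDiff_tang h.smooth hf hw)).continuous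
  have c2 : Continuous fun y => w y * (lap F f y + normA F y * f y) :=
    (hw.mul ((contDiff_lap h.smooth hf).add ((contDiff_normA h.smooth).mul hf))).continuous
  have e1 : (fun y => tang F f w y - normA F y * (f y * w y)) = fun y =>
      (w y * lap F f y + tang F f w y) - w y * (lap F f y + normA F y * f y) := by
    funext y
    ring
  have e2 : (fun y => w y * (nd f y - f y)) = fun y => w y * nd f y - f y * w y := by
    funext y
    ring
  unfold Q
  rw [e1, e2, area_sub h c1.continuousOn c2.continuousOn, h1,
    len_sub h (hw.mul (contDiff_nd hf)).continuous.continuousOn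
      (hf.mul hw).continuous.continuousOn]
  ring

theorem Q_one (h : FBMS F) (hw : ContDiff ℝ ∞ w) :
    Q F (fun _ => 1) w = -area F (fun y => normA F y * w y) - len F w := by
  rw [Q_green h contDiff_const hw]
  have e1 : (fun y => w y * (lap F (fun _ => 1) y + normA F y * 1)) =
      fun y => normA F y * w y := by
    funext y
    have h1 : lap F (fun _ => 1) y = 0 := by
      unfold lap
      simp only [pd_const, mul_zero, Finset.sum_const_zero, sub_zero]
    rw [h1]
    ring
  have e2 : (fun y => w y * (nd (fun _ => 1) y - 1)) = fun y => (-1) * w y := by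
    funext y
    have h1 : nd (fun _ : E => (1 : ℝ)) y = 0 := by
      unfold nd
      simp only [pd_const, mul_zero, Finset.sum_const_zero]
    rw [h1]
    ring
  rw [e1, e2, len_const_mul]
  ring

theorem Q_coord (h : FBMS F) (i : Fin 3) (hw : ContDiff ℝ ∞ w) :
    Q F (fun y => y i) w = -area F (fun y => normA F y * (y i * w y)) := by
  rw [Q_green h (contDiff_coord i) hw]
  have e1 : (fun y => w y * (lap F (fun y => y i) y + normA F y * y i)) =
      fun y => normA F y * (y i * w y) := by
    funext y
    rw [lap_coord i y]
    ring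
  have e2 : (fun y => w y * (nd (fun y => y i) y - y i)) = fun _ => 0 := by
    funext y
    rw [nd_coord i y]
    ring
  rw [e1, e2, len_zero, add_zero]

theorem Q_uu (h : FBMS F) (hw : ContDiff ℝ ∞ w) : Q F (uu F) w = len F (fun y => kap F y * w y) := by
  rw [Q_green h (contDiff_uu h.smooth) hw]
  have e1 : area F (fun y => w y * (lap F (uu F) y + normA F y * uu F y)) = area F fun _ => 0 := by
    refine area_congr (fun y hy => ?_) h
    rw [lap_uu h hy]
    ring
  have e2 : len F (fun y => w y * (nd (uu F) y - uu F y)) = len F fun y => kap F y * w y := by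
    refine len_congr (fun y hy => ?_) h
    rw [nd_uu h hy, orth h hy]
    ring
  rw [e1, e2, area_zero, neg_zero, zero_add]

theorem Q_pd (h : FBMS F) (m : Fin 3) (hw : ContDiff ℝ ∞ w) :
    Q F (pd m F) w = len F (fun y => (kap F y * y m - pd m F y) * w y) := by
  rw [Q_green h (contDiff_pd m h.smooth) hw]
  have e1 : area F (fun y => w y * (lap F (pd m F) y + normA F y * pd m F y)) =
      area F fun _ => 0 := by
    refine area_congr (fun y hy => ?_) h
    rw [lap_pd h hy m]
    ring
  have e2 : len F (fun y => w y * (nd (pd m F) y - pd m F y)) =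
      len F fun y => (kap F y * y m - pd m F y) * w y := by
    refine len_congr (fun y hy => ?_) h
    rw [nd_pd h hy m]
    ring
  rw [e1, e2, area_zero, neg_zero, zero_add]

theorem Q_par (h : FBMS F) {l : Fin 3} (he : Par l 1 F) {s : ℝ} (hs : s * s = 1) (hf : ContDiff ℝ ∞ f)
    (hg : ContDiff ℝ ∞ g) (hfl : Par l s f) (hgl : Par l (-s) g) : Q F f g = 0 := by
  have hs' : -s * -s = 1 := by rw [neg_mul_neg, hs]
  unfold Q
  have h1 : Par l (-1) fun y => tang F f g y - normA F y * (f y * g y) := by
    intro y
    have a1 := par_tang l h.smooth he hs hs' hf hg hfl hgl y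
    have a2 := par_normA l h.smooth he y
    show tang F f g (refl l y) - normA F (refl l y) * (f (refl l y) * g (refl l y)) =
      -1 * (tang F f g y - normA F y * (f y * g y))
    rw [a1, a2, hfl y, hgl y]
    linear_combination (-(tang F f g y - normA F y * (f y * g y))) * hs
  have h2 : Par l (-1) fun y => f y * g y := by
    intro y
    show f (refl l y) * g (refl l y) = -1 * (f y * g y)
    rw [hfl y, hgl y]
    linear_combination (-(f y * g y)) * hs
  rw [area_odd l he h1, len_odd l he h2, sub_zero]

end Pool.Agent.Helper78.FB
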