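import Pool.Agent.Helper94.FB.BarLemma

/-!
# FB-29 SMP: strong maximum principle

* `zero_open`: `ρ` from `bar_lemma`; choose `0 < r ≤ ρ` with `closedBall z (2 r) ⊆ D` (`D` open). If `y ∈ surf F ∩ ball z r` and `v y > 0`, then `closedBall y r ⊆ D` and `z ∈ ball y r`, so `v z > 0` (`bar_lemma`), a contradiction. So `v y = 0`
  (`S.nonneg`).
* `pos_or_zero`: `C` preconnected in `surf F ∩ D`. The set `{y ∈ C | v y = 0}` is open in `C` (`zero_open`) and `{y ∈ C | 0 < v y}` is open in `C` (continuity of `v` on `surf F`); they are disjoint and cover `C`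
  (`IsPreconnected.subset_or_subset` with the open sets `⋃ ball z (r z)` and `{...}`, or `isPreconnected_iff_subset_of_disjoint`).
-/

set_option autoImplicit false

open MeasureTheory Filter
open scoped ContDiff Topology

namespace Pool.Agent.Helper78.FB

variable {F v : E → ℝ} {D : Set E}

theorem zero_open (h : FBMS F) (S : Super F v D) (hD : IsOpen D) {z : E} (hz : z ∈ surf F) (hzD : z ∈ D)
    (h0 : v z = 0) : ∃ r : ℝ, 0 < r ∧ ∀ y ∈ surf F, y ∈ Metric.ball z r → v y = 0 := by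
  obtain ⟨ρ, hρ, hbar⟩ := bar_lemma h
  obtain ⟨ε, hε, hball⟩ := Metric.isOpen_iff.1 hD z hzD
  have hr : 0 < min ρ (ε / 3) := lt_min hρ (by linarith)
  refine ⟨min ρ (ε / 3), hr, fun y hy hyz => ?_⟩
  by_contra hne
  have hpos : 0 < v y := lt_of_le_of_ne (S.nonneg y hy) (Ne.symm hne)
  have hsub : Metric.closedBall y (min ρ (ε / 3)) ⊆ D := by
    intro x hx
    apply hball
    rw [Metric.mem_ball] at hyz ⊢
    rw [Metric.mem_closedBall] at hx
    have h1 := dist_triangle x y z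
    have h2 := min_le_right ρ (ε / 3)
    linarith
  have h3 := hbar v D S y hy _ hr (min_le_left _ _) hsub hpos z hz (by rwa [Metric.mem_ball, dist_comm])
  linarith

theorem pos_or_zero (h : FBMS F) (S : Super F v D) (hD : IsOpen D) {C : Set E} (hC : IsPreconnected C)
    (hCs : C ⊆ surf F) (hCD : C ⊆ D) : (∀ y ∈ C, v y = 0) ∨ ∀ y ∈ C, 0 < v y := by
  obtain ⟨U2, hU2o, hU2⟩ := continuousOn_iff'.1 S.cont (Set.Ioi 0) isOpen_Ioi
  have hU2m : ∀ y ∈ surf F, (y ∈ U2 ↔ 0 < v y) := by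
    intro y hy
    constructor
    · intro h1
      have h2 : y ∈ v ⁻¹' Set.Ioi 0 ∩ surf F := by
        rw [hU2]
        exact ⟨h1, hy⟩
      exact h2.1
    · intro h1
      have h2 : y ∈ U2 ∩ surf F := by
        rw [← hU2]
        exact ⟨h1, hy⟩
      exact h2.1
  by_contra hcon
  push Not at hcon
  obtain ⟨⟨y2, hy2, hv2⟩, ⟨y1, hy1, hv1⟩⟩ := hcon
  have hv1' : v y1 = 0 := le_antisymm hv1 (S.nonneg y1 (hCs hy1))
  have hv2' : 0 < v y2 := lt_of_le_of_ne (S.nonneg y2 (hCs hy2)) (Ne.symm hv2)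
  choose r hr0 hr using fun (z : {z : E // z ∈ C ∧ v z = 0}) => zero_open h S hD (hCs z.2.1) (hCD z.2.1) z.2.2
  have hU1o : IsOpen (⋃ z : {z : E // z ∈ C ∧ v z = 0}, Metric.ball z.1 (r z)) :=
    isOpen_iUnion fun z => Metric.isOpen_ball
  obtain ⟨x, hxC, hx1, hx2⟩ := hC _ U2 hU1o hU2o (fun y hy => by
      rcases eq_or_lt_of_le (S.nonneg y (hCs hy)) with h1 | h1
      · left
        exact Set.mem_iUnion.2 ⟨⟨y, hy, h1.symm⟩, Metric.mem_ball_self (hr0 _)⟩
      · right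
        exact (hU2m y (hCs hy)).2 h1)
    ⟨y1, hy1, Set.mem_iUnion.2 ⟨⟨y1, hy1, hv1'⟩, Metric.mem_ball_self (hr0 _)⟩⟩
    ⟨y2, hy2, (hU2m y2 (hCs hy2)).2 hv2'⟩
  obtain ⟨z, hz⟩ := Set.mem_iUnion.1 hx1
  have h1 := hr z x (hCs hxC) hz
  have h2 := (hU2m x (hCs hxC)).1 hx2
  linarith

end Pool.Agent.Helper78.FB
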