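import Pool.Agent.Helper94.FB.Jac
import Pool.Agent.Helper78.FB.Straight

/-!
# FB-21 SignNear: near a boundary point with `kap < 0` the support function is positive on the surface

`a = ∇F(p)`, `c = a × p`; `straighten` at `p` with `g_0 = F`, `g_1 = ∑ k, y_k ^ 2`, `g_2 = ∑ k, c_k y_k` (the gradients `a, 2 p, c`; the determinant is a nonzero multiple of `|a × p| ^ 2 = 1`, `det_cross`, `grad_sq`, `orth`).
Let `e` be the local homeomorphism, `e p = (0, 1, t0)`. For `(r, t)` near `(1, t0)` put `γ(r, t) = e.symm (0, r, t)` and `φ(r, t) = uu F (γ(r, t))`, a `C^1` function. `φ(1, t) = 0` (`γ(1, t) ∈ bdry F`, `orth`).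
`∂_r φ(1, t) = kap F / 2 < 0`: the vector `V = ∂_r γ` satisfies `∇F · V = 0`, `2 y · V = 1` (differentiate `F (γ) = 0`, `|γ| ^ 2 = r`) so `V = y / 2 + τ T` in the frame `y, N, T` (`frame`), and `∇ uu · V = nd (uu F) / 2 + τ ∑ T_k pd k (uu F)
= kap / 2` (`nd_uu`, `crs_tangent` with `orth`). As `∂_r φ` is continuous, it is negative on a neighbourhood of `(1, t0)`, so `φ(r, t) > 0` for `r < 1` in a (convex) neighbourhood; this neighbourhood pulled back by `e` contains a ball `ball p ε`.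
For `y ∈ inn F ∩ ball p ε`: `e y = (0, r, t)` with `r = ‖y‖ ^ 2 < 1`. The second statement: continuity of `kap F`.
Alternative without `e.symm`: for `z ∈ inn F` near `p` the segment argument along the curve `r ↦ e.symm (0, r, t)` is exactly this one.
-/

set_option autoImplicit false

open MeasureTheory Filter
open scoped ContDiff Topology

namespace Pool.Agent.Helper78.FB

variable {F : E → ℝ}

private theorem sn_pd_sqs (j : Fin 3) (p : E) : pd j (fun y : E => ∑ k, y k * y k) p = 2 * p j := by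
  rw [pd_sum j Finset.univ (fun k (y : E) => y k * y k)
    (fun k _ => (contDiff_coord k).mul (contDiff_coord k))]
  have h1 : ∀ k : Fin 3, pd j (fun y : E => y k * y k) p
      = (if j = k then 1 else 0) * p k + p k * (if j = k then 1 else 0) := by
    intro k
    rw [pd_mul j (contDiff_coord k) (contDiff_coord k), pd_coord j k]
  show ∑ k, pd j (fun y : E => y k * y k) p = 2 * p j
  rw [Finset.sum_congr rfl fun k _ => h1 k, Finset.sum_add_distrib]
  simp only [ite_mul, one_mul, zero_mul, mul_ite, mul_one, mul_zero, Finset.sum_ite_eq,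
    Finset.mem_univ, if_true]
  ring

private theorem sn_pd_lin (c : Fin 3 → ℝ) (j : Fin 3) (p : E) :
    pd j (fun y : E => ∑ k, c k * y k) p = c j := by
  rw [pd_sum j Finset.univ (fun k (y : E) => c k * y k)
    (fun k _ => contDiff_const.mul (contDiff_coord k))]
  have h1 : ∀ k : Fin 3, pd j (fun y : E => c k * y k) p = c k * (if j = k then 1 else 0) := by
    intro k
    rw [pd_const_mul j (c k) (contDiff_coord k), pd_coord j k]
  show ∑ k, pd j (fun y : E => c k * y k) p = c j
  rw [Finset.sum_congr rfl fun k _ => h1 k]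
  simp only [mul_ite, mul_one, mul_zero, Finset.sum_ite_eq, Finset.mem_univ, if_true]

/-- the components of `c × ∇F` -/
private noncomputable def snW (F : E → ℝ) (c : Fin 3 → ℝ) (y : E) : Fin 3 → ℝ :=
  ![c 1 * pd 2 F y - c 2 * pd 1 F y, c 2 * pd 0 F y - c 0 * pd 2 F y, c 0 * pd 1 F y - c 1 * pd 0 F y]

private theorem snW_cont (h : FBMS F) (c : Fin 3 → ℝ) (i : Fin 3) : Continuous fun y => snW F c y i := by
  have hp : ∀ k, Continuous (pd k F) := fun k => (contDiff_pd k h.smooth).continuous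
  fin_cases i
  · exact (continuous_const.mul (hp 2)).sub (continuous_const.mul (hp 1))
  · exact (continuous_const.mul (hp 0)).sub (continuous_const.mul (hp 2))
  · exact (continuous_const.mul (hp 1)).sub (continuous_const.mul (hp 0))

/-- the open set on which everything is monotone -/
private theorem sn_open (h : FBMS F) (c : Fin 3 → ℝ) :
    IsOpen {y : E | 0 < ∑ k, 2 * y k * snW F c y k ∧ ∑ k, snW F c y k * pd k (uu F) y < 0} := by
  have hW := snW_cont h c
  have c1 : Continuous fun y : E => ∑ k, 2 * y k * snW F c y k :=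
    continuous_finsetSum _ fun k _ => (continuous_const.mul (contDiff_coord k).continuous).mul (hW k)
  have c2 : Continuous fun y : E => ∑ k, snW F c y k * pd k (uu F) y :=
    continuous_finsetSum _ fun k _ => (hW k).mul (contDiff_pd k (contDiff_uu h.smooth)).continuous
  exact (isOpen_lt continuous_const c1).inter (isOpen_lt c2 continuous_const)

private theorem sn_dec {F : E → ℝ} (c : Fin 3 → ℝ) (y : E) (v q : Fin 3 → ℝ)
    (h0 : ∑ k, v k * pd k F y = 0) (h1 : ∑ k, v k * (2 * y k) = 1) (h2 : ∑ k, v k * c k = 0)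
    (hD : 0 < ∑ k, 2 * y k * snW F c y k) (hG : ∑ k, snW F c y k * q k < 0) : ∑ k, v k * q k < 0 := by
  have e : (∑ k, 2 * y k * snW F c y k) * (∑ k, v k * q k) = ∑ k, snW F c y k * q k := by
    simp only [snW, Fin.sum_univ_three, Matrix.cons_val_zero, Matrix.cons_val_one, Matrix.cons_val] at *
    linear_combination ((2 * y 1 * c 2 - 2 * y 2 * c 1) * q 0 + (2 * y 2 * c 0 - 2 * y 0 * c 2) * q 1 +
        (2 * y 0 * c 1 - 2 * y 1 * c 0) * q 2) * h0 +
      ((c 1 * pd 2 F y - c 2 * pd 1 F y) * q 0 + (c 2 * pd 0 F y - c 0 * pd 2 F y) * q 1 +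
        (c 0 * pd 1 F y - c 1 * pd 0 F y) * q 2) * h1 +
      ((pd 1 F y * (2 * y 2) - pd 2 F y * (2 * y 1)) * q 0 + (pd 2 F y * (2 * y 0) - pd 0 F y * (2 * y 2)) * q 1 +
        (pd 0 F y * (2 * y 1) - pd 1 F y * (2 * y 0)) * q 2) * h2
  by_contra hn
  have h3 := mul_nonneg hD.le (not_lt.1 hn)
  rw [e] at h3
  linarith

theorem sign_near (h : FBMS F) {p : E} (hp : p ∈ bdry F) (hk : kap F p < 0) :
    ∃ ε : ℝ, 0 < ε ∧ (∀ y ∈ inn F, y ∈ Metric.ball p ε → 0 < uu F y) ∧
      ∀ y ∈ bdry F, y ∈ Metric.ball p ε → kap F y < 0 := by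
  have hps : p ∈ surf F := ⟨hp.1.le, hp.2⟩
  have hgs := grad_sq h hps
  have hup := orth h hp
  have hnd := nd_uu h hp
  have hpn : ∑ k, p k ^ 2 = 1 := by
    rw [← norm_sq, hp.1, one_pow]
  set a : Fin 3 → ℝ := fun i => pd i F p with ha
  set b : Fin 3 → ℝ := fun i => 2 * p i with hb
  set c : Fin 3 → ℝ := ![a 1 * b 2 - a 2 * b 1, a 2 * b 0 - a 0 * b 2, a 0 * b 1 - a 1 * b 0]
    with hc
  have hW : ∀ k, snW F c p k = 2 * p k := by
    have g1 : a 0 ^ 2 + a 1 ^ 2 + a 2 ^ 2 = 1 := by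
      rw [← hgs, Fin.sum_univ_three]
    have g2 : p 0 * a 0 + p 1 * a 1 + p 2 * a 2 = 0 := by
      rw [← hup, uu, Fin.sum_univ_three]
    intro k
    fin_cases k
    · show c 1 * a 2 - c 2 * a 1 = 2 * p 0
      show (a 2 * b 0 - a 0 * b 2) * a 2 - (a 0 * b 1 - a 1 * b 0) * a 1 = 2 * p 0
      simp only [hb]
      linear_combination 2 * p 0 * g1 - 2 * a 0 * g2
    · show c 2 * a 0 - c 0 * a 2 = 2 * p 1
      show (a 0 * b 1 - a 1 * b 0) * a 0 - (a 1 * b 2 - a 2 * b 1) * a 2 = 2 * p 1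
      simp only [hb]
      linear_combination 2 * p 1 * g1 - 2 * a 1 * g2
    · show c 0 * a 1 - c 1 * a 0 = 2 * p 2
      show (a 1 * b 2 - a 2 * b 1) * a 1 - (a 2 * b 0 - a 0 * b 2) * a 0 = 2 * p 2
      simp only [hb]
      linear_combination 2 * p 2 * g1 - 2 * a 2 * g2
  have hdet : (Matrix.of ![a, b, c]).det ≠ 0 := by
    rw [hc, det_cross]
    have h1 : ∑ i, a i ^ 2 = 1 := hgs
    have h2 : ∑ i, b i ^ 2 = 4 := by
      have h3 : ∑ i, b i ^ 2 = 4 * ∑ k, p k ^ 2 := by
        rw [Finset.mul_sum]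
        refine Finset.sum_congr rfl fun k _ => ?_
        rw [hb]
        ring
      rw [h3, hpn, mul_one]
    have h4 : ∑ i, a i * b i = 0 := by
      have h5 : ∑ i, a i * b i = 2 * uu F p := by
        rw [uu, Finset.mul_sum]
        refine Finset.sum_congr rfl fun k _ => ?_
        rw [ha, hb]
        ring
      rw [h5, hup, mul_zero]
    rw [h1, h2, h4]
    norm_num
  let g : Fin 3 → E → ℝ := ![F, fun y => ∑ k, y k * y k, fun y => ∑ k, c k * y k]
  have hg : ∀ i, ContDiff ℝ ∞ (g i) := by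
    intro i
    fin_cases i
    · exact h.smooth
    · show ContDiff ℝ ∞ (fun y : E => ∑ k, y k * y k)
      exact ContDiff.sum fun k _ => (contDiff_coord k).mul (contDiff_coord k)
    · show ContDiff ℝ ∞ (fun y : E => ∑ k, c k * y k)
      exact ContDiff.sum fun k _ => contDiff_const.mul (contDiff_coord k)
  have hmat : (Matrix.of fun i j : Fin 3 => pd j (g i) p) = Matrix.of ![a, b, c] := by
    ext i j
    fin_cases i
    · rfl
    · exact sn_pd_sqs j p
    · exact sn_pd_lin c j p
  obtain ⟨e, hpe, heg, hes⟩ := straighten g hg p (by rw [hmat]; exact hdet)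
  -- the good open set
  set U : Set E := {y : E | 0 < ∑ k, 2 * y k * snW F c y k ∧ ∑ k, snW F c y k * pd k (uu F) y < 0}
    with hU
  have hUo : IsOpen U := sn_open h c
  have hpU : p ∈ U := by
    constructor
    · have h1 : ∑ k, 2 * p k * snW F c p k = 4 := by
        calc ∑ k, 2 * p k * snW F c p k = ∑ k, 4 * p k ^ 2 :=
              Finset.sum_congr rfl fun k _ => by rw [hW]; ring
          _ = 4 := by rw [← Finset.mul_sum, hpn, mul_one]
      rw [h1]
      norm_num
    · have h1 : ∑ k, snW F c p k * pd k (uu F) p = 2 * kap F p := by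
        rw [← hnd, nd, Finset.mul_sum]
        exact Finset.sum_congr rfl fun k _ => by rw [hW]; ring
      rw [h1]
      linarith
  have hOo : IsOpen (e.target ∩ e.symm ⁻¹' U) := e.symm.isOpen_inter_preimage hUo
  have hpO : e p ∈ e.target ∩ e.symm ⁻¹' U := by
    refine ⟨e.map_source hpe, ?_⟩
    show e.symm (e p) ∈ U
    rw [e.left_inv hpe]
    exact hpU
  obtain ⟨δ, hδ, hball⟩ := Metric.isOpen_iff.1 hOo _ hpO
  have hNo : IsOpen (e.source ∩ e ⁻¹' Metric.ball (e p) δ) := e.isOpen_inter_preimage Metric.isOpen_ball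
  have hpN : p ∈ e.source ∩ e ⁻¹' Metric.ball (e p) δ := by
    refine ⟨hpe, ?_⟩
    show e p ∈ Metric.ball (e p) δ
    exact Metric.mem_ball_self hδ
  obtain ⟨ε1, hε1, hb1⟩ := Metric.isOpen_iff.1 hNo p hpN
  have hKo : IsOpen {y : E | kap F y < 0} := isOpen_lt (contDiff_kap h.smooth).continuous continuous_const
  obtain ⟨ε2, hε2, hb2⟩ := Metric.isOpen_iff.1 hKo p hk
  refine ⟨min ε1 ε2, lt_min hε1 hε2, fun y hy hyb => ?_, fun y _ hyb =>
    hb2 (Metric.ball_subset_ball (min_le_right _ _) hyb)⟩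
  obtain ⟨hye, hyδ⟩ := hb1 (Metric.ball_subset_ball (min_le_left _ _) hyb)
  have hyδ' : e y ∈ Metric.ball (e p) δ := hyδ
  have hy0 : e y 0 = 0 := by
    rw [heg y hye 0]
    exact hy.2
  have hp0 : e p 0 = 0 := by
    rw [heg p hpe 0]
    exact hp.2
  have hp1 : e p 1 = 1 := by
    rw [heg p hpe 1, ← hpn]
    show ∑ k, p k * p k = ∑ k, p k ^ 2
    exact Finset.sum_congr rfl fun k _ => (sq (p k)).symm
  set r : ℝ := e y 1 with hr
  have hr2 : r = ‖y‖ ^ 2 := by
    rw [hr, heg y hye 1, norm_sq]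
    show ∑ k, y k * y k = ∑ k, y k ^ 2
    exact Finset.sum_congr rfl fun k _ => (sq (y k)).symm
  have hr1 : r < 1 := by
    rw [hr2]
    have h1 := norm_nonneg y
    have h2 := hy.1
    nlinarith
  let x : ℝ → E := fun s => e y + (s - r) • EuclideanSpace.single 1 (1 : ℝ)
  have hx0 : ∀ s, x s 0 = 0 := by
    intro s
    show (e y + (s - r) • EuclideanSpace.single 1 (1 : ℝ) : E) 0 = 0
    simp [hy0]
  have hx1 : ∀ s, x s 1 = s := by
    intro s
    show (e y + (s - r) • EuclideanSpace.single 1 (1 : ℝ) : E) 1 = s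
    simp [← hr]
  have hx2 : ∀ s, x s 2 = e y 2 := by
    intro s
    show (e y + (s - r) • EuclideanSpace.single 1 (1 : ℝ) : E) 2 = e y 2
    simp
  have hxr : x r = e y := by
    show e y + (r - r) • EuclideanSpace.single 1 (1 : ℝ) = e y
    rw [sub_self, zero_smul, add_zero]
  have hxd : ∀ s, HasDerivAt x (EuclideanSpace.single 1 (1 : ℝ) : E) s := by
    intro s
    have h1 : HasDerivAt (fun s : ℝ => s - r) 1 s := (hasDerivAt_id s).sub_const r
    have h2 := (h1.smul_const (EuclideanSpace.single 1 (1 : ℝ) : E)).const_add (e y)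
    rw [one_smul] at h2
    exact h2
  have hxO : ∀ s ∈ Set.Icc r 1, x s ∈ e.target ∧ e.symm (x s) ∈ U := by
    intro s hs
    have h1 : x s ∈ Metric.ball (e p) δ := by
      rw [Metric.mem_ball, dist_eq_norm] at hyδ' ⊢
      refine lt_of_le_of_lt ?_ hyδ'
      rw [← sq_le_sq₀ (norm_nonneg _) (norm_nonneg _), norm_sq, norm_sq, Fin.sum_univ_three,
        Fin.sum_univ_three]
      have e0 : (x s - e p) 0 = 0 := by
        show x s 0 - e p 0 = 0
        rw [hx0, hp0, sub_zero]
      have e1 : (x s - e p) 1 = s - 1 := by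
        show x s 1 - e p 1 = s - 1
        rw [hx1, hp1]
      have e2 : (x s - e p) 2 = e y 2 - e p 2 := by
        show x s 2 - e p 2 = _
        rw [hx2]
      have f0 : (e y - e p) 0 = 0 := by
        show e y 0 - e p 0 = 0
        rw [hy0, hp0, sub_zero]
      have f1 : (e y - e p) 1 = r - 1 := by
        show e y 1 - e p 1 = r - 1
        rw [hp1]
      have f2 : (e y - e p) 2 = e y 2 - e p 2 := rfl
      rw [e0, e1, e2, f0, f1, f2]
      nlinarith [hs.1, hs.2]
    exact hball h1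
  let γ : ℝ → E := fun s => e.symm (x s)
  have hγd : ∀ s ∈ Set.Icc r 1, HasDerivAt γ (fderiv ℝ e.symm (x s) (EuclideanSpace.single 1 (1 : ℝ))) s := by
    intro s hs
    have h1 : HasFDerivAt e.symm (fderiv ℝ e.symm (x s)) (x s) :=
      ((hes _ (hxO s hs).1).differentiableAt (by simp)).hasFDerivAt
    exact h1.comp_hasDerivAt s (hxd s)
  have hlin : ∀ s ∈ Set.Icc r 1, ∀ i : Fin 3,
      ∑ k, (fderiv ℝ e.symm (x s) (EuclideanSpace.single 1 (1 : ℝ))) k * pd k (g i) (γ s) =
        (EuclideanSpace.single 1 (1 : ℝ) : E) i := by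
    intro s hs i
    have h1 := hasDerivAt_comp (hg i) γ _ s (hγd s hs)
    have h2 : HasDerivAt (fun s => x s i) ((EuclideanSpace.single 1 (1 : ℝ) : E) i) s :=
      (EuclideanSpace.proj i : E →L[ℝ] ℝ).hasFDerivAt.comp_hasDerivAt s (hxd s)
    have h3 : (fun s => g i (γ s)) =ᶠ[𝓝 s] fun s => x s i := by
      have h4 : ∀ᶠ s' in 𝓝 s, x s' ∈ e.target :=
        (hxd s).continuousAt.eventually (e.open_target.mem_nhds (hxO s hs).1)
      filter_upwards [h4] with s' hs'
      rw [← heg _ (e.map_target hs') i, e.right_inv hs']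
    exact h1.unique (h2.congr_of_eventuallyEq h3)
  have hψd : ∀ s ∈ Set.Icc r 1, HasDerivAt (fun s => uu F (γ s))
      (∑ k, (fderiv ℝ e.symm (x s) (EuclideanSpace.single 1 (1 : ℝ))) k * pd k (uu F) (γ s)) s :=
    fun s hs => hasDerivAt_comp (contDiff_uu h.smooth) γ _ s (hγd s hs)
  have hψneg : ∀ s ∈ Set.Icc r 1,
      ∑ k, (fderiv ℝ e.symm (x s) (EuclideanSpace.single 1 (1 : ℝ))) k * pd k (uu F) (γ s) < 0 := by
    intro s hs
    have hU1 := (hxO s hs).2
    refine sn_dec (F := F) c (γ s) _ (fun k => pd k (uu F) (γ s)) ?_ ?_ ?_ hU1.1 hU1.2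
    · have h1 := hlin s hs 0
      have h2 : (EuclideanSpace.single 1 (1 : ℝ) : E) 0 = 0 := by simp
      rw [h2] at h1
      exact h1
    · have h1 := hlin s hs 1
      have h2 : (EuclideanSpace.single 1 (1 : ℝ) : E) 1 = 1 := by simp
      rw [h2] at h1
      refine Eq.trans ?_ h1
      exact Finset.sum_congr rfl fun k _ => by
        rw [show pd k (g 1) (γ s) = 2 * γ s k from sn_pd_sqs k (γ s)]
    · have h1 := hlin s hs 2
      have h2 : (EuclideanSpace.single 1 (1 : ℝ) : E) 2 = 0 := by simp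
      rw [h2] at h1
      refine Eq.trans ?_ h1
      exact Finset.sum_congr rfl fun k _ => by
        rw [show pd k (g 2) (γ s) = c k from sn_pd_lin c k (γ s)]
  have hanti : StrictAntiOn (fun s => uu F (γ s)) (Set.Icc r 1) := by
    refine strictAntiOn_of_deriv_neg (convex_Icc r 1)
      (fun s hs => (hψd s hs).continuousAt.continuousWithinAt) fun s hs => ?_
    rw [interior_Icc] at hs
    have hs' : s ∈ Set.Icc r 1 := Set.Ioo_subset_Icc_self hs
    rw [(hψd s hs').deriv]
    exact hψneg s hs'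
  have h1 : uu F (γ 1) < uu F (γ r) :=
    hanti (Set.left_mem_Icc.2 hr1.le) (Set.right_mem_Icc.2 hr1.le) hr1
  have h2 : γ r = y := by
    show e.symm (x r) = y
    rw [hxr, e.left_inv hye]
  have h3 : γ 1 ∈ bdry F := by
    have hT := (hxO 1 (Set.right_mem_Icc.2 hr1.le)).1
    have hS : γ 1 ∈ e.source := e.map_target hT
    have hR : e (γ 1) = x 1 := e.right_inv hT
    constructor
    · have h4 : ‖γ 1‖ ^ 2 = 1 := by
        have h5 := heg _ hS 1
        rw [hR, hx1] at h5
        have h6 : g 1 (γ 1) = ∑ k, γ 1 k ^ 2 := by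
          show ∑ k, γ 1 k * γ 1 k = ∑ k, γ 1 k ^ 2
          exact Finset.sum_congr rfl fun k _ => (sq (γ 1 k)).symm
        rw [norm_sq, ← h6]
        exact h5.symm
      have h5 := norm_nonneg (γ 1)
      nlinarith
    · have h5 := heg _ hS 0
      rw [hR, hx0] at h5
      exact h5.symm
  rw [orth h h3, h2] at h1
  exact h1

end Pool.Agent.Helper78.FB
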