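import Pool.Agent.Helper94.FB.NegDef
import Pool.Agent.Helper94.FB.SignNear
import Pool.Agent.Helper94.FB.LimG
import Pool.Agent.Helper94.FB.INeg
import Pool.Agent.Helper94.FB.Bump

/-!
# FB-26 SignU: the support function is nonnegative

`u = uu F`. `ε` from `sign_near`. Suppose `u b < 0` for some `b ∈ surf F`. There is a point `b' ∈ inn F ∩ ball p ε` (`bdry_subset`), `u b' > 0`. So `Im = area (normA max (-u) 0) > 0`, `Ip = area (normA max u 0) > 0` (`i_neg`, `i_pos`).
Put `α = Im`, `β = Ip`, `G_n = gfun α β (1 / (n + 1))`, `om` from `exists_bump p ε`. `F`, `u`, `kap` and `om` are even (`H.even`, `par_uu`, `par_kap`), so with `par_abs`, `norm_abs`: for `y ∈ tsupport om ∩ surf F` the point `y'` is in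
`surf F ∩ ball p ε` and `u y = u y' ≥ 0` (`> 0` if `y' ∈ inn F`, `= 0` if `y' ∈ bdry F`), and for `y ∈ tsupport om ∩ bdry F`: `kap F y = kap F y' < 0`.
(1) `Q u om = len (kap * om) < 0` (`Q_uu`, `len_pos` for `- kap * om`, which is `≥ 0` on `bdry F` and `> 0` at `p`).
(2) `Q (G_n u) om = α Q u om` (`QG_supp`). (3) `Q (G_n u) 1 → - (α Ip - β Im) = 0` (`lim_QG1`). (4) `Q (G_n u) (G_n u) → 0` (`lim_QGG`).
For `t > 0` let `f_n = G_n u + t om` (smooth, even in all variables: `par_comp`, `par_add`, `par_const_mul`). `Q_line`: `Q f_n f_n = Q (G_n u)(G_n u) + 2 t α Q u om + t ^ 2 Q om om → 2 t α Q u om + t ^ 2 Q om om`, and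
`Q f_n 1 = Q (G_n u) 1 + t Q om 1 → t Q om 1`. `Q_ge` and the limit: `t ^ 2 (Q om 1) ^ 2 / Q 1 1 ≤ 2 t α Q u om + t ^ 2 Q om om` for all `t > 0`. Divide by `t` and let `t → 0` (or take one small `t`): `0 ≤ 2 α Q u om < 0`, a contradiction.
-/

set_option autoImplicit false

open MeasureTheory Filter
open scoped ContDiff Topology

namespace Pool.Agent.Helper78.FB

variable {F : E → ℝ}

theorem sign_u (H : Hyp F) {p : E} (hp : p ∈ bdry F) (hk : kap F p < 0) : ∀ y ∈ surf F, 0 ≤ uu F y := by
  have h := H.fb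
  have hF := h.smooth
  intro b hb
  by_contra hub
  have hub : uu F b < 0 := not_le.1 hub
  obtain ⟨ε, hε, hin, hbd⟩ := sign_near h hp hk
  obtain ⟨b', hb'i, hb'd⟩ := Metric.mem_closure_iff.1 (bdry_subset h hp) ε hε
  have hub' : 0 < uu F b' := hin b' hb'i (by rw [Metric.mem_ball, dist_comm]; exact hb'd)
  have hb' : b' ∈ surf F := ⟨le_of_lt hb'i.1, hb'i.2⟩
  have hIm := i_neg h hb hub
  have hIp := i_pos h hb' hub'
  obtain ⟨om, hom, hoe, hon, hop, hos⟩ := exists_bump p hε
  -- signs on the support of the bump function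
  have hsu : ∀ y ∈ surf F, y ∈ tsupport om → 0 ≤ uu F y := by
    intro y hy hys
    obtain ⟨y', hy'b, hyy⟩ := hos y hys
    have h1 : F y = F y' := par_abs H.even hyy
    have h2 : uu F y = uu F y' := par_abs (fun l => par_uu l hF (H.even l)) hyy
    have h3 : ‖y‖ = ‖y'‖ := norm_abs hyy
    rcases lt_or_eq_of_le hy.1 with h4 | h4
    · rw [h2]
      exact (hin y' ⟨by rw [← h3]; exact h4, by rw [← h1]; exact hy.2⟩ hy'b).le
    · exact (orth h ⟨h4, hy.2⟩).ge
  have hsk : ∀ y ∈ bdry F, y ∈ tsupport om → kap F y < 0 := by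
    intro y hy hys
    obtain ⟨y', hy'b, hyy⟩ := hos y hys
    have h1 : F y = F y' := par_abs H.even hyy
    have h2 : kap F y = kap F y' := par_abs (fun l => par_kap l hF (H.even l)) hyy
    have h3 : ‖y‖ = ‖y'‖ := norm_abs hyy
    rw [h2]
    exact hbd y' ⟨by rw [← h3]; exact hy.1, by rw [← h1]; exact hy.2⟩ hy'b
  have hs : Q F (uu F) om < 0 := by
    rw [Q_uu h hom]
    have h1 : 0 < len F (fun y => -1 * (kap F y * om y)) := by
      refine len_pos h (continuous_const.mul
        ((contDiff_kap hF).continuous.mul hom.continuous)).continuousOn ?_ hp ?_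
      · intro y hy
        by_cases hys : y ∈ tsupport om
        · have h2 := hsk y hy hys
          have h3 := mul_nonneg (neg_nonneg.2 h2.le) (hon y)
          linarith
        · rw [image_eq_zero_of_notMem_tsupport hys]
          simp
      · have h3 := mul_pos (neg_pos.2 hk) hop
        linarith
    rw [len_const_mul] at h1
    linarith
  set α := area F (fun y => normA F y * max (-uu F y) 0) with hα
  set β := area F (fun y => normA F y * max (uu F y) 0) with hβ
  have hsm : ∀ n : ℕ, ContDiff ℝ ∞ (fun y => gfun α β (1 / ((n : ℝ) + 1)) (uu F y)) := fun n =>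
    (contDiff_gfun α β _).comp (contDiff_uu hF)
  have hpn : ∀ n : ℕ, (0 : ℝ) < 1 / ((n : ℝ) + 1) := fun n => by positivity
  have hineq : ∀ t : ℝ, 0 < t → (t * Q F om (fun _ => 1)) ^ 2 / Q F (fun _ => 1) (fun _ => 1) ≤
      2 * t * (α * Q F (uu F) om) + t ^ 2 * Q F om om := by
    intro t _
    have h1 : ∀ n : ℕ, (Q F (fun y => gfun α β (1 / ((n : ℝ) + 1)) (uu F y)) (fun _ => 1) +
        t * Q F om (fun _ => 1)) ^ 2 / Q F (fun _ => 1) (fun _ => 1) ≤
        Q F (fun y => gfun α β (1 / ((n : ℝ) + 1)) (uu F y))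
          (fun y => gfun α β (1 / ((n : ℝ) + 1)) (uu F y)) +
          2 * t * (α * Q F (uu F) om) + t ^ 2 * Q F om om := by
      intro n
      have hto : ContDiff ℝ ∞ (fun y => t * om y) := contDiff_const.mul hom
      have h2 := Q_ge H (f := fun y => gfun α β (1 / ((n : ℝ) + 1)) (uu F y) + t * om y)
        ((hsm n).add hto)
        (fun l => par_add l (par_comp l _ (par_uu l hF (H.even l))) (par_const_mul l t (hoe l)))
      rw [Q_line h t (hsm n) hom, Q_add_left h (hsm n) hto contDiff_const,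
        Q_const_mul_left h t hom contDiff_const, QG_supp h α β (hpn n) hom hsu] at h2
      exact h2
    have h3 := lim_QG1 h α β
    rw [← hα, ← hβ] at h3
    have h4 : -(α * β - β * α) = 0 := by ring
    rw [h4] at h3
    have h5 := lim_QGG h α β
    have h6 := ((h3.add_const (t * Q F om (fun _ => 1))).pow 2).div_const
      (Q F (fun _ => 1) (fun _ => 1))
    have h7 := (h5.add_const (2 * t * (α * Q F (uu F) om))).add_const (t ^ 2 * Q F om om)
    have h8 := le_of_tendsto_of_tendsto' h6 h7 h1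
    rw [zero_add, zero_add] at h8
    exact h8
  -- let `t` be small
  have hαs : α * Q F (uu F) om < 0 := mul_neg_of_pos_of_neg hIm hs
  set s := α * Q F (uu F) om with hsdef
  set D := Q F om (fun _ => 1) ^ 2 / Q F (fun _ => 1) (fun _ => 1) - Q F om om with hD
  have hD1 : 0 < |D| + 1 := by positivity
  have ht : 0 < -s / (|D| + 1) := div_pos (by linarith) hD1
  have h1 := hineq _ ht
  set t := -s / (|D| + 1) with htdef
  have h2 : t * D ≤ 2 * s := by
    have h3 : t * (t * D) ≤ t * (2 * s) := by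
      have h4 : t * (t * D) = (t * Q F om (fun _ => 1)) ^ 2 / Q F (fun _ => 1) (fun _ => 1) -
          t ^ 2 * Q F om om := by
        rw [hD]
        ring
      rw [h4]
      linarith
    exact le_of_mul_le_mul_left h3 ht
  have h3 : t * (|D| + 1) = -s := by
    rw [htdef]
    exact div_mul_cancel₀ _ hD1.ne'
  have h4 : -(t * |D|) ≤ t * D := by
    have h5 := mul_le_mul_of_nonneg_left (neg_abs_le D) ht.le
    linarith
  nlinarith

end Pool.Agent.Helper78.FB
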