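import Pool.Agent.Helper94.FB.SMP
import Pool.Agent.Helper94.FB.SignU

/-!
# FB-30 UPos: the support function is positive in the interior

`sign_u`: `u = uu F ≥ 0` on `surf F`. `Super F u D` with `D = ball 0 1` (open unit ball): `vn n = u`, `en n = 0`, `om = 1`: `lap u = - normA u ≤ 0` (`lap_uu`, `normA_nonneg`), `bdry F ∩ D = ∅`. `pos_or_zero` with `C = inn F` (`H.conn`): `u = 0` on
`inn F` or `u > 0` on `inn F`. The first case is impossible: there is a point of `inn F` near `p` (`bdry_subset`) where `u > 0` (`sign_near`).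
-/

set_option autoImplicit false

open MeasureTheory Filter
open scoped ContDiff Topology

namespace Pool.Agent.Helper78.FB

variable {F : E → ℝ}

theorem u_pos (H : Hyp F) {p : E} (hp : p ∈ bdry F) (hk : kap F p < 0) : ∀ y ∈ inn F, 0 < uu F y := by
  have hF := H.fb.smooth
  have hsign := sign_u H hp hk
  have S : Super F (uu F) (Metric.ball 0 1) := by
    refine ⟨hsign, (contDiff_uu hF).continuous.continuousOn, fun _ => uu F, fun _ _ => 0,
      fun _ => contDiff_uu hF, fun _ => continuousOn_const, fun _ _ _ => le_rfl, ?_, ?_, ?_, ?_⟩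
    · intro _ y hy _
      show lap F (uu F) y ≤ 0
      rw [lap_uu H.fb hy]
      have h1 := mul_nonneg (normA_nonneg (F := F) y) (hsign y hy)
      linarith
    · intro _ y hy hyD
      rw [Metric.mem_ball, dist_zero_right] at hyD
      exact absurd hy.1 hyD.ne
    · intro ε hε
      refine Eventually.of_forall fun _ y _ => ?_
      show |uu F y - uu F y| ≤ ε
      rw [sub_self, abs_zero]
      exact hε.le
    · intro a r _
      refine ⟨fun _ => 1, contDiff_const, fun _ => zero_le_one, fun _ _ => le_rfl, ?_⟩
      have h1 : (fun _ : ℕ => area F (fun _ : E => (1 : ℝ) * 0)) = fun _ => 0 := by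
        funext _
        rw [area_const_mul (F := F) (f := fun _ : E => (0 : ℝ)) 1]
        simp [area]
      show Tendsto (fun _ : ℕ => area F (fun _ : E => (1 : ℝ) * 0)) atTop (𝓝 0)
      rw [h1]
      exact tendsto_const_nhds
  have h1 := pos_or_zero H.fb S Metric.isOpen_ball H.conn
    (fun y hy => (⟨hy.1.le, hy.2⟩ : y ∈ surf F))
    (fun y hy => by rw [Metric.mem_ball, dist_zero_right]; exact hy.1)
  rcases h1 with h1 | h1
  · exfalso
    obtain ⟨ε, hε, h2, -⟩ := sign_near H.fb hp hk
    obtain ⟨z, hz, hpz⟩ := Metric.mem_closure_iff.1 (bdry_subset H.fb hp) ε hε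
    have h3 := h2 z hz (by rw [Metric.mem_ball, dist_comm]; exact hpz)
    rw [h1 z hz] at h3
    exact lt_irrefl _ h3
  · exact h1

end Pool.Agent.Helper78.FB
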